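import Pool.Agent.NP.Defs

namespace Pool.Agent.NP

open SimpleGraph

namespace RF

variable {V : Type}

/-- The last ancestor, with a bound on the number of steps. -/
def topN (F : RF V) : ℕ → V → V
  | 0, v => v
  | n + 1, v => (F.par v).elim v (F.topN n)

/-- The last ancestor. -/
def top' (F : RF V) (v : V) : V := F.topN (F.lev v) v

theorem top'_none (F : RF V) {v : V} (h : F.par v = none) : F.top' v = v := by
  unfold top'
  cases F.lev v with
  | zero => rfl
  | succ n => simp [topN, h]

theorem top'_some (F : RF V) {v p : V} (h : F.par v = some p) : F.top' v = F.top' p := by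
  unfold top'
  rw [F.hlev _ _ h]
  simp [topN, h]

theorem top'_spec (F : RF V) (v : V) :
    F.par (F.top' v) = none ∧ F.lev (F.top' v) ≤ F.lev v ∧
      F.anc (F.lev v - F.lev (F.top' v)) v = some (F.top' v) := by
  induction hn : F.lev v using Nat.strong_induction_on generalizing v with
  | _ n ih =>
    subst hn
    cases hp : F.par v with
    | none =>
      rw [F.top'_none hp]
      refine ⟨hp, le_rfl, ?_⟩
      simp [anc]
    | some p =>
      have h1 := F.hlev _ _ hp
      rw [F.top'_some hp]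
      obtain ⟨h2, h3, h4⟩ := ih (F.lev p) (by omega) p rfl
      refine ⟨h2, by omega, ?_⟩
      have h5 : F.lev v - F.lev (F.top' p) = (F.lev p - F.lev (F.top' p)) + 1 := by omega
      rw [h5]
      simp [anc, hp, h4]

theorem top'_const (F : RF V) {U : Finset V} {t : V} (h : F.Sub U t) :
    ∀ x ∈ U, F.top' x = F.top' t := by
  have key : ∀ n, ∀ x ∈ U, F.lev x = n → F.top' x = F.top' t := by
    intro n
    induction n using Nat.strong_induction_on with
    | _ n ih =>
      intro x hx hn
      by_cases hxt : x = t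
      · rw [hxt]
      · obtain ⟨p, hp, hpx⟩ := h.2 x hx hxt
        have h1 := F.hlev _ _ hpx
        rw [F.top'_some hpx]
        exact ih (F.lev p) (by omega) p hp rfl
  intro x hx
  exact key _ x hx rfl

/-- The component of a class function `f` which is constant along edges. -/
noncomputable def comp {ι : Type} (F : RF V) (f : V → ι)
    (hf : ∀ v p, F.par v = some p → f v = f p) (i : ι) (m : ℕ)
    (hm : ∀ v, f v = i → m ≤ F.lev v) : RF {v : V // f v = i} where
  par x := (F.par x.1).pmap (fun p (hp : f p = i) => (⟨p, hp⟩ : {v : V // f v = i}))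
    (fun p hp => by rw [← hf _ _ hp]; exact x.2)
  lev x := F.lev x.1 - m
  hlev := by
    intro v p h
    rw [Option.pmap_eq_some_iff] at h
    obtain ⟨a, ha, hav, e⟩ := h
    subst e
    have h1 := F.hlev _ _ hav
    have h2 := hm a ha
    show F.lev v.1 - m = F.lev a - m + 1
    omega

theorem comp_par {ι : Type} (F : RF V) (f : V → ι)
    (hf : ∀ v p, F.par v = some p → f v = f p) (i : ι) (m : ℕ)
    (hm : ∀ v, f v = i → m ≤ F.lev v) (x y : {v : V // f v = i}) :
    (F.comp f hf i m hm).par x = some y ↔ F.par x.1 = some y.1 := by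
  show (F.par x.1).pmap _ _ = some y ↔ _
  rw [Option.pmap_eq_some_iff]
  constructor
  · rintro ⟨a, ha, hav, e⟩
    subst e
    exact hav
  · intro h
    exact ⟨y.1, y.2, h, rfl⟩

theorem comp_sub {ι : Type} (F : RF V) (f : V → ι)
    (hf : ∀ v p, F.par v = some p → f v = f p) (i : ι) (m : ℕ)
    (hm : ∀ v, f v = i → m ≤ F.lev v) (U : Finset {v : V // f v = i}) (t : {v : V // f v = i}) :
    (F.comp f hf i m hm).Sub U t ↔ F.Sub (U.map (Function.Embedding.subtype _)) t.1 := by
  constructor
  · rintro ⟨h1, h2⟩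
    refine ⟨Finset.mem_map.2 ⟨t, h1, rfl⟩, ?_⟩
    intro x hx hxt
    obtain ⟨y, hy, rfl⟩ := Finset.mem_map.1 hx
    obtain ⟨p, hp, hpy⟩ := h2 y hy (fun e => hxt (by rw [e]; rfl))
    rw [comp_par] at hpy
    exact ⟨p.1, Finset.mem_map.2 ⟨p, hp, rfl⟩, hpy⟩
  · rintro ⟨h1, h2⟩
    obtain ⟨t', ht', e⟩ := Finset.mem_map.1 h1
    have e' : t' = t := Subtype.ext e
    subst e'
    refine ⟨ht', ?_⟩
    intro x hx hxt
    obtain ⟨p, hp, hpy⟩ := h2 x.1 (Finset.mem_map.2 ⟨x, hx, rfl⟩) (fun e => hxt (Subtype.ext e))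
    obtain ⟨p', hp', rfl⟩ := Finset.mem_map.1 hp
    exact ⟨p', hp', (comp_par F f hf i m hm _ _).2 hpy⟩

theorem comp_star {ι : Type} (F : RF V) (f : V → ι)
    (hf : ∀ v p, F.par v = some p → f v = f p) (i : ι) (m : ℕ)
    (hm : ∀ v, f v = i → m ≤ F.lev v) (U : Finset {v : V // f v = i}) :
    (F.comp f hf i m hm).IsStar U ↔ F.IsStar (U.map (Function.Embedding.subtype _)) := by
  constructor
  · rintro ⟨v, h1, h2⟩
    refine ⟨v.1, Finset.mem_map.2 ⟨v, h1, rfl⟩, ?_⟩
    intro x hx hxt
    obtain ⟨y, hy, rfl⟩ := Finset.mem_map.1 hx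
    have := h2 y hy (fun e => hxt (by rw [e]; rfl))
    rw [comp_par, comp_par] at this
    exact this
  · rintro ⟨v, h1, h2⟩
    obtain ⟨v', hv', rfl⟩ := Finset.mem_map.1 h1
    refine ⟨v', hv', ?_⟩
    intro x hx hxt
    have := h2 x.1 (Finset.mem_map.2 ⟨x, hx, rfl⟩) (fun e => hxt (Subtype.ext e))
    rw [comp_par, comp_par]
    exact this

theorem comp_c {ι : Type} [Fintype V] (F : RF V) (f : V → ι)
    (hf : ∀ v p, F.par v = some p → f v = f p) (i : ι) (m : ℕ)
    (hm : ∀ v, f v = i → m ≤ F.lev v) [Fintype {v : V // f v = i}] (x : {v : V // f v = i}) :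
    (F.comp f hf i m hm).c x = F.c x.1 := by
  classical
  unfold c
  have : F.ch x.1 = ((F.comp f hf i m hm).ch x).map (Function.Embedding.subtype _) := by
    ext y
    rw [mem_ch, Finset.mem_map]
    constructor
    · intro h
      refine ⟨⟨y, by rw [hf _ _ h]; exact x.2⟩, ?_, rfl⟩
      rw [mem_ch, comp_par]
      exact h
    · rintro ⟨z, hz, rfl⟩
      rw [mem_ch, comp_par] at hz
      exact hz
  rw [this, Finset.card_map]

end RF

/-- A finite rooted forest is the disjoint union of its components, which are rooted trees. -/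
theorem exists_comps {V : Type} [Fintype V] (F : RF V) {M : ℕ} (hM : F.Ht M) :
    ∃ (q : ℕ) (W : Fin q → Type) (_ : ∀ i, Fintype (W i)) (G : ∀ i, RF (W i)) (r : ∀ i, W i),
      (∀ i, (G i).IsRt (r i)) ∧ (∀ i v, (G i).lev v ≤ M) ∧
      ∑ i, Fintype.card (W i) = Fintype.card V ∧
      (∀ j, 1 ≤ j → ∑ i, ((G i).nst j).card = (F.nst j).card) ∧
      ∀ k, ∑ i, ∑ v, ((G i).c v + 1).choose k = ∑ v, (F.c v + 1).choose k := by
  classical
  set e : Fin (Fintype.card {v : V // F.par v = none}) ≃ {v : V // F.par v = none} :=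
    (Fintype.equivFin _).symm with he
  set f : V → Fin (Fintype.card {v : V // F.par v = none}) :=
    fun v => e.symm ⟨F.top' v, (F.top'_spec v).1⟩ with hfdef
  have hf : ∀ v p, F.par v = some p → f v = f p := by
    intro v p h
    simp only [hfdef]
    congr 1
    exact Subtype.ext (F.top'_some h)
  have hfi : ∀ v i, f v = i ↔ F.top' v = (e i).1 := by
    intro v i
    simp only [hfdef]
    rw [Equiv.symm_apply_eq, Subtype.ext_iff]
  have hm : ∀ i, ∀ v, f v = i → F.lev (e i).1 ≤ F.lev v := by
    intro i v h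
    rw [hfi] at h
    rw [← h]
    exact (F.top'_spec v).2.1
  refine ⟨Fintype.card {v : V // F.par v = none}, fun i => {v : V // f v = i},
    fun i => inferInstance, fun i => F.comp f hf i (F.lev (e i).1) (hm i),
    fun i => ⟨(e i).1, by rw [hfi]; exact F.top'_none (e i).2⟩, ?_, ?_, ?_, ?_, ?_⟩
  · intro i
    refine ⟨?_, ?_, ?_⟩
    · cases h : (F.comp f hf i (F.lev (e i).1) (hm i)).par
        ⟨(e i).1, by rw [hfi]; exact F.top'_none (e i).2⟩ with
      | none => rfl
      | some y =>
        rw [RF.comp_par] at h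
        have h2 := (e i).2
        simp only [h2] at h
        exact absurd h (by simp)
    · show F.lev (e i).1 - F.lev (e i).1 = 0
      omega
    · intro v hv
      cases h : F.par v.1 with
      | none =>
        exfalso
        apply hv
        apply Subtype.ext
        have h1 := (hfi v.1 i).1 v.2
        rw [F.top'_none h] at h1
        exact h1
      | some p =>
        exact ⟨⟨p, by rw [← hf _ _ h]; exact v.2⟩, (RF.comp_par F f hf i _ _ _ _).2 h⟩
  · intro i v
    show F.lev v.1 - F.lev (e i).1 ≤ M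
    have h1 := (hfi v.1 i).1 v.2
    rw [← h1]
    exact hM _ _ _ (F.top'_spec v.1).2.2
  · rw [← Fintype.card_sigma]
    exact Fintype.card_congr (Equiv.sigmaFiberEquiv f)
  · intro j hj
    rw [← Finset.card_sigma]
    apply Finset.card_bij (fun (a : Σ i, Finset {v : V // f v = i}) _ =>
      a.2.map (Function.Embedding.subtype _))
    · rintro ⟨i, U⟩ hU
      have hU' := (Finset.mem_sigma.1 hU).2
      rw [RF.mem_nst] at hU' ⊢
      obtain ⟨⟨h1, t, ht⟩, h2⟩ := hU'
      refine ⟨⟨by rw [Finset.card_map]; exact h1, t.1, ?_⟩, ?_⟩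
      · exact (RF.comp_sub F f hf i _ _ U t).1 ht
      · intro h3
        exact h2 ((RF.comp_star F f hf i _ _ U).2 h3)
    · rintro ⟨i, U⟩ hU ⟨i', U'⟩ hU' h
      have h1 := (Finset.mem_sigma.1 hU).2
      rw [RF.mem_nst] at h1
      obtain ⟨⟨h2, t, ht⟩, -⟩ := h1
      have h3 : t.1 ∈ U'.map (Function.Embedding.subtype _) := by
        have h' : U.map (Function.Embedding.subtype _) =
          U'.map (Function.Embedding.subtype _) := h
        rw [← h']
        exact Finset.mem_map.2 ⟨t, ht.1, rfl⟩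
      obtain ⟨t', ht', e'⟩ := Finset.mem_map.1 h3
      have h4 : i = i' := by
        have a1 : f t.1 = i := t.2
        have a2 : f t'.1 = i' := t'.2
        have a3 : t'.1 = t.1 := e'
        rw [← a1, ← a2, a3]
      subst h4
      have h5 : U = U' := Finset.map_injective _ h
      rw [h5]
    · intro U hU
      rw [RF.mem_nst] at hU
      obtain ⟨⟨h1, t, ht⟩, h2⟩ := hU
      have h3 : ∀ x ∈ U, f x = f t := by
        intro x hx
        rw [hfi, F.top'_const ht x hx, ← hfi]
      have h4 : (U.subtype (fun v => f v = f t)).map (Function.Embedding.subtype _) = U := by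
        rw [Finset.subtype_map]
        exact Finset.filter_true_of_mem h3
      refine ⟨⟨f t, U.subtype (fun v => f v = f t)⟩, ?_, h4⟩
      rw [Finset.mem_sigma]
      refine ⟨Finset.mem_univ _, ?_⟩
      rw [RF.mem_nst]
      refine ⟨⟨?_, ⟨t, rfl⟩, ?_⟩, ?_⟩
      · rw [← h1]
        conv_rhs => rw [← h4]
        rw [Finset.card_map]
      · rw [RF.comp_sub, h4]
        exact ht
      · rw [RF.comp_star, h4]
        exact h2
  · intro k
    rw [← Equiv.sum_comp (Equiv.sigmaFiberEquiv f), Fintype.sum_sigma]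
    refine Finset.sum_congr rfl (fun i _ => Finset.sum_congr rfl (fun v _ => ?_))
    rw [RF.comp_c]
    rfl

end Pool.Agent.NP
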