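import Pool.Agent.NP.Hw1
import Pool.Agent.NP.Comp

namespace Pool.Agent.NP

open SimpleGraph

/-- The highway lemma for a rooted forest of height at most `M`, `2 M + 1 ≤ k`. -/
theorem hw2 {k : ℕ} (hk : 4 ≤ k) {a b m : ℝ} (ha : 0 ≤ a) (hb : 0 ≤ b) (hm : 0 ≤ m)
    (H : Fun1 k a b m) {V : Type} [Fintype V] (F : RF V) {M : ℕ}
    (hM : F.Ht M) (hMk : 2 * M + 1 ≤ k) :
    m * ((F.nst (k + 1)).card : ℝ) ≤
      3 * a * Fintype.card V + b * ((∑ v, (F.c v + 1).choose k : ℕ) : ℝ) := by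
  obtain ⟨q, W, hW, G, r, hr, hlev, hcard, hnst, hch⟩ := exists_comps F hM
  have h1 : ∀ i : Fin q, m * (((G i).nst (k + 1)).card : ℝ) ≤
      3 * a * (Fintype.card (W i) : ℝ) +
        b * ((∑ v, ((G i).c v + 1).choose k : ℕ) : ℝ) := by
    intro i
    exact hw1 hk ha hb hm H (G i) (hr i) (hlev i) hMk
  have h2 := Finset.sum_le_sum (fun i (_ : i ∈ (Finset.univ : Finset (Fin q))) => h1 i)
  rw [Finset.sum_add_distrib, ← Finset.mul_sum, ← Finset.mul_sum, ← Finset.mul_sum] at h2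
  rw [← hcard, ← hnst (k + 1) (by omega), ← hch k, Nat.cast_sum, Nat.cast_sum, Nat.cast_sum]
  exact h2

end Pool.Agent.NP
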