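import Mathlib

namespace Pool.Agent.NP

open SimpleGraph

open Classical in
/-- The product measure on the subsets of `V`: `x` is chosen with probability `p x`. -/
noncomputable def mu {V : Type} [Fintype V] (p : V → ℝ) (A : Finset V) : ℝ :=
  ∏ x, if x ∈ A then p x else 1 - p x

variable {V : Type} [Fintype V]

theorem mu_nonneg {p : V → ℝ} (h : ∀ x, 0 ≤ p x ∧ p x ≤ 1) (A : Finset V) : 0 ≤ mu p A := by
  unfold mu
  apply Finset.prod_nonneg
  intro x _
  split_ifs
  · exact (h x).1
  · linarith [(h x).2]

open Classical in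
private theorem sum_prod_ite (f g : V → ℝ) :
    ∑ A : Finset V, ∏ x, (if x ∈ A then f x else g x) = ∏ x, (f x + g x) := by
  rw [Finset.prod_add]
  rw [Finset.powerset_univ]
  apply Finset.sum_congr rfl
  intro A _
  rw [Finset.prod_ite]
  congr 1
  · apply Finset.prod_congr _ (fun _ _ => rfl)
    ext x
    simp
  · apply Finset.prod_congr _ (fun _ _ => rfl)
    ext x
    simp

theorem mu_sum (p : V → ℝ) : ∑ A, mu p A = 1 := by
  classical
  unfold mu
  have h := sum_prod_ite p (fun x => 1 - p x)
  rw [h]
  apply Finset.prod_eq_one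
  intro x _
  ring

open Classical in
/-- The probability that `X` is contained in the random set and `Y` is disjoint from it. -/
theorem mu_cyl (p : V → ℝ) {X Y : Finset V} (h : Disjoint X Y) :
    ∑ A ∈ Finset.univ.filter (fun A : Finset V => X ⊆ A ∧ Disjoint A Y), mu p A =
      (∏ x ∈ X, p x) * ∏ x ∈ Y, (1 - p x) := by
  have key : ∀ A : Finset V, (if X ⊆ A ∧ Disjoint A Y then mu p A else 0) =
      ∏ x, (if x ∈ A then (if x ∈ Y then 0 else p x) else (if x ∈ X then 0 else 1 - p x)) := by
    intro A
    split_ifs with hA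
    · unfold mu
      apply Finset.prod_congr rfl
      intro x _
      by_cases hx : x ∈ A
      · have hy : x ∉ Y := fun hy => (Finset.disjoint_left.mp hA.2) hx hy
        simp [hx, hy]
      · have hX : x ∉ X := fun hX => hx (hA.1 hX)
        simp [hx, hX]
    · by_cases hX : X ⊆ A
      · have hY : ¬ Disjoint A Y := fun hY => hA ⟨hX, hY⟩
        rw [Finset.not_disjoint_iff] at hY
        obtain ⟨y, hyA, hyY⟩ := hY
        symm
        apply Finset.prod_eq_zero (Finset.mem_univ y)
        simp [hyA, hyY]
      · rw [Finset.not_subset] at hX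
        obtain ⟨x, hxX, hxA⟩ := hX
        symm
        apply Finset.prod_eq_zero (Finset.mem_univ x)
        simp [hxX, hxA]
  rw [Finset.sum_filter]
  rw [Finset.sum_congr rfl (fun A _ => key A)]
  have h2 := sum_prod_ite (fun x => if x ∈ Y then 0 else p x)
    (fun x => if x ∈ X then 0 else 1 - p x)
  rw [h2]
  have h3 : ∀ x : V, ((if x ∈ Y then 0 else p x) + (if x ∈ X then 0 else 1 - p x)) =
      (if x ∈ X then p x else 1) * (if x ∈ Y then 1 - p x else 1) := by
    intro x
    by_cases hX : x ∈ X
    · have hY : x ∉ Y := fun hy => (Finset.disjoint_left.mp h) hX hy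
      simp [hX, hY]
    · by_cases hY : x ∈ Y
      · simp [hX, hY]
      · simp [hX, hY]
  rw [Finset.prod_congr rfl (fun x _ => h3 x), Finset.prod_mul_distrib]
  congr 1
  · rw [Finset.prod_ite_mem, Finset.univ_inter]
  · rw [Finset.prod_ite_mem, Finset.univ_inter]

end Pool.Agent.NP
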