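import Pool.Agent.NP.Cut
import Pool.Agent.NP.Mu
import Pool.Agent.NP.Hw2

namespace Pool.Agent.NP

open SimpleGraph

namespace RF

variable {V : Type}

/-- The weight of the edge above `x`: it depends on the parent only. -/
noncomputable def sp (F : RF V) (s : V → ℝ) (x : V) : ℝ :=
  match F.par x with
  | some v => s v
  | none => 1

/-- The probability that all edges of `U` are kept. -/
noncomputable def sg (F : RF V) (s : V → ℝ) (U : Finset V) : ℝ := ∏ x ∈ F.nt U, F.sp s x

end RF

open Classical in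
private theorem mu_supset {V : Type} [Fintype V] (p : V → ℝ) (Y : Finset V) :
    ∑ A, mu p A * (if Y ⊆ A then (1 : ℝ) else 0) = ∏ x ∈ Y, p x := by
  have h := mu_cyl p (X := Y) (Y := ∅) (Finset.disjoint_empty_right _)
  rw [Finset.prod_empty, mul_one] at h
  rw [← h, Finset.sum_filter]
  refine Finset.sum_congr rfl (fun A _ => ?_)
  by_cases hY : Y ⊆ A
  · simp [hY]
  · simp [hY]

open Classical in
private theorem exp_choose_one {V : Type} [Fintype V] (p : V → ℝ) (X : Finset V) {s : ℝ}
    (hX : ∀ x ∈ X, p x = s) (j : ℕ) :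
    ∑ A, mu p A * (((X.filter (fun x => x ∈ A)).card).choose j : ℝ) =
      (X.card.choose j : ℝ) * s ^ j := by
  have h1 : ∀ A : Finset V, (((X.filter (fun x => x ∈ A)).card).choose j : ℝ) =
      ∑ Y ∈ X.powersetCard j, (if Y ⊆ A then (1 : ℝ) else 0) := by
    intro A
    rw [← Finset.card_powersetCard, Finset.sum_boole]
    congr 2
    ext Y
    simp only [Finset.mem_powersetCard, Finset.mem_filter]
    constructor
    · rintro ⟨hY, hc⟩
      refine ⟨⟨fun y hy => (Finset.mem_filter.mp (hY hy)).1, hc⟩,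
        fun y hy => (Finset.mem_filter.mp (hY hy)).2⟩
    · rintro ⟨⟨hY, hc⟩, hA⟩
      exact ⟨fun y hy => Finset.mem_filter.mpr ⟨hY hy, hA hy⟩, hc⟩
  calc ∑ A, mu p A * (((X.filter (fun x => x ∈ A)).card).choose j : ℝ)
      = ∑ A, ∑ Y ∈ X.powersetCard j, mu p A * (if Y ⊆ A then (1 : ℝ) else 0) := by
        refine Finset.sum_congr rfl (fun A _ => ?_)
        rw [h1 A, Finset.mul_sum]
    _ = ∑ Y ∈ X.powersetCard j, ∑ A, mu p A * (if Y ⊆ A then (1 : ℝ) else 0) :=
        Finset.sum_comm
    _ = ∑ Y ∈ X.powersetCard j, s ^ j := by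
        refine Finset.sum_congr rfl (fun Y hY => ?_)
        rw [mu_supset]
        rw [Finset.mem_powersetCard] at hY
        rw [Finset.prod_congr rfl (fun x hx => hX x (hY.1 hx)), Finset.prod_const, hY.2]
    _ = (X.card.choose j : ℝ) * s ^ j := by
        rw [Finset.sum_const, Finset.card_powersetCard, nsmul_eq_mul]

private theorem choose_add_two (n : ℕ) {k : ℕ} (hk : 2 ≤ k) :
    (n + 2).choose k = n.choose k + 2 * n.choose (k - 1) + n.choose (k - 2) := by
  obtain ⟨j, rfl⟩ : ∃ j, k = j + 2 := ⟨k - 2, by omega⟩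
  have e1 : j + 2 - 1 = j + 1 := by omega
  have e2 : j + 2 - 2 = j := by omega
  rw [e1, e2, Nat.choose_succ_succ (n + 1) (j + 1), Nat.choose_succ_succ n j,
    Nat.choose_succ_succ n (j + 1)]
  ring

open Classical in
/-- Expectation of a binomial coefficient. -/
theorem exp_choose {V : Type} [Fintype V] (p : V → ℝ) (X : Finset V) {s : ℝ}
    (hX : ∀ x ∈ X, p x = s) {k : ℕ} (hk : 2 ≤ k) :
    ∑ A, mu p A * (((X.filter (fun x => x ∈ A)).card + 2).choose k : ℝ) =
      (X.card.choose k : ℝ) * s ^ k + 2 * (X.card.choose (k - 1) : ℝ) * s ^ (k - 1) +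
        (X.card.choose (k - 2) : ℝ) * s ^ (k - 2) := by
  have h1 := exp_choose_one p X hX k
  have h2 := exp_choose_one p X hX (k - 1)
  have h3 := exp_choose_one p X hX (k - 2)
  calc ∑ A, mu p A * (((X.filter (fun x => x ∈ A)).card + 2).choose k : ℝ)
      = ∑ A, (mu p A * (((X.filter (fun x => x ∈ A)).card).choose k : ℝ) +
          2 * (mu p A * (((X.filter (fun x => x ∈ A)).card).choose (k - 1) : ℝ)) +
          mu p A * (((X.filter (fun x => x ∈ A)).card).choose (k - 2) : ℝ)) := by
        refine Finset.sum_congr rfl (fun A _ => ?_)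
        rw [choose_add_two _ hk]
        push_cast
        ring
    _ = _ := by
        rw [Finset.sum_add_distrib, Finset.sum_add_distrib, ← Finset.mul_sum, h1, h2, h3]
        ring

open Classical in
private theorem exp_kept {V : Type} [Fintype V] (T : RF V) (M d : ℕ) (s : V → ℝ)
    (B : Finset (Finset V)) :
    ∑ A, mu (T.sp s) A * ((B.filter (fun U => T.Kept M d A U)).card : ℝ) =
      ∑ U ∈ B.filter (fun U => T.Fit M d U), T.sg s U := by
  have h1 : ∀ A : Finset V, ((B.filter (fun U => T.Kept M d A U)).card : ℝ) =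
      ∑ U ∈ B.filter (fun U => T.Fit M d U), (if T.nt U ⊆ A then (1 : ℝ) else 0) := by
    intro A
    rw [Finset.sum_boole, Finset.filter_filter]
    congr 2
    ext U
    simp only [Finset.mem_filter, RF.Kept, RF.Fit]
    constructor
    · rintro ⟨hU, h⟩
      exact ⟨hU, fun x hx => (h x hx).2, fun x hx => (h x hx).1⟩
    · rintro ⟨hU, h, h'⟩
      exact ⟨hU, fun x hx => ⟨h' hx, h x hx⟩⟩
  calc ∑ A, mu (T.sp s) A * ((B.filter (fun U => T.Kept M d A U)).card : ℝ)
      = ∑ A, ∑ U ∈ B.filter (fun U => T.Fit M d U),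
          mu (T.sp s) A * (if T.nt U ⊆ A then (1 : ℝ) else 0) := by
        refine Finset.sum_congr rfl (fun A _ => ?_)
        rw [h1 A, Finset.mul_sum]
    _ = ∑ U ∈ B.filter (fun U => T.Fit M d U), ∑ A,
          mu (T.sp s) A * (if T.nt U ⊆ A then (1 : ℝ) else 0) := Finset.sum_comm
    _ = _ := by
        refine Finset.sum_congr rfl (fun U _ => ?_)
        rw [mu_supset]
        rfl

open Classical in
/-- The averaged highway inequality for the pruned forests with shift `d`. -/
theorem avg {k : ℕ} (hk : 4 ≤ k) {a b m : ℝ} (ha : 0 ≤ a) (hb : 0 ≤ b) (hm : 0 ≤ m)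
    (H : Fun1 k a b m) {V : Type} [Fintype V] (T : RF V) {M : ℕ} (hM1 : 1 ≤ M)
    (hMk : 2 * M + 1 ≤ k) (d : ℕ) (s : V → ℝ) (hs : ∀ v, 0 ≤ s v ∧ s v ≤ 1) :
    m * (∑ U ∈ (T.nst (k + 1)).filter (fun U => T.Fit M d U), T.sg s U +
        k * ∑ U ∈ (T.nst k).filter (fun U => T.Fit M d U), T.sg s U) ≤
      6 * a * Fintype.card V + b * ∑ v, ((T.c v).choose k * s v ^ k +
        2 * (T.c v).choose (k - 1) * s v ^ (k - 1) + (T.c v).choose (k - 2) * s v ^ (k - 2)) := by
  have hsp : ∀ x, 0 ≤ T.sp s x ∧ T.sp s x ≤ 1 := by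
    intro x
    unfold RF.sp
    split
    · exact hs _
    · exact ⟨zero_le_one, le_rfl⟩
  have hA : ∀ A : Finset V,
      m * ((((T.nst (k + 1)).filter (fun U => T.Kept M d A U)).card : ℝ) +
        k * (((T.nst k).filter (fun U => T.Kept M d A U)).card : ℝ)) ≤
      6 * a * Fintype.card V +
        b * ∑ v, ((((T.ch v).filter (fun x => x ∈ A)).card + 2).choose k : ℝ) := by
    intro A
    have h1 := hw2 hk ha hb hm H (T.cut M d A) (T.cut_ht hM1 d A) hMk
    have h2 := T.cut_nst M d A (k := k) (by omega)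
    have h3 := T.cut_c M d A (k := k) (by omega)
    have h2' : ((((T.nst (k + 1)).filter (fun U => T.Kept M d A U)).card : ℝ) +
        k * (((T.nst k).filter (fun U => T.Kept M d A U)).card : ℝ)) ≤
          (((T.cut M d A).nst (k + 1)).card : ℝ) := by exact_mod_cast h2
    have h3' : ((∑ w, ((T.cut M d A).c w + 1).choose k : ℕ) : ℝ) ≤
        ∑ v, ((((T.ch v).filter (fun x => x ∈ A)).card + 2).choose k : ℝ) := by
      exact_mod_cast h3
    have h4 : (Fintype.card (V ⊕ V) : ℝ) = 2 * Fintype.card V := by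
      rw [Fintype.card_sum]
      push_cast
      ring
    rw [h4] at h1
    have h5 := mul_le_mul_of_nonneg_left h2' hm
    have h6 := mul_le_mul_of_nonneg_left h3' hb
    linarith
  have hsum : ∑ A, mu (T.sp s) A * (m * ((((T.nst (k + 1)).filter
        (fun U => T.Kept M d A U)).card : ℝ) +
        k * (((T.nst k).filter (fun U => T.Kept M d A U)).card : ℝ))) ≤
      ∑ A, mu (T.sp s) A * (6 * a * Fintype.card V +
        b * ∑ v, ((((T.ch v).filter (fun x => x ∈ A)).card + 2).choose k : ℝ)) :=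
    Finset.sum_le_sum (fun A _ => mul_le_mul_of_nonneg_left (hA A) (mu_nonneg hsp A))
  have hl : ∑ A, mu (T.sp s) A * (m * ((((T.nst (k + 1)).filter
        (fun U => T.Kept M d A U)).card : ℝ) +
        k * (((T.nst k).filter (fun U => T.Kept M d A U)).card : ℝ))) =
      m * (∑ U ∈ (T.nst (k + 1)).filter (fun U => T.Fit M d U), T.sg s U +
        k * ∑ U ∈ (T.nst k).filter (fun U => T.Fit M d U), T.sg s U) := by
    rw [← exp_kept T M d s (T.nst (k + 1)), ← exp_kept T M d s (T.nst k), Finset.mul_sum,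
      ← Finset.sum_add_distrib, Finset.mul_sum]
    refine Finset.sum_congr rfl (fun A _ => ?_)
    ring
  have hr : ∑ A, mu (T.sp s) A * (6 * a * Fintype.card V +
        b * ∑ v, ((((T.ch v).filter (fun x => x ∈ A)).card + 2).choose k : ℝ)) =
      6 * a * Fintype.card V + b * ∑ v, ((T.c v).choose k * s v ^ k +
        2 * (T.c v).choose (k - 1) * s v ^ (k - 1) + (T.c v).choose (k - 2) * s v ^ (k - 2)) := by
    have e1 : ∀ v, ∑ A, mu (T.sp s) A *
        ((((T.ch v).filter (fun x => x ∈ A)).card + 2).choose k : ℝ) =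
        ((T.c v).choose k * s v ^ k + 2 * (T.c v).choose (k - 1) * s v ^ (k - 1) +
          (T.c v).choose (k - 2) * s v ^ (k - 2)) := by
      intro v
      exact exp_choose (T.sp s) (T.ch v) (s := s v) (fun x hx => by
        rw [RF.mem_ch] at hx
        unfold RF.sp
        rw [hx]) (by omega)
    calc ∑ A, mu (T.sp s) A * (6 * a * Fintype.card V +
          b * ∑ v, ((((T.ch v).filter (fun x => x ∈ A)).card + 2).choose k : ℝ))
        = ∑ A, (mu (T.sp s) A * (6 * a * Fintype.card V) +
          b * ∑ v, mu (T.sp s) A *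
            ((((T.ch v).filter (fun x => x ∈ A)).card + 2).choose k : ℝ)) := by
          refine Finset.sum_congr rfl (fun A _ => ?_)
          rw [mul_add, ← Finset.mul_sum]
          ring
      _ = (∑ A, mu (T.sp s) A) * (6 * a * Fintype.card V) +
          b * ∑ v, ∑ A, mu (T.sp s) A *
            ((((T.ch v).filter (fun x => x ∈ A)).card + 2).choose k : ℝ) := by
          rw [Finset.sum_add_distrib, ← Finset.sum_mul, ← Finset.mul_sum, Finset.sum_comm]
      _ = _ := by
          rw [mu_sum, one_mul]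
          congr 2
          exact Finset.sum_congr rfl (fun v _ => e1 v)
  rw [hl, hr] at hsum
  exact hsum

end Pool.Agent.NP
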