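import Pool.Agent.NP.Defs

namespace Pool.Agent.NP

open SimpleGraph

namespace RF

variable {V : Type}

private theorem par_of_adj_le (F : RF V) {u v : V} (h : F.graph.Adj u v) (hl : F.lev v ≤ F.lev u) :
    F.par u = some v := by
  rcases h with h | h
  · exact h
  · have := F.hlev _ _ h
    omega

/-- The graph of a rooted forest is acyclic. -/
theorem graph_acyclic (F : RF V) : F.graph.IsAcyclic := by
  classical
  intro v c hc
  obtain ⟨u, hu, hmax⟩ := Finset.exists_max_image c.support.toFinset F.lev
    ⟨v, List.mem_toFinset.2 c.start_mem_support⟩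
  rw [List.mem_toFinset] at hu
  have hc' := (Walk.isCycle_rotate hu).2 hc
  have hmem : ∀ x ∈ (c.rotate u hu).support, F.lev x ≤ F.lev u := by
    intro x hx
    exact hmax x (List.mem_toFinset.2 ((Walk.mem_support_rotate_iff c u hu).1 hx))
  have h1 : F.par u = some (c.rotate u hu).snd := by
    apply F.par_of_adj_le (Walk.adj_snd hc'.not_nil)
    exact hmem _ (Walk.getVert_mem_support _ _)
  have h2 : F.par u = some (c.rotate u hu).penultimate := by
    apply F.par_of_adj_le (Walk.adj_penultimate hc'.not_nil).symm
    exact hmem _ (Walk.getVert_mem_support _ _)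
  rw [h1] at h2
  exact hc'.snd_ne_penultimate (Option.some.inj h2)

private theorem reach_top (F : RF V) {U : Finset V} {t : V} (h : F.Sub U t) :
    ∀ n, ∀ x (hx : x ∈ (U : Set V)), F.lev x = n →
      (F.graph.induce (U : Set V)).Reachable ⟨x, hx⟩ ⟨t, h.1⟩ := by
  intro n
  induction n using Nat.strong_induction_on with
  | _ n ih =>
    intro x hx hn
    by_cases hxt : x = t
    · subst hxt
      exact Reachable.refl _
    · obtain ⟨p, hp, hpx⟩ := h.2 x hx hxt
      have h1 := F.hlev _ _ hpx
      have h2 := ih (F.lev p) (by omega) p hp rfl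
      refine Reachable.trans ?_ h2
      apply Adj.reachable
      rw [induce_adj]
      exact Or.inl hpx

/-- A vertex set induces a tree iff it is a subtree in the rooted sense. -/
theorem induce_isTree_iff (F : RF V) (U : Finset V) :
    (F.graph.induce (U : Set V)).IsTree ↔ ∃ t, F.Sub U t := by
  classical
  constructor
  · intro hT
    obtain ⟨⟨t0, ht0⟩⟩ := hT.connected.nonempty
    obtain ⟨t, ht, hmin⟩ := Finset.exists_min_image U F.lev ⟨t0, ht0⟩
    refine ⟨t, ht, ?_⟩
    intro x hx hxt
    by_contra hno
    push Not at hno
    -- everything reachable from `x` is a descendant of `x`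
    have key : ∀ (a b : (U : Set V)) (w : (F.graph.induce (U : Set V)).Walk a b),
        (∃ j, F.anc j a.1 = some x) → ∃ j, F.anc j b.1 = some x := by
      intro a b w
      induction w with
      | nil => exact id
      | @cons a b c hab w ih =>
        rintro ⟨j, hj⟩
        apply ih
        rw [induce_adj] at hab
        rcases hab with hab | hab
        · cases j with
          | zero =>
            simp only [anc, Option.some.injEq] at hj
            rw [hj] at hab
            exact absurd hab (hno b.1 b.2)
          | succ j =>
            refine ⟨j, ?_⟩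
            simpa [anc, hab] using hj
        · exact ⟨j + 1, by simpa [anc, hab] using hj⟩
    obtain ⟨w⟩ := hT.connected.preconnected ⟨x, hx⟩ ⟨t, ht⟩
    obtain ⟨j, hj⟩ := key _ _ w ⟨0, rfl⟩
    have hlev : ∀ (j : ℕ) (y z : V), F.anc j y = some z → F.lev y = F.lev z + j := by
      intro j
      induction j with
      | zero =>
        intro y z h
        simp only [anc, Option.some.injEq] at h
        rw [h]
        rfl
      | succ j ih =>
        intro y z h
        cases hy : F.par y with
        | none => simp [anc, hy] at h
        | some p =>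
          have h1 := F.hlev _ _ hy
          have h2 := ih p z (by simpa [anc, hy] using h)
          omega
    have h1 := hlev j t x hj
    have h2 := hmin x hx
    have hj0 : j = 0 := by omega
    rw [hj0] at hj
    simp only [anc, Option.some.injEq] at hj
    exact hxt hj.symm
  · rintro ⟨t, ht⟩
    refine ⟨?_, F.graph_acyclic.induce _⟩
    have hne : Nonempty (U : Set V) := ⟨⟨t, ht.1⟩⟩
    refine ⟨?_⟩
    rintro ⟨x, hx⟩ ⟨y, hy⟩
    exact (F.reach_top ht _ x hx rfl).trans (F.reach_top ht _ y hy rfl).symm

/-- A rooted forest with a unique root is a tree. -/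
theorem graph_isTree (F : RF V) {r : V} (hr : F.par r = none)
    (h : ∀ v, v ≠ r → ∃ p, F.par v = some p) : F.graph.IsTree := by
  have hreach : ∀ n, ∀ x, F.lev x = n → F.graph.Reachable x r := by
    intro n
    induction n using Nat.strong_induction_on with
    | _ n ih =>
      intro x hn
      by_cases hxt : x = r
      · subst hxt
        exact Reachable.refl _
      · obtain ⟨p, hpx⟩ := h x hxt
        have h1 := F.hlev _ _ hpx
        refine Reachable.trans ?_ (ih (F.lev p) (by omega) p rfl)
        apply Adj.reachable
        exact Or.inl hpx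
  refine ⟨?_, F.graph_acyclic⟩
  have hne : Nonempty V := ⟨r⟩
  refine ⟨?_⟩
  intro x y
  exact (hreach _ x rfl).trans (hreach _ y rfl).symm

theorem Zc_eq [Fintype V] (F : RF V) (k : ℕ) : Zc k F.graph = (F.subs k).card := by
  have h : {U : Finset V | U.card = k ∧ (F.graph.induce (U : Set V)).IsTree} =
      ((F.subs k : Finset (Finset V)) : Set (Finset V)) := by
    ext U
    rw [Finset.mem_coe, mem_subs, Set.mem_ofPred_eq, induce_isTree_iff]
  unfold Zc
  rw [h, Set.ncard_coe_finset]

end RF

end Pool.Agent.NP
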