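import Pool.Agent.NP.Hw2

namespace Pool.Agent.NP

open SimpleGraph

/-- The parent function of the broom. -/
private def bpar (d : ℕ) : Option (Fin d × Option (Fin d)) → Option (Option (Fin d × Option (Fin d)))
  | none => none
  | some (_, none) => some none
  | some (i, some _) => some (some (i, none))

/-- The level function of the broom. -/
private def blev (d : ℕ) : Option (Fin d × Option (Fin d)) → ℕ
  | none => 0
  | some (_, none) => 1
  | some (_, some _) => 2

/-- The broom of height two. -/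
private def bF (d : ℕ) : RF (Option (Fin d × Option (Fin d))) where
  par := bpar d
  lev := blev d
  hlev := by
    intro v p h
    rcases v with _ | ⟨i, _ | j⟩
    · simp [bpar] at h
    · simp only [bpar, Option.some.injEq] at h
      subst h
      rfl
    · simp only [bpar, Option.some.injEq] at h
      subst h
      rfl

private theorem anc_lev {V : Type} (F : RF V) : ∀ (j : ℕ) (v u : V), F.anc j v = some u →
    F.lev v = F.lev u + j := by
  intro j
  induction j with
  | zero =>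
    intro v u h
    simp only [RF.anc, Option.some.injEq] at h
    subst h
    rfl
  | succ j ih =>
    intro v u h
    simp only [RF.anc, Option.bind_eq_some_iff] at h
    obtain ⟨p, hp, hpu⟩ := h
    have h1 := F.hlev _ _ hp
    have h2 := ih p u hpu
    omega

private theorem bF_ht (d : ℕ) : (bF d).Ht 2 := by
  intro v j u h
  have h1 := anc_lev (bF d) j v u h
  have h2 : (bF d).lev v ≤ 2 := by
    rcases v with _ | ⟨i, _ | j⟩
    · exact Nat.zero_le 2
    · exact one_le_two
    · exact le_refl 2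
  omega

private theorem bF_c (d : ℕ) (v : Option (Fin d × Option (Fin d))) : (bF d).c v ≤ d := by
  classical
  let g : Option (Fin d × Option (Fin d)) → Fin d → Option (Fin d × Option (Fin d)) := fun v =>
    match v with
    | none => fun i => some (i, none)
    | some (i, _) => fun j => some (i, some j)
  have h1 : (bF d).ch v ⊆ Finset.univ.image (g v) := by
    intro x hx
    rw [RF.mem_ch] at hx
    rw [Finset.mem_image]
    rcases x with _ | ⟨i, _ | j⟩
    · simp [bF, bpar] at hx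
    · simp only [bF, bpar, Option.some.injEq] at hx
      subst hx
      exact ⟨i, Finset.mem_univ _, rfl⟩
    · simp only [bF, bpar, Option.some.injEq] at hx
      subst hx
      exact ⟨j, Finset.mem_univ _, rfl⟩
  calc (bF d).c v ≤ (Finset.univ.image (g v)).card := Finset.card_le_card h1
    _ ≤ (Finset.univ : Finset (Fin d)).card := Finset.card_image_le
    _ = d := by simp

/-- the copies of the caterpillar-like tree -/
private def bU {d p q : ℕ} (hp : p ≤ d) (hq : q ≤ d) (f : Fin q → Fin d) :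
    Finset (Option (Fin d × Option (Fin d))) :=
  insert none ((Finset.univ.image (fun i : Fin p => some (Fin.castLE hp i, none))) ∪
    (Finset.univ.image (fun i : Fin q => some (Fin.castLE hq i, some (f i)))))

private theorem mem_bU_root {d p q : ℕ} (hp : p ≤ d) (hq : q ≤ d) (f : Fin q → Fin d) :
    none ∈ bU hp hq f := Finset.mem_insert_self _ _

private theorem mem_bU_child {d p q : ℕ} (hp : p ≤ d) (hq : q ≤ d) (f : Fin q → Fin d)
    (i : Fin d) : some (i, none) ∈ bU hp hq f ↔ i.val < p := by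
  simp only [bU, Finset.mem_insert, Finset.mem_union, Finset.mem_image, Finset.mem_univ, true_and]
  constructor
  · rintro (h | ⟨x, hx⟩ | ⟨x, hx⟩)
    · simp at h
    · simp only [Option.some.injEq, Prod.mk.injEq, and_true] at hx
      subst hx
      exact x.isLt
    · simp at hx
  · intro h
    exact Or.inr (Or.inl ⟨⟨i.val, h⟩, rfl⟩)

private theorem mem_bU_grand {d p q : ℕ} (hp : p ≤ d) (hq : q ≤ d) (f : Fin q → Fin d)
    (i j : Fin d) : some (i, some j) ∈ bU hp hq f ↔ ∃ h : i.val < q, f ⟨i.val, h⟩ = j := by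
  simp only [bU, Finset.mem_insert, Finset.mem_union, Finset.mem_image, Finset.mem_univ, true_and]
  constructor
  · rintro (h | ⟨x, hx⟩ | ⟨x, hx⟩)
    · simp at h
    · simp at hx
    · simp only [Option.some.injEq, Prod.mk.injEq] at hx
      obtain ⟨hx1, hx2⟩ := hx
      subst hx1
      exact ⟨x.isLt, hx2⟩
  · rintro ⟨h, h'⟩
    exact Or.inr (Or.inr ⟨⟨i.val, h⟩, by rw [h']; rfl⟩)

private theorem card_bU {d p q : ℕ} (hp : p ≤ d) (hq : q ≤ d) (f : Fin q → Fin d) :
    (bU hp hq f).card = p + q + 1 := by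
  rw [bU, Finset.card_insert_of_notMem, Finset.card_union_of_disjoint,
    Finset.card_image_of_injective, Finset.card_image_of_injective]
  · simp
  · intro x y h
    simp only [Option.some.injEq, Prod.mk.injEq] at h
    exact (Fin.castLE_injective hq) h.1
  · intro x y h
    simp only [Option.some.injEq, Prod.mk.injEq, and_true] at h
    exact (Fin.castLE_injective hp) h
  · rw [Finset.disjoint_left]
    intro x hx hx'
    simp only [Finset.mem_image, Finset.mem_univ, true_and] at hx hx'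
    obtain ⟨i, hi⟩ := hx
    obtain ⟨j, hj⟩ := hx'
    rw [← hi] at hj
    simp at hj
  · simp

private theorem sub_bU {d p q : ℕ} (hp : p ≤ d) (hq : q ≤ d) (hqp : q ≤ p) (f : Fin q → Fin d) :
    (bF d).Sub (bU hp hq f) none := by
  refine ⟨mem_bU_root hp hq f, ?_⟩
  intro x hx hne
  rcases x with _ | ⟨i, _ | j⟩
  · exact absurd rfl hne
  · exact ⟨none, mem_bU_root hp hq f, rfl⟩
  · refine ⟨some (i, none), ?_, rfl⟩
    rw [mem_bU_child]
    rw [mem_bU_grand] at hx
    exact lt_of_lt_of_le hx.1 hqp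

private theorem not_star_bU {d p q : ℕ} (hp : p ≤ d) (hq : q ≤ d) (h2 : 2 ≤ p) (h1 : 1 ≤ q)
    (f : Fin q → Fin d) : ¬ (bF d).IsStar (bU hp hq f) := by
  rintro ⟨v, hv, h⟩
  rcases v with _ | ⟨i, _ | j⟩
  · have h3 : some ((⟨0, by omega⟩ : Fin d), some (f ⟨0, by omega⟩)) ∈ bU hp hq f := by
      rw [mem_bU_grand]
      exact ⟨by simpa using (by omega : 0 < q), rfl⟩
    rcases h _ h3 (by simp) with h4 | h4
    · simp [bF, bpar] at h4
    · simp [bF, bpar] at h4
  · -- another child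
    have h3 : ∃ i' : Fin d, i' ≠ i ∧ i'.val < p := by
      by_cases hi : i.val = 0
      · exact ⟨⟨1, by omega⟩, by
          intro e
          rw [← e] at hi
          simp at hi, by simpa using (by omega : 1 < p)⟩
      · exact ⟨⟨0, by omega⟩, by
          intro e
          rw [← e] at hi
          simp at hi, by simpa using (by omega : 0 < p)⟩
    obtain ⟨i', hi', hi'p⟩ := h3
    rcases h (some (i', none)) ((mem_bU_child hp hq f i').2 hi'p) (by simpa using hi') with h4 | h4
    · simp [bF, bpar] at h4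
    · simp [bF, bpar] at h4
  · rcases h none (mem_bU_root hp hq f) (by simp) with h4 | h4
    · simp [bF, bpar] at h4
    · simp [bF, bpar] at h4

private theorem card_nst {d p q : ℕ} (hp : p ≤ d) (hq : q ≤ d) (hqp : q ≤ p) (h2 : 2 ≤ p)
    (h1 : 1 ≤ q) : d ^ q ≤ ((bF d).nst (p + q + 1)).card := by
  classical
  have h3 : (Finset.univ.image (fun f : Fin q → Fin d => bU hp hq f)) ⊆
      (bF d).nst (p + q + 1) := by
    intro U hU
    rw [Finset.mem_image] at hU
    obtain ⟨f, -, rfl⟩ := hU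
    rw [RF.mem_nst]
    exact ⟨⟨card_bU hp hq f, none, sub_bU hp hq hqp f⟩, not_star_bU hp hq h2 h1 f⟩
  have h4 : Function.Injective (fun f : Fin q → Fin d => bU hp hq f) := by
    intro f g hfg
    funext i
    have h5 : some (Fin.castLE hq i, some (f i)) ∈ bU hp hq f := by
      rw [mem_bU_grand]
      exact ⟨i.isLt, rfl⟩
    have h6 : bU hp hq f = bU hp hq g := hfg
    rw [h6, mem_bU_grand] at h5
    obtain ⟨_, h7⟩ := h5
    exact h7.symm
  calc d ^ q = (Finset.univ : Finset (Fin q → Fin d)).card := by simp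
    _ = (Finset.univ.image (fun f : Fin q → Fin d => bU hp hq f)).card :=
        (Finset.card_image_of_injective _ h4).symm
    _ ≤ _ := Finset.card_le_card h3

/-- Brooms of height two: the root has `k - 2` children, each of which has `k - 2` children. -/
theorem broom {k : ℕ} (hk : 6 ≤ k) {a b m : ℝ} (ha : 0 ≤ a) (hb : 0 ≤ b) (hm : 0 ≤ m)
    (H : Fun1 k a b m) :
    m * ((k - 2 : ℕ) : ℝ) ^ (k / 2) ≤
      3 * a * (1 + ((k - 2 : ℕ) : ℝ) + ((k - 2 : ℕ) : ℝ) ^ 2) := by
  have h1 := hw2 (by omega) ha hb hm H (bF (k - 2)) (bF_ht (k - 2)) (by omega)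
  have h2 : ∑ v, ((bF (k - 2)).c v + 1).choose k = 0 := by
    refine Finset.sum_eq_zero fun v _ => ?_
    refine Nat.choose_eq_zero_of_lt ?_
    have := bF_c (k - 2) v
    omega
  have h3 : (k - 2) ^ (k / 2) ≤ ((bF (k - 2)).nst (k + 1)).card := by
    have h4 := card_nst (d := k - 2) (p := k - k / 2) (q := k / 2) (by omega) (by omega) (by omega)
      (by omega) (by omega)
    have h5 : k - k / 2 + k / 2 + 1 = k + 1 := by omega
    rwa [h5] at h4
  have h4 : (((k - 2 : ℕ) : ℝ)) ^ (k / 2) ≤ (((bF (k - 2)).nst (k + 1)).card : ℝ) := by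
    exact_mod_cast h3
  have h5 : (Fintype.card (Option (Fin (k - 2) × Option (Fin (k - 2)))) : ℝ) =
      1 + ((k - 2 : ℕ) : ℝ) + ((k - 2 : ℕ) : ℝ) ^ 2 := by
    rw [Fintype.card_option, Fintype.card_prod, Fintype.card_option, Fintype.card_fin]
    push_cast
    ring
  rw [h2, h5] at h1
  have h6 := mul_le_mul_of_nonneg_left h4 hm
  simp only [Nat.cast_zero, mul_zero, add_zero] at h1
  linarith

theorem broom_small (C1 : ℕ) : ∃ k2 : ℕ, ∀ k, k2 ≤ k → ∀ a b m : ℝ, 0 ≤ a → 0 ≤ b → 0 ≤ m →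
    Fun1 k a b m → 8 * m * 2 ^ (C1 * k) ≤ a := by
  refine ⟨2 ^ (4 * C1) + 100, ?_⟩
  intro k hk a b m ha hb hm H
  have hpos : 0 < 2 ^ (4 * C1) := by positivity
  have h1 := broom (by omega) ha hb hm H
  have hd1 : 2 ^ (4 * C1) ≤ k - 2 := by omega
  have hd2 : 72 ≤ k - 2 := by omega
  obtain ⟨q, hq⟩ : ∃ q, k / 2 = q + 3 := ⟨k / 2 - 3, by omega⟩
  have hkq : C1 * k ≤ 4 * C1 * q := by
    have h2 : k ≤ 4 * q := by omega
    calc C1 * k ≤ C1 * (4 * q) := Nat.mul_le_mul_left _ h2
      _ = 4 * C1 * q := by ring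
  have h2 : 24 * (1 + (k - 2) + (k - 2) ^ 2) * 2 ^ (C1 * k) ≤ (k - 2) ^ (k / 2) := by
    generalize hd : k - 2 = d at hd1 hd2
    have h3 : 24 * (1 + d + d ^ 2) ≤ d ^ 3 := by
      nlinarith [Nat.mul_le_mul hd2 (le_refl (d ^ 2)), Nat.mul_le_mul hd2 (le_refl d)]
    have h4 : 2 ^ (C1 * k) ≤ d ^ q := by
      calc 2 ^ (C1 * k) ≤ 2 ^ (4 * C1 * q) := Nat.pow_le_pow_right (by norm_num) hkq
        _ = (2 ^ (4 * C1)) ^ q := by rw [pow_mul]
        _ ≤ d ^ q := Nat.pow_le_pow_left hd1 q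
    calc 24 * (1 + d + d ^ 2) * 2 ^ (C1 * k) ≤ d ^ 3 * d ^ q := Nat.mul_le_mul h3 h4
      _ = d ^ (k / 2) := by rw [hq, pow_add, mul_comm]
  have h3 : 24 * (1 + ((k - 2 : ℕ) : ℝ) + ((k - 2 : ℕ) : ℝ) ^ 2) * 2 ^ (C1 * k) ≤
      ((k - 2 : ℕ) : ℝ) ^ (k / 2) := by
    exact_mod_cast h2
  have h4 := mul_le_mul_of_nonneg_left h3 hm
  have h5 : 0 < 1 + ((k - 2 : ℕ) : ℝ) + ((k - 2 : ℕ) : ℝ) ^ 2 := by positivity
  have h6 : (3 * (1 + ((k - 2 : ℕ) : ℝ) + ((k - 2 : ℕ) : ℝ) ^ 2)) * (8 * m * 2 ^ (C1 * k)) ≤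
      (3 * (1 + ((k - 2 : ℕ) : ℝ) + ((k - 2 : ℕ) : ℝ) ^ 2)) * a := by
    calc (3 * (1 + ((k - 2 : ℕ) : ℝ) + ((k - 2 : ℕ) : ℝ) ^ 2)) * (8 * m * 2 ^ (C1 * k))
        = m * (24 * (1 + ((k - 2 : ℕ) : ℝ) + ((k - 2 : ℕ) : ℝ) ^ 2) * 2 ^ (C1 * k)) := by ring
      _ ≤ m * ((k - 2 : ℕ) : ℝ) ^ (k / 2) := h4
      _ ≤ 3 * a * (1 + ((k - 2 : ℕ) : ℝ) + ((k - 2 : ℕ) : ℝ) ^ 2) := h1
      _ = _ := by ring
  exact le_of_mul_le_mul_left h6 (by positivity)

end Pool.Agent.NP
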