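import Pool.Agent.NP.Defs

namespace Pool.Agent.NP

open SimpleGraph

namespace RF

variable {V : Type} [Fintype V]

private theorem ext_step (F : RF V) {r : V} (hr : F.IsRt r) {U : Finset V} {t : V}
    (hU : F.Sub U t) (hc : U.card < Fintype.card V) :
    ∃ x, x ∉ U ∧ ∃ (W : Finset V) (t' : V), (∀ y, y ∈ W ↔ y = x ∨ y ∈ U) ∧ F.Sub W t' := by
  classical
  by_cases htr : t = r
  · subst htr
    have hne : (Finset.univ \ U).Nonempty := by
      rw [← Finset.card_pos, Finset.card_sdiff_of_subset (Finset.subset_univ U),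
        Finset.card_univ]
      omega
    obtain ⟨x, hx, hmin⟩ := Finset.exists_min_image (Finset.univ \ U) F.lev hne
    have hxU : x ∉ U := (Finset.mem_sdiff.1 hx).2
    have hxt : x ≠ t := fun e => hxU (e ▸ hU.1)
    obtain ⟨p, hp⟩ := hr.2.2 x hxt
    have hpU : p ∈ U := by
      by_contra hpU
      have h1 := hmin p (Finset.mem_sdiff.2 ⟨Finset.mem_univ _, hpU⟩)
      have h2 := F.hlev _ _ hp
      omega
    refine ⟨x, hxU, insert x U, t, fun y => Finset.mem_insert, Finset.mem_insert_of_mem hU.1, ?_⟩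
    intro y hy hyt
    rcases Finset.mem_insert.1 hy with rfl | hy
    · exact ⟨p, Finset.mem_insert_of_mem hpU, hp⟩
    · obtain ⟨q, hq, hqy⟩ := hU.2 y hy hyt
      exact ⟨q, Finset.mem_insert_of_mem hq, hqy⟩
  · obtain ⟨p, hp⟩ := hr.2.2 t htr
    have hpU := F.par_top_notMem hU hp
    refine ⟨p, hpU, insert p U, p, fun y => Finset.mem_insert, Finset.mem_insert_self _ _, ?_⟩
    intro y hy hyp
    rcases Finset.mem_insert.1 hy with rfl | hy
    · exact absurd rfl hyp
    · by_cases hyt : y = t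
      · subst hyt
        exact ⟨p, Finset.mem_insert_self _ _, hp⟩
      · obtain ⟨q, hq, hqy⟩ := hU.2 y hy hyt
        exact ⟨q, Finset.mem_insert_of_mem hq, hqy⟩

/-- In a tree every subtree with `i ≤ k` vertices extends to one with `k` vertices. -/
theorem exists_ext (F : RF V) {r : V} (hr : F.IsRt r) {i k : ℕ} (hik : i ≤ k)
    (hk : k ≤ Fintype.card V) {U : Finset V} (hU : U ∈ F.subs i) :
    ∃ U' ∈ F.subs k, U ⊆ U' := by
  classical
  induction k, hik using Nat.le_induction with
  | base => exact ⟨U, hU, subset_rfl⟩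
  | succ k hik ih =>
    obtain ⟨U', hU', hsub⟩ := ih (by omega)
    obtain ⟨hc, t, ht⟩ := F.mem_subs.1 hU'
    obtain ⟨x, hx, W, t', hW, hWt⟩ := F.ext_step hr ht (by omega)
    have hWe : W = insert x U' := by
      ext y
      rw [hW, Finset.mem_insert]
    refine ⟨W, F.mem_subs.2 ⟨?_, t', hWt⟩, ?_⟩
    · rw [hWe, Finset.card_insert_of_notMem hx, hc]
    · rw [hWe]
      exact hsub.trans (Finset.subset_insert _ _)

/-- Every vertex is in some `k`-vertex subtree. -/
theorem exists_mem (F : RF V) {r : V} (hr : F.IsRt r) {k : ℕ} (h1 : 1 ≤ k)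
    (hk : k ≤ Fintype.card V) (v : V) : ∃ U ∈ F.subs k, v ∈ U := by
  classical
  have h0 : ({v} : Finset V) ∈ F.subs 1 := by
    rw [F.mem_subs]
    refine ⟨Finset.card_singleton v, v, Finset.mem_singleton_self v, ?_⟩
    intro x hx hxv
    exact absurd (Finset.mem_singleton.1 hx) hxv
  obtain ⟨U, hU, hsub⟩ := F.exists_ext hr h1 hk h0
  exact ⟨U, hU, hsub (Finset.mem_singleton_self v)⟩

theorem card_le_mul (F : RF V) {r : V} (hr : F.IsRt r) {k : ℕ} (h1 : 1 ≤ k)
    (hk : k ≤ Fintype.card V) : Fintype.card V ≤ k * (F.subs k).card := by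
  classical
  have hsub : (Finset.univ : Finset V) ⊆ (F.subs k).biUnion id := by
    intro v _
    obtain ⟨U, hU, hv⟩ := F.exists_mem hr h1 hk v
    exact Finset.mem_biUnion.2 ⟨U, hU, hv⟩
  have h2 := Finset.card_le_card hsub
  rw [Finset.card_univ] at h2
  refine h2.trans ?_
  have h3 := Finset.card_biUnion_le_card_mul (F.subs k) id k (fun U hU => by
    rw [id]
    exact (F.mem_subs.1 hU).1.le)
  rw [Nat.mul_comm]
  exact h3

theorem card_subs_le (F : RF V) {r : V} (hr : F.IsRt r) {i k : ℕ} (hik : i ≤ k)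
    (hk : k ≤ Fintype.card V) : (F.subs i).card ≤ 2 ^ k * (F.subs k).card := by
  classical
  have hsub : F.subs i ⊆ (F.subs k).biUnion Finset.powerset := by
    intro U hU
    obtain ⟨U', hU', h2⟩ := F.exists_ext hr hik hk hU
    exact Finset.mem_biUnion.2 ⟨U', hU', Finset.mem_powerset.2 h2⟩
  refine (Finset.card_le_card hsub).trans ?_
  rw [Nat.mul_comm]
  refine Finset.card_biUnion_le_card_mul _ _ _ (fun U hU => ?_)
  rw [Finset.card_powerset, (F.mem_subs.1 hU).1]

end RF

end Pool.Agent.NP
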