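import Pool.Agent.NP.Defs

namespace Pool.Agent.NP

open SimpleGraph

/-- Every finite tree is the graph of a rooted forest with a given root. -/
theorem exists_rooted {V : Type} [Fintype V] (T : SimpleGraph V) (hT : T.IsTree) (r : V) :
    ∃ F : RF V, F.graph = T ∧ F.IsRt r := by
  classical
  have hconn := hT.connected
  -- shortest walks to the root
  have hw : ∀ v, ∃ p : T.Walk v r, p.length = T.dist v r := fun v =>
    hconn.exists_walk_length_eq_dist v r
  choose w hw using hw
  have hadj : ∀ v, v ≠ r → T.Adj v (w v).snd := by
    intro v hv
    exact (w v).adj_snd (Walk.not_nil_of_ne hv)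
  have hdist : ∀ v, v ≠ r → T.dist v r = T.dist (w v).snd r + 1 := by
    intro v hv
    have h1 : T.dist (w v).snd r ≤ (w v).tail.length := dist_le _
    have h2 := Walk.length_tail_add_one (Walk.not_nil_of_ne (p := w v) hv)
    have h3 := hw v
    have h4 := hconn.dist_triangle (u := v) (v := (w v).snd) (w := r)
    have h5 : T.dist v (w v).snd = 1 := dist_eq_one_iff_adj.2 (hadj v hv)
    omega
  have huniq : ∀ u v, T.Adj u v → T.dist u r = T.dist v r + 1 → (w u).snd = v := by
    intro u v huv hd
    have hp : (w u).IsPath := (w u).isPath_of_length_eq_dist (hw u)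
    have hq : (Walk.cons huv (w v)).IsPath := by
      apply Walk.isPath_of_length_eq_dist
      rw [Walk.length_cons, hw v, hd]
    have := (hT.existsUnique_path u r).unique hp hq
    rw [this, Walk.snd_cons]
  let F : RF V :=
    { par := fun v => if v = r then none else some (w v).snd
      lev := fun v => T.dist v r
      hlev := by
        intro v p hp
        by_cases hv : v = r
        · simp [hv] at hp
        · simp only [hv, if_false, Option.some.injEq] at hp
          rw [← hp]
          exact hdist v hv }
  have hpar : ∀ v, F.par v = if v = r then none else some (w v).snd := fun v => rfl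
  have key : ∀ u v, T.Adj u v → T.dist u r = T.dist v r + 1 → F.par u = some v := by
    intro u v huv hd
    have hu : u ≠ r := by
      rintro rfl
      simp at hd
    rw [hpar, if_neg hu, huniq u v huv hd]
  refine ⟨F, ?_, ?_, ?_, ?_⟩
  · ext u v
    constructor
    · have h : ∀ a b, F.par a = some b → T.Adj a b := by
        intro a b hab
        rw [hpar] at hab
        by_cases ha : a = r
        · simp [ha] at hab
        · simp only [ha, if_false, Option.some.injEq] at hab
          rw [← hab]
          exact hadj a ha
      rintro (h1 | h1)
      · exact h _ _ h1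
      · exact (h _ _ h1).symm
    · intro huv
      have h1 := hT.dist_ne_of_adj r huv
      have h2 := hconn.dist_triangle (u := u) (v := v) (w := r)
      have h3 := hconn.dist_triangle (u := v) (v := u) (w := r)
      have h4 : T.dist u v = 1 := dist_eq_one_iff_adj.2 huv
      have h5 : T.dist v u = 1 := dist_eq_one_iff_adj.2 huv.symm
      rw [dist_comm (u := r) (v := u), dist_comm (u := r) (v := v)] at h1
      rcases Nat.lt_or_gt_of_ne h1 with h6 | h6
      · right
        exact key v u huv.symm (by omega)
      · left
        exact key u v huv (by omega)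
  · rw [hpar, if_pos rfl]
  · show T.dist r r = 0
    simp
  · intro v hv
    exact ⟨(w v).snd, by rw [hpar, if_neg hv]⟩

/-- One can take a leaf as the root. -/
theorem exists_leaf_rooted {V : Type} [Fintype V] (T : SimpleGraph V) (hT : T.IsTree)
    (h2 : 2 ≤ Fintype.card V) : ∃ (F : RF V) (r : V), F.graph = T ∧ F.IsRt r ∧ F.c r ≤ 1 := by
  classical
  have : Nontrivial V := Fintype.one_lt_card_iff_nontrivial.1 h2
  obtain ⟨r, hr⟩ := hT.exists_vert_degree_one_of_nontrivial
  obtain ⟨F, hF, hroot⟩ := exists_rooted T hT r
  refine ⟨F, r, hF, hroot, ?_⟩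
  rw [← hr, ← T.card_neighborFinset_eq_degree r]
  apply Finset.card_le_card
  intro x hx
  rw [F.mem_ch] at hx
  rw [mem_neighborFinset, ← hF]
  exact Or.inr hx

end Pool.Agent.NP
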