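import Pool.Agent.NP.Ext
import Pool.Agent.NP.Bridge
import Pool.Agent.NP.Root

namespace Pool.Agent.NP

open SimpleGraph

/-- Some vertex is in few small subtrees (average over all vertices). -/
theorem exists_few {V : Type} [Fintype V] (T : SimpleGraph V) (hT : T.IsTree) {j : ℕ}
    (hj : 1 ≤ j) (hn : j ≤ Fintype.card V) :
    ∃ v, Fintype.card V *
      Set.ncard {U : Finset V | U.card < j ∧ v ∈ U ∧ (T.induce (U : Set V)).IsTree} ≤
        j ^ 2 * 2 ^ j * Zc j T := by
  classical
  have hpos : 0 < Fintype.card V := by omega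
  obtain ⟨r⟩ := Fintype.card_pos_iff.mp hpos
  obtain ⟨F, hF, hr⟩ := exists_rooted T hT r
  subst hF
  rw [F.Zc_eq j]
  set A : Finset (Finset V) := (Finset.range j).biUnion (fun i => F.subs i) with hA
  have hmemA : ∀ U : Finset V, U ∈ A ↔ U.card < j ∧ ∃ t, F.Sub U t := by
    intro U
    simp only [hA, Finset.mem_biUnion, Finset.mem_range, RF.mem_subs]
    constructor
    · rintro ⟨i, hi, h1, h2⟩
      exact ⟨by omega, h2⟩
    · rintro ⟨h1, h2⟩
      exact ⟨U.card, h1, rfl, h2⟩
  have hset : ∀ v : V, {U : Finset V | U.card < j ∧ v ∈ U ∧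
      (F.graph.induce (U : Set V)).IsTree} = ((A.filter (fun U => v ∈ U) : Finset (Finset V)) :
        Set (Finset V)) := by
    intro v
    ext U
    simp only [Set.mem_ofPred_eq, Finset.coe_filter, hmemA, F.induce_isTree_iff U]
    tauto
  have hAcard : A.card ≤ j * (2 ^ j * (F.subs j).card) := by
    calc A.card ≤ ∑ i ∈ Finset.range j, (F.subs i).card := Finset.card_biUnion_le
      _ ≤ ∑ _i ∈ Finset.range j, 2 ^ j * (F.subs j).card := by
          refine Finset.sum_le_sum fun i hi => ?_
          exact F.card_subs_le hr (Finset.mem_range.mp hi).le hn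
      _ = j * (2 ^ j * (F.subs j).card) := by simp
  have hsum : ∑ v : V, (A.filter (fun U => v ∈ U)).card ≤ j ^ 2 * 2 ^ j * (F.subs j).card := by
    have h1 : ∑ v : V, (A.filter (fun U => v ∈ U)).card = ∑ U ∈ A, U.card := by
      simp only [Finset.card_filter]
      rw [Finset.sum_comm]
      refine Finset.sum_congr rfl fun U _ => ?_
      simp
    rw [h1]
    calc ∑ U ∈ A, U.card ≤ ∑ _U ∈ A, j := by
          refine Finset.sum_le_sum fun U hU => ?_
          exact ((hmemA U).mp hU).1.le
      _ = A.card * j := by simp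
      _ ≤ j * (2 ^ j * (F.subs j).card) * j := Nat.mul_le_mul_right j hAcard
      _ = j ^ 2 * 2 ^ j * (F.subs j).card := by ring
  have hex : ∃ v ∈ (Finset.univ : Finset V), Fintype.card V * (A.filter (fun U => v ∈ U)).card ≤
      j ^ 2 * 2 ^ j * (F.subs j).card := by
    refine Finset.exists_le_of_sum_le ⟨r, Finset.mem_univ r⟩ ?_
    rw [← Finset.mul_sum, Finset.sum_const, Finset.card_univ, smul_eq_mul]
    exact Nat.mul_le_mul_left _ hsum
  obtain ⟨v, -, hv⟩ := hex
  refine ⟨v, ?_⟩
  rw [hset v, Set.ncard_coe_finset]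
  exact hv

end Pool.Agent.NP
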