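import Pool.Agent.NP.StarB

namespace Pool.Agent.NP

open SimpleGraph

/-- `(x, y)` is a limit of path and star densities of large trees. -/
def Good (k : ℕ) (x y : ℝ) : Prop :=
  ∀ ε > (0 : ℝ), ∀ n0 : ℕ, ∃ N ≥ n0, ∃ T : SimpleGraph (Fin N), T.IsTree ∧
    |(cnt (pathGraph k) T : ℝ) / Zc k T - x| < ε ∧ |(cnt (starG k) T : ℝ) / Zc k T - y| < ε

/-- Copies of a tree are counted by `Zc`. -/
theorem cnt_le_Zc {k : ℕ} {V : Type} [Fintype V] (S : SimpleGraph (Fin k)) (hS : S.IsTree)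
    (T : SimpleGraph V) : cnt S T ≤ Zc k T := by
  unfold cnt Zc
  apply Set.ncard_le_ncard
  · rintro U ⟨f⟩
    refine ⟨?_, (Iso.isTree_iff f).mpr hS⟩
    have h1 := Fintype.card_congr f.toEquiv
    rw [Fintype.card_fin] at h1
    rw [← h1]
    simp
  · exact Set.toFinite _

theorem profile_mem {k : ℕ} {V : Type} [Fintype V] (T : SimpleGraph V) :
    profile k T ∈ Set.pi Set.univ (fun _ : SimpleGraph (Fin k) => Set.Icc (0 : ℝ) 1) := by
  classical
  intro S _
  unfold profile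
  split_ifs with h
  · have h1 : ((cnt S T : ℕ) : ℝ) ≤ Zc k T := by exact_mod_cast cnt_le_Zc S h T
    constructor
    · positivity
    · exact div_le_one_of_le₀ h1 (by positivity)
  · simp

theorem extract {k : ℕ} (N : ℕ → ℕ) (T : ∀ i, SimpleGraph (Fin (N i))) :
    ∃ (p : SimpleGraph (Fin k) → ℝ) (φ : ℕ → ℕ), StrictMono φ ∧
      Filter.Tendsto (fun i => profile k (T (φ i))) Filter.atTop (nhds p) := by
  have hc : IsCompact (Set.pi Set.univ (fun _ : SimpleGraph (Fin k) => Set.Icc (0 : ℝ) 1)) :=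
    isCompact_univ_pi (fun _ => isCompact_Icc)
  obtain ⟨p, _, φ, hφ, hlim⟩ := hc.tendsto_subseq
    (x := fun i => profile k (T i)) (fun i => profile_mem (T i))
  exact ⟨p, φ, hφ, hlim⟩

theorem profile_path {k : ℕ} (hk : 1 ≤ k) {V : Type} (T : SimpleGraph V) :
    profile k T (pathGraph k) = (cnt (pathGraph k) T : ℝ) / Zc k T := by
  classical
  unfold profile
  rw [if_pos (pathGraph_isTree hk)]

theorem profile_star {k : ℕ} (hk : 1 ≤ k) {V : Type} (T : SimpleGraph V) :
    profile k T (starG k) = (cnt (starG k) T : ℝ) / Zc k T := by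
  classical
  unfold profile
  rw [if_pos (starG_isTree hk)]

/-- A sequence of trees `T i` with at least `i` vertices has a subsequence whose profiles converge
to a point of `Delta`. -/
theorem extract_Delta {k : ℕ} (hk : 1 ≤ k) (N : ℕ → ℕ) (hN : ∀ i, i ≤ N i)
    (T : ∀ i, SimpleGraph (Fin (N i))) (hT : ∀ i, (T i).IsTree) :
    ∃ (x y : ℝ) (φ : ℕ → ℕ), StrictMono φ ∧ (x, y) ∈ Proj k ∧
      Filter.Tendsto (fun i => (cnt (pathGraph k) (T (φ i)) : ℝ) / Zc k (T (φ i)))
        Filter.atTop (nhds x) ∧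
      Filter.Tendsto (fun i => (cnt (starG k) (T (φ i)) : ℝ) / Zc k (T (φ i)))
        Filter.atTop (nhds y) := by
  obtain ⟨p, φ, hφ, hlim⟩ := extract (k := k) N T
  have hN2 : Filter.Tendsto (fun i => N (φ i)) Filter.atTop Filter.atTop := by
    apply Filter.tendsto_atTop_mono (fun i => hN (φ i))
    exact hφ.tendsto_atTop
  rw [tendsto_pi_nhds] at hlim
  refine ⟨p (pathGraph k), p (starG k), φ, hφ, ⟨p, ⟨fun i => N (φ i), fun i => T (φ i),
    fun i => hT _, hN2, ?_⟩, rfl⟩, ?_, ?_⟩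
  · rw [tendsto_pi_nhds]
    exact hlim
  · have := hlim (pathGraph k)
    simpa only [profile_path hk] using this
  · have := hlim (starG k)
    simpa only [profile_star hk] using this

/-- By compactness (the profiles lie in the cube `[0, 1]`) a convergent subsequence of profiles
exists. -/
theorem mem_Proj_iff {k : ℕ} (hk : 1 ≤ k) {x y : ℝ} : (x, y) ∈ Proj k ↔ Good k x y := by
  constructor
  · rintro ⟨p, ⟨N, T, hT, hN, hlim⟩, hxy⟩
    rw [Prod.mk.injEq] at hxy
    obtain ⟨hx, hy⟩ := hxy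
    rw [tendsto_pi_nhds] at hlim
    have h1 := hlim (pathGraph k)
    have h2 := hlim (starG k)
    simp only [profile_path hk] at h1
    simp only [profile_star hk] at h2
    rw [← hx] at h1
    rw [← hy] at h2
    intro ε hε n0
    rw [Metric.tendsto_atTop] at h1 h2
    obtain ⟨i1, hi1⟩ := h1 ε hε
    obtain ⟨i2, hi2⟩ := h2 ε hε
    obtain ⟨i3, hi3⟩ := (Filter.tendsto_atTop_atTop.mp hN) n0
    set i := max i1 (max i2 i3) with hi
    have a1 := hi1 i (le_max_left _ _)
    have a2 := hi2 i (le_trans (le_max_left _ _) (le_max_right _ _))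
    have a3 := hi3 i (le_trans (le_max_right _ _) (le_max_right _ _))
    rw [Real.dist_eq] at a1 a2
    exact ⟨N i, a3, T i, hT i, a1, a2⟩
  · intro h
    have hpos : ∀ i : ℕ, (0 : ℝ) < 1 / ((i : ℝ) + 1) := fun i => by positivity
    choose N hN T hT h1 h2 using fun i : ℕ => h (1 / ((i : ℝ) + 1)) (hpos i) i
    obtain ⟨x', y', φ, hφ, hmem, l1, l2⟩ := extract_Delta hk N hN T hT
    have hz : Filter.Tendsto (fun i : ℕ => (1 : ℝ) / ((φ i : ℝ) + 1)) Filter.atTop (nhds 0) :=
      (tendsto_one_div_add_atTop_nhds_zero_nat (𝕜 := ℝ)).comp hφ.tendsto_atTop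
    have m1 : Filter.Tendsto (fun i => (cnt (pathGraph k) (T (φ i)) : ℝ) / Zc k (T (φ i)))
        Filter.atTop (nhds x) := by
      rw [tendsto_iff_dist_tendsto_zero]
      refine squeeze_zero (fun i => dist_nonneg) (fun i => ?_) hz
      rw [Real.dist_eq]
      exact (h1 (φ i)).le
    have m2 : Filter.Tendsto (fun i => (cnt (starG k) (T (φ i)) : ℝ) / Zc k (T (φ i)))
        Filter.atTop (nhds y) := by
      rw [tendsto_iff_dist_tendsto_zero]
      refine squeeze_zero (fun i => dist_nonneg) (fun i => ?_) hz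
      rw [Real.dist_eq]
      exact (h2 (φ i)).le
    have e1 := tendsto_nhds_unique l1 m1
    have e2 := tendsto_nhds_unique l2 m2
    rw [← e1, ← e2]
    exact hmem

theorem isClosed_Proj {k : ℕ} (hk : 1 ≤ k) : IsClosed (Proj k) := by
  apply isClosed_of_closure_subset
  rintro ⟨x, y⟩ hz
  rw [mem_Proj_iff hk]
  intro ε hε n0
  rw [Metric.mem_closure_iff] at hz
  obtain ⟨⟨x', y'⟩, hmem, hd⟩ := hz (ε / 2) (by positivity)
  rw [mem_Proj_iff hk] at hmem
  obtain ⟨N, hN, T, hT, h1, h2⟩ := hmem (ε / 2) (by positivity) n0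
  rw [Prod.dist_eq] at hd
  have d1 : dist x x' < ε / 2 := lt_of_le_of_lt (le_max_left _ _) hd
  have d2 : dist y y' < ε / 2 := lt_of_le_of_lt (le_max_right _ _) hd
  rw [Real.dist_eq, abs_lt] at d1 d2
  rw [abs_lt] at h1 h2
  refine ⟨N, hN, T, hT, ?_, ?_⟩
  · rw [abs_lt]
    constructor <;> linarith
  · rw [abs_lt]
    constructor <;> linarith

theorem Proj_bounds {k : ℕ} (hk : 4 ≤ k) {x y : ℝ} (h : (x, y) ∈ Proj k) :
    0 ≤ x ∧ 0 ≤ y ∧ x + y ≤ 1 := by
  rw [mem_Proj_iff (by omega)] at h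
  have key : ∀ ε > (0 : ℝ), -ε ≤ x ∧ -ε ≤ y ∧ x + y ≤ 1 + 2 * ε := by
    intro ε hε
    obtain ⟨N, -, T, hT, h1, h2⟩ := h ε hε 0
    rw [abs_lt] at h1 h2
    have p1 : (0 : ℝ) ≤ (cnt (pathGraph k) T : ℝ) / Zc k T := by positivity
    have p2 : (0 : ℝ) ≤ (cnt (starG k) T : ℝ) / Zc k T := by positivity
    have h3 : ((cnt (pathGraph k) T : ℕ) : ℝ) + (cnt (starG k) T : ℕ) ≤ Zc k T := by
      exact_mod_cast cnt_path_add_cnt_star_le T hk
    have p3 : (cnt (pathGraph k) T : ℝ) / Zc k T + (cnt (starG k) T : ℝ) / Zc k T ≤ 1 := by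
      rw [← add_div]
      exact div_le_one_of_le₀ h3 (by positivity)
    refine ⟨by linarith, by linarith, by linarith⟩
  refine ⟨?_, ?_, ?_⟩
  · by_contra hx
    push Not at hx
    have := (key (-x / 2) (by linarith)).1
    linarith
  · by_contra hx
    push Not at hx
    have := (key (-y / 2) (by linarith)).2.1
    linarith
  · by_contra hx
    push Not at hx
    have := (key ((x + y - 1) / 4) (by linarith)).2.2
    linarith

/-- Compactness: large trees whose densities satisfy `a X + b Y ≤ c` produce a point of `Proj k`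
with `a X + b Y ≤ c`. -/
theorem exists_limit {k : ℕ} (hk : 4 ≤ k) (a b c : ℝ)
    (h : ∀ n0 : ℕ, ∃ N ≥ n0, ∃ T : SimpleGraph (Fin N), T.IsTree ∧
      a * ((cnt (pathGraph k) T : ℝ) / Zc k T) + b * ((cnt (starG k) T : ℝ) / Zc k T) ≤ c) :
    ∃ x y, (x, y) ∈ Proj k ∧ a * x + b * y ≤ c := by
  choose N hN T hT h1 using h
  have hk1 : 1 ≤ k := by omega
  obtain ⟨x, y, φ, hφ, hmem, l1, l2⟩ := extract_Delta hk1 N hN T hT
  refine ⟨x, y, hmem, ?_⟩
  have l3 := (l1.const_mul a).add (l2.const_mul b)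
  exact le_of_tendsto' l3 (fun i => h1 (φ i))

end Pool.Agent.NP
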