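import Pool.Agent.NP.Defs

namespace Pool.Agent.NP

open SimpleGraph

/-- An isomorphism of graphs restricts to an isomorphism between corresponding induced
subgraphs. -/
def induceIso {V W : Type} {T : SimpleGraph V} {T' : SimpleGraph W} (φ : T ≃g T')
    (U : Finset V) :
    T.induce (U : Set V) ≃g T'.induce ((U.map φ.toEquiv.toEmbedding : Finset W) : Set W) where
  toEquiv := φ.toEquiv.subtypeEquiv (fun a => by simp)
  map_rel_iff' := by
    intro a b
    exact φ.map_rel_iff'

/-- The number of vertex sets with an isomorphism invariant property does not change. -/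
theorem ncard_iso {V W : Type} {T : SimpleGraph V} {T' : SimpleGraph W} (φ : T ≃g T')
    (p : Finset V → Prop) (q : Finset W → Prop)
    (h : ∀ U : Finset V, p U ↔ q (U.map φ.toEquiv.toEmbedding)) :
    Set.ncard {U : Finset W | q U} = Set.ncard {U : Finset V | p U} := by
  have himg : {U : Finset W | q U} =
      (fun U : Finset V => U.map φ.toEquiv.toEmbedding) '' {U : Finset V | p U} := by
    ext U
    simp only [Set.mem_setOf_eq, Set.mem_image]
    constructor
    · intro hU
      have hback : (U.map φ.toEquiv.symm.toEmbedding).map φ.toEquiv.toEmbedding = U := by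
        ext x
        simp
      exact ⟨U.map φ.toEquiv.symm.toEmbedding, (h _).2 (by rw [hback]; exact hU), hback⟩
    · rintro ⟨U', hU', rfl⟩
      exact (h U').1 hU'
  rw [himg]
  exact Set.ncard_image_of_injective _ (Finset.map_injective _)

theorem cnt_iso {k : ℕ} {V W : Type} {T : SimpleGraph V} {T' : SimpleGraph W} (φ : T ≃g T')
    (S : SimpleGraph (Fin k)) : cnt S T' = cnt S T := by
  refine ncard_iso φ _ _ (fun U => ?_)
  constructor
  · rintro ⟨f⟩
    exact ⟨(induceIso φ U).symm.trans f⟩
  · rintro ⟨f⟩
    exact ⟨(induceIso φ U).trans f⟩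

theorem Zc_iso {V W : Type} {T : SimpleGraph V} {T' : SimpleGraph W} (φ : T ≃g T') (k : ℕ) :
    Zc k T' = Zc k T := by
  refine ncard_iso φ _ _ (fun U => ?_)
  rw [Finset.card_map, (induceIso φ U).isTree_iff]

/-- A tree on a finite type is isomorphic to a tree on `Fin n` with the same counts. -/
theorem to_fin {V : Type} [Fintype V] (T : SimpleGraph V) (hT : T.IsTree) :
    ∃ T' : SimpleGraph (Fin (Fintype.card V)), T'.IsTree ∧
      (∀ (k : ℕ) (S : SimpleGraph (Fin k)), cnt S T' = cnt S T) ∧ ∀ k, Zc k T' = Zc k T := by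
  classical
  let φ := SimpleGraph.Iso.map (Fintype.equivFin V) T
  exact ⟨_, φ.isTree_iff.1 hT, fun k S => cnt_iso φ S, fun k => Zc_iso φ k⟩

end Pool.Agent.NP
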