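import Pool.Agent.NP.HwSub
import Pool.Agent.NP.Good
import Pool.Agent.NP.Few
import Pool.Agent.NP.Root
import Pool.Agent.NP.ToFin
import Pool.Agent.NP.Ext

namespace Pool.Agent.NP

open SimpleGraph

/-! ### Real estimates -/

private lemma conv_ratio {A Z S M E δ : ℝ} (hM : 0 < M) (hS0 : 0 ≤ S) (hSM : S ≤ M) (hA1 : S ≤ A)
    (hA2 : A ≤ S + E) (hZ1 : M ≤ Z) (hZ2 : Z ≤ M + E) (hE : E ≤ δ * M) (hδ : 0 ≤ δ) :
    |A / Z - S / M| ≤ δ := by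
  have hZ : 0 < Z := hM.trans_le hZ1
  have hE0 : 0 ≤ E := by linarith
  have h1 : S / M ≤ 1 := (div_le_one hM).2 hSM
  have h0 : 0 ≤ S / M := div_nonneg hS0 hM.le
  have hSM' : S / M * M = S := div_mul_cancel₀ _ hM.ne'
  rw [abs_le]
  constructor
  · have h2 : (S / M - δ) * Z ≤ A := by
      have h3 : S / M * Z ≤ S / M * (M + E) := mul_le_mul_of_nonneg_left hZ2 h0
      have h4 : S / M * E ≤ 1 * E := mul_le_mul_of_nonneg_right h1 hE0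
      have h5 : δ * M ≤ δ * Z := mul_le_mul_of_nonneg_left hZ1 hδ
      nlinarith
    have h6 : S / M - δ ≤ A / Z := (le_div_iff₀ hZ).2 h2
    linarith
  · have h2 : A ≤ (S / M + δ) * Z := by
      have h3 : (S / M + δ) * M ≤ (S / M + δ) * Z :=
        mul_le_mul_of_nonneg_left hZ1 (by linarith)
      nlinarith
    have h6 : A / Z ≤ S / M + δ := (div_le_iff₀ hZ).2 h2
    linarith

private lemma conv_w {a b K p₁ p₂ : ℝ} (ha : 0 ≤ a) (hb : 0 ≤ b) (hab : a + b = 1) (hK : 0 < K)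
    (h1 : a * K ≤ p₁) (h1' : p₁ ≤ a * K + 1) (h2 : b * K ≤ p₂) (h2' : p₂ ≤ b * K + 1) :
    |p₁ / (p₁ + p₂) - a| ≤ 1 / K := by
  have hs : K ≤ p₁ + p₂ := by nlinarith
  have hs0 : 0 < p₁ + p₂ := hK.trans_le hs
  have h3 : p₁ / (p₁ + p₂) - a = (b * p₁ - a * p₂) / (p₁ + p₂) := by
    rw [eq_div_iff hs0.ne', sub_mul, div_mul_cancel₀ _ hs0.ne']
    have : b = 1 - a := by linarith
    rw [this]; ring
  rw [h3, abs_div, abs_of_pos hs0, div_le_div_iff₀ hs0 hK]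
  have h4 : |b * p₁ - a * p₂| ≤ 1 := by
    rw [abs_le]
    have h5 : b * p₁ ≤ b * (a * K + 1) := mul_le_mul_of_nonneg_left h1' hb
    have h6 : b * (a * K) ≤ b * p₁ := mul_le_mul_of_nonneg_left h1 hb
    have h7 : a * p₂ ≤ a * (b * K + 1) := mul_le_mul_of_nonneg_left h2' ha
    have h8 : a * (b * K) ≤ a * p₂ := mul_le_mul_of_nonneg_left h2 ha
    constructor <;> nlinarith
  calc |b * p₁ - a * p₂| * K ≤ 1 * K := mul_le_mul_of_nonneg_right h4 hK.le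
    _ ≤ 1 * (p₁ + p₂) := by linarith

private lemma conv_mid {a b K p₁ p₂ c₁ c₂ Z₁ Z₂ x₁ x₂ δ : ℝ} (ha : 0 ≤ a) (hb : 0 ≤ b)
    (hab : a + b = 1) (hK : 0 < K) (h1 : a * K ≤ p₁) (h1' : p₁ ≤ a * K + 1) (h2 : b * K ≤ p₂)
    (h2' : p₂ ≤ b * K + 1) (hZ₁ : 0 < Z₁) (hZ₂ : 0 < Z₂) (hx₁ : 0 ≤ x₁) (hx₁' : x₁ ≤ 1)
    (hx₂ : 0 ≤ x₂) (hx₂' : x₂ ≤ 1) (hc₁ : |c₁ / Z₁ - x₁| ≤ δ) (hc₂ : |c₂ / Z₂ - x₂| ≤ δ) :
    |(p₁ * Z₂ * c₁ + p₂ * Z₁ * c₂) / (p₁ * Z₂ * Z₁ + p₂ * Z₁ * Z₂) - (a * x₁ + b * x₂)| ≤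
      δ + 1 / K := by
  have hp₁ : 0 ≤ p₁ := le_trans (by positivity) h1
  have hp₂ : 0 ≤ p₂ := le_trans (by positivity) h2
  have hs : K ≤ p₁ + p₂ := by nlinarith
  have hs0 : 0 < p₁ + p₂ := hK.trans_le hs
  have hw := conv_w ha hb hab hK h1 h1' h2 h2'
  have hδ : 0 ≤ δ := (abs_nonneg _).trans hc₁
  have h3 : (p₁ * Z₂ * c₁ + p₂ * Z₁ * c₂) / (p₁ * Z₂ * Z₁ + p₂ * Z₁ * Z₂) =
      p₁ / (p₁ + p₂) * (c₁ / Z₁) + p₂ / (p₁ + p₂) * (c₂ / Z₂) := by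
    have h4 : p₁ * Z₂ * Z₁ + p₂ * Z₁ * Z₂ = (p₁ + p₂) * (Z₁ * Z₂) := by ring
    rw [h4]
    field_simp
  have hw2 : p₂ / (p₁ + p₂) = 1 - p₁ / (p₁ + p₂) := by
    rw [eq_sub_iff_add_eq, ← add_div, add_comm p₂ p₁, div_self hs0.ne']
  have hw0 : 0 ≤ p₁ / (p₁ + p₂) := div_nonneg hp₁ hs0.le
  have hw0' : 0 ≤ p₂ / (p₁ + p₂) := div_nonneg hp₂ hs0.le
  rw [h3]
  generalize c₁ / Z₁ = t₁ at hc₁ ⊢
  generalize c₂ / Z₂ = t₂ at hc₂ ⊢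
  rw [hw2] at hw0' ⊢
  generalize p₁ / (p₁ + p₂) = w at hw hw0 hw0' ⊢
  have h5 : w * t₁ + (1 - w) * t₂ - (a * x₁ + b * x₂) =
      w * (t₁ - x₁) + (1 - w) * (t₂ - x₂) + (w - a) * (x₁ - x₂) := by
    have : b = 1 - a := by linarith
    rw [this]; ring
  rw [h5]
  have h6 : |w * (t₁ - x₁)| ≤ w * δ := by
    rw [abs_mul, abs_of_nonneg hw0]; exact mul_le_mul_of_nonneg_left hc₁ hw0
  have h7 : |(1 - w) * (t₂ - x₂)| ≤ (1 - w) * δ := by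
    rw [abs_mul, abs_of_nonneg hw0']; exact mul_le_mul_of_nonneg_left hc₂ hw0'
  have h8 : |(w - a) * (x₁ - x₂)| ≤ 1 / K := by
    rw [abs_mul]
    have h9 : |x₁ - x₂| ≤ 1 := by rw [abs_le]; constructor <;> linarith
    calc |w - a| * |x₁ - x₂| ≤ 1 / K * 1 :=
          mul_le_mul hw h9 (abs_nonneg _) (by positivity)
      _ = 1 / K := mul_one _
  calc |w * (t₁ - x₁) + (1 - w) * (t₂ - x₂) + (w - a) * (x₁ - x₂)| ≤
        |w * (t₁ - x₁)| + |(1 - w) * (t₂ - x₂)| + |(w - a) * (x₁ - x₂)| := abs_add_three _ _ _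
    _ ≤ δ + 1 / K := by nlinarith

/-! ### One tree -/

private lemma conv_tree {j : ℕ} (hj : 4 ≤ j) {x y : ℝ} (h : Good j x y) {δ : ℝ} (hδ : 0 < δ)
    (n0 : ℕ) : ∃ (N : ℕ) (F : RF (Fin N)) (r : Fin N), n0 ≤ N ∧ F.IsRt r ∧
      |(cnt (pathGraph j) F.graph : ℝ) / (F.subs j).card - x| ≤ δ ∧
      |(cnt (starG j) F.graph : ℝ) / (F.subs j).card - y| ≤ δ ∧
      ((j * j * (1 + (rts F j r).card) : ℕ) : ℝ) ≤ δ * (F.subs j).card ∧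
      0 < (F.subs j).card := by
  classical
  obtain ⟨n1, hn1⟩ := exists_nat_ge (((j : ℝ) ^ 2 * (j + j ^ 2 * 2 ^ j)) / δ)
  obtain ⟨N, hN, T, hT, hx, hy⟩ := h δ hδ (max n0 (max j (n1 + 1)))
  have hN0 : n0 ≤ N := le_trans (le_max_left _ _) hN
  have hNj : j ≤ N := le_trans (le_trans (le_max_left _ _) (le_max_right _ _)) hN
  have hN1 : n1 + 1 ≤ N := le_trans (le_trans (le_max_right _ _) (le_max_right _ _)) hN
  have hcard : Fintype.card (Fin N) = N := Fintype.card_fin N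
  obtain ⟨v, hv⟩ := exists_few T hT (j := j) (by omega) (by rw [hcard]; exact hNj)
  obtain ⟨F, hF, hFr⟩ := exists_rooted T hT v
  subst hF
  rw [RF.Zc_eq] at hx hy hv
  rw [hcard] at hv
  have h1 : (rts F j v).card ≤
      Set.ncard {U : Finset (Fin N) | U.card < j ∧ v ∈ U ∧ (F.graph.induce (U : Set (Fin N))).IsTree} := by
    rw [← Set.ncard_coe_finset]
    apply Set.ncard_le_ncard _ (Set.toFinite _)
    intro U hU
    rw [Finset.mem_coe] at hU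
    unfold rts at hU
    rw [Finset.mem_filter] at hU
    exact ⟨hU.2.1, hU.2.2.1, (F.induce_isTree_iff U).2 ⟨v, hU.2.2⟩⟩
  have h2 : N ≤ j * (F.subs j).card := by
    have := F.card_le_mul hFr (k := j) (by omega) (by rw [hcard]; exact hNj)
    rwa [hcard] at this
  have hNpos : 0 < N := by omega
  have hZ : 0 < (F.subs j).card := by
    rcases Nat.eq_zero_or_pos (F.subs j).card with h0 | h0
    · rw [h0, mul_zero] at h2; omega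
    · exact h0
  refine ⟨N, F, v, hN0, hFr, hx.le, hy.le, ?_, hZ⟩
  have h3 : N * (1 + (rts F j v).card) ≤ (j + j ^ 2 * 2 ^ j) * (F.subs j).card := by
    have h4 : N * (rts F j v).card ≤ j ^ 2 * 2 ^ j * (F.subs j).card :=
      le_trans (Nat.mul_le_mul_left N h1) hv
    calc N * (1 + (rts F j v).card) = N + N * (rts F j v).card := by ring
      _ ≤ j * (F.subs j).card + j ^ 2 * 2 ^ j * (F.subs j).card := Nat.add_le_add h2 h4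
      _ = (j + j ^ 2 * 2 ^ j) * (F.subs j).card := by ring
  have h3' : (N : ℝ) * (1 + (rts F j v).card) ≤ (j + j ^ 2 * 2 ^ j) * (F.subs j).card := by
    exact_mod_cast h3
  have h5 : ((j : ℝ) ^ 2 * (j + j ^ 2 * 2 ^ j)) ≤ δ * N := by
    rw [div_le_iff₀ hδ] at hn1
    have h6 : (n1 : ℝ) ≤ N := by exact_mod_cast (by omega : n1 ≤ N)
    nlinarith
  have hNr : (0 : ℝ) < N := by exact_mod_cast hNpos
  have hZr : (0 : ℝ) ≤ (F.subs j).card := Nat.cast_nonneg _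
  refine le_of_mul_le_mul_left ?_ hNr
  push_cast
  calc (N : ℝ) * (j * j * (1 + (rts F j v).card)) =
        (j : ℝ) ^ 2 * (N * (1 + (rts F j v).card)) := by ring
    _ ≤ (j : ℝ) ^ 2 * ((j + j ^ 2 * 2 ^ j) * (F.subs j).card) :=
        mul_le_mul_of_nonneg_left h3' (by positivity)
    _ = ((j : ℝ) ^ 2 * (j + j ^ 2 * 2 ^ j)) * (F.subs j).card := by ring
    _ ≤ (δ * N) * (F.subs j).card := mul_le_mul_of_nonneg_right h5 hZr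
    _ = (N : ℝ) * (δ * (F.subs j).card) := by ring

private lemma conv_sum (R₁ R₂ : ℕ) (f : Bool → ℕ) :
    ∑ i : Fin (R₁ + R₂), f (decide (i.val < R₁)) = R₁ * f true + R₂ * f false := by
  rw [Fin.sum_univ_add]
  simp

/-! ### Gluing -/

private lemma conv_glue {j : ℕ} (hj : 4 ≤ j) {x₁ y₁ x₂ y₂ : ℝ} (hg₁ : Good j x₁ y₁)
    (hg₂ : Good j x₂ y₂) (hx₁ : 0 ≤ x₁ ∧ x₁ ≤ 1) (hy₁ : 0 ≤ y₁ ∧ y₁ ≤ 1)
    (hx₂ : 0 ≤ x₂ ∧ x₂ ≤ 1) (hy₂ : 0 ≤ y₂ ∧ y₂ ≤ 1) {a b : ℝ} (ha : 0 ≤ a) (hb : 0 ≤ b)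
    (hab : a + b = 1) : Good j (a * x₁ + b * x₂) (a * y₁ + b * y₂) := by
  classical
  intro ε hε n0
  obtain ⟨δ, hδ, hδε⟩ : ∃ δ : ℝ, 0 < δ ∧ 4 * δ = ε := ⟨ε / 4, by positivity, by ring⟩
  obtain ⟨K, hK0, hK⟩ : ∃ K : ℕ, 0 < K ∧ 1 / (K : ℝ) ≤ δ := by
    obtain ⟨K, hK⟩ := exists_nat_gt (1 / δ)
    have hK' : (0 : ℝ) < K := lt_trans (by positivity) hK
    refine ⟨K, by exact_mod_cast hK', ?_⟩
    rw [div_le_iff₀ hK']
    rw [div_lt_iff₀ hδ] at hK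
    nlinarith
  have hKr : (0 : ℝ) < K := by exact_mod_cast hK0
  obtain ⟨N₁, F₁, r₁, hN₁, hr₁, hp₁, hs₁, he₁, hZ₁⟩ := conv_tree hj hg₁ hδ n0
  obtain ⟨N₂, F₂, r₂, hN₂, hr₂, hp₂, hs₂, he₂, hZ₂⟩ := conv_tree hj hg₂ hδ n0
  -- the family
  obtain ⟨p₁, hp1⟩ : ∃ p₁ : ℕ, p₁ = ⌈a * K⌉₊ := ⟨_, rfl⟩
  obtain ⟨p₂, hp2⟩ : ∃ p₂ : ℕ, p₂ = ⌈b * K⌉₊ := ⟨_, rfl⟩
  have hp1a : a * K ≤ p₁ := by rw [hp1]; exact Nat.le_ceil _
  have hp1b : (p₁ : ℝ) ≤ a * K + 1 := by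
    rw [hp1]; exact (Nat.ceil_lt_add_one (by positivity)).le
  have hp2a : b * K ≤ p₂ := by rw [hp2]; exact Nat.le_ceil _
  have hp2b : (p₂ : ℝ) ≤ b * K + 1 := by
    rw [hp2]; exact (Nat.ceil_lt_add_one (by positivity)).le
  have hpK : (K : ℝ) ≤ p₁ + p₂ := by nlinarith
  have hppos : 0 < p₁ + p₂ := by
    have : (0 : ℝ) < p₁ + p₂ := hKr.trans_le hpK
    exact_mod_cast this
  obtain ⟨Z₁, hZ1⟩ : ∃ Z₁ : ℕ, Z₁ = (F₁.subs j).card := ⟨_, rfl⟩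
  obtain ⟨Z₂, hZ2⟩ : ∃ Z₂ : ℕ, Z₂ = (F₂.subs j).card := ⟨_, rfl⟩
  rw [← hZ1] at hp₁ hs₁ he₁ hZ₁
  rw [← hZ2] at hp₂ hs₂ he₂ hZ₂
  obtain ⟨R₁, hR1⟩ : ∃ R₁ : ℕ, R₁ = p₁ * Z₂ := ⟨_, rfl⟩
  obtain ⟨R₂, hR2⟩ : ∃ R₂ : ℕ, R₂ = p₂ * Z₁ := ⟨_, rfl⟩
  let nn : Bool → ℕ := fun s => if s then N₁ else N₂
  let G : ∀ s : Bool, RF (Fin (nn s)) := fun s => match s with
    | true => F₁
    | false => F₂
  let rr : ∀ s : Bool, Fin (nn s) := fun s => match s with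
    | true => r₁
    | false => r₂
  have hG : ∀ s, (G s).IsRt (rr s) := by
    intro s
    cases s
    · exact hr₂
    · exact hr₁
  have hnn : ∀ s, n0 ≤ nn s := by
    intro s
    cases s
    · exact hN₂
    · exact hN₁
  have hq : 0 < R₁ + R₂ := by
    rw [hR1, hR2]
    rcases Nat.eq_zero_or_pos p₁ with h0 | h0
    · have : 0 < p₂ := by omega
      exact Nat.add_pos_right _ (Nat.mul_pos this hZ₁)
    · exact Nat.add_pos_left (Nat.mul_pos h0 hZ₂) _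
  let β : Fin (R₁ + R₂) → Bool := fun i => decide (i.val < R₁)
  let FF : ∀ i : Fin (R₁ + R₂), RF (Fin (nn (β i))) := fun i => G (β i)
  have h0 : ∀ i v, (FF i).par v = none → (FF i).lev v = 0 := by
    intro i v hv
    have h1 := hG (β i)
    by_cases hvr : v = rr (β i)
    · rw [hvr]; exact h1.2.1
    · obtain ⟨p, hp⟩ := h1.2.2 v hvr
      have : (FF i).par v = some p := hp
      rw [this] at hv
      exact absurd hv (by simp)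
  have hj0 : 0 < j := by omega
  have hrr : ∀ i, (FF i).IsRt (rr (β i)) := fun i => hG (β i)
  have hroot := hw_isRt FF h0 j hj0 (fun i => rr (β i)) hrr hq
  have htree : (hw FF h0 j hj0).graph.IsTree := RF.graph_isTree _ hroot.1 hroot.2.2
  obtain ⟨T', hT', hTc, hTz⟩ := to_fin _ htree
  refine ⟨_, ?_, T', hT', ?_⟩
  · have h2 := hw_card (V := fun i => Fin (nn (β i))) (q := R₁ + R₂) j
    rw [ge_iff_le, h2]
    have h3 : Fintype.card (Fin (nn (β ⟨0, hq⟩))) ≤ ∑ i, Fintype.card (Fin (nn (β i))) :=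
      Finset.single_le_sum (f := fun i => Fintype.card (Fin (nn (β i)))) (fun i _ => Nat.zero_le _)
        (Finset.mem_univ _)
    rw [Fintype.card_fin] at h3
    exact le_trans (hnn _) (le_trans h3 (Nat.le_add_right _ _))
  -- sums
  have hsumE : ∑ i, (1 + (rts (FF i) j (rr (β i))).card) =
      R₁ * (1 + (rts F₁ j r₁).card) + R₂ * (1 + (rts F₂ j r₂).card) :=
    conv_sum R₁ R₂ (fun s => 1 + (rts (G s) j (rr s)).card)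
  have hsumZ : ∑ i, ((FF i).subs j).card = R₁ * Z₁ + R₂ * Z₂ := by
    rw [hZ1, hZ2]
    exact conv_sum R₁ R₂ (fun s => ((G s).subs j).card)
  have hsumC : ∀ S : SimpleGraph (Fin j), ∑ i, cnt S (FF i).graph =
      R₁ * cnt S F₁.graph + R₂ * cnt S F₂.graph := fun S =>
    conv_sum R₁ R₂ (fun s => cnt S (G s).graph)
  have hsubs := hw_subs FF h0 j hj0 (r := fun i => rr (β i)) hrr (j := j) (by omega) le_rfl
  rw [hsumE, hsumZ] at hsubs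
  obtain ⟨E, hEdef⟩ : ∃ E : ℕ, E = j * j * (R₁ * (1 + (rts F₁ j r₁).card) +
    R₂ * (1 + (rts F₂ j r₂).card)) := ⟨_, rfl⟩
  rw [← hEdef] at hsubs
  have hZ1r : (0 : ℝ) < Z₁ := by exact_mod_cast hZ₁
  have hZ2r : (0 : ℝ) < Z₂ := by exact_mod_cast hZ₂
  have hEr : (E : ℝ) ≤ δ * (p₁ * Z₂ * Z₁ + p₂ * Z₁ * Z₂) := by
    have h4 : (E : ℝ) = (R₁ : ℝ) * ((j * j * (1 + (rts F₁ j r₁).card) : ℕ) : ℝ) +
        (R₂ : ℝ) * ((j * j * (1 + (rts F₂ j r₂).card) : ℕ) : ℝ) := by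
      rw [hEdef]; push_cast; ring
    rw [h4]
    have h5 : (R₁ : ℝ) * ((j * j * (1 + (rts F₁ j r₁).card) : ℕ) : ℝ) ≤ R₁ * (δ * Z₁) :=
      mul_le_mul_of_nonneg_left he₁ (Nat.cast_nonneg _)
    have h6 : (R₂ : ℝ) * ((j * j * (1 + (rts F₂ j r₂).card) : ℕ) : ℝ) ≤ R₂ * (δ * Z₂) :=
      mul_le_mul_of_nonneg_left he₂ (Nat.cast_nonneg _)
    have h7 : (R₁ : ℝ) = p₁ * Z₂ := by rw [hR1]; push_cast; ring
    have h8 : (R₂ : ℝ) = p₂ * Z₁ := by rw [hR2]; push_cast; ring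
    rw [h7] at h5 ⊢
    rw [h8] at h6 ⊢
    linarith
  have hR1r : (R₁ : ℝ) = p₁ * Z₂ := by rw [hR1]; push_cast; ring
  have hR2r : (R₂ : ℝ) = p₂ * Z₁ := by rw [hR2]; push_cast; ring
  have hMpos : (0 : ℝ) < p₁ * Z₂ * Z₁ + p₂ * Z₁ * Z₂ := by
    have h9 : (p₁ : ℝ) * Z₂ * Z₁ + p₂ * Z₁ * Z₂ = (p₁ + p₂) * (Z₁ * Z₂) := by ring
    rw [h9]
    have : (0 : ℝ) < p₁ + p₂ := hKr.trans_le hpK
    positivity
  have key : ∀ (S : SimpleGraph (Fin j)), S.IsTree → ∀ u₁ u₂ : ℝ, 0 ≤ u₁ → u₁ ≤ 1 → 0 ≤ u₂ →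
      u₂ ≤ 1 → cnt S F₁.graph ≤ Z₁ → cnt S F₂.graph ≤ Z₂ →
      |(cnt S F₁.graph : ℝ) / Z₁ - u₁| ≤ δ → |(cnt S F₂.graph : ℝ) / Z₂ - u₂| ≤ δ →
      |(cnt S T' : ℝ) / Zc j T' - (a * u₁ + b * u₂)| < ε := by
    intro S hS u₁ u₂ hu1 hu1' hu2 hu2' hc1 hc2 hd1 hd2
    rw [hTc, hTz, RF.Zc_eq]
    have hcnt := hw_cnt FF h0 j hj0 (r := fun i => rr (β i)) hrr (j := j) (by omega) le_rfl hS
    rw [hsumE, hsumC, ← hEdef] at hcnt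
    have hc1r : (cnt S F₁.graph : ℝ) ≤ Z₁ := by exact_mod_cast hc1
    have hc2r : (cnt S F₂.graph : ℝ) ≤ Z₂ := by exact_mod_cast hc2
    have hA1 : (p₁ : ℝ) * Z₂ * cnt S F₁.graph + p₂ * Z₁ * cnt S F₂.graph ≤
        cnt S (hw FF h0 j hj0).graph := by
      have h15 : (R₁ : ℝ) * cnt S F₁.graph + R₂ * cnt S F₂.graph ≤
          cnt S (hw FF h0 j hj0).graph := by exact_mod_cast hcnt.1
      rwa [hR1r, hR2r] at h15
    have hA2 : (cnt S (hw FF h0 j hj0).graph : ℝ) ≤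
        (p₁ : ℝ) * Z₂ * cnt S F₁.graph + p₂ * Z₁ * cnt S F₂.graph + E := by
      have h15 : (cnt S (hw FF h0 j hj0).graph : ℝ) ≤
          (R₁ : ℝ) * cnt S F₁.graph + R₂ * cnt S F₂.graph + E := by exact_mod_cast hcnt.2
      rwa [hR1r, hR2r] at h15
    have hB1 : (p₁ : ℝ) * Z₂ * Z₁ + p₂ * Z₁ * Z₂ ≤ ((hw FF h0 j hj0).subs j).card := by
      have h15 : (R₁ : ℝ) * Z₁ + R₂ * Z₂ ≤ ((hw FF h0 j hj0).subs j).card := by
        exact_mod_cast hsubs.1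
      rwa [hR1r, hR2r] at h15
    have hB2 : (((hw FF h0 j hj0).subs j).card : ℝ) ≤
        (p₁ : ℝ) * Z₂ * Z₁ + p₂ * Z₁ * Z₂ + E := by
      have h15 : (((hw FF h0 j hj0).subs j).card : ℝ) ≤ (R₁ : ℝ) * Z₁ + R₂ * Z₂ + E := by
        exact_mod_cast hsubs.2
      rwa [hR1r, hR2r] at h15
    have hS0 : (0 : ℝ) ≤ (p₁ : ℝ) * Z₂ * cnt S F₁.graph + p₂ * Z₁ * cnt S F₂.graph := by positivity
    have hSM : (p₁ : ℝ) * Z₂ * cnt S F₁.graph + p₂ * Z₁ * cnt S F₂.graph ≤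
        (p₁ : ℝ) * Z₂ * Z₁ + p₂ * Z₁ * Z₂ := by
      have h10 : (p₁ : ℝ) * Z₂ * cnt S F₁.graph ≤ (p₁ : ℝ) * Z₂ * Z₁ :=
        mul_le_mul_of_nonneg_left hc1r (by positivity)
      have h11 : (p₂ : ℝ) * Z₁ * cnt S F₂.graph ≤ (p₂ : ℝ) * Z₁ * Z₂ :=
        mul_le_mul_of_nonneg_left hc2r (by positivity)
      linarith
    have h12 := conv_ratio hMpos hS0 hSM hA1 hA2 hB1 hB2 hEr hδ.le
    have h13 := conv_mid ha hb hab hKr hp1a hp1b hp2a hp2b hZ1r hZ2r hu1 hu1' hu2 hu2' hd1 hd2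
    have h14 := abs_sub_le ((cnt S (hw FF h0 j hj0).graph : ℝ) / ((hw FF h0 j hj0).subs j).card)
      (((p₁ : ℝ) * Z₂ * cnt S F₁.graph + p₂ * Z₁ * cnt S F₂.graph) /
        ((p₁ : ℝ) * Z₂ * Z₁ + p₂ * Z₁ * Z₂)) (a * u₁ + b * u₂)
    linarith
  have hle : ∀ {N : ℕ} (F : RF (Fin N)), cnt (pathGraph j) F.graph ≤ (F.subs j).card ∧
      cnt (starG j) F.graph ≤ (F.subs j).card := by
    intro N F
    have := cnt_path_add_cnt_star_le F.graph hj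
    rw [RF.Zc_eq] at this
    omega
  refine ⟨key _ (pathGraph_isTree (by omega)) x₁ x₂ hx₁.1 hx₁.2 hx₂.1 hx₂.2 ?_ ?_ hp₁ hp₂,
    key _ (starG_isTree (by omega)) y₁ y₂ hy₁.1 hy₁.2 hy₂.1 hy₂.2 ?_ ?_ hs₁ hs₂⟩
  · rw [hZ1]; exact (hle F₁).1
  · rw [hZ2]; exact (hle F₂).1
  · rw [hZ1]; exact (hle F₁).2
  · rw [hZ2]; exact (hle F₂).2

/-- The projection of the limit set is convex: glue many copies of two trees along a highway. -/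
theorem convex_Proj {j : ℕ} (hj : 4 ≤ j) : Convex ℝ (Proj j) := by
  rintro ⟨x₁, y₁⟩ h₁ ⟨x₂, y₂⟩ h₂ a b ha hb hab
  have e : a • (x₁, y₁) + b • (x₂, y₂) = (a * x₁ + b * x₂, a * y₁ + b * y₂) := by
    ext <;> simp
  rw [e]
  have b₁ := Proj_bounds hj h₁
  have b₂ := Proj_bounds hj h₂
  rw [mem_Proj_iff (by omega)] at h₁ h₂ ⊢
  exact conv_glue hj h₁ h₂ ⟨b₁.1, by linarith⟩ ⟨b₁.2.1, by linarith⟩ ⟨b₂.1, by linarith⟩
    ⟨b₂.2.1, by linarith⟩ ha hb hab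

end Pool.Agent.NP
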