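import Pool.Agent.NP.Defs

namespace Pool.Agent.NP

open SimpleGraph

namespace RF

variable {V : Type}

open Classical in
/-- The pruned forest: the edge above `v` is kept iff `v ∈ A` and the level of `v` is not
`-d` modulo `M`; every vertex `v` gets one new leaf `inr v`. -/
noncomputable def cut (T : RF V) (M d : ℕ) (A : Finset V) : RF (V ⊕ V) where
  par := fun x => match x with
    | Sum.inl v => if v ∈ A ∧ (T.lev v + d) % M ≠ 0 then (T.par v).map Sum.inl else none
    | Sum.inr v => some (Sum.inl v)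
  lev := fun x => match x with
    | Sum.inl v => T.lev v
    | Sum.inr v => T.lev v + 1
  hlev := by
    rintro (v | v) w hw
    · dsimp only at hw ⊢
      split_ifs at hw with h
      rw [Option.map_eq_some_iff] at hw
      obtain ⟨p, hp, rfl⟩ := hw
      exact T.hlev v p hp
    · dsimp only at hw ⊢
      have hw' := Option.some.inj hw
      subst hw'
      rfl

/-- All edges of `U` stay in one slab. -/
def Fit (T : RF V) (M d : ℕ) (U : Finset V) : Prop := ∀ x ∈ T.nt U, (T.lev x + d) % M ≠ 0

/-- All edges of `U` are kept. -/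
def Kept (T : RF V) (M d : ℕ) (A : Finset V) (U : Finset V) : Prop :=
  ∀ x ∈ T.nt U, x ∈ A ∧ (T.lev x + d) % M ≠ 0

private theorem cut_par_inl (T : RF V) (M d : ℕ) (A : Finset V) {v : V} {w : V ⊕ V} :
    (T.cut M d A).par (Sum.inl v) = some w ↔
      (v ∈ A ∧ (T.lev v + d) % M ≠ 0) ∧ ∃ p, T.par v = some p ∧ w = Sum.inl p := by
  by_cases h : v ∈ A ∧ (T.lev v + d) % M ≠ 0
  · have e : (T.cut M d A).par (Sum.inl v) = (T.par v).map Sum.inl := if_pos h
    rw [e, Option.map_eq_some_iff]
    constructor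
    · rintro ⟨p, hp, rfl⟩
      exact ⟨h, p, hp, rfl⟩
    · rintro ⟨-, p, hp, rfl⟩
      exact ⟨p, hp, rfl⟩
  · have e : (T.cut M d A).par (Sum.inl v) = none := if_neg h
    rw [e]
    constructor
    · intro h'
      exact absurd h' (by simp)
    · rintro ⟨h', -⟩
      exact absurd h' h

private theorem cut_par_inr (T : RF V) (M d : ℕ) (A : Finset V) (v : V) :
    (T.cut M d A).par (Sum.inr v) = some (Sum.inl v) := rfl

private theorem succ_mod_of_ne {a M : ℕ} (h : (a + 1) % M ≠ 0) (hM : 1 ≤ M) :
    (a + 1) % M = a % M + 1 := by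
  have hr := Nat.mod_lt a (show 0 < M by omega)
  have hd := Nat.div_add_mod a M
  by_cases h1 : a % M + 1 = M
  · exfalso
    apply h
    have : a + 1 = M * (a / M + 1) := by
      rw [Nat.mul_add, Nat.mul_one]
      omega
    rw [this]
    exact Nat.mul_mod_right _ _
  · have h2 : a + 1 = (a % M + 1) + M * (a / M) := by omega
    rw [h2, Nat.add_mul_mod_self_left]
    exact Nat.mod_eq_of_lt (by omega)

private theorem cut_anc (T : RF V) {M : ℕ} (hM : 1 ≤ M) (d : ℕ) (A : Finset V) :
    ∀ (j : ℕ) (v : V) (w : V ⊕ V), (T.cut M d A).anc j (Sum.inl v) = some w →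
      j + 1 ≤ M ∧ ∃ u, w = Sum.inl u ∧ j + (T.lev u + d) % M = (T.lev v + d) % M := by
  intro j
  induction j with
  | zero =>
    intro v w h
    refine ⟨by omega, v, ?_, by omega⟩
    simpa [anc] using h.symm
  | succ j ih =>
    intro v w h
    simp only [anc, Option.bind_eq_some_iff] at h
    obtain ⟨p', hp', hw⟩ := h
    obtain ⟨⟨-, hmod⟩, p, hp, rfl⟩ := (cut_par_inl T M d A).1 hp'
    obtain ⟨-, u, hu, hju⟩ := ih p w hw
    have hl := T.hlev _ _ hp
    have e : T.lev v + d = (T.lev p + d) + 1 := by omega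
    have h2 : (T.lev v + d) % M = (T.lev p + d) % M + 1 := by
      rw [e]
      rw [e] at hmod
      exact succ_mod_of_ne hmod hM
    have h3 := Nat.mod_lt (T.lev v + d) (show 0 < M by omega)
    exact ⟨by omega, u, hu, by omega⟩

theorem cut_ht (T : RF V) {M : ℕ} (hM : 1 ≤ M) (d : ℕ) (A : Finset V) : (T.cut M d A).Ht M := by
  rintro (v | v) j u h
  · have := (T.cut_anc hM d A j v u h).1
    omega
  · cases j with
    | zero => omega
    | succ j =>
      simp only [anc, cut_par_inr, Option.bind_some] at h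
      exact (T.cut_anc hM d A j v u h).1

variable [Fintype V]

private theorem cut_c_inr (T : RF V) (M d : ℕ) (A : Finset V) (v : V) :
    (T.cut M d A).c (Sum.inr v) = 0 := by
  unfold c
  rw [Finset.card_eq_zero, Finset.eq_empty_iff_forall_notMem]
  rintro (x | x) hx
  · rw [mem_ch, cut_par_inl] at hx
    obtain ⟨-, p, -, hp⟩ := hx
    exact absurd hp (by simp)
  · rw [mem_ch, cut_par_inr] at hx
    exact absurd hx (by simp)

open Classical in
private theorem cut_c_inl (T : RF V) (M d : ℕ) (A : Finset V) (v : V) :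
    (T.cut M d A).c (Sum.inl v) ≤ ((T.ch v).filter (fun x => x ∈ A)).card + 1 := by
  unfold c
  have hsub : (T.cut M d A).ch (Sum.inl v) ⊆
      insert (Sum.inr v) (((T.ch v).filter (fun x => x ∈ A)).image Sum.inl) := by
    rintro (x | x) hx
    · rw [mem_ch, cut_par_inl] at hx
      obtain ⟨⟨hA, -⟩, p, hp, hpv⟩ := hx
      have hpv' : v = p := Sum.inl.inj hpv
      subst hpv'
      rw [Finset.mem_insert]
      right
      rw [Finset.mem_image]
      exact ⟨x, Finset.mem_filter.2 ⟨T.mem_ch.2 hp, hA⟩, rfl⟩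
    · rw [mem_ch, cut_par_inr, Option.some.injEq] at hx
      have hx' : x = v := Sum.inl.inj hx
      subst hx'
      exact Finset.mem_insert_self _ _
  refine (Finset.card_le_card hsub).trans ((Finset.card_insert_le _ _).trans ?_)
  exact Nat.add_le_add_right Finset.card_image_le 1

open Classical in
theorem cut_c (T : RF V) (M d : ℕ) (A : Finset V) {k : ℕ} (hk : 2 ≤ k) :
    ∑ w, ((T.cut M d A).c w + 1).choose k ≤
      ∑ v, (((T.ch v).filter (fun x => x ∈ A)).card + 2).choose k := by
  rw [Fintype.sum_sum_type]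
  have h1 : ∑ v : V, ((T.cut M d A).c (Sum.inr v) + 1).choose k = 0 := by
    apply Finset.sum_eq_zero
    intro v _
    rw [cut_c_inr]
    exact Nat.choose_eq_zero_of_lt (by omega)
  rw [h1, add_zero]
  apply Finset.sum_le_sum
  intro v _
  apply Nat.choose_le_choose
  have := T.cut_c_inl M d A v
  omega

omit [Fintype V] in
open Classical in
private theorem cut_sub (T : RF V) (M d : ℕ) (A : Finset V) {U : Finset V} {t : V}
    (ht : T.Sub U t) (hK : T.Kept M d A U) : (T.cut M d A).Sub (U.image Sum.inl) (Sum.inl t) := by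
  refine ⟨Finset.mem_image_of_mem _ ht.1, ?_⟩
  intro y hy hyt
  obtain ⟨x, hx, rfl⟩ := Finset.mem_image.1 hy
  have hxt : x ≠ t := fun h => hyt (by rw [h])
  obtain ⟨p, hp, hpx⟩ := ht.2 x hx hxt
  refine ⟨Sum.inl p, Finset.mem_image_of_mem _ hp, ?_⟩
  rw [cut_par_inl]
  exact ⟨hK x ((T.mem_nt).2 ⟨hx, p, hp, hpx⟩), p, hpx, rfl⟩

omit [Fintype V] in
open Classical in
private theorem cut_sub' (T : RF V) (M d : ℕ) (A : Finset V) {U : Finset V} {t u : V}
    (ht : T.Sub U t) (hK : T.Kept M d A U) (hu : u ∈ U) :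
    (T.cut M d A).Sub (insert (Sum.inr u) (U.image Sum.inl)) (Sum.inl t) := by
  have h := T.cut_sub M d A ht hK
  refine ⟨Finset.mem_insert_of_mem h.1, ?_⟩
  intro y hy hyt
  rcases Finset.mem_insert.1 hy with rfl | hy
  · exact ⟨Sum.inl u, Finset.mem_insert_of_mem (Finset.mem_image_of_mem _ hu), rfl⟩
  · obtain ⟨p, hp, hpy⟩ := h.2 y hy hyt
    exact ⟨p, Finset.mem_insert_of_mem hp, hpy⟩

omit [Fintype V] in
/-- adjacency of old vertices in the pruned forest -/
private theorem cut_adj (T : RF V) (M d : ℕ) (A : Finset V) {x v : V}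
    (h : (T.cut M d A).par (Sum.inl x) = some (Sum.inl v) ∨
      (T.cut M d A).par (Sum.inl v) = some (Sum.inl x)) :
    T.par x = some v ∨ T.par v = some x := by
  rcases h with h | h
  · obtain ⟨-, p, hp, e⟩ := (cut_par_inl T M d A).1 h
    left
    rw [hp, Sum.inl.inj e]
  · obtain ⟨-, p, hp, e⟩ := (cut_par_inl T M d A).1 h
    right
    rw [hp, Sum.inl.inj e]

omit [Fintype V] in
open Classical in
private theorem star_of_cut (T : RF V) (M d : ℕ) (A : Finset V) {U : Finset V} {v : V}
    {W : Finset (V ⊕ V)} (hUW : U.image Sum.inl ⊆ W) (hvU : v ∈ U)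
    (h : ∀ x ∈ W, x ≠ Sum.inl v → (T.cut M d A).par x = some (Sum.inl v) ∨
      (T.cut M d A).par (Sum.inl v) = some x) : T.IsStar U := by
  refine ⟨v, hvU, ?_⟩
  intro x hx hxv
  exact T.cut_adj M d A (h (Sum.inl x) (hUW (Finset.mem_image_of_mem _ hx))
    (fun e => hxv (Sum.inl.inj e)))

open Classical in
/-- Old subtrees with `k + 1` vertices, and old subtrees with `k` vertices plus a new leaf. -/
theorem cut_nst (T : RF V) (M d : ℕ) (A : Finset V) {k : ℕ} (hk : 2 ≤ k) :
    ((T.nst (k + 1)).filter (fun U => T.Kept M d A U)).card +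
      k * ((T.nst k).filter (fun U => T.Kept M d A U)).card ≤
        ((T.cut M d A).nst (k + 1)).card := by
  have hinj : Function.Injective (fun U : Finset V => U.image (Sum.inl : V → V ⊕ V)) :=
    Finset.image_injective Sum.inl_injective
  have hinl : ∀ (U : Finset V) (x : V), (Sum.inl x : V ⊕ V) ∈ U.image Sum.inl ↔ x ∈ U := by
    intro U x
    rw [Finset.mem_image]
    constructor
    · rintro ⟨y, hy, e⟩
      rwa [← Sum.inl.inj e]
    · intro hx
      exact ⟨x, hx, rfl⟩
  have hinr : ∀ (U : Finset V) (x : V), (Sum.inr x : V ⊕ V) ∉ U.image Sum.inl := by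
    intro U x h
    obtain ⟨y, -, e⟩ := Finset.mem_image.1 h
    exact absurd e (by simp)
  have hcard : ∀ U : Finset V, (U.image (Sum.inl : V → V ⊕ V)).card = U.card := fun U =>
    Finset.card_image_of_injective _ Sum.inl_injective
  set A1 := (T.nst (k + 1)).filter (fun U => T.Kept M d A U) with hA1
  set A2 := (T.nst k).filter (fun U => T.Kept M d A U) with hA2
  set B1 := A1.image (fun U => U.image (Sum.inl : V → V ⊕ V)) with hB1
  set g : (Σ _ : Finset V, V) → Finset (V ⊕ V) :=
    fun z => insert (Sum.inr z.2) (z.1.image Sum.inl) with hg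
  set B2 := (A2.sigma (fun U => U)).image g with hB2
  have c1 : B1.card = A1.card := Finset.card_image_of_injective _ hinj
  have ginj : Function.Injective g := by
    rintro ⟨U, u⟩ ⟨U', u'⟩ h
    simp only [hg] at h
    have hu : u = u' := by
      have h1 : (Sum.inr u : V ⊕ V) ∈ insert (Sum.inr u') (U'.image Sum.inl) := by
        rw [← h]
        exact Finset.mem_insert_self _ _
      rcases Finset.mem_insert.1 h1 with h1 | h1
      · exact Sum.inr.inj h1
      · exact absurd h1 (hinr _ _)
    subst hu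
    have hU : U = U' := by
      ext x
      have h1 := Finset.ext_iff.1 h (Sum.inl x)
      simp only [Finset.mem_insert, reduceCtorEq, false_or, hinl] at h1
      exact h1
    subst hU
    rfl
  have c2 : B2.card = k * A2.card := by
    rw [hB2, Finset.card_image_of_injective _ ginj, Finset.card_sigma]
    rw [Finset.sum_const_nat (m := k)]
    · ring
    · intro U hU
      rw [hA2, Finset.mem_filter, mem_nst] at hU
      exact hU.1.1.1
  have hdisj : Disjoint B1 B2 := by
    rw [Finset.disjoint_left]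
    intro W h1 h2
    obtain ⟨U, -, rfl⟩ := Finset.mem_image.1 h1
    obtain ⟨⟨U', u'⟩, -, h3⟩ := Finset.mem_image.1 h2
    simp only [hg] at h3
    apply hinr U u'
    rw [← h3]
    exact Finset.mem_insert_self _ _
  rw [← c1, ← c2, ← Finset.card_union_of_disjoint hdisj]
  apply Finset.card_le_card
  intro W hW
  rw [mem_nst]
  rcases Finset.mem_union.1 hW with hW | hW
  · obtain ⟨U, hU, rfl⟩ := Finset.mem_image.1 hW
    rw [hA1, Finset.mem_filter, mem_nst] at hU
    obtain ⟨⟨⟨hUc, t, ht⟩, hns⟩, hK⟩ := hU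
    refine ⟨⟨by rw [hcard, hUc], Sum.inl t, T.cut_sub M d A ht hK⟩, ?_⟩
    rintro ⟨v, hv, hstar⟩
    obtain ⟨v', hv', rfl⟩ := Finset.mem_image.1 hv
    exact hns (T.star_of_cut M d A (Finset.Subset.refl _) hv' hstar)
  · obtain ⟨⟨U, u⟩, hU, rfl⟩ := Finset.mem_image.1 hW
    rw [Finset.mem_sigma] at hU
    obtain ⟨hU, hu⟩ := hU
    rw [hA2, Finset.mem_filter, mem_nst] at hU
    obtain ⟨⟨⟨hUc, t, ht⟩, hns⟩, hK⟩ := hU
    simp only at hUc ht hns hK hu
    refine ⟨⟨?_, Sum.inl t, T.cut_sub' M d A ht hK hu⟩, ?_⟩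
    · simp only [hg]
      rw [Finset.card_insert_of_notMem (hinr U u), hcard, hUc]
    · rintro ⟨v, hv, hstar⟩
      rcases Finset.mem_insert.1 hv with rfl | hv
      · -- the centre is the new leaf
        have hall : ∀ x ∈ U, x = u := by
          intro x hx
          have h1 := hstar (Sum.inl x)
            (Finset.mem_insert_of_mem ((hinl U x).2 hx)) (by simp)
          rcases h1 with h1 | h1
          · obtain ⟨-, p, -, e⟩ := (cut_par_inl T M d A).1 h1
            exact absurd e (by simp)
          · rw [cut_par_inr, Option.some.injEq] at h1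
            exact (Sum.inl.inj h1).symm
        have : U.card ≤ 1 := Finset.card_le_one.2 (fun x hx y hy => by rw [hall x hx, hall y hy])
        omega
      · obtain ⟨v', hv', rfl⟩ := Finset.mem_image.1 hv
        exact hns (T.star_of_cut M d A (Finset.subset_insert _ _) hv' hstar)

end RF

end Pool.Agent.NP
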