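import Pool.Agent.NP.Avg

namespace Pool.Agent.NP

open SimpleGraph

namespace RF

variable {V : Type} [Fintype V]

/-- A vertex of `U` with a child in `U` for which the number of children is maximal; it depends
on the set `inn U` only. -/
noncomputable def hub [Nonempty V] (F : RF V) (U : Finset V) : V :=
  Classical.epsilon (fun v => v ∈ F.inn U ∧ ∀ u ∈ F.inn U, F.c u ≤ F.c v)

theorem hub_spec [Nonempty V] (F : RF V) {k : ℕ} (hk : 2 ≤ k) {U : Finset V}
    (hU : U ∈ F.subs k) : F.hub U ∈ F.inn U ∧ ∀ u ∈ F.inn U, F.c u ≤ F.c (F.hub U) := by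
  classical
  have hne : (F.inn U).Nonempty := by
    obtain ⟨hc, t, ht⟩ := F.mem_subs.1 hU
    obtain ⟨x, hx, hxt⟩ := Finset.exists_mem_ne (s := U) (by omega) t
    obtain ⟨p, hp, hpx⟩ := ht.2 x hx hxt
    exact ⟨p, F.mem_inn.2 ⟨hp, x, hx, hpx⟩⟩
  obtain ⟨v, hv, hmax⟩ := Finset.exists_max_image (F.inn U) F.c hne
  exact Classical.epsilon_spec (p := fun v => v ∈ F.inn U ∧ ∀ u ∈ F.inn U, F.c u ≤ F.c v)
    ⟨v, hv, hmax⟩

theorem hub_congr [Nonempty V] (F : RF V) {U S : Finset V} (h : F.inn U = F.inn S) :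
    F.hub U = F.hub S := by
  unfold hub
  rw [h]

/-- The bound for the number of bare children. -/
def rho (k i : ℕ) : ℕ := min (k - 2) (i + 1)

omit [Fintype V] in
/-- No vertex of a subtree has a new child of one of its vertices as parent. -/
theorem no_par_new (F : RF V) {S : Finset V} {t v x : V} (hS : F.Sub S t) (hv : v ∈ S)
    (hx : x ∉ S) (hxv : F.par x = some v) : ∀ z ∈ S, F.par z ≠ some x := by
  intro z hz hzx
  by_cases hzt : z = t
  · subst hzt
    have h1 := F.hlev _ _ hzx
    have h2 := F.hlev _ _ hxv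
    by_cases hvz : v = z
    · subst hvz
      omega
    · have := F.lev_top hS v hv hvz
      omega
  · obtain ⟨p, hp, hpz⟩ := hS.2 z hz hzt
    rw [hzx] at hpz
    have := Option.some.inj hpz
    subst this
    exact hx hp

omit [Fintype V] in
theorem inn_insert [DecidableEq V] (F : RF V) {S : Finset V} {t v x : V} (hS : F.Sub S t)
    (hv : v ∈ F.inn S) (hx : x ∉ S) (hxv : F.par x = some v) :
    F.inn (insert x S) = F.inn S := by
  have hvS : v ∈ S := (F.mem_inn.1 hv).1
  have hno := F.no_par_new hS hvS hx hxv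
  ext y
  rw [F.mem_inn, F.mem_inn]
  constructor
  · rintro ⟨hy, z, hz, hzy⟩
    rcases Finset.mem_insert.1 hz with hzx | hzS
    · subst hzx
      rw [hxv] at hzy
      have := Option.some.inj hzy
      subst this
      exact F.mem_inn.1 hv
    · rcases Finset.mem_insert.1 hy with hyx | hyS
      · subst hyx
        exact absurd hzy (hno z hzS)
      · exact ⟨hyS, z, hzS, hzy⟩
  · rintro ⟨hy, z, hz, hzy⟩
    exact ⟨Finset.mem_insert_of_mem hy, z, Finset.mem_insert_of_mem hz, hzy⟩

omit [Fintype V] in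
theorem nt_insert [DecidableEq V] (F : RF V) {S : Finset V} {t v x : V} (hS : F.Sub S t)
    (hv : v ∈ S) (hx : x ∉ S) (hxv : F.par x = some v) :
    F.nt (insert x S) = insert x (F.nt S) := by
  have hno := F.no_par_new hS hv hx hxv
  ext y
  constructor
  · intro hyU
    obtain ⟨hy, p, hp, hpy⟩ := F.mem_nt.1 hyU
    rcases Finset.mem_insert.1 hy with hyx | hyS
    · exact Finset.mem_insert.2 (Or.inl hyx)
    · rcases Finset.mem_insert.1 hp with hpx | hpS
      · subst hpx
        exact absurd hpy (hno y hyS)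
      · exact Finset.mem_insert.2 (Or.inr (F.mem_nt.2 ⟨hyS, p, hpS, hpy⟩))
  · intro hyI
    rcases Finset.mem_insert.1 hyI with hyx | hyS
    · subst hyx
      exact F.mem_nt.2 ⟨Finset.mem_insert_self _ _, v, Finset.mem_insert_of_mem hv, hxv⟩
    · obtain ⟨hy, p, hp, hpy⟩ := F.mem_nt.1 hyS
      exact F.mem_nt.2 ⟨Finset.mem_insert_of_mem hy, p, Finset.mem_insert_of_mem hp, hpy⟩

omit [Fintype V] in
theorem sub_insert [DecidableEq V] (F : RF V) {S : Finset V} {t v x : V} (hS : F.Sub S t)
    (hv : v ∈ S) (hxv : F.par x = some v) : F.Sub (insert x S) t := by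
  refine ⟨Finset.mem_insert_of_mem hS.1, ?_⟩
  intro y hy hyt
  rcases Finset.mem_insert.1 hy with rfl | hy
  · exact ⟨v, Finset.mem_insert_of_mem hv, hxv⟩
  · obtain ⟨p, hp, hpy⟩ := hS.2 y hy hyt
    exact ⟨p, Finset.mem_insert_of_mem hp, hpy⟩

omit [Fintype V] in
theorem not_star_insert [DecidableEq V] (F : RF V) {S : Finset V} {t v x : V} (hS : F.Sub S t)
    (hv : v ∈ F.inn S) (hx : x ∉ S) (hxv : F.par x = some v) (hst : ¬ F.IsStar S) :
    ¬ F.IsStar (insert x S) := by
  have hvS : v ∈ S := (F.mem_inn.1 hv).1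
  have hno := F.no_par_new hS hvS hx hxv
  rintro ⟨w, hw, hall⟩
  rcases Finset.mem_insert.1 hw with rfl | hw
  · -- the centre is the new vertex
    obtain ⟨_, z, hz, hzv⟩ := F.mem_inn.1 hv
    have hzx : z ≠ w := by
      rintro rfl
      exact hx hz
    rcases hall z (Finset.mem_insert_of_mem hz) hzx with h | h
    · exact hno z hz h
    · rw [hxv] at h
      have := Option.some.inj h
      subst this
      exact F.ne_of_par hzv rfl
  · refine hst ⟨w, hw, ?_⟩
    intro y hy hyw
    exact hall y (Finset.mem_insert_of_mem hy) hyw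

omit [Fintype V] in
open Classical in
theorem mem_dn (F : RF V) {U : Finset V} {v : V} {A : Finset V}
    (hA : ∀ y, y ∈ A ↔ y ∈ U ∧ F.par y = some v) : F.dn U v = A.card := by
  unfold dn
  congr 1
  ext y
  exact Finset.mem_filter.trans (hA y).symm

omit [Fintype V] in
theorem dn_insert [DecidableEq V] (F : RF V) {S : Finset V} {v x : V}
    (hx : x ∉ S) (hxv : F.par x = some v) : F.dn (insert x S) v = F.dn S v + 1 := by
  have h0 : ∀ y, y ∈ S.filter (fun y => F.par y = some v) ↔ y ∈ S ∧ F.par y = some v := by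
    intro y
    exact Finset.mem_filter
  have h2 : x ∉ S.filter (fun y => F.par y = some v) := fun h => hx ((h0 x).1 h).1
  rw [F.mem_dn h0, ← Finset.card_insert_of_notMem h2]
  apply F.mem_dn
  intro y
  rw [Finset.mem_insert, h0, Finset.mem_insert]
  constructor
  · rintro (h | ⟨h, h'⟩)
    · subst h
      exact ⟨Or.inl rfl, hxv⟩
    · exact ⟨Or.inr h, h'⟩
  · rintro ⟨h | h, h'⟩
    · exact Or.inl h
    · exact Or.inr ⟨h, h'⟩

open Classical in
/-- The bare children of `v` in `U`. -/
noncomputable def bare (F : RF V) (U : Finset V) (v : V) : Finset V :=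
  U.filter (fun x => F.par x = some v ∧ x ∉ F.inn U)

theorem bare_card (F : RF V) {k : ℕ} (hk : 3 ≤ k) {U : Finset V} (hU : U ∈ F.nst (k + 1))
    {v : V} (hv : v ∈ F.inn U) : (F.bare U v).card ≤ min (k - 2) (F.dn U v) := by
  classical
  obtain ⟨⟨hc, t, ht⟩, hst⟩ := F.mem_nst.1 hU
  have hvU : v ∈ U := (F.mem_inn.1 hv).1
  refine le_min ?_ ?_
  · by_contra hcon
    rw [not_le] at hcon
    apply hst
    -- the rest has at most one element
    have hvB : v ∉ F.bare U v := by
      intro h
      unfold bare at h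
      exact (Finset.mem_filter.1 h).2.2 hv
    have hBU : insert v (F.bare U v) ⊆ U := by
      intro y hy
      rcases Finset.mem_insert.1 hy with rfl | hy
      · exact hvU
      · unfold bare at hy
        exact (Finset.mem_filter.1 hy).1
    have hrest : (U \ insert v (F.bare U v)).card ≤ 1 := by
      rw [Finset.card_sdiff_of_subset hBU, Finset.card_insert_of_notMem hvB]
      omega
    have huniq : ∀ y ∈ U, ∀ z ∈ U, y ∉ insert v (F.bare U v) → z ∉ insert v (F.bare U v) →
        y = z := by
      intro y hy z hz hy' hz'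
      exact Finset.card_le_one.1 hrest y (Finset.mem_sdiff.2 ⟨hy, hy'⟩) z
        (Finset.mem_sdiff.2 ⟨hz, hz'⟩)
    have hbare : ∀ p ∈ F.bare U v, ∀ y ∈ U, F.par y ≠ some p := by
      intro p hp y hy hyp
      unfold bare at hp
      obtain ⟨hpU, _, hp2⟩ := Finset.mem_filter.1 hp
      exact hp2 (F.mem_inn.2 ⟨hpU, y, hy, hyp⟩)
    refine ⟨v, hvU, ?_⟩
    intro z hz hzv
    by_cases hzB : z ∈ F.bare U v
    · left
      unfold bare at hzB
      exact (Finset.mem_filter.1 hzB).2.1
    · have hz' : z ∉ insert v (F.bare U v) := by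
        rw [Finset.mem_insert]
        rintro (h | h)
        · exact hzv h
        · exact hzB h
      by_cases hzt : z = t
      · right
        obtain ⟨p, hp, hpv⟩ := ht.2 v hvU (by
          intro h
          exact hzv (hzt.trans h.symm))
        have hpB : p ∉ insert v (F.bare U v) := by
          rw [Finset.mem_insert]
          rintro (h | h)
          · exact F.ne_of_par hpv h.symm
          · exact hbare p h v hvU hpv
        rw [huniq z hz p hp hz' hpB]
        exact hpv
      · left
        obtain ⟨p, hp, hpz⟩ := ht.2 z hz hzt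
        by_cases hpB : p ∈ insert v (F.bare U v)
        · rcases Finset.mem_insert.1 hpB with rfl | h
          · exact hpz
          · exact absurd hpz (hbare p h z hz)
        · exact absurd (huniq z hz p hp hz' hpB) (F.ne_of_par hpz)
  · unfold bare dn
    apply Finset.card_le_card
    intro y hy
    rw [Finset.mem_filter] at hy ⊢
    exact ⟨hy.1, hy.2.1⟩

open Classical in
/-- Double counting of pairs (`S`, child of the hub of `S` outside `S`). -/
theorem double_count [Nonempty V] (F : RF V) {k : ℕ} (hk : 3 ≤ k) (M d : ℕ) (s : V → ℝ)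
    (hs : ∀ v, 0 ≤ s v ∧ s v ≤ 1) :
    ∑ S ∈ (F.nst k).filter (fun U => F.Fit M d U),
        F.sg s S * (((F.c (F.hub S) : ℝ) - F.dn S (F.hub S)) * s (F.hub S) /
          rho k (F.dn S (F.hub S))) ≤
      ∑ U ∈ (F.nst (k + 1)).filter (fun U => F.Fit M d U), F.sg s U := by
  classical
  have hsg : ∀ U, 0 ≤ F.sg s U := by
    intro U
    unfold sg
    apply Finset.prod_nonneg
    intro x _
    unfold sp
    split
    · exact (hs _).1
    · exact zero_le_one
  -- facts for one pair
  have key : ∀ S ∈ (F.nst k).filter (fun U => F.Fit M d U), ∀ x ∈ F.ch (F.hub S) \ S,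
      insert x S ∈ (F.nst (k + 1)).filter (fun U => F.Fit M d U) ∧
      F.hub (insert x S) = F.hub S ∧ x ∈ F.bare (insert x S) (F.hub (insert x S)) ∧
      F.sg s S * (s (F.hub S) / rho k (F.dn S (F.hub S))) =
        F.sg s (insert x S) /
          ((min (k - 2) (F.dn (insert x S) (F.hub (insert x S))) : ℕ) : ℝ) := by
    intro S hS x hx
    obtain ⟨hSn, hSF⟩ := Finset.mem_filter.1 hS
    obtain ⟨⟨hc, t, ht⟩, hst⟩ := F.mem_nst.1 hSn
    have hSs : S ∈ F.subs k := F.mem_subs.2 ⟨hc, t, ht⟩
    have hhub := (F.hub_spec (by omega) hSs).1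
    have hhS : F.hub S ∈ S := (F.mem_inn.1 hhub).1
    obtain ⟨hx1, hx2⟩ := Finset.mem_sdiff.1 hx
    have hxv : F.par x = some (F.hub S) := F.mem_ch.1 hx1
    have hinn := F.inn_insert ht hhub hx2 hxv
    have hnt := F.nt_insert ht hhS hx2 hxv
    have hhe : F.hub (insert x S) = F.hub S := F.hub_congr hinn
    have hxnt : x ∉ F.nt S := fun h => hx2 (F.mem_nt.1 h).1
    refine ⟨?_, hhe, ?_, ?_⟩
    · rw [Finset.mem_filter]
      refine ⟨F.mem_nst.2 ⟨⟨?_, t, F.sub_insert ht hhS hxv⟩,
        F.not_star_insert ht hhub hx2 hxv hst⟩, ?_⟩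
      · rw [Finset.card_insert_of_notMem hx2, hc]
      · intro y hy
        rw [hnt] at hy
        rcases Finset.mem_insert.1 hy with rfl | hy
        · obtain ⟨_, z, hz, hzv⟩ := F.mem_inn.1 hhub
          have h1 := F.hlev _ _ hxv
          have h2 := F.hlev _ _ hzv
          have h3 := hSF z (F.mem_nt.2 ⟨hz, _, hhS, hzv⟩)
          rw [h2] at h3
          rw [h1]
          exact h3
        · exact hSF y hy
    · unfold bare
      rw [Finset.mem_filter]
      refine ⟨Finset.mem_insert_self _ _, ?_, ?_⟩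
      · rw [hhe]
        exact hxv
      · rw [hinn]
        intro h
        exact hx2 (F.mem_inn.1 h).1
    · rw [hhe, F.dn_insert hx2 hxv]
      have : F.sg s (insert x S) = s (F.hub S) * F.sg s S := by
        unfold sg
        rw [hnt, Finset.prod_insert hxnt]
        congr 1
        unfold sp
        rw [hxv]
      rw [this]
      unfold rho
      ring
  -- rewrite the left hand side
  have hL : ∑ S ∈ (F.nst k).filter (fun U => F.Fit M d U),
        F.sg s S * (((F.c (F.hub S) : ℝ) - F.dn S (F.hub S)) * s (F.hub S) /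
          rho k (F.dn S (F.hub S))) =
      ∑ S ∈ (F.nst k).filter (fun U => F.Fit M d U), ∑ x ∈ F.ch (F.hub S) \ S,
        F.sg s (insert x S) /
          ((min (k - 2) (F.dn (insert x S) (F.hub (insert x S))) : ℕ) : ℝ) := by
    apply Finset.sum_congr rfl
    intro S hS
    have h1 : ∑ x ∈ F.ch (F.hub S) \ S,
        F.sg s (insert x S) /
          ((min (k - 2) (F.dn (insert x S) (F.hub (insert x S))) : ℕ) : ℝ) =
        ∑ x ∈ F.ch (F.hub S) \ S, F.sg s S * (s (F.hub S) / rho k (F.dn S (F.hub S))) := by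
      apply Finset.sum_congr rfl
      intro x hx
      exact (key S hS x hx).2.2.2.symm
    rw [h1, Finset.sum_const, nsmul_eq_mul]
    have h2 : (F.ch (F.hub S) ∩ S).card = F.dn S (F.hub S) := by
      unfold dn
      congr 1
      ext y
      rw [Finset.mem_inter, F.mem_ch, Finset.mem_filter]
      exact and_comm
    have h3 := Finset.card_sdiff_add_card_inter (F.ch (F.hub S)) S
    rw [h2] at h3
    have h4 : ((F.ch (F.hub S) \ S).card : ℝ) = (F.c (F.hub S) : ℝ) - F.dn S (F.hub S) := by
      unfold c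
      rw [← h3]
      push_cast
      ring
    rw [h4]
    ring
  rw [hL, Finset.sum_sigma']
  rw [← Finset.sum_fiberwise_of_maps_to (t := (F.nst (k + 1)).filter (fun U => F.Fit M d U))
    (g := fun q : (_ : Finset V) × V => insert q.2 q.1)]
  · apply Finset.sum_le_sum
    intro U hU
    obtain ⟨hUn, _⟩ := Finset.mem_filter.1 hU
    obtain ⟨⟨hUc, hUt⟩, _⟩ := F.mem_nst.1 hUn
    have hhub := (F.hub_spec (k := k + 1) (by omega) (F.mem_subs.2 ⟨hUc, hUt⟩)).1
    have hb := F.bare_card hk hUn hhub
    set r : ℕ := min (k - 2) (F.dn U (F.hub U)) with hr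
    set fib := ((((F.nst k).filter (fun U => F.Fit M d U)).sigma
      (fun S => F.ch (F.hub S) \ S)).filter (fun q => insert q.2 q.1 = U)) with hfib
    have hsum : ∑ q ∈ fib, F.sg s (insert q.2 q.1) /
          ((min (k - 2) (F.dn (insert q.2 q.1) (F.hub (insert q.2 q.1))) : ℕ) : ℝ) =
        (fib.card : ℝ) * (F.sg s U / (r : ℝ)) := by
      rw [← nsmul_eq_mul, ← Finset.sum_const]
      apply Finset.sum_congr rfl
      intro q hq
      have hqU : insert q.2 q.1 = U := (Finset.mem_filter.1 hq).2
      rw [hqU]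
    rw [hsum]
    have hcard : fib.card ≤ r := by
      refine le_trans ?_ hb
      apply Finset.card_le_card_of_injOn (fun q => q.2)
      · intro q hq
        obtain ⟨hq1, hq2⟩ := Finset.mem_filter.1 (Finset.mem_coe.1 hq)
        obtain ⟨hq3, hq4⟩ := Finset.mem_sigma.1 hq1
        have h := (key q.1 hq3 q.2 hq4).2.2.1
        rw [hq2] at h
        exact h
      · intro q hq q' hq' hqq
        obtain ⟨hq1, hq2⟩ := Finset.mem_filter.1 (Finset.mem_coe.1 hq)
        obtain ⟨hq3, hq4⟩ := Finset.mem_sigma.1 hq1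
        obtain ⟨hq1', hq2'⟩ := Finset.mem_filter.1 (Finset.mem_coe.1 hq')
        obtain ⟨hq3', hq4'⟩ := Finset.mem_sigma.1 hq1'
        have e1 : q.2 ∉ q.1 := (Finset.mem_sdiff.1 hq4).2
        have e2 : q'.2 ∉ q'.1 := (Finset.mem_sdiff.1 hq4').2
        have hqq2 : q.2 = q'.2 := hqq
        have h5 : q.1 = q'.1 := by
          have a1 : (insert q.2 q.1).erase q.2 = q.1 := Finset.erase_insert e1
          have a2 : (insert q'.2 q'.1).erase q'.2 = q'.1 := Finset.erase_insert e2
          rw [← a1, ← a2, hq2, hq2', hqq2]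
        obtain ⟨q1, q2⟩ := q
        obtain ⟨q1', q2'⟩ := q'
        simp only at hqq2 h5
        subst hqq2
        subst h5
        rfl
    rcases Nat.eq_zero_or_pos r with h0 | hpos
    · rw [h0] at hcard
      have : fib.card = 0 := by omega
      rw [this]
      simpa using hsg U
    · have hrp : (0 : ℝ) < r := by exact_mod_cast hpos
      have hcr : (fib.card : ℝ) ≤ r := by exact_mod_cast hcard
      calc (fib.card : ℝ) * (F.sg s U / (r : ℝ)) ≤ (r : ℝ) * (F.sg s U / (r : ℝ)) :=
            mul_le_mul_of_nonneg_right hcr (div_nonneg (hsg U) hrp.le)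
        _ = F.sg s U := by
            field_simp
  · intro q hq
    obtain ⟨hq3, hq4⟩ := Finset.mem_sigma.1 hq
    exact (key q.1 hq3 q.2 hq4).1

end RF

end Pool.Agent.NP
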