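import Mathlib

/-!
# Limit profiles of trees and their path-star projections (MP_b0d93d_co)
-/

namespace Pool.Agent.NP

open SimpleGraph

/-- The star with `k` vertices: vertex `0` is joined to all the others. -/
def starG (k : ℕ) : SimpleGraph (Fin k) := SimpleGraph.fromRel (fun i _ => i.val = 0)

/-- The number of subtrees of `T` isomorphic to `S`: the number of vertex sets `U` whose induced
subgraph is isomorphic to `S`. -/
noncomputable def cnt {k : ℕ} {V : Type} (S : SimpleGraph (Fin k)) (T : SimpleGraph V) : ℕ :=
  Set.ncard {U : Finset V | Nonempty (T.induce (U : Set V) ≃g S)}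

/-- The number of subtrees of `T` with `k` vertices. -/
noncomputable def Zc {V : Type} (k : ℕ) (T : SimpleGraph V) : ℕ :=
  Set.ncard {U : Finset V | U.card = k ∧ (T.induce (U : Set V)).IsTree}

open Classical in
/-- The `k`-profile of `T`: the density of each tree `S` among all `k`-vertex subtrees of `T`. -/
noncomputable def profile (k : ℕ) {V : Type} (T : SimpleGraph V) (S : SimpleGraph (Fin k)) : ℝ :=
  if S.IsTree then (cnt S T : ℝ) / Zc k T else 0

/-- The limit set of `k`-profiles of trees whose number of vertices tends to infinity. -/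
def Delta (k : ℕ) : Set (SimpleGraph (Fin k) → ℝ) :=
  {p | ∃ (N : ℕ → ℕ) (T : ∀ i, SimpleGraph (Fin (N i))), (∀ i, (T i).IsTree) ∧
    Filter.Tendsto N Filter.atTop Filter.atTop ∧
    Filter.Tendsto (fun i => profile k (T i)) Filter.atTop (nhds p)}

/-- The projection of the limit set to the densities of the path and of the star. -/
def Proj (k : ℕ) : Set (ℝ × ℝ) :=
  {z | ∃ p ∈ Delta k, z = (p (pathGraph k), p (starG k))}

/-! ### Rooted forests -/

/-- A rooted forest on `V`: a parent function together with a level function. -/
structure RF (V : Type) where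
  par : V → Option V
  lev : V → ℕ
  hlev : ∀ v p, par v = some p → lev v = lev p + 1

namespace RF

variable {V : Type}

theorem ne_of_par (F : RF V) {v p : V} (h : F.par v = some p) : v ≠ p := by
  intro e
  subst e
  have := F.hlev _ _ h
  omega

/-- The underlying graph of a rooted forest. -/
def graph (F : RF V) : SimpleGraph V where
  Adj u v := F.par u = some v ∨ F.par v = some u
  symm := ⟨fun _ _ h => h.symm⟩
  loopless := ⟨fun _ h => by
    rcases h with h | h
    · exact F.ne_of_par h rfl
    · exact F.ne_of_par h rfl⟩

/-- `r` is the unique root and has level `0`: the forest is a tree. -/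
def IsRt (F : RF V) (r : V) : Prop :=
  F.par r = none ∧ F.lev r = 0 ∧ ∀ v, v ≠ r → ∃ p, F.par v = some p

/-- `U` is a subtree with top vertex `t`. -/
def Sub (F : RF V) (U : Finset V) (t : V) : Prop :=
  t ∈ U ∧ ∀ x ∈ U, x ≠ t → ∃ p ∈ U, F.par x = some p

/-- The `j`-th ancestor. -/
def anc (F : RF V) : ℕ → V → Option V
  | 0, v => some v
  | j + 1, v => (F.par v).bind (F.anc j)

/-- Some vertex of `U` is adjacent to all the others. -/
def IsStar (F : RF V) (U : Finset V) : Prop :=
  ∃ v ∈ U, ∀ x ∈ U, x ≠ v → F.par x = some v ∨ F.par v = some x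

/-- All levels of ancestors: the forest has height at most `M`. -/
def Ht (F : RF V) (M : ℕ) : Prop := ∀ v j u, F.anc j v = some u → j ≤ M

open Classical in
/-- The elements of `U` whose parent is in `U` (all elements but the top one for a subtree). -/
noncomputable def nt (F : RF V) (U : Finset V) : Finset V :=
  U.filter (fun x => ∃ p ∈ U, F.par x = some p)

open Classical in
/-- The elements of `U` with a child in `U`. -/
noncomputable def inn (F : RF V) (U : Finset V) : Finset V :=
  U.filter (fun v => ∃ x ∈ U, F.par x = some v)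

open Classical in
/-- The number of children of `v` in `U`. -/
noncomputable def dn (F : RF V) (U : Finset V) (v : V) : ℕ :=
  (U.filter (fun x => F.par x = some v)).card

variable [Fintype V]

open Classical in
/-- The subtrees with `k` vertices. -/
noncomputable def subs (F : RF V) (k : ℕ) : Finset (Finset V) :=
  Finset.univ.filter (fun U => U.card = k ∧ ∃ t, F.Sub U t)

open Classical in
/-- The subtrees with `k` vertices which are not stars. -/
noncomputable def nst (F : RF V) (k : ℕ) : Finset (Finset V) :=
  (F.subs k).filter (fun U => ¬ F.IsStar U)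

open Classical in
/-- The subtrees with `k` vertices which are stars. -/
noncomputable def sts (F : RF V) (k : ℕ) : Finset (Finset V) :=
  (F.subs k).filter (fun U => F.IsStar U)

open Classical in
/-- The children of `v`. -/
noncomputable def ch (F : RF V) (v : V) : Finset V :=
  Finset.univ.filter (fun x => F.par x = some v)

/-- The number of children of `v`. -/
noncomputable def c (F : RF V) (v : V) : ℕ := (F.ch v).card

open Classical in
/-- The vertices outside `U` whose parent is in `U`. -/
noncomputable def ext (F : RF V) (U : Finset V) : Finset V :=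
  Finset.univ.filter (fun x => x ∉ U ∧ ∃ p ∈ U, F.par x = some p)

/-- The path count. -/
noncomputable def P (F : RF V) (k : ℕ) : ℕ := cnt (pathGraph k) F.graph

/-! ### Basic lemmas -/

theorem mem_subs (F : RF V) {k : ℕ} {U : Finset V} :
    U ∈ F.subs k ↔ U.card = k ∧ ∃ t, F.Sub U t := by
  classical
  simp [subs]

theorem mem_nst (F : RF V) {k : ℕ} {U : Finset V} :
    U ∈ F.nst k ↔ (U.card = k ∧ ∃ t, F.Sub U t) ∧ ¬ F.IsStar U := by
  classical
  simp [nst, mem_subs]

theorem mem_sts (F : RF V) {k : ℕ} {U : Finset V} :
    U ∈ F.sts k ↔ (U.card = k ∧ ∃ t, F.Sub U t) ∧ F.IsStar U := by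
  classical
  simp [sts, mem_subs]

theorem mem_ch (F : RF V) {v x : V} : x ∈ F.ch v ↔ F.par x = some v := by
  classical
  simp [ch]

theorem mem_ext (F : RF V) {U : Finset V} {x : V} :
    x ∈ F.ext U ↔ x ∉ U ∧ ∃ p ∈ U, F.par x = some p := by
  classical
  simp [ext]

omit [Fintype V] in
theorem mem_nt (F : RF V) {U : Finset V} {x : V} :
    x ∈ F.nt U ↔ x ∈ U ∧ ∃ p ∈ U, F.par x = some p := by
  classical
  simp [nt]

omit [Fintype V] in
theorem mem_inn (F : RF V) {U : Finset V} {v : V} :
    v ∈ F.inn U ↔ v ∈ U ∧ ∃ x ∈ U, F.par x = some v := by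
  classical
  simp [inn]

omit [Fintype V] in
/-- The top vertex has the smallest level, strictly. -/
theorem lev_top (F : RF V) {U : Finset V} {t : V} (h : F.Sub U t) :
    ∀ x ∈ U, x ≠ t → F.lev t < F.lev x := by
  have key : ∀ n, ∀ x ∈ U, F.lev x = n → x ≠ t → F.lev t < F.lev x := by
    intro n
    induction n using Nat.strong_induction_on with
    | _ n ih =>
      intro x hx hn hxt
      obtain ⟨p, hp, hpx⟩ := h.2 x hx hxt
      have h1 := F.hlev _ _ hpx
      by_cases hpt : p = t
      · subst hpt
        omega
      · have := ih (F.lev p) (by omega) p hp rfl hpt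
        omega
  intro x hx hxt
  exact key _ x hx rfl hxt

omit [Fintype V] in
theorem top_unique (F : RF V) {U : Finset V} {t t' : V} (h : F.Sub U t) (h' : F.Sub U t') :
    t = t' := by
  by_contra hne
  have h1 := F.lev_top h t' h'.1 (Ne.symm hne)
  have h2 := F.lev_top h' t h.1 hne
  omega

omit [Fintype V] in
/-- The parent of the top vertex is not in `U`. -/
theorem par_top_notMem (F : RF V) {U : Finset V} {t p : V} (h : F.Sub U t)
    (hp : F.par t = some p) : p ∉ U := by
  intro hpU
  have h1 := F.hlev _ _ hp
  have hne : p ≠ t := (F.ne_of_par hp).symm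
  have := F.lev_top h p hpU hne
  omega

omit [Fintype V] in
/-- For a subtree, `nt U` is `U` without the top. -/
theorem mem_nt_iff (F : RF V) {U : Finset V} {t : V} (h : F.Sub U t) {x : V} :
    x ∈ F.nt U ↔ x ∈ U ∧ x ≠ t := by
  rw [mem_nt]
  constructor
  · rintro ⟨hx, p, hp, hpx⟩
    refine ⟨hx, ?_⟩
    rintro rfl
    exact F.par_top_notMem h hpx hp
  · rintro ⟨hx, hxt⟩
    exact ⟨hx, h.2 x hx hxt⟩

omit [Fintype V] in
/-- Every element of a subtree has the top as an ancestor. -/
theorem exists_anc_top (F : RF V) {U : Finset V} {t : V} (h : F.Sub U t) :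
    ∀ x ∈ U, F.anc (F.lev x - F.lev t) x = some t := by
  have key : ∀ n, ∀ x ∈ U, F.lev x = n → F.anc (F.lev x - F.lev t) x = some t := by
    intro n
    induction n using Nat.strong_induction_on with
    | _ n ih =>
      intro x hx hn
      by_cases hxt : x = t
      · subst hxt
        simp [anc]
      · obtain ⟨p, hp, hpx⟩ := h.2 x hx hxt
        have h1 := F.hlev _ _ hpx
        have h2 := ih (F.lev p) (by omega) p hp rfl
        have h3 := F.lev_top h x hx hxt
        have h4 : F.lev x - F.lev t = (F.lev p - F.lev t) + 1 := by omega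
        rw [h4]
        simp [anc, hpx, h2]
  intro x hx
  exact key _ x hx rfl

end RF

end Pool.Agent.NP
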