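import Pool.Agent.NP.PathB
import Pool.Agent.NP.Ext

namespace Pool.Agent.NP

open SimpleGraph

namespace Ends

variable {V : Type}

/-- Levels along ancestors. -/
theorem anc_lev (F : RF V) : ∀ (i : ℕ) (v u : V), F.anc i v = some u → F.lev v = F.lev u + i := by
  intro i
  induction i with
  | zero =>
    intro v u h
    have : v = u := by
      simpa [RF.anc] using h
    rw [this, Nat.add_zero]
  | succ i ih =>
    intro v u h
    rcases hp : F.par v with _ | p
    · simp [RF.anc, hp] at h
    · have h' : F.anc i p = some u := by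
        simpa [RF.anc, hp] using h
      have h1 := F.hlev v p hp
      have h2 := ih p u h'
      omega

/-- The chain from `v` up to its `i`-th ancestor. -/
theorem chain (F : RF V) : ∀ (i : ℕ) (v u : V), F.anc i v = some u →
    ∃ U : Finset V, U.card = i + 1 ∧ F.Sub U u ∧ v ∈ U ∧ ∀ x ∈ U, F.lev x ≤ F.lev v := by
  classical
  intro i
  induction i with
  | zero =>
    intro v u h
    have h1 : v = u := by
      simpa [RF.anc] using h
    subst h1
    refine ⟨{v}, by simp, ⟨by simp, ?_⟩, by simp, by simp⟩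
    intro x hx hxv
    exact absurd (Finset.mem_singleton.mp hx) hxv
  | succ i ih =>
    intro v u h
    rcases hp : F.par v with _ | p
    · simp [RF.anc, hp] at h
    · have h' : F.anc i p = some u := by
        simpa [RF.anc, hp] using h
      obtain ⟨U, hc, hs, hpU, hl⟩ := ih p u h'
      have h1 := F.hlev v p hp
      have hv : v ∉ U := by
        intro hv
        have := hl v hv
        omega
      refine ⟨insert v U, by rw [Finset.card_insert_of_notMem hv, hc], ⟨?_, ?_⟩, by simp, ?_⟩
      · exact Finset.mem_insert_of_mem hs.1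
      · intro x hx hxu
        rcases Finset.mem_insert.mp hx with rfl | hx
        · exact ⟨p, Finset.mem_insert_of_mem hpU, hp⟩
        · obtain ⟨q, hq, hqx⟩ := hs.2 x hx hxu
          exact ⟨q, Finset.mem_insert_of_mem hq, hqx⟩
      · intro x hx
        rcases Finset.mem_insert.mp hx with rfl | hx
        · exact le_rfl
        · have := hl x hx
          omega

variable [Fintype V]

open Classical in
/-- Vertices of level `j` all of whose proper ancestors have fewer than `D` children. -/
noncomputable def Gd (F : RF V) (D j : ℕ) : Finset V :=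
  Finset.univ.filter (fun v => F.lev v = j ∧ ∀ i u, 1 ≤ i → F.anc i v = some u → F.c u < D)

theorem mem_Gd {F : RF V} {D j : ℕ} {v : V} :
    v ∈ Gd F D j ↔ F.lev v = j ∧ ∀ i u, 1 ≤ i → F.anc i v = some u → F.c u < D := by
  classical
  simp [Gd]

theorem card_Gd (F : RF V) {r : V} (hr : F.IsRt r) (D : ℕ) :
    ∀ j, (Gd F D j).card ≤ D ^ j := by
  classical
  intro j
  induction j with
  | zero =>
    rw [pow_zero]
    apply Finset.card_le_one.mpr
    have key : ∀ v ∈ Gd F D 0, v = r := by
      intro v hv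
      by_contra hne
      obtain ⟨p, hp⟩ := hr.2.2 v hne
      have h1 := F.hlev v p hp
      have h2 := (mem_Gd.mp hv).1
      omega
    intro a ha b hb
    rw [key a ha, key b hb]
  | succ j ih =>
    have hsub : Gd F D (j + 1) ⊆ ((Gd F D j).filter (fun p => F.c p < D)).biUnion F.ch := by
      intro v hv
      obtain ⟨h1, h2⟩ := mem_Gd.mp hv
      have hvr : v ≠ r := by
        intro e
        rw [e, hr.2.1] at h1
        omega
      obtain ⟨p, hp⟩ := hr.2.2 v hvr
      have h3 := F.hlev v p hp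
      rw [Finset.mem_biUnion]
      refine ⟨p, ?_, F.mem_ch.mpr hp⟩
      rw [Finset.mem_filter, mem_Gd]
      refine ⟨⟨by omega, ?_⟩, ?_⟩
      · intro i u hi hu
        refine h2 (i + 1) u (by omega) ?_
        simp [RF.anc, hp, hu]
      · refine h2 1 p le_rfl ?_
        simp [RF.anc, hp]
    calc (Gd F D (j + 1)).card
        ≤ (((Gd F D j).filter (fun p => F.c p < D)).biUnion F.ch).card := Finset.card_le_card hsub
      _ ≤ ((Gd F D j).filter (fun p => F.c p < D)).card * D := by
          refine Finset.card_biUnion_le_card_mul _ _ _ ?_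
          intro p hp
          exact (Finset.mem_filter.mp hp).2.le
      _ ≤ (Gd F D j).card * D := Nat.mul_le_mul_right _ (Finset.card_filter_le _ _)
      _ ≤ D ^ j * D := Nat.mul_le_mul_right _ ih
      _ = D ^ (j + 1) := (pow_succ _ _).symm

open Classical in
/-- Vertices of small level with a proper ancestor with at least `D` children. -/
noncomputable def Bd (F : RF V) (k D : ℕ) : Finset V :=
  Finset.univ.filter (fun v => F.lev v + 1 < k ∧ ∃ i u, 1 ≤ i ∧ F.anc i v = some u ∧ D ≤ F.c u)

theorem mem_Bd {F : RF V} {k D : ℕ} {v : V} :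
    v ∈ Bd F k D ↔ F.lev v + 1 < k ∧ ∃ i u, 1 ≤ i ∧ F.anc i v = some u ∧ D ≤ F.c u := by
  classical
  simp [Bd]

open Classical in
theorem many (F : RF V) {r : V} (hr : F.IsRt r) {k D : ℕ} (hk : 4 ≤ k)
    (hn : k ≤ Fintype.card V) {v : V} (hv : v ∈ Bd F k D) :
    D - k ≤ ((F.subs k).filter (fun U => v ∈ U)).card := by
  obtain ⟨h1, i, u, hi, hu, hD⟩ := mem_Bd.mp hv
  obtain ⟨U0, hc0, hs0, hv0, hl0⟩ := chain F i v u hu
  have hlev := anc_lev F i v u hu
  have hsub0 : U0 ∈ F.subs (i + 1) := F.mem_subs.mpr ⟨hc0, u, hs0⟩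
  obtain ⟨W, hW, hUW⟩ := F.exists_ext hr (i := i + 1) (k := k - 1) (by omega) (by omega) hsub0
  obtain ⟨hWc, t, hWt⟩ := F.mem_subs.mp hW
  have huW : u ∈ W := hUW hs0.1
  have hvW : v ∈ W := hUW hv0
  have hcard : D - k ≤ (F.ch u \ W).card := by
    have h2 := Finset.le_card_sdiff W (F.ch u)
    have h3 : F.c u = (F.ch u).card := rfl
    omega
  refine hcard.trans ?_
  refine Finset.card_le_card_of_injOn (fun w => insert w W) ?_ ?_
  · intro w hw
    have hw' := Finset.mem_sdiff.mp (Finset.mem_coe.mp hw)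
    have hpw := F.mem_ch.mp hw'.1
    rw [Finset.mem_coe, Finset.mem_filter]
    refine ⟨F.mem_subs.mpr ⟨?_, t, ?_, ?_⟩, Finset.mem_insert_of_mem hvW⟩
    · rw [Finset.card_insert_of_notMem hw'.2, hWc]
      omega
    · exact Finset.mem_insert_of_mem hWt.1
    · intro x hx hxt
      rcases Finset.mem_insert.mp hx with rfl | hx
      · exact ⟨u, Finset.mem_insert_of_mem huW, hpw⟩
      · obtain ⟨q, hq, hqx⟩ := hWt.2 x hx hxt
        exact ⟨q, Finset.mem_insert_of_mem hq, hqx⟩
  · intro w hw w' hw' hww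
    have hw1 := Finset.mem_sdiff.mp (Finset.mem_coe.mp hw)
    have hww' : insert w W = insert w' W := hww
    have : w ∈ insert w' W := by
      rw [← hww']; exact Finset.mem_insert_self _ _
    rcases Finset.mem_insert.mp this with h | h
    · exact h
    · exact absurd h hw1.2

theorem card_Bd (F : RF V) {r : V} (hr : F.IsRt r) {k D : ℕ} (hk : 4 ≤ k)
    (hn : k ≤ Fintype.card V) : (Bd F k D).card * (D - k) ≤ (F.subs k).card * k := by
  classical
  have h1 : (Bd F k D).card * (D - k) ≤ ∑ t ∈ F.subs k, (Bd F k D ∩ t).card := by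
    refine Finset.le_sum_card_inter ?_
    intro v hv
    have := many F hr hk hn hv
    exact this
  refine h1.trans ?_
  refine (Finset.sum_le_card_nsmul _ _ k ?_).trans (le_of_eq (smul_eq_mul _ _))
  intro t ht
  have := (F.mem_subs.mp ht).1
  calc (Bd F k D ∩ t).card ≤ t.card := Finset.card_le_card Finset.inter_subset_right
    _ = k := this

theorem card_split (F : RF V) {r : V} (hr : F.IsRt r) {k D : ℕ} (hk : 4 ≤ k) (hD : 1 ≤ D) :
    Fintype.card V ≤ F.P k + (Bd F k D).card + k * D ^ k := by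
  classical
  have h1 := F.path_lower hr (k := k) (by omega)
  have hcov : (Finset.univ : Finset V) ⊆
      (Finset.univ.filter (fun v => k ≤ F.lev v + 1)) ∪ Bd F k D ∪
        (Finset.range k).biUnion (fun j => Gd F D j) := by
    intro v _
    rw [Finset.mem_union, Finset.mem_union, Finset.mem_filter, Finset.mem_biUnion, mem_Bd]
    by_cases ha : k ≤ F.lev v + 1
    · exact Or.inl (Or.inl ⟨Finset.mem_univ _, ha⟩)
    · by_cases hb : ∃ i u, 1 ≤ i ∧ F.anc i v = some u ∧ D ≤ F.c u
      · exact Or.inl (Or.inr ⟨by omega, hb⟩)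
      · refine Or.inr ⟨F.lev v, Finset.mem_range.mpr (by omega), mem_Gd.mpr ⟨rfl, ?_⟩⟩
        intro i u hi hu
        by_contra hc
        exact hb ⟨i, u, hi, hu, by omega⟩
  have h2 : ((Finset.range k).biUnion (fun j => Gd F D j)).card ≤ k * D ^ k := by
    have := Finset.card_biUnion_le_card_mul (Finset.range k) (fun j => Gd F D j) (D ^ k) ?_
    · rwa [Finset.card_range] at this
    · intro j hj
      exact (card_Gd F hr D j).trans (Nat.pow_le_pow_right hD (Finset.mem_range.mp hj).le)
  have h3 := Finset.card_le_card hcov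
  have h4 := Finset.card_union_le ((Finset.univ.filter (fun v => k ≤ F.lev v + 1)) ∪ Bd F k D)
    ((Finset.range k).biUnion (fun j => Gd F D j))
  have h5 := Finset.card_union_le (Finset.univ.filter (fun v => k ≤ F.lev v + 1)) (Bd F k D)
  rw [Finset.card_univ] at h3
  omega

end Ends

/-- Almost all vertices are the lowest vertex of a vertical path with `k` vertices; the vertices
of level at most `k - 2` are few compared with the number of subtrees. -/
theorem ends {k : ℕ} (hk : 4 ≤ k) {ε : ℝ} (hε : 0 < ε) :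
    ∃ n1 : ℕ, ∀ (V : Type) [Fintype V] (F : RF V) (r : V), F.IsRt r → n1 ≤ Fintype.card V →
      (Fintype.card V : ℝ) - ε * ((F.subs k).card : ℝ) ≤ (F.P k : ℝ) := by
  obtain ⟨E, hE⟩ := exists_nat_ge (2 * (k : ℝ) / ε)
  set D : ℕ := k + E + 1 with hD
  obtain ⟨N, hN⟩ := exists_nat_ge (2 * (k : ℝ) * ((k * D ^ k : ℕ) : ℝ) / ε)
  refine ⟨k + N, ?_⟩
  intro V _ F r hr hn
  have hkn : k ≤ Fintype.card V := by omega
  have h1 := Ends.card_split F hr (k := k) (D := D) hk (by omega)
  have h2 := Ends.card_Bd F hr (k := k) (D := D) hk hkn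
  have h3 := F.card_le_mul hr (k := k) (by omega) hkn
  have hDk : D - k = E + 1 := by omega
  rw [hDk] at h2
  have hk0 : (0 : ℝ) < k := by
    have : 0 < k := by omega
    exact_mod_cast this
  -- real versions
  have r1 : (Fintype.card V : ℝ) ≤ F.P k + ((Ends.Bd F k D).card : ℝ) + ((k * D ^ k : ℕ) : ℝ) := by
    exact_mod_cast h1
  have r2 : ((Ends.Bd F k D).card : ℝ) * ((E : ℝ) + 1) ≤ ((F.subs k).card : ℝ) * k := by
    exact_mod_cast h2
  have r3 : (Fintype.card V : ℝ) ≤ k * ((F.subs k).card : ℝ) := by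
    exact_mod_cast h3
  have r4 : ((k : ℝ) + N) ≤ (Fintype.card V : ℝ) := by
    exact_mod_cast hn
  set Z : ℝ := ((F.subs k).card : ℝ) with hZ
  set Bc : ℝ := ((Ends.Bd F k D).card : ℝ) with hBc
  set M : ℝ := ((k * D ^ k : ℕ) : ℝ) with hM
  have hZ0 : 0 ≤ Z := by rw [hZ]; positivity
  have hB0 : 0 ≤ Bc := by rw [hBc]; positivity
  -- `Bc ≤ (ε / 2) Z`
  have s1 : Bc ≤ ε / 2 * Z := by
    have t1 : 2 * (k : ℝ) ≤ E * ε := by
      rwa [div_le_iff₀ hε] at hE
    have t2 : Bc * (E : ℝ) ≤ Z * k := by nlinarith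
    have t3 : Bc * (2 * (k : ℝ)) ≤ Bc * (E * ε) := mul_le_mul_of_nonneg_left t1 hB0
    have t4 : Bc * (E * ε) ≤ Z * k * ε := by
      have := mul_le_mul_of_nonneg_right t2 hε.le
      linarith
    have t5 : Bc * 2 * (k : ℝ) ≤ (Z * ε) * k := by linarith
    have t6 : Bc * 2 ≤ Z * ε := le_of_mul_le_mul_right t5 hk0
    linarith
  -- `M ≤ (ε / 2) Z`
  have s2 : M ≤ ε / 2 * Z := by
    have t1 : 2 * (k : ℝ) * M ≤ N * ε := by
      rwa [div_le_iff₀ hε] at hN
    have t2 : (N : ℝ) ≤ k * Z := by linarith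
    have t3 : (N : ℝ) * ε ≤ k * Z * ε := mul_le_mul_of_nonneg_right t2 hε.le
    have t4 : (2 * M) * (k : ℝ) ≤ (Z * ε) * k := by linarith
    have t5 : 2 * M ≤ Z * ε := le_of_mul_le_mul_right t4 hk0
    linarith
  linarith

end Pool.Agent.NP
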