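import Pool.Agent.NP.Defs

namespace Pool.Agent.NP

open SimpleGraph

/-- `a X + (b + m) Y ≥ m` on the limit set at level `k + 1`, in terms of counts. -/
def Fun1 (k : ℕ) (a b m : ℝ) : Prop :=
  ∀ ε > (0 : ℝ), ∃ n0 : ℕ, ∀ (V : Type) [Fintype V] (F : RF V) (r : V), F.IsRt r →
    n0 ≤ Fintype.card V →
    -(ε * ((F.subs (k + 1)).card : ℝ)) ≤
      a * (F.P (k + 1) : ℝ) + b * ((F.sts (k + 1)).card : ℝ) - m * ((F.nst (k + 1)).card : ℝ)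

/-- There are large trees with `a X + (b + m) Y ≤ m - η` at level `k`; the root is a leaf. -/
def Fun2 (k : ℕ) (a b m : ℝ) : Prop :=
  ∃ η > (0 : ℝ), ∀ n0 : ℕ, ∃ (N : ℕ) (F : RF (Fin N)) (r : Fin N), n0 ≤ N ∧ F.IsRt r ∧
    F.c r ≤ 1 ∧
    a * (F.P k : ℝ) + b * ((F.sts k).card : ℝ) - m * ((F.nst k).card : ℝ) ≤
      -(η * ((F.subs k).card : ℝ))

end Pool.Agent.NP
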