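import Pool.Agent.NP.Defs

namespace Pool.Agent.NP

open SimpleGraph

/-- The highway: the path with vertices `0, ..., q L - 1`, rooted at `0`; the root of the `i`-th
tree is attached to the vertex `i L`. -/
noncomputable def hw {q : ℕ} {V : Fin q → Type} (F : ∀ i, RF (V i))
    (h0 : ∀ i v, (F i).par v = none → (F i).lev v = 0) (L : ℕ) (hL : 0 < L) :
    RF ((Σ i, V i) ⊕ Fin (q * L)) where
  par := fun x => match x with
    | Sum.inl ⟨i, v⟩ => match (F i).par v with
      | some p => some (Sum.inl ⟨i, p⟩)
      | none => some (Sum.inr ⟨i.val * L, Nat.mul_lt_mul_of_pos_right i.isLt hL⟩)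
    | Sum.inr l => if l.val = 0 then none else some (Sum.inr ⟨l.val - 1, by omega⟩)
  lev := fun x => match x with
    | Sum.inl ⟨i, v⟩ => i.val * L + 1 + (F i).lev v
    | Sum.inr l => l.val
  hlev := by
    rintro (⟨i, v⟩ | l) w hw
    · dsimp only at hw ⊢
      split at hw
      · rename_i p hp
        have hw' := Option.some.inj hw
        subst hw'
        have := (F i).hlev v p hp
        simp only [this]
        ring
      · rename_i hp
        have hw' := Option.some.inj hw
        subst hw'
        have := h0 i v hp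
        simp only [this]
    · dsimp only at hw ⊢
      split_ifs at hw with h
      have hw' := Option.some.inj hw
      subst hw'
      simp only
      omega

open Classical in
/-- The subtrees with fewer than `j` vertices which contain the root. -/
noncomputable def rts {V : Type} [Fintype V] (F : RF V) (j : ℕ) (r : V) : Finset (Finset V) :=
  Finset.univ.filter (fun U => U.card < j ∧ F.Sub U r)

section

variable {q : ℕ} {V : Fin q → Type} [∀ i, Fintype (V i)] (F : ∀ i, RF (V i))
  (h0 : ∀ i v, (F i).par v = none → (F i).lev v = 0) (L : ℕ) (hL : 0 < L)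

theorem hw_isRt (r : ∀ i, V i) (hr : ∀ i, (F i).IsRt (r i)) (hq : 0 < q) :
    (hw F h0 L hL).IsRt (Sum.inr ⟨0, Nat.mul_pos hq hL⟩) := by
  have _ := hr
  refine ⟨?_, rfl, ?_⟩
  · simp only [hw, if_true]
  · rintro (⟨i, v⟩ | l) hv
    · rcases hp : (F i).par v with _ | p
      · refine ⟨Sum.inr ⟨i.val * L, Nat.mul_lt_mul_of_pos_right i.isLt hL⟩, ?_⟩
        simp only [hw, hp]
      · refine ⟨Sum.inl ⟨i, p⟩, ?_⟩
        simp only [hw, hp]
    · have hl : l.val ≠ 0 := by
        intro h
        apply hv
        congr 1
        exact Fin.ext h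
      refine ⟨Sum.inr ⟨l.val - 1, by omega⟩, ?_⟩
      simp only [hw, if_neg hl]

theorem hw_card : Fintype.card ((Σ i, V i) ⊕ Fin (q * L)) = ∑ i, Fintype.card (V i) + q * L := by
  rw [Fintype.card_sum, Fintype.card_sigma, Fintype.card_fin]

end

end Pool.Agent.NP
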