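import Pool.Agent.NP.Bridge

namespace Pool.Agent.NP

open SimpleGraph

/-- The path as a rooted forest. -/
private def pbRF (k : ℕ) : RF (Fin k) where
  par i := if h : i.val = 0 then none else some ⟨i.val - 1, by omega⟩
  lev i := i.val
  hlev := by
    intro v p h
    by_cases h0 : v.val = 0
    · simp [h0] at h
    · simp only [h0, dite_false, Option.some.injEq] at h
      subst h
      show v.val = v.val - 1 + 1
      omega

private theorem pbRF_graph (k : ℕ) : (pbRF k).graph = pathGraph k := by
  ext u v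
  rw [pathGraph_adj]
  show ((pbRF k).par u = some v ∨ (pbRF k).par v = some u) ↔ _
  have key : ∀ a b : Fin k, (pbRF k).par a = some b ↔ b.val + 1 = a.val := by
    intro a b
    show (if h : a.val = 0 then none else some (⟨a.val - 1, by omega⟩ : Fin k)) = some b ↔ _
    by_cases h0 : a.val = 0
    · simp [h0]
    · simp only [h0, dite_false, Option.some.injEq, Fin.ext_iff]
      omega
  rw [key, key]
  tauto

private theorem pb_pathTree {k : ℕ} (hk : 1 ≤ k) : (pathGraph k).IsTree := by
  rw [← pbRF_graph]
  refine RF.graph_isTree (pbRF k) (r := ⟨0, hk⟩) ?_ ?_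
  · show (if h : (0 : ℕ) = 0 then none else some (⟨0 - 1, by omega⟩ : Fin k)) = none
    simp
  · intro v hv
    have h0 : v.val ≠ 0 := fun h => hv (Fin.ext h)
    refine ⟨⟨v.val - 1, by omega⟩, ?_⟩
    show (if h : v.val = 0 then none else some (⟨v.val - 1, by omega⟩ : Fin k)) = _
    simp [h0]

namespace RF

variable {V : Type}

open Classical in
/-- The vertical chain with `j + 1` vertices and lowest vertex `v`. -/
private noncomputable def pbChn (F : RF V) : ℕ → V → Finset V
  | 0, v => {v}
  | j + 1, v => match F.par v with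
    | none => {v}
    | some p => insert v (pbChn F j p)

private theorem pbChn_spec (F : RF V) {r : V} (hr : F.IsRt r) : ∀ (j : ℕ) (v : V), j ≤ F.lev v →
    ∃ t, F.Sub (pbChn F j v) t ∧ (pbChn F j v).card = j + 1 ∧
      (∀ x ∈ pbChn F j v, F.lev x ≤ F.lev v) ∧
      (∀ x ∈ pbChn F j v, ∀ y ∈ pbChn F j v, F.lev x = F.lev y → x = y) ∧ v ∈ pbChn F j v := by
  classical
  intro j
  induction j with
  | zero =>
    intro v _
    refine ⟨v, ⟨by simp [pbChn], ?_⟩, by simp [pbChn], ?_, ?_, by simp [pbChn]⟩
    · intro x hx hxv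
      simp only [pbChn, Finset.mem_singleton] at hx
      exact absurd hx hxv
    · intro x hx
      simp only [pbChn, Finset.mem_singleton] at hx
      rw [hx]
    · intro x hx y hy _
      simp only [pbChn, Finset.mem_singleton] at hx hy
      rw [hx, hy]
  | succ j ih =>
    intro v hv
    have hvr : v ≠ r := by
      rintro rfl
      have := hr.2.1
      omega
    obtain ⟨p, hp⟩ := hr.2.2 v hvr
    have hl := F.hlev _ _ hp
    obtain ⟨t, h1, h2, h3, h4, h5⟩ := ih p (by omega)
    have hU : pbChn F (j + 1) v = insert v (pbChn F j p) := by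
      simp only [pbChn, hp]
    have hnot : v ∉ pbChn F j p := by
      intro h
      have := h3 v h
      omega
    rw [hU]
    refine ⟨t, ⟨Finset.mem_insert_of_mem h1.1, ?_⟩, ?_, ?_, ?_, Finset.mem_insert_self _ _⟩
    · intro x hx hxt
      rcases Finset.mem_insert.1 hx with rfl | hx
      · exact ⟨p, Finset.mem_insert_of_mem h5, hp⟩
      · obtain ⟨q, hq, hq2⟩ := h1.2 x hx hxt
        exact ⟨q, Finset.mem_insert_of_mem hq, hq2⟩
    · rw [Finset.card_insert_of_notMem hnot, h2]
    · intro x hx
      rcases Finset.mem_insert.1 hx with rfl | hx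
      · exact le_refl _
      · have := h3 x hx
        omega
    · intro x hx y hy hxy
      rcases Finset.mem_insert.1 hx with hx1 | hx1 <;> rcases Finset.mem_insert.1 hy with hy1 | hy1
      · rw [hx1, hy1]
      · have := h3 y hy1
        rw [hx1] at hxy
        omega
      · have := h3 x hx1
        rw [hy1] at hxy
        omega
      · exact h4 x hx1 y hy1 hxy

variable [Fintype V]

omit [Fintype V] in
/-- A subtree in which all levels are different (a vertical chain) induces a path. -/
private theorem pb_chain_path (F : RF V) {U : Finset V} {t : V} (h : F.Sub U t)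
    (hinj : ∀ x ∈ U, ∀ y ∈ U, F.lev x = F.lev y → x = y) :
    Nonempty (F.graph.induce (U : Set V) ≃g pathGraph U.card) := by
  classical
  have hle : ∀ x ∈ U, F.lev t ≤ F.lev x := by
    intro x hx
    by_cases hxt : x = t
    · rw [hxt]
    · exact (F.lev_top h x hx hxt).le
  set S : Finset ℕ := U.image (fun x => F.lev x - F.lev t) with hS
  have hScard : S.card = U.card := by
    rw [hS]
    apply Finset.card_image_of_injOn
    intro x hx y hy hxy
    have h1 := hle x hx
    have h2 := hle y hy
    simp only at hxy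
    exact hinj x hx y hy (by omega)
  have hdown : ∀ n, n ∈ S → Finset.range (n + 1) ⊆ S := by
    intro n
    induction n with
    | zero =>
      intro h0 m hm
      have : m = 0 := by
        have := Finset.mem_range.1 hm
        omega
      rw [this]
      exact h0
    | succ n ih =>
      intro hn m hm
      obtain ⟨x, hx, hxn⟩ := Finset.mem_image.1 hn
      have hxt : x ≠ t := by
        rintro rfl
        omega
      obtain ⟨p, hp, hpx⟩ := h.2 x hx hxt
      have hl := F.hlev _ _ hpx
      have hnS : n ∈ S := Finset.mem_image.2 ⟨p, hp, by omega⟩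
      rcases Nat.lt_succ_iff_lt_or_eq.1 (Finset.mem_range.1 hm) with h3 | h3
      · exact ih hnS (Finset.mem_range.2 h3)
      · rw [h3]
        exact hn
  have hlt : ∀ x ∈ U, F.lev x - F.lev t < U.card := by
    intro x hx
    have h1 : F.lev x - F.lev t ∈ S := Finset.mem_image.2 ⟨x, hx, rfl⟩
    have h2 := Finset.card_le_card (hdown _ h1)
    rw [Finset.card_range, hScard] at h2
    omega
  let f : ((U : Set V) : Type) → Fin U.card := fun x => ⟨F.lev x.1 - F.lev t, hlt x.1 x.2⟩
  have hf : Function.Injective f := by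
    intro x y hxy
    have h1 := hle x.1 x.2
    have h2 := hle y.1 y.2
    have h3 : F.lev x.1 - F.lev t = F.lev y.1 - F.lev t := congrArg Fin.val hxy
    exact Subtype.ext (hinj x.1 x.2 y.1 y.2 (by omega))
  have hfb : Function.Bijective f := by
    rw [Fintype.bijective_iff_injective_and_card]
    exact ⟨hf, by simp⟩
  have hpar : ∀ x ∈ U, ∀ y ∈ U, F.lev y + 1 = F.lev x → F.par x = some y := by
    intro x hx y hy hxy
    have hxt : x ≠ t := by
      rintro rfl
      have := hle y hy
      omega
    obtain ⟨p, hp, hpx⟩ := h.2 x hx hxt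
    have hl := F.hlev _ _ hpx
    rw [hpx, hinj p hp y hy (by omega)]
  refine ⟨⟨Equiv.ofBijective f hfb, ?_⟩⟩
  intro x y
  rw [pathGraph_adj]
  show (F.lev x.1 - F.lev t + 1 = F.lev y.1 - F.lev t ∨
    F.lev y.1 - F.lev t + 1 = F.lev x.1 - F.lev t) ↔
    (F.par x.1 = some y.1 ∨ F.par y.1 = some x.1)
  have h1 := hle x.1 x.2
  have h2 := hle y.1 y.2
  constructor
  · rintro (h3 | h3)
    · exact Or.inr (hpar y.1 y.2 x.1 x.2 (by omega))
    · exact Or.inl (hpar x.1 x.2 y.1 y.2 (by omega))
  · rintro (h3 | h3)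
    · have := F.hlev _ _ h3
      omega
    · have := F.hlev _ _ h3
      omega

/-- Each vertex of level at least `k - 1` is the lowest vertex of a vertical path with `k`
vertices, and different vertices give different paths. -/
theorem path_lower (F : RF V) {r : V} (hr : F.IsRt r) {k : ℕ} (hk : 1 ≤ k) :
    (Finset.univ.filter (fun v => k ≤ F.lev v + 1)).card ≤ F.P k := by
  classical
  have hspec : ∀ v ∈ Finset.univ.filter (fun v => k ≤ F.lev v + 1), ∃ t,
      F.Sub (pbChn F (k - 1) v) t ∧ (pbChn F (k - 1) v).card = k - 1 + 1 ∧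
      (∀ x ∈ pbChn F (k - 1) v, F.lev x ≤ F.lev v) ∧
      (∀ x ∈ pbChn F (k - 1) v, ∀ y ∈ pbChn F (k - 1) v, F.lev x = F.lev y → x = y) ∧
      v ∈ pbChn F (k - 1) v := by
    intro v hv
    exact pbChn_spec F hr (k - 1) v (by have := (Finset.mem_filter.1 hv).2; omega)
  rw [← Finset.card_image_of_injOn (f := fun v => pbChn F (k - 1) v) ?_,
    ← Set.ncard_coe_finset]
  · apply Set.ncard_le_ncard _ (Set.toFinite _)
    intro U hU
    obtain ⟨v, hv, rfl⟩ := Finset.mem_image.1 (Finset.mem_coe.1 hU)
    obtain ⟨t, h1, h2, h3, h4, h5⟩ := hspec v hv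
    have h6 := pb_chain_path F h1 h4
    rw [h2] at h6
    have h7 : k - 1 + 1 = k := by omega
    rw [h7] at h6
    exact h6
  · intro v hv w hw hvw
    obtain ⟨t, h1, h2, h3, h4, h5⟩ := hspec v hv
    obtain ⟨t', h1', h2', h3', h4', h5'⟩ := hspec w hw
    have hvw' : pbChn F (k - 1) v = pbChn F (k - 1) w := hvw
    have ha : w ∈ pbChn F (k - 1) v := by
      rw [hvw']
      exact h5'
    have hb : v ∈ pbChn F (k - 1) w := by
      rw [← hvw']
      exact h5
    exact h4 v h5 w ha (le_antisymm (h3' v hb) (h3 w ha))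

/-- A set which induces a path is a subtree, and each vertex has at most two neighbours in it. -/
theorem path_imp (F : RF V) {k : ℕ} (hk : 1 ≤ k) {U : Finset V}
    (h : Nonempty (F.graph.induce (U : Set V) ≃g pathGraph k)) :
    U ∈ F.subs k ∧ ∀ v ∈ U, ∀ x ∈ U, ∀ y ∈ U, ∀ z ∈ U, F.graph.Adj v x → F.graph.Adj v y →
      F.graph.Adj v z → x = y ∨ y = z ∨ x = z := by
  classical
  obtain ⟨e⟩ := h
  constructor
  · rw [mem_subs]
    refine ⟨?_, (F.induce_isTree_iff U).1 (e.isTree_iff.2 (pb_pathTree hk))⟩
    have := Fintype.card_congr e.toEquiv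
    simpa using this
  · intro v hv x hx y hy z hz h1 h2 h3
    have key : ∀ w (hw : w ∈ U), F.graph.Adj v w →
        ((e ⟨v, hv⟩).val + 1 = (e ⟨w, hw⟩).val ∨ (e ⟨w, hw⟩).val + 1 = (e ⟨v, hv⟩).val) := by
      intro w hw hadj
      have h4 : (F.graph.induce (U : Set V)).Adj ⟨v, hv⟩ ⟨w, hw⟩ := hadj
      have h5 := e.map_adj_iff.2 h4
      rwa [pathGraph_adj] at h5
    have inj : ∀ w (hw : w ∈ U) w' (hw' : w' ∈ U), (e ⟨w, hw⟩).val = (e ⟨w', hw'⟩).val →
        w = w' := by
      intro w hw w' hw' h4
      have h5 := e.injective (Fin.ext h4)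
      exact congrArg Subtype.val h5
    have kx := key x hx h1
    have ky := key y hy h2
    have kz := key z hz h3
    by_cases e1 : (e ⟨x, hx⟩).val = (e ⟨y, hy⟩).val
    · exact Or.inl (inj x hx y hy e1)
    · by_cases e2 : (e ⟨y, hy⟩).val = (e ⟨z, hz⟩).val
      · exact Or.inr (Or.inl (inj y hy z hz e2))
      · refine Or.inr (Or.inr (inj x hx z hz ?_))
        omega

/-- A subtree in which all levels are different (a vertical chain) induces a path. -/
theorem chain_path (F : RF V) {U : Finset V} {t : V} (h : F.Sub U t)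
    (hinj : ∀ x ∈ U, ∀ y ∈ U, F.lev x = F.lev y → x = y) :
    Nonempty (F.graph.induce (U : Set V) ≃g pathGraph U.card) :=
  pb_chain_path F h hinj

end RF

end Pool.Agent.NP
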