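import Pool.Agent.NP.Hw
import Pool.Agent.NP.PathB

namespace Pool.Agent.NP

open SimpleGraph

/-! ### General lemmas on subtrees in which each vertex has at most two neighbours -/

namespace HwPath

variable {W : Type} (T : RF W)

/-- Each vertex of `U` has at most two neighbours in `U`. -/
def Deg2 (U : Finset W) : Prop :=
  ∀ v ∈ U, ∀ x ∈ U, ∀ y ∈ U, ∀ z ∈ U, T.graph.Adj v x → T.graph.Adj v y →
      T.graph.Adj v z → x = y ∨ y = z ∨ x = z

theorem child_unique {U : Finset W} {t : W} (h : T.Sub U t) (hd : Deg2 T U) {x y z : W}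
    (hx : x ∈ U) (hxt : x ≠ t) (hy : y ∈ U) (hz : z ∈ U) (hpy : T.par y = some x)
    (hpz : T.par z = some x) : y = z := by
  obtain ⟨p, hp, hpx⟩ := h.2 x hx hxt
  have h1 := T.hlev _ _ hpx
  have h2 := T.hlev _ _ hpy
  have h3 := T.hlev _ _ hpz
  rcases hd x hx p hp y hy z hz (Or.inl hpx) (Or.inr hpy) (Or.inr hpz) with e | e | e
  · subst e
    omega
  · exact e
  · subst e
    omega

open Classical in
theorem card_level {U : Finset W} {t : W} (h : T.Sub U t) (hd : Deg2 T U) :
    ∀ n, (U.filter (fun x => T.lev x = T.lev t + (n + 1))).card ≤ 2 := by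
  intro n
  induction n with
  | zero =>
    by_contra hcon
    push Not at hcon
    obtain ⟨a, ha, b, hb, c, hc, hab, hac, hbc⟩ := Finset.two_lt_card.mp hcon
    have key : ∀ x ∈ U.filter (fun x => T.lev x = T.lev t + (0 + 1)), x ∈ U ∧ T.par x = some t := by
      intro x hx
      rw [Finset.mem_filter] at hx
      refine ⟨hx.1, ?_⟩
      have hne : x ≠ t := by
        rintro rfl
        omega
      obtain ⟨p, hp, hpx⟩ := h.2 x hx.1 hne
      have h1 := T.hlev _ _ hpx
      by_cases hpt : p = t
      · rw [← hpt]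
        exact hpx
      · have := T.lev_top h p hp hpt
        omega
    obtain ⟨haU, hpa⟩ := key a ha
    obtain ⟨hbU, hpb⟩ := key b hb
    obtain ⟨hcU, hpc⟩ := key c hc
    rcases hd t h.1 a haU b hbU c hcU (Or.inr hpa) (Or.inr hpb) (Or.inr hpc) with e | e | e
    · exact hab e
    · exact hbc e
    · exact hac e
  | succ n ih =>
    have hpar : ∀ x ∈ U.filter (fun x => T.lev x = T.lev t + (n + 1 + 1)),
        ∃ p ∈ U, T.par x = some p ∧ T.lev p = T.lev t + (n + 1) := by
      intro x hx
      rw [Finset.mem_filter] at hx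
      have hne : x ≠ t := by
        rintro rfl
        omega
      obtain ⟨p, hp, hpx⟩ := h.2 x hx.1 hne
      have h1 := T.hlev _ _ hpx
      exact ⟨p, hp, hpx, by omega⟩
    choose f hf using hpar
    refine le_trans ?_ ih
    refine Finset.card_le_card_of_injOn (fun x => if hx : x ∈ U.filter
        (fun x => T.lev x = T.lev t + (n + 1 + 1)) then f x hx else x) ?_ ?_
    · intro x hx
      have hx' := Finset.mem_coe.mp hx
      simp only [hx', dif_pos]
      have := hf x hx'
      rw [Finset.mem_coe, Finset.mem_filter]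
      exact ⟨this.1, this.2.2⟩
    · intro x hx y hy hxy
      have hx' := Finset.mem_coe.mp hx
      have hy' := Finset.mem_coe.mp hy
      simp only [hx', hy', dif_pos] at hxy
      have h1 := hf x hx'
      have h2 := hf y hy'
      rw [← hxy] at h2
      refine child_unique T h hd h1.1 ?_ (Finset.mem_filter.mp hx').1
        (Finset.mem_filter.mp hy').1 h1.2.1 h2.2.1
      intro e
      have h3 := h1.2.2
      rw [e] at h3
      omega

open Classical in
/-- A subtree of bounded height with at most two neighbours for each vertex is small. -/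
theorem card_le {U : Finset W} {t : W} (h : T.Sub U t) (hd : Deg2 T U) {M : ℕ}
    (hM : ∀ x ∈ U, T.lev x ≤ T.lev t + M) : U.card ≤ 2 * M + 1 := by
  have hsub : U ⊆ insert t ((Finset.range M).biUnion
      (fun n => U.filter (fun x => T.lev x = T.lev t + (n + 1)))) := by
    intro x hx
    by_cases hxt : x = t
    · rw [hxt]
      exact Finset.mem_insert_self _ _
    · refine Finset.mem_insert_of_mem ?_
      rw [Finset.mem_biUnion]
      have h1 := T.lev_top h x hx hxt
      have h2 := hM x hx
      refine ⟨T.lev x - T.lev t - 1, ?_, ?_⟩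
      · rw [Finset.mem_range]
        omega
      · rw [Finset.mem_filter]
        exact ⟨hx, by omega⟩
  have h1 := Finset.card_le_card hsub
  have h2 := Finset.card_insert_le t ((Finset.range M).biUnion
      (fun n => U.filter (fun x => T.lev x = T.lev t + (n + 1))))
  have h3 : ((Finset.range M).biUnion
      (fun n => U.filter (fun x => T.lev x = T.lev t + (n + 1)))).card ≤
      (Finset.range M).card * 2 := by
    refine Finset.card_biUnion_le_card_mul _ _ _ ?_
    intro n _
    exact card_level T h hd n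
  rw [Finset.card_range] at h3
  omega

end HwPath

section

variable {q : ℕ} {V : Fin q → Type} [∀ i, Fintype (V i)] (F : ∀ i, RF (V i))
  (h0 : ∀ i v, (F i).par v = none → (F i).lev v = 0)

omit [∀ i, Fintype (V i)] in
theorem hwp_par_inr {L : ℕ} (hL : 0 < L) (l : Fin (q * L)) :
    (hw F h0 L hL).par (Sum.inr l) =
      if l.val = 0 then none else some (Sum.inr ⟨l.val - 1, by omega⟩) := rfl

omit [∀ i, Fintype (V i)] in
theorem hwp_par_none {L : ℕ} (hL : 0 < L) {i : Fin q} {v : V i} (h : (F i).par v = none) :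
    (hw F h0 L hL).par (Sum.inl ⟨i, v⟩) =
      some (Sum.inr ⟨i.val * L, Nat.mul_lt_mul_of_pos_right i.isLt hL⟩) := by
  simp only [hw, h]

omit [∀ i, Fintype (V i)] in
theorem hwp_par_some {L : ℕ} (hL : 0 < L) {i : Fin q} {v p : V i} (h : (F i).par v = some p) :
    (hw F h0 L hL).par (Sum.inl ⟨i, v⟩) = some (Sum.inl ⟨i, p⟩) := by
  simp only [hw, h]

omit [∀ i, Fintype (V i)] in
theorem hwp_lev_inl {L : ℕ} (hL : 0 < L) {i : Fin q} (v : V i) :
    (hw F h0 L hL).lev (Sum.inl ⟨i, v⟩) = i.val * L + 1 + (F i).lev v := rfl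

omit [∀ i, Fintype (V i)] in
theorem hwp_lev_inr {L : ℕ} (hL : 0 < L) (l : Fin (q * L)) :
    (hw F h0 L hL).lev (Sum.inr l) = l.val := rfl

omit [∀ i, Fintype (V i)] in
/-- The highway part of a subtree whose top is on the highway is an interval. -/
theorem hwp_down {L : ℕ} (hL : 0 < L) {U : Finset ((Σ i, V i) ⊕ Fin (q * L))}
    {l0 : Fin (q * L)} (h : (hw F h0 L hL).Sub U (Sum.inr l0)) :
    ∀ m : ℕ, ∀ hm : m < q * L, Sum.inr ⟨m, hm⟩ ∈ U → l0.val ≤ m ∧
      ∀ m' : ℕ, ∀ hm' : m' < q * L, l0.val ≤ m' → m' ≤ m → Sum.inr ⟨m', hm'⟩ ∈ U := by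
  intro m
  induction m with
  | zero =>
    intro hm hU
    have hl : l0.val = 0 := by
      by_contra hne
      have h1 := h.2 _ hU (by
        intro e
        have := Sum.inr.inj e
        rw [← this] at hne
        exact hne rfl)
      obtain ⟨p, _, hp⟩ := h1
      rw [hwp_par_inr] at hp
      simp at hp
    refine ⟨by omega, ?_⟩
    intro m' hm' _ h2
    have : m' = 0 := by omega
    subst this
    exact hU
  | succ m ih =>
    intro hm hU
    by_cases he : (⟨m + 1, hm⟩ : Fin (q * L)) = l0
    · rw [← he]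
      refine ⟨le_refl _, ?_⟩
      intro m' hm' h1 h2
      have : m' = m + 1 := le_antisymm h2 h1
      subst this
      exact hU
    · obtain ⟨p, hpU, hp⟩ := h.2 _ hU (fun e => he (Sum.inr.inj e))
      rw [hwp_par_inr] at hp
      rw [if_neg (by simp)] at hp
      have hp' := Option.some.inj hp
      have hmU : Sum.inr ⟨m, by omega⟩ ∈ U := by
        rw [← hp'] at hpU
        exact hpU
      obtain ⟨h1, h2⟩ := ih (by omega) hmU
      refine ⟨by omega, ?_⟩
      intro m' hm' h3 h4
      rcases Nat.lt_or_ge m' (m + 1) with h5 | h5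
      · exact h2 m' hm' h3 (by omega)
      · have : m' = m + 1 := le_antisymm h4 h5
        subst this
        exact hU

omit [∀ i, Fintype (V i)] in
/-- A subtree with its top in a part stays in this part. -/
theorem hwp_part {L : ℕ} (hL : 0 < L) {U : Finset ((Σ i, V i) ⊕ Fin (q * L))}
    {i : Fin q} {v : V i} (h : (hw F h0 L hL).Sub U (Sum.inl ⟨i, v⟩)) :
    ∀ n : ℕ, ∀ x ∈ U, (hw F h0 L hL).lev x = n → ∃ y : V i, x = Sum.inl ⟨i, y⟩ := by
  intro n
  induction n using Nat.strong_induction_on with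
  | _ n ih =>
    intro x hx hn
    by_cases hxt : x = Sum.inl ⟨i, v⟩
    · exact ⟨v, hxt⟩
    · obtain ⟨p, hp, hpx⟩ := h.2 x hx hxt
      have h1 := (hw F h0 L hL).hlev _ _ hpx
      obtain ⟨y, hy⟩ := ih ((hw F h0 L hL).lev p) (by omega) p hp rfl
      rw [hy] at hpx
      rcases x with ⟨j, z⟩ | l
      · cases hz : (F j).par z with
        | none =>
          rw [hwp_par_none F h0 hL hz] at hpx
          exact absurd (Option.some.inj hpx) (by simp)
        | some w =>
          rw [hwp_par_some F h0 hL hz] at hpx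
          have h2 := Sum.inl.inj (Option.some.inj hpx)
          have h3 : j = i := congrArg Sigma.fst h2
          subst h3
          exact ⟨z, rfl⟩
      · rw [hwp_par_inr] at hpx
        split_ifs at hpx
        exact absurd (Option.some.inj hpx) (by simp)

omit [∀ i, Fintype (V i)] in
/-- Ancestors inside a part. -/
theorem hwp_anc {L : ℕ} (hL : 0 < L) {U : Finset ((Σ i, V i) ⊕ Fin (q * L))}
    {l0 : Fin (q * L)} (h : (hw F h0 L hL).Sub U (Sum.inr l0)) {i : Fin q} :
    ∀ n : ℕ, ∀ x : V i, Sum.inl ⟨i, x⟩ ∈ U →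
      (n ≤ (F i).lev x → ∃ y, (F i).anc n x = some y) ∧
      ∀ y, (F i).anc n x = some y → Sum.inl ⟨i, y⟩ ∈ U ∧ (F i).lev y + n = (F i).lev x := by
  intro n
  induction n with
  | zero =>
    intro x hx
    refine ⟨fun _ => ⟨x, rfl⟩, ?_⟩
    intro y hy
    have : x = y := Option.some.inj hy
    subst this
    exact ⟨hx, rfl⟩
  | succ n ih =>
    intro x hx
    have hstep : ∀ p, (F i).par x = some p → Sum.inl ⟨i, p⟩ ∈ U := by
      intro p hp
      obtain ⟨w, hw, hwx⟩ := h.2 _ hx (by simp)
      rw [hwp_par_some F h0 hL hp] at hwx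
      have := Option.some.inj hwx
      rw [this]
      exact hw
    refine ⟨?_, ?_⟩
    · intro hn
      cases hp : (F i).par x with
      | none =>
        have := h0 i x hp
        omega
      | some p =>
        have h1 := (F i).hlev _ _ hp
        obtain ⟨y, hy⟩ := (ih p (hstep p hp)).1 (by omega)
        refine ⟨y, ?_⟩
        simp only [RF.anc, hp, Option.bind_some, hy]
    · intro y hy
      cases hp : (F i).par x with
      | none =>
        simp only [RF.anc, hp, Option.bind_none] at hy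
        exact absurd hy (by simp)
      | some p =>
        have h1 := (F i).hlev _ _ hp
        simp only [RF.anc, hp, Option.bind_some] at hy
        obtain ⟨h2, h3⟩ := (ih p (hstep p hp)).2 y hy
        exact ⟨h2, by omega⟩

omit [∀ i, Fintype (V i)] in
/-- In a part, a path with top on the highway has at most one vertex in each level. -/
theorem hwp_uniq {L : ℕ} (hL : 0 < L) {U : Finset ((Σ i, V i) ⊕ Fin (q * L))}
    {l0 : Fin (q * L)} (h : (hw F h0 L hL).Sub U (Sum.inr l0))
    (hd : HwPath.Deg2 (hw F h0 L hL) U) {r : ∀ i, V i} (hr : ∀ i, (F i).IsRt (r i)) {i : Fin q} :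
    ∀ n : ℕ, ∀ x y : V i, Sum.inl ⟨i, x⟩ ∈ U → Sum.inl ⟨i, y⟩ ∈ U → (F i).lev x = n →
      (F i).lev y = n → x = y := by
  intro n
  induction n with
  | zero =>
    intro x y _ _ hxn hyn
    have key : ∀ z : V i, (F i).lev z = 0 → z = r i := by
      intro z hz
      by_contra hne
      obtain ⟨p, hp⟩ := (hr i).2.2 z hne
      have := (F i).hlev _ _ hp
      omega
    rw [key x hxn, key y hyn]
  | succ n ih =>
    intro x y hx hy hxn hyn
    have key : ∀ z : V i, Sum.inl ⟨i, z⟩ ∈ U → (F i).lev z = n + 1 →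
        ∃ p, (F i).par z = some p ∧ (F i).lev p = n ∧ Sum.inl ⟨i, p⟩ ∈ U := by
      intro z hz hzn
      cases hp : (F i).par z with
      | none =>
        have := h0 i z hp
        omega
      | some p =>
        have h1 := (F i).hlev _ _ hp
        obtain ⟨w, hw, hwx⟩ := h.2 _ hz (by simp)
        rw [hwp_par_some F h0 hL hp] at hwx
        have h2 := Option.some.inj hwx
        refine ⟨p, rfl, by omega, ?_⟩
        rw [h2]
        exact hw
    obtain ⟨p, hp, hpn, hpU⟩ := key x hx hxn
    obtain ⟨p', hp', hpn', hpU'⟩ := key y hy hyn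
    have he := ih p p' hpU hpU' hpn hpn'
    subst he
    have h5 := HwPath.child_unique (hw F h0 L hL) h hd hpU (by simp) hx hy
      (hwp_par_some F h0 hL hp) (hwp_par_some F h0 hL hp')
    have h6 := Sum.inl.inj h5
    exact eq_of_heq (Sigma.mk.inj h6).2

open Classical in
/-- The set of vertices determined by a code: either a highway vertex (the top of a path on the
highway) or the lowest vertex in a part together with a direction on the highway. -/
noncomputable def hwCode (k : ℕ) :
    ((Σ i, V i) × Bool) ⊕ Fin (q * (k + 1)) → Finset ((Σ i, V i) ⊕ Fin (q * (k + 1)))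
  | Sum.inr l => Finset.univ.filter (fun w => ∃ m : Fin (q * (k + 1)), w = Sum.inr m ∧
      l.val ≤ m.val ∧ m.val ≤ l.val + k)
  | Sum.inl (⟨i, x⟩, b) => Finset.univ.filter (fun w =>
      (∃ (y : V i) (n : ℕ), w = Sum.inl ⟨i, y⟩ ∧ (F i).anc n x = some y) ∨
      (∃ m : Fin (q * (k + 1)), w = Sum.inr m ∧
        ((b = true ∧ i.val * (k + 1) ≤ m.val ∧ m.val < i.val * (k + 1) + (k - (F i).lev x)) ∨
        (b = false ∧ i.val * (k + 1) < m.val + (k - (F i).lev x) ∧ m.val ≤ i.val * (k + 1)))))

theorem hwp_key {r : ∀ i, V i} (hr : ∀ i, (F i).IsRt (r i)) {k : ℕ}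
    {U : Finset ((Σ i, V i) ⊕ Fin (q * (k + 1)))} (hcard : U.card = k + 1)
    {l0 : Fin (q * (k + 1))}
    (ht : (hw F h0 (k + 1) (Nat.succ_pos k)).Sub U (Sum.inr l0))
    (hd : HwPath.Deg2 (hw F h0 (k + 1) (Nat.succ_pos k)) U) : ∃ c, hwCode F k c = U := by
  classical
  have hdown := hwp_down F h0 _ ht
  -- the highway part
  obtain ⟨H, hH⟩ : ∃ H : Finset ℕ, ∀ m, m ∈ H ↔ ∃ hm : m < q * (k + 1),
      Sum.inr ⟨m, hm⟩ ∈ U := by
    refine ⟨(Finset.range (q * (k + 1))).filter (fun m => ∃ hm : m < q * (k + 1),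
      Sum.inr ⟨m, hm⟩ ∈ U), ?_⟩
    intro m
    rw [Finset.mem_filter, Finset.mem_range]
    constructor
    · rintro ⟨_, h⟩
      exact h
    · rintro ⟨hm, h⟩
      exact ⟨hm, hm, h⟩
  have hl0 : l0.val ∈ H := (hH _).mpr ⟨l0.isLt, ht.1⟩
  obtain ⟨m1, hm1, hmax⟩ : ∃ m1 ∈ H, ∀ m ∈ H, m ≤ m1 :=
    ⟨H.max' ⟨_, hl0⟩, Finset.max'_mem _ _, fun m hm => Finset.le_max' _ _ hm⟩
  have hIcc : H = Finset.Icc l0.val m1 := by
    ext m
    rw [Finset.mem_Icc]
    constructor
    · intro hm
      obtain ⟨hmq, hmU⟩ := (hH m).mp hm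
      exact ⟨(hdown m hmq hmU).1, hmax m hm⟩
    · rintro ⟨h1, h2⟩
      obtain ⟨hmq, hmU⟩ := (hH m1).mp hm1
      exact (hH m).mpr ⟨by omega, (hdown m1 hmq hmU).2 m (by omega) h1 h2⟩
  have hlm : l0.val ≤ m1 := hmax _ hl0
  have hHcard : H.card = m1 + 1 - l0.val := by
    rw [hIcc, Nat.card_Icc]
  -- splitting of the cardinality
  obtain ⟨UR, hUR⟩ : ∃ UR : Finset ((Σ i, V i) ⊕ Fin (q * (k + 1))), ∀ w, w ∈ UR ↔
      w ∈ U ∧ ∃ m, w = Sum.inr m := ⟨U.filter (fun w => ∃ m, w = Sum.inr m), by
        intro w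
        rw [Finset.mem_filter]⟩
  obtain ⟨UL, hUL⟩ : ∃ UL : Finset ((Σ i, V i) ⊕ Fin (q * (k + 1))), ∀ w, w ∈ UL ↔
      w ∈ U ∧ ∃ s, w = Sum.inl s := ⟨U.filter (fun w => ∃ s, w = Sum.inl s), by
        intro w
        rw [Finset.mem_filter]⟩
  have hcU : U.card = UR.card + UL.card := by
    rw [← Finset.card_union_of_disjoint]
    · apply Finset.card_bij (fun w _ => w)
      · intro w hw
        rw [Finset.mem_union, hUR, hUL]
        rcases w with s | m
        · exact Or.inr ⟨hw, s, rfl⟩
        · exact Or.inl ⟨hw, m, rfl⟩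
      · intro _ _ _ _ h
        exact h
      · intro w hw
        rw [Finset.mem_union, hUR, hUL] at hw
        refine ⟨w, ?_, rfl⟩
        rcases hw with hw | hw
        · exact hw.1
        · exact hw.1
    · rw [Finset.disjoint_left]
      intro w h1 h2
      obtain ⟨_, m, hm⟩ := (hUR w).mp h1
      obtain ⟨_, s, hs⟩ := (hUL w).mp h2
      rw [hm] at hs
      simp at hs
  have hcR : UR.card = H.card := by
    apply Finset.card_bij (fun w _ => (hw F h0 (k + 1) (Nat.succ_pos k)).lev w)
    · intro w hw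
      obtain ⟨hwU, m, hm⟩ := (hUR w).mp hw
      rw [hm, hwp_lev_inr]
      rw [hm] at hwU
      exact (hH _).mpr ⟨m.isLt, hwU⟩
    · intro w hw w' hw' he
      obtain ⟨_, m, hm⟩ := (hUR w).mp hw
      obtain ⟨_, m', hm'⟩ := (hUR w').mp hw'
      rw [hm, hm', hwp_lev_inr, hwp_lev_inr] at he
      rw [hm, hm', Fin.ext he]
    · intro m hm
      obtain ⟨hmq, hmU⟩ := (hH m).mp hm
      exact ⟨Sum.inr ⟨m, hmq⟩, (hUR _).mpr ⟨hmU, _, rfl⟩, rfl⟩
  -- roots of the parts which are met
  have hroot : ∀ (i : Fin q) (y : V i), Sum.inl ⟨i, y⟩ ∈ U →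
      Sum.inl ⟨i, r i⟩ ∈ U ∧ i.val * (k + 1) ∈ H := by
    intro i y hy
    obtain ⟨h1, h2⟩ := hwp_anc F h0 _ ht ((F i).lev y) y hy
    obtain ⟨z, hz⟩ := h1 (le_refl _)
    obtain ⟨hzU, hzl⟩ := h2 z hz
    have hz0 : z = r i := by
      by_contra hne
      obtain ⟨p, hp⟩ := (hr i).2.2 z hne
      have := (F i).hlev _ _ hp
      omega
    rw [hz0] at hzU
    refine ⟨hzU, ?_⟩
    obtain ⟨p, hp, hpx⟩ := ht.2 _ hzU (by simp)
    rw [hwp_par_none F h0 _ (hr i).1] at hpx
    have hp' := Option.some.inj hpx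
    rw [← hp'] at hp
    exact (hH _).mpr ⟨_, hp⟩
  by_cases hA : ∃ (i : Fin q) (y : V i), Sum.inl ⟨i, y⟩ ∈ U
  · obtain ⟨i, y1, hy1⟩ := hA
    obtain ⟨hri, hiH⟩ := hroot i y1 hy1
    have hother : ∀ (j : Fin q) (y : V j), Sum.inl ⟨j, y⟩ ∈ U → j = i := by
      intro j y hy
      obtain ⟨_, hjH⟩ := hroot j y hy
      rw [hIcc, Finset.mem_Icc] at hiH hjH
      rcases lt_trichotomy j.val i.val with hlt | heq | hgt
      · have := Nat.mul_le_mul_right (k + 1) (Nat.succ_le_of_lt hlt)
        rw [Nat.succ_mul] at this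
        omega
      · exact Fin.ext heq
      · have := Nat.mul_le_mul_right (k + 1) (Nat.succ_le_of_lt hgt)
        rw [Nat.succ_mul] at this
        omega
    -- the part of U
    obtain ⟨S, hS⟩ : ∃ S : Finset (V i), ∀ y, y ∈ S ↔ Sum.inl ⟨i, y⟩ ∈ U :=
      ⟨Finset.univ.filter (fun y => Sum.inl ⟨i, y⟩ ∈ U), by
        intro y
        rw [Finset.mem_filter]
        exact ⟨fun h => h.2, fun h => ⟨Finset.mem_univ _, h⟩⟩⟩
    obtain ⟨x, hxS, hxmax⟩ := Finset.exists_max_image S (fun y => (F i).lev y)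
      ⟨r i, (hS _).mpr hri⟩
    have hxU := (hS x).mp hxS
    have hSiff : ∀ y, y ∈ S ↔ ∃ n, (F i).anc n x = some y := by
      intro y
      constructor
      · intro hy
        have hle := hxmax y hy
        obtain ⟨h1, h2⟩ := hwp_anc F h0 _ ht ((F i).lev x - (F i).lev y) x hxU
        obtain ⟨z, hz⟩ := h1 (Nat.sub_le _ _)
        obtain ⟨hzU, hzl⟩ := h2 z hz
        have hzy : z = y := hwp_uniq F h0 _ ht hd hr ((F i).lev y) z y hzU ((hS y).mp hy)
          (by omega) rfl
        exact ⟨(F i).lev x - (F i).lev y, by rw [hz, hzy]⟩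
      · rintro ⟨n, hn⟩
        exact (hS y).mpr ((hwp_anc F h0 _ ht n x hxU).2 y hn).1
    have hScard : S.card = (F i).lev x + 1 := by
      rw [← Finset.card_range ((F i).lev x + 1)]
      apply Finset.card_bij (fun y _ => (F i).lev y)
      · intro y hy
        have := hxmax y hy
        rw [Finset.mem_range]
        omega
      · intro y hy y' hy' he
        exact hwp_uniq F h0 _ ht hd hr _ y y' ((hS y).mp hy) ((hS y').mp hy') rfl he.symm
      · intro n hn
        rw [Finset.mem_range] at hn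
        obtain ⟨h1, h2⟩ := hwp_anc F h0 _ ht ((F i).lev x - n) x hxU
        obtain ⟨z, hz⟩ := h1 (Nat.sub_le _ _)
        obtain ⟨hzU, hzl⟩ := h2 z hz
        exact ⟨z, (hS z).mpr hzU, by omega⟩
    have hcL : UL.card = S.card := by
      symm
      apply Finset.card_bij (fun y _ => (Sum.inl ⟨i, y⟩ : (Σ i, V i) ⊕ Fin (q * (k + 1))))
      · intro y hy
        exact (hUL _).mpr ⟨(hS y).mp hy, _, rfl⟩
      · intro y _ y' _ he
        exact eq_of_heq (Sigma.mk.inj (Sum.inl.inj he)).2
      · intro w hw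
        obtain ⟨hwU, ⟨j, y⟩, hs⟩ := (hUL w).mp hw
        rw [hs] at hwU
        have := hother j y hwU
        subst this
        exact ⟨y, (hS y).mpr hwU, hs.symm⟩
    have hends : i.val * (k + 1) = l0.val ∨ i.val * (k + 1) = m1 := by
      by_contra hcon
      push Not at hcon
      have hiH' := hiH
      rw [hIcc, Finset.mem_Icc] at hiH'
      have h1 : i.val * (k + 1) - 1 ∈ H := by
        rw [hIcc, Finset.mem_Icc]
        omega
      have h2 : i.val * (k + 1) + 1 ∈ H := by
        rw [hIcc, Finset.mem_Icc]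
        omega
      obtain ⟨g0, h0U⟩ := (hH _).mp hiH
      obtain ⟨g1, h1U⟩ := (hH _).mp h1
      obtain ⟨g2, h2U⟩ := (hH _).mp h2
      have a1 : (hw F h0 (k + 1) (Nat.succ_pos k)).graph.Adj (Sum.inr ⟨i.val * (k + 1), g0⟩)
          (Sum.inr ⟨i.val * (k + 1) - 1, g1⟩) := by
        left
        rw [hwp_par_inr, if_neg]
        change ¬ (i.val * (k + 1) = 0)
        omega
      have a2 : (hw F h0 (k + 1) (Nat.succ_pos k)).graph.Adj (Sum.inr ⟨i.val * (k + 1), g0⟩)
          (Sum.inr ⟨i.val * (k + 1) + 1, g2⟩) := by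
        right
        rw [hwp_par_inr, if_neg]
        · rfl
        · change ¬ (i.val * (k + 1) + 1 = 0)
          omega
      have a3 : (hw F h0 (k + 1) (Nat.succ_pos k)).graph.Adj (Sum.inr ⟨i.val * (k + 1), g0⟩)
          (Sum.inl ⟨i, r i⟩) := by
        right
        rw [hwp_par_none F h0 _ (hr i).1]
      rcases hd _ h0U _ h1U _ h2U _ hri a1 a2 a3 with e | e | e
      · have := congrArg Fin.val (Sum.inr.inj e)
        simp only at this
        omega
      · exact absurd e (by simp)
      · exact absurd e (by simp)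
    have hsum : k + 1 = (m1 + 1 - l0.val) + ((F i).lev x + 1) := by
      omega
    rcases hends with he | he
    · refine ⟨Sum.inl (⟨i, x⟩, true), ?_⟩
      ext w
      simp only [hwCode, Finset.mem_filter, Finset.mem_univ, true_and]
      rcases w with ⟨j, y⟩ | m
      · constructor
        · rintro (⟨y', n, hy', hn⟩ | ⟨m, hm, _⟩)
          · rw [hy']
            exact (hS y').mp ((hSiff y').mpr ⟨n, hn⟩)
          · exact absurd hm (by simp)
        · intro hwU
          have := hother j y hwU
          subst this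
          obtain ⟨n, hn⟩ := (hSiff y).mp ((hS y).mpr hwU)
          exact Or.inl ⟨y, n, rfl, hn⟩
      · have hmU : Sum.inr m ∈ U ↔ m.val ∈ H := by
          rw [hH]
          exact ⟨fun h => ⟨m.isLt, h⟩, fun ⟨_, h⟩ => h⟩
        rw [hmU, hIcc, Finset.mem_Icc]
        constructor
        · rintro (⟨_, _, hy', _⟩ | ⟨m', hm', h⟩)
          · exact absurd hy' (by simp)
          · have := Sum.inr.inj hm'
            subst this
            simp only [Bool.true_eq_false, false_and, or_false] at h
            omega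
        · intro h
          exact Or.inr ⟨m, rfl, Or.inl ⟨by omega, by omega⟩⟩
    · refine ⟨Sum.inl (⟨i, x⟩, false), ?_⟩
      ext w
      simp only [hwCode, Finset.mem_filter, Finset.mem_univ, true_and]
      rcases w with ⟨j, y⟩ | m
      · constructor
        · rintro (⟨y', n, hy', hn⟩ | ⟨m, hm, _⟩)
          · rw [hy']
            exact (hS y').mp ((hSiff y').mpr ⟨n, hn⟩)
          · exact absurd hm (by simp)
        · intro hwU
          have := hother j y hwU
          subst this
          obtain ⟨n, hn⟩ := (hSiff y).mp ((hS y).mpr hwU)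
          exact Or.inl ⟨y, n, rfl, hn⟩
      · have hmU : Sum.inr m ∈ U ↔ m.val ∈ H := by
          rw [hH]
          exact ⟨fun h => ⟨m.isLt, h⟩, fun ⟨_, h⟩ => h⟩
        rw [hmU, hIcc, Finset.mem_Icc]
        constructor
        · rintro (⟨_, _, hy', _⟩ | ⟨m', hm', h⟩)
          · exact absurd hy' (by simp)
          · have := Sum.inr.inj hm'
            subst this
            simp only [Bool.false_eq_true, false_and, false_or] at h
            omega
        · intro h
          exact Or.inr ⟨m, rfl, Or.inr ⟨by omega, by omega⟩⟩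
  · push Not at hA
    have hULe : UL.card = 0 := by
      rw [Finset.card_eq_zero, Finset.eq_empty_iff_forall_notMem]
      intro w hw
      obtain ⟨hwU, ⟨j, y⟩, hs⟩ := (hUL w).mp hw
      rw [hs] at hwU
      exact hA j y hwU
    have hsum : k + 1 = m1 + 1 - l0.val := by
      omega
    refine ⟨Sum.inr l0, ?_⟩
    ext w
    simp only [hwCode, Finset.mem_filter, Finset.mem_univ, true_and]
    rcases w with ⟨j, y⟩ | m
    · constructor
      · rintro ⟨m, hm, _⟩
        exact absurd hm (by simp)
      · intro hwU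
        exact absurd hwU (hA j y)
    · have hmU : Sum.inr m ∈ U ↔ m.val ∈ H := by
        rw [hH]
        exact ⟨fun h => ⟨m.isLt, h⟩, fun ⟨_, h⟩ => h⟩
      rw [hmU, hIcc, Finset.mem_Icc]
      constructor
      · rintro ⟨m', hm', h⟩
        have := Sum.inr.inj hm'
        subst this
        omega
      · intro h
        exact ⟨m, rfl, by omega, by omega⟩

/-- If all parts have height at most `M` with `2 M + 1 ≤ k` then a path with `k + 1` vertices
is either on the highway (determined by its top), or it is determined by its lowest vertex in a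
part and by a direction (up or down the highway). -/
theorem hw_path {r : ∀ i, V i} (hr : ∀ i, (F i).IsRt (r i)) {M k : ℕ}
    (hM : ∀ i v, (F i).lev v ≤ M) (hMk : 2 * M + 1 ≤ k) :
    (hw F h0 (k + 1) (Nat.succ_pos k)).P (k + 1) ≤
      2 * ∑ i, Fintype.card (V i) + q * (k + 1) := by
  classical
  have key : ∀ U : Finset ((Σ i, V i) ⊕ Fin (q * (k + 1))),
      Nonempty ((hw F h0 (k + 1) (Nat.succ_pos k)).graph.induce (U : Set _) ≃g
        pathGraph (k + 1)) → ∃ c, hwCode F k c = U := by
    intro U hU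
    obtain ⟨hsub, hd⟩ := RF.path_imp (hw F h0 (k + 1) (Nat.succ_pos k)) (by omega) hU
    obtain ⟨hcard, t, ht⟩ := (RF.mem_subs _).mp hsub
    rcases t with ⟨i, v⟩ | l0
    · exfalso
      have h1 := HwPath.card_le _ ht hd (M := M) (by
        intro x hx
        obtain ⟨y, hy⟩ := hwp_part F h0 _ ht _ x hx rfl
        rw [hy, hwp_lev_inl, hwp_lev_inl]
        have := hM i y
        omega)
      omega
    · exact hwp_key F h0 hr hcard ht hd
  have h1 : {U : Finset ((Σ i, V i) ⊕ Fin (q * (k + 1))) |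
      Nonempty ((hw F h0 (k + 1) (Nat.succ_pos k)).graph.induce (U : Set _) ≃g
        pathGraph (k + 1))} ⊆ ((Finset.univ.image (hwCode F k) : Finset _) : Set _) := by
    intro U hU
    obtain ⟨c, hc⟩ := key U hU
    rw [Finset.mem_coe, Finset.mem_image]
    exact ⟨c, Finset.mem_univ _, hc⟩
  have h2 := Set.ncard_le_ncard h1 (Finset.finite_toSet _)
  rw [Set.ncard_coe_finset] at h2
  refine le_trans h2 (le_trans Finset.card_image_le ?_)
  rw [Finset.card_univ]
  simp only [Fintype.card_sum, Fintype.card_prod, Fintype.card_sigma, Fintype.card_bool,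
    Fintype.card_fin]
  rw [mul_comm]

end

end Pool.Agent.NP
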