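import Pool.Agent.NP.Defs

namespace Pool.Agent.NP

open SimpleGraph

namespace RF

variable {V : Type} [Fintype V]

theorem card_subs (F : RF V) (k : ℕ) : (F.subs k).card = (F.sts k).card + (F.nst k).card := by
  classical
  have hdis : Disjoint (F.sts k) (F.nst k) := by
    rw [Finset.disjoint_left]
    intro U h1 h2
    rw [mem_sts] at h1
    rw [mem_nst] at h2
    exact h2.2 h1.2
  rw [← Finset.card_union_of_disjoint hdis]
  congr 1
  ext U
  rw [Finset.mem_union, mem_sts, mem_nst, mem_subs]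
  constructor
  · intro h
    by_cases hs : F.IsStar U
    · exact Or.inl ⟨h, hs⟩
    · exact Or.inr ⟨h, hs⟩
  · rintro (h | h)
    · exact h.1
    · exact h.1

open Classical in
/-- The neighbours of `v`. -/
noncomputable def nbs (F : RF V) (v : V) : Finset V :=
  Finset.univ.filter (fun x => F.par x = some v ∨ F.par v = some x)

theorem mem_nbs (F : RF V) {v x : V} : x ∈ F.nbs v ↔ F.par x = some v ∨ F.par v = some x := by
  classical
  simp [nbs]

theorem self_notMem_nbs (F : RF V) (v : V) : v ∉ F.nbs v := by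
  rw [mem_nbs]
  rintro (h | h)
  · exact F.ne_of_par h rfl
  · exact F.ne_of_par h rfl

theorem nbs_eq_of_none (F : RF V) {v : V} (h : F.par v = none) : F.nbs v = F.ch v := by
  ext x
  rw [mem_nbs, mem_ch, h]
  simp

theorem card_nbs_of_some (F : RF V) {v p : V} (h : F.par v = some p) :
    (F.nbs v).card = F.c v + 1 := by
  classical
  have h1 : F.nbs v = insert p (F.ch v) := by
    ext x
    rw [mem_nbs, Finset.mem_insert, mem_ch, h]
    constructor
    · rintro (h2 | h2)
      · exact Or.inr h2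
      · exact Or.inl (Option.some.inj h2).symm
    · rintro (h2 | h2)
      · subst h2
        exact Or.inr rfl
      · exact Or.inl h2
  have h2 : p ∉ F.ch v := by
    rw [mem_ch]
    intro h3
    have h4 := F.hlev _ _ h
    have h5 := F.hlev _ _ h3
    omega
  rw [h1, Finset.card_insert_of_notMem h2]
  rfl

theorem card_nbs_le (F : RF V) (v : V) : (F.nbs v).card ≤ F.c v + 1 := by
  rcases h : F.par v with _ | p
  · rw [nbs_eq_of_none F h]
    exact Nat.le_succ _
  · exact (card_nbs_of_some F h).le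

omit [Fintype V] in
theorem lev_of_adj (F : RF V) {v x : V} (h : F.par x = some v ∨ F.par v = some x) :
    F.lev x = F.lev v + 1 ∨ F.lev v = F.lev x + 1 := by
  rcases h with h | h
  · exact Or.inl (F.hlev _ _ h)
  · exact Or.inr (F.hlev _ _ h)

open Classical in
/-- The stars with centre `v`. -/
noncomputable def stv (F : RF V) (k : ℕ) (v : V) : Finset (Finset V) :=
  (Finset.powersetCard (k - 1) (F.nbs v)).image (fun S => insert v S)

theorem mem_stv (F : RF V) {k : ℕ} {v : V} {U : Finset V} :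
    U ∈ F.stv k v ↔ ∃ S : Finset V, v ∉ S ∧ (∀ x ∈ S, F.par x = some v ∨ F.par v = some x) ∧
      S.card = k - 1 ∧ (∀ x, x ∈ U ↔ x = v ∨ x ∈ S) := by
  classical
  simp only [stv, Finset.mem_image, Finset.mem_powersetCard]
  constructor
  · rintro ⟨S, ⟨h1, h2⟩, h3⟩
    refine ⟨S, fun h => self_notMem_nbs F v (h1 h), fun x hx => (mem_nbs F).1 (h1 hx), h2, ?_⟩
    intro x
    rw [← h3, Finset.mem_insert]
  · rintro ⟨S, h1, h2, h3, h4⟩
    refine ⟨S, ⟨fun x hx => (mem_nbs F).2 (h2 x hx), h3⟩, ?_⟩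
    ext x
    rw [h4 x, Finset.mem_insert]

theorem card_stv (F : RF V) (k : ℕ) (v : V) :
    (F.stv k v).card = (F.nbs v).card.choose (k - 1) := by
  classical
  unfold stv
  rw [Finset.card_image_of_injOn, Finset.card_powersetCard]
  intro S hS S' hS' h
  rw [Finset.mem_coe, Finset.mem_powersetCard] at hS hS'
  have h1 : v ∉ S := fun h => self_notMem_nbs F v (hS.1 h)
  have h2 : v ∉ S' := fun h => self_notMem_nbs F v (hS'.1 h)
  have h3 : insert v S = insert v S' := h
  rw [← Finset.erase_insert h1, ← Finset.erase_insert h2, h3]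

theorem stv_subset (F : RF V) {k : ℕ} (hk : 1 ≤ k) (v : V) : F.stv k v ⊆ F.sts k := by
  classical
  intro U hU
  obtain ⟨S, h1, h2, h3, h4⟩ := (mem_stv F).1 hU
  have hU' : U = insert v S := by
    ext x
    rw [h4 x, Finset.mem_insert]
  rw [mem_sts]
  refine ⟨⟨?_, ?_⟩, ?_⟩
  · rw [hU', Finset.card_insert_of_notMem h1, h3]
    omega
  · by_cases hp : ∃ p ∈ S, F.par v = some p
    · obtain ⟨p, hpS, hpv⟩ := hp
      refine ⟨p, (h4 p).2 (Or.inr hpS), ?_⟩
      intro x hx hxp
      rcases (h4 x).1 hx with h5 | h5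
      · subst h5
        exact ⟨p, (h4 p).2 (Or.inr hpS), hpv⟩
      · rcases h2 x h5 with h6 | h6
        · exact ⟨v, (h4 v).2 (Or.inl rfl), h6⟩
        · rw [hpv] at h6
          exact absurd (Option.some.inj h6).symm hxp
    · refine ⟨v, (h4 v).2 (Or.inl rfl), ?_⟩
      intro x hx hxv
      rcases (h4 x).1 hx with h5 | h5
      · exact absurd h5 hxv
      · rcases h2 x h5 with h6 | h6
        · exact ⟨v, (h4 v).2 (Or.inl rfl), h6⟩
        · exact absurd ⟨x, h5, h6⟩ hp
  · refine ⟨v, (h4 v).2 (Or.inl rfl), ?_⟩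
    intro x hx hxv
    rcases (h4 x).1 hx with h5 | h5
    · exact absurd h5 hxv
    · exact h2 x h5

theorem sts_subset (F : RF V) {k : ℕ} {U : Finset V} (hU : U ∈ F.sts k) :
    ∃ v, U ∈ F.stv k v := by
  classical
  rw [mem_sts] at hU
  obtain ⟨⟨h1, -⟩, v, hv, h2⟩ := hU
  refine ⟨v, (mem_stv F).2 ⟨U.erase v, Finset.notMem_erase _ _, ?_, ?_, ?_⟩⟩
  · intro x hx
    rw [Finset.mem_erase] at hx
    exact h2 x hx.2 hx.1
  · rw [Finset.card_erase_of_mem hv, h1]
  · intro x
    rw [Finset.mem_erase]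
    constructor
    · intro hx
      by_cases hxv : x = v
      · exact Or.inl hxv
      · exact Or.inr ⟨hxv, hx⟩
    · rintro (hx | hx)
      · subst hx
        exact hv
      · exact hx.2

theorem stv_disjoint (F : RF V) {k : ℕ} (hk : 3 ≤ k) {v w : V} (hvw : v ≠ w) :
    Disjoint (F.stv k v) (F.stv k w) := by
  classical
  rw [Finset.disjoint_left]
  intro U h1 h2
  obtain ⟨S, a1, a2, a3, a4⟩ := (mem_stv F).1 h1
  obtain ⟨S', b1, b2, b3, b4⟩ := (mem_stv F).1 h2
  have hwS : w ∈ S := by
    rcases (a4 w).1 ((b4 w).2 (Or.inl rfl)) with h | h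
    · exact absurd h.symm hvw
    · exact h
  have hex : ∃ x ∈ S, x ≠ w := by
    by_contra hcon
    push Not at hcon
    have h3 : S ⊆ {w} := by
      intro x hx
      rw [Finset.mem_singleton]
      exact hcon x hx
    have h4 := Finset.card_le_card h3
    rw [Finset.card_singleton, a3] at h4
    omega
  obtain ⟨x, hxS, hxw⟩ := hex
  have hxS' : x ∈ S' := by
    rcases (b4 x).1 ((a4 x).2 (Or.inr hxS)) with h | h
    · exact absurd h hxw
    · exact h
  have c1 := lev_of_adj F (a2 w hwS)
  have c2 := lev_of_adj F (a2 x hxS)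
  have c3 := lev_of_adj F (b2 x hxS')
  omega

/-- Lower bound for the number of stars: the vertex `v ≠ r` has `c v + 1` neighbours; the centre
is unique as `k ≥ 4`; the root is a leaf, and `(2).choose (k - 1) = 0`. -/
theorem star_lower (F : RF V) {r : V} (hr : F.IsRt r) (hc : F.c r ≤ 1) {k : ℕ} (hk : 4 ≤ k) :
    ∑ v, (F.c v + 1).choose (k - 1) ≤ (F.sts k).card := by
  classical
  have h1 : (Finset.univ.biUnion (F.stv k)).card = ∑ v, (F.stv k v).card := by
    apply Finset.card_biUnion
    intro v _ w _ hvw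
    exact stv_disjoint F (by omega) hvw
  have h2 : Finset.univ.biUnion (F.stv k) ⊆ F.sts k := by
    intro U hU
    rw [Finset.mem_biUnion] at hU
    obtain ⟨v, -, hv⟩ := hU
    exact stv_subset F (by omega) v hv
  have h3 : ∀ v, (F.c v + 1).choose (k - 1) ≤ (F.stv k v).card := by
    intro v
    rw [card_stv]
    by_cases hvr : v = r
    · subst hvr
      rw [Nat.choose_eq_zero_of_lt (by omega)]
      exact Nat.zero_le _
    · obtain ⟨p, hp⟩ := hr.2.2 v hvr
      rw [card_nbs_of_some F hp]
  calc ∑ v, (F.c v + 1).choose (k - 1) ≤ ∑ v, (F.stv k v).card :=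
        Finset.sum_le_sum (fun v _ => h3 v)
    _ = (Finset.univ.biUnion (F.stv k)).card := h1.symm
    _ ≤ (F.sts k).card := Finset.card_le_card h2

/-- Upper bound for the number of stars: every vertex has at most `c v + 1` neighbours. -/
theorem star_upper (F : RF V) {k : ℕ} (hk : 1 ≤ k) :
    (F.sts k).card ≤ ∑ v, (F.c v + 1).choose (k - 1) := by
  classical
  have _ := hk
  have h2 : F.sts k ⊆ Finset.univ.biUnion (F.stv k) := by
    intro U hU
    rw [Finset.mem_biUnion]
    obtain ⟨v, hv⟩ := sts_subset F hU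
    exact ⟨v, Finset.mem_univ _, hv⟩
  calc (F.sts k).card ≤ (Finset.univ.biUnion (F.stv k)).card := Finset.card_le_card h2
    _ ≤ ∑ v, (F.stv k v).card := Finset.card_biUnion_le
    _ ≤ ∑ v, (F.c v + 1).choose (k - 1) := by
        refine Finset.sum_le_sum (fun v _ => ?_)
        rw [card_stv]
        exact Nat.choose_le_choose _ (card_nbs_le F v)

end RF

end Pool.Agent.NP
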