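import Pool.Agent.NP.Hw
import Pool.Agent.NP.StarC

namespace Pool.Agent.NP

open SimpleGraph

section

variable {q : ℕ} {V : Fin q → Type} [∀ i, Fintype (V i)] (F : ∀ i, RF (V i))
  (h0 : ∀ i v, (F i).par v = none → (F i).lev v = 0) (L : ℕ) (hL : 0 < L)

/-- The children of a vertex of a part are its children in the part. -/
theorem hw_c_inl (i : Fin q) (v : V i) :
    (hw F h0 L hL).c (Sum.inl ⟨i, v⟩) ≤ (F i).c v := by
  classical
  unfold RF.c
  have hsub : (hw F h0 L hL).ch (Sum.inl ⟨i, v⟩) ⊆
      ((F i).ch v).image (fun w => (Sum.inl ⟨i, w⟩ : (Σ i, V i) ⊕ Fin (q * L))) := by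
    intro x hx
    rw [RF.mem_ch] at hx
    rw [Finset.mem_image]
    rcases x with ⟨j, w⟩ | l
    · simp only [hw] at hx
      rcases hp : (F j).par w with _ | p
      · rw [hp] at hx
        simp at hx
      · rw [hp] at hx
        have h1 : (⟨j, p⟩ : Σ i, V i) = ⟨i, v⟩ := Sum.inl.inj (Option.some.inj hx)
        obtain ⟨h2, h3⟩ := Sigma.mk.inj h1
        subst h2
        have h4 := eq_of_heq h3
        subst h4
        exact ⟨w, by rw [RF.mem_ch]; exact hp, rfl⟩
    · simp only [hw] at hx
      split_ifs at hx with h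
      simp at hx
  exact (Finset.card_le_card hsub).trans Finset.card_image_le

/-- A highway vertex has at most two children. -/
theorem hw_c_inr {r : ∀ i, V i} (hr : ∀ i, (F i).IsRt (r i)) (l : Fin (q * L)) :
    (hw F h0 L hL).c (Sum.inr l) ≤ 2 := by
  classical
  unfold RF.c
  let A : Finset ((Σ i, V i) ⊕ Fin (q * L)) :=
    Finset.univ.filter (fun x => ∃ l', x = Sum.inr l' ∧ l'.val = l.val + 1)
  let B : Finset ((Σ i, V i) ⊕ Fin (q * L)) :=
    Finset.univ.filter (fun x => ∃ i : Fin q, x = Sum.inl ⟨i, r i⟩ ∧ i.val * L = l.val)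
  have hA : A.card ≤ 1 := by
    rw [Finset.card_le_one]
    intro a ha b hb
    obtain ⟨a', rfl, ha'⟩ := (Finset.mem_filter.1 ha).2
    obtain ⟨b', rfl, hb'⟩ := (Finset.mem_filter.1 hb).2
    have : a' = b' := Fin.ext (by omega)
    rw [this]
  have hB : B.card ≤ 1 := by
    rw [Finset.card_le_one]
    intro a ha b hb
    obtain ⟨a', rfl, ha'⟩ := (Finset.mem_filter.1 ha).2
    obtain ⟨b', rfl, hb'⟩ := (Finset.mem_filter.1 hb).2
    have : a' = b' := Fin.ext (Nat.eq_of_mul_eq_mul_right hL (ha'.trans hb'.symm))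
    rw [this]
  have hsub : (hw F h0 L hL).ch (Sum.inr l) ⊆ A ∪ B := by
    intro x hx
    rw [RF.mem_ch] at hx
    rw [Finset.mem_union]
    rcases x with ⟨j, w⟩ | l'
    · right
      simp only [hw] at hx
      rcases hp : (F j).par w with _ | p
      · rw [hp] at hx
        have h1 := Sum.inr.inj (Option.some.inj hx)
        have h2 : j.val * L = l.val := congrArg Fin.val h1
        have hw' : w = r j := by
          by_contra hne
          obtain ⟨p, hp'⟩ := (hr j).2.2 w hne
          rw [hp] at hp'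
          simp at hp'
        exact Finset.mem_filter.2 ⟨Finset.mem_univ _, j, by rw [hw'], h2⟩
      · rw [hp] at hx
        simp at hx
    · left
      simp only [hw] at hx
      split_ifs at hx with h
      have h1 := Sum.inr.inj (Option.some.inj hx)
      have h2 : l'.val - 1 = l.val := congrArg Fin.val h1
      exact Finset.mem_filter.2 ⟨Finset.mem_univ _, l', rfl, by omega⟩
  have h1 := Finset.card_le_card hsub
  have h2 := Finset.card_union_le A B
  omega

/-- Stars of the highway tree: the highway vertices have at most two children, and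
`(3).choose k = 0`. -/
theorem hw_sts {r : ∀ i, V i} (hr : ∀ i, (F i).IsRt (r i)) {k : ℕ} (hk : 4 ≤ k) :
    ((hw F h0 L hL).sts (k + 1)).card ≤ ∑ i, ∑ v, ((F i).c v + 1).choose k := by
  refine ((hw F h0 L hL).star_upper (k := k + 1) (by omega)).trans ?_
  rw [Nat.add_sub_cancel, Fintype.sum_sum_type, Fintype.sum_sigma]
  have h1 : ∑ l : Fin (q * L), ((hw F h0 L hL).c (Sum.inr l) + 1).choose k = 0 := by
    refine Finset.sum_eq_zero (fun l _ => ?_)
    have := hw_c_inr F h0 L hL hr l
    exact Nat.choose_eq_zero_of_lt (by omega)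
  rw [h1, add_zero]
  refine Finset.sum_le_sum (fun i _ => Finset.sum_le_sum (fun v _ => ?_))
  exact Nat.choose_le_choose k (Nat.add_le_add_right (hw_c_inl F h0 L hL i v) 1)

end

end Pool.Agent.NP
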