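import Pool.Agent.NP.HwSub
import Pool.Agent.NP.HwPath
import Pool.Agent.NP.HwStar
import Pool.Agent.NP.Fun

namespace Pool.Agent.NP

open SimpleGraph

/-- The highway lemma for one rooted tree of height at most `M`, `2 M + 1 ≤ k`. -/
theorem hw1 {k : ℕ} (hk : 4 ≤ k) {a b m : ℝ} (ha : 0 ≤ a) (hb : 0 ≤ b) (hm : 0 ≤ m)
    (H : Fun1 k a b m) {V : Type} [Fintype V] (F : RF V) {r : V} (hr : F.IsRt r) {M : ℕ}
    (hM : ∀ v, F.lev v ≤ M) (hMk : 2 * M + 1 ≤ k) :
    m * ((F.nst (k + 1)).card : ℝ) ≤
      3 * a * Fintype.card V + b * ((∑ v, (F.c v + 1).choose k : ℕ) : ℝ) := by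
  classical
  rcases Nat.lt_or_ge (Fintype.card V) (k + 1) with hn | hn
  · have h1 : (F.nst (k + 1)).card = 0 := by
      rw [Finset.card_eq_zero, Finset.eq_empty_iff_forall_notMem]
      intro U hU
      have h2 := ((F.mem_nst).1 hU).1.1
      have h3 := Finset.card_le_univ U
      omega
    rw [h1, Nat.cast_zero, mul_zero]
    positivity
  · have h0 : ∀ v, F.par v = none → F.lev v = 0 := by
      intro v hv
      by_cases hvr : v = r
      · rw [hvr]
        exact hr.2.1
      · obtain ⟨p, hp⟩ := hr.2.2 v hvr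
        rw [hv] at hp
        exact absurd hp (by simp)
    set C : ℝ := ((F.subs (k + 1)).card : ℝ) +
      ((k : ℝ) + 1) * (k + 1) * (1 + ((rts F (k + 1) r).card : ℝ)) with hC
    have hC0 : 0 ≤ C := by positivity
    refine le_of_forall_pos_le_add fun ε hε => ?_
    obtain ⟨n0, hn0⟩ := H (ε / (C + 1)) (by positivity)
    set R : ℕ := n0 + 1 with hR
    have hR0 : 0 < R := Nat.succ_pos _
    set T := hw (q := R) (V := fun _ => V) (fun _ => F) (fun _ => h0) (k + 1) (Nat.succ_pos k)
      with hT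
    have hroot := hw_isRt (q := R) (V := fun _ => V) (fun _ => F) (fun _ => h0) (k + 1)
      (Nat.succ_pos k) (fun _ => r) (fun _ => hr) hR0
    have hcard := hw_card (q := R) (V := fun _ => V) (k + 1)
    have hbig : n0 ≤ Fintype.card ((Σ _ : Fin R, V) ⊕ Fin (R * (k + 1))) := by
      rw [hcard]
      have h1 : n0 ≤ R * (k + 1) := by nlinarith
      omega
    have key := hn0 _ T _ hroot hbig
    have e1 := (hw_subs (q := R) (V := fun _ => V) (fun _ => F) (fun _ => h0) (k + 1)
      (Nat.succ_pos k) (r := fun _ => r) (fun _ => hr) (j := k + 1) (Nat.succ_pos k) le_rfl).2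
    have e2 := hw_path (q := R) (V := fun _ => V) (fun _ => F) (fun _ => h0)
      (r := fun _ => r) (fun _ => hr) (M := M) (k := k) (fun _ => hM) hMk
    have e3 := hw_sts (q := R) (V := fun _ => V) (fun _ => F) (fun _ => h0) (k + 1)
      (Nat.succ_pos k) (r := fun _ => r) (fun _ => hr) hk
    have e4 := hw_nst_lower (q := R) (V := fun _ => V) (fun _ => F) (fun _ => h0) (k + 1)
      (Nat.succ_pos k) (j := k + 1) (Nat.succ_pos k)
    rw [← hT] at e1 e2 e3 e4
    simp only [Finset.sum_const, Finset.card_univ, Fintype.card_fin, smul_eq_mul] at e1 e2 e3 e4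
    have f1 : ((T.subs (k + 1)).card : ℝ) ≤ R * C := by
      have : ((T.subs (k + 1)).card : ℝ) ≤ (R * (F.subs (k + 1)).card +
        (k + 1) * (k + 1) * (R * (1 + (rts F (k + 1) r).card)) : ℕ) := by exact_mod_cast e1
      push_cast at this
      rw [hC]
      linarith
    have f2 : (T.P (k + 1) : ℝ) ≤ R * (3 * (Fintype.card V : ℝ)) := by
      have h1 : T.P (k + 1) ≤ R * (3 * Fintype.card V) := by
        refine e2.trans ?_
        have h2 : R * (k + 1) ≤ R * Fintype.card V := Nat.mul_le_mul_left R hn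
        linarith
      exact_mod_cast h1
    have f3 : ((T.sts (k + 1)).card : ℝ) ≤ R * ((∑ v, (F.c v + 1).choose k : ℕ) : ℝ) := by
      exact_mod_cast e3
    have f4 : R * ((F.nst (k + 1)).card : ℝ) ≤ ((T.nst (k + 1)).card : ℝ) := by
      exact_mod_cast e4
    have hRr : (0 : ℝ) < R := by exact_mod_cast hR0
    have g1 : ε / (C + 1) * ((T.subs (k + 1)).card : ℝ) ≤ R * ε := by
      calc ε / (C + 1) * ((T.subs (k + 1)).card : ℝ) ≤ ε / (C + 1) * (R * C) := by gcongr
        _ = R * (ε * (C / (C + 1))) := by ring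
        _ ≤ R * (ε * 1) := by
            have : C / (C + 1) ≤ 1 := by
              rw [div_le_one (by positivity)]
              linarith
            gcongr
        _ = R * ε := by ring
    have g2 := mul_le_mul_of_nonneg_left f2 ha
    have g3 := mul_le_mul_of_nonneg_left f3 hb
    have g4 := mul_le_mul_of_nonneg_left f4 hm
    have g5 : (R : ℝ) * (m * ((F.nst (k + 1)).card : ℝ)) ≤
        R * (3 * a * Fintype.card V + b * ((∑ v, (F.c v + 1).choose k : ℕ) : ℝ) + ε) := by
      linarith
    exact le_of_mul_le_mul_left g5 hRr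

end Pool.Agent.NP
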