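import Pool.Agent.NP.Hw
import Pool.Agent.NP.Bridge

namespace Pool.Agent.NP

open SimpleGraph

section

variable {q : ℕ} {V : Fin q → Type} [∀ i, Fintype (V i)] (F : ∀ i, RF (V i))
  (h0 : ∀ i v, (F i).par v = none → (F i).lev v = 0) (L : ℕ) (hL : 0 < L)

/-- the embedding of the part `i`. -/
def hwEmb (V : Fin q → Type) (L : ℕ) (i : Fin q) : V i ↪ ((Σ i, V i) ⊕ Fin (q * L)) :=
  ⟨fun v => Sum.inl ⟨i, v⟩, fun a b h => by
    have h1 := Sum.inl.inj h
    simpa using h1⟩

omit [∀ i, Fintype (V i)] in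
theorem hw_par_some {i : Fin q} {v p : V i} (hp : (F i).par v = some p) :
    (hw F h0 L hL).par (Sum.inl ⟨i, v⟩) = some (Sum.inl ⟨i, p⟩) := by
  simp only [hw, hp]

omit [∀ i, Fintype (V i)] in
theorem hw_par_none {i : Fin q} {v : V i} (hp : (F i).par v = none) :
    (hw F h0 L hL).par (Sum.inl ⟨i, v⟩) =
      some (Sum.inr ⟨i.val * L, Nat.mul_lt_mul_of_pos_right i.isLt hL⟩) := by
  simp only [hw, hp]

omit [∀ i, Fintype (V i)] in
theorem hw_par_inl {i : Fin q} {v : V i} {x : Σ i, V i}
    (h : (hw F h0 L hL).par (Sum.inl ⟨i, v⟩) = some (Sum.inl x)) :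
    ∃ p, (F i).par v = some p ∧ x = ⟨i, p⟩ := by
  cases hp : (F i).par v with
  | none =>
    rw [hw_par_none F h0 L hL hp] at h
    simp at h
  | some p =>
    rw [hw_par_some F h0 L hL hp] at h
    refine ⟨p, rfl, ?_⟩
    have := Option.some.inj h
    exact (Sum.inl.inj this).symm

omit [∀ i, Fintype (V i)] in
theorem hw_par_inl_inr {i : Fin q} {v : V i} {l : Fin (q * L)}
    (h : (hw F h0 L hL).par (Sum.inl ⟨i, v⟩) = some (Sum.inr l)) :
    (F i).par v = none ∧ l.val = i.val * L := by
  cases hp : (F i).par v with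
  | none =>
    rw [hw_par_none F h0 L hL hp] at h
    refine ⟨rfl, ?_⟩
    have := Sum.inr.inj (Option.some.inj h)
    rw [← this]
  | some p =>
    rw [hw_par_some F h0 L hL hp] at h
    simp at h

omit [∀ i, Fintype (V i)] in
theorem hw_par_inr {l : Fin (q * L)} {x : (Σ i, V i) ⊕ Fin (q * L)}
    (h : (hw F h0 L hL).par (Sum.inr l) = some x) :
    ∃ l' : Fin (q * L), x = Sum.inr l' ∧ l.val = l'.val + 1 := by
  have h' : (if l.val = 0 then none else some (Sum.inr ⟨l.val - 1, by omega⟩) :
      Option ((Σ i, V i) ⊕ Fin (q * L))) = some x := h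
  split_ifs at h' with hl
  refine ⟨⟨l.val - 1, by omega⟩, (Option.some.inj h').symm, ?_⟩
  show l.val = l.val - 1 + 1
  omega

omit [∀ i, Fintype (V i)] in
/-- subtrees of a part are subtrees. -/
theorem hw_sub_map {i : Fin q} {U : Finset (V i)} {t : V i} (h : (F i).Sub U t) :
    (hw F h0 L hL).Sub (U.map (hwEmb V L i)) (hwEmb V L i t) := by
  refine ⟨Finset.mem_map_of_mem _ h.1, ?_⟩
  intro x hx hxt
  obtain ⟨v, hv, rfl⟩ := Finset.mem_map.1 hx
  have hvt : v ≠ t := by
    rintro rfl
    exact hxt rfl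
  obtain ⟨p, hp, hpv⟩ := h.2 v hv hvt
  exact ⟨hwEmb V L i p, Finset.mem_map_of_mem _ hp, hw_par_some F h0 L hL hpv⟩

omit [∀ i, Fintype (V i)] in
theorem hw_sub_of_map {i : Fin q} {U : Finset (V i)} {τ : (Σ i, V i) ⊕ Fin (q * L)}
    (h : (hw F h0 L hL).Sub (U.map (hwEmb V L i)) τ) : ∃ t, τ = hwEmb V L i t ∧ (F i).Sub U t := by
  obtain ⟨t, ht, rfl⟩ := Finset.mem_map.1 h.1
  refine ⟨t, rfl, ht, ?_⟩
  intro v hv hvt
  have hne : hwEmb V L i v ≠ hwEmb V L i t := fun he => hvt ((hwEmb V L i).injective he)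
  obtain ⟨p, hp, hpv⟩ := h.2 _ (Finset.mem_map_of_mem _ hv) hne
  obtain ⟨w, hw', rfl⟩ := Finset.mem_map.1 hp
  obtain ⟨p', hp', he⟩ := hw_par_inl F h0 L hL hpv
  have : w = p' := by simpa using he
  subst this
  exact ⟨w, hw', hp'⟩

omit [∀ i, Fintype (V i)] in
theorem hw_isStar_of_map {i : Fin q} {U : Finset (V i)}
    (h : (hw F h0 L hL).IsStar (U.map (hwEmb V L i))) : (F i).IsStar U := by
  obtain ⟨y, hy, hs⟩ := h
  obtain ⟨v, hv, rfl⟩ := Finset.mem_map.1 hy
  refine ⟨v, hv, ?_⟩
  intro x hx hxv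
  have hne : hwEmb V L i x ≠ hwEmb V L i v := fun he => hxv ((hwEmb V L i).injective he)
  rcases hs _ (Finset.mem_map_of_mem _ hx) hne with h1 | h1
  · obtain ⟨p', hp', he⟩ := hw_par_inl F h0 L hL h1
    have : v = p' := by simpa using he
    subst this
    exact Or.inl hp'
  · obtain ⟨p', hp', he⟩ := hw_par_inl F h0 L hL h1
    have : x = p' := by simpa using he
    subst this
    exact Or.inr hp'

omit [∀ i, Fintype (V i)] in
/-- the parts are determined by their images. -/
theorem hw_map_inj {i i' : Fin q} {U : Finset (V i)} {U' : Finset (V i')} (hne : U.Nonempty)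
    (h : U.map (hwEmb V L i) = U'.map (hwEmb V L i')) :
    (⟨i, U⟩ : Σ i, Finset (V i)) = ⟨i', U'⟩ := by
  obtain ⟨v, hv⟩ := hne
  have h1 : hwEmb V L i v ∈ U'.map (hwEmb V L i') := by
    rw [← h]; exact Finset.mem_map_of_mem _ hv
  obtain ⟨w, hw', he⟩ := Finset.mem_map.1 h1
  have h2 := Sum.inl.inj he
  have h3 : i' = i := congrArg Sigma.fst h2
  subst h3
  have : U = U' := Finset.map_injective _ h
  rw [this]

/-- The non-star subtrees of the parts are non-star subtrees of the whole tree. -/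
theorem hw_nst_lower {j : ℕ} (hj : 1 ≤ j) :
    ∑ i, ((F i).nst j).card ≤ ((hw F h0 L hL).nst j).card := by
  classical
  rw [← Finset.card_sigma]
  apply Finset.card_le_card_of_injOn (fun x => x.2.map (hwEmb V L x.1))
  · rintro ⟨i, U⟩ hU
    simp only [Finset.coe_sigma, Finset.mem_coe, Set.mem_sigma_iff,
      Finset.coe_univ, Set.mem_univ, true_and] at hU
    rw [RF.mem_nst] at hU
    obtain ⟨⟨hc, t, ht⟩, hs⟩ := hU
    rw [Finset.mem_coe, RF.mem_nst]
    refine ⟨⟨by rw [Finset.card_map, hc], _, hw_sub_map F h0 L hL ht⟩, ?_⟩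
    intro h
    exact hs (hw_isStar_of_map F h0 L hL h)
  · rintro ⟨i, U⟩ hU ⟨i', U'⟩ hU' h
    simp only [Finset.coe_sigma, Finset.mem_coe, Set.mem_sigma_iff,
      Finset.coe_univ, Set.mem_univ, true_and] at hU
    rw [RF.mem_nst] at hU
    have hc : U.card = j := hU.1.1
    have hne : U.Nonempty := Finset.card_pos.1 (by omega)
    exact hw_map_inj L hne h

omit [∀ i, Fintype (V i)] in
/-- A subtree without highway vertices lies in one part. -/
theorem hw_part {U : Finset ((Σ i, V i) ⊕ Fin (q * L))} {τ : (Σ i, V i) ⊕ Fin (q * L)}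
    (h : (hw F h0 L hL).Sub U τ) (hno : ∀ l : Fin (q * L), Sum.inr l ∉ U) :
    ∃ i, ∃ U' : Finset (V i), U = U'.map (hwEmb V L i) := by
  classical
  obtain ⟨⟨i, t⟩, rfl⟩ : ∃ x, τ = Sum.inl x := by
    cases τ with
    | inl x => exact ⟨x, rfl⟩
    | inr l => exact absurd h.1 (hno l)
  have key : ∀ n, ∀ x ∈ U, (hw F h0 L hL).lev x = n → ∃ v, x = hwEmb V L i v := by
    intro n
    induction n using Nat.strong_induction_on with
    | _ n ih =>
      intro x hx hn
      by_cases hxt : x = Sum.inl ⟨i, t⟩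
      · exact ⟨t, hxt⟩
      · obtain ⟨p, hp, hpx⟩ := h.2 x hx hxt
        have h1 := (hw F h0 L hL).hlev _ _ hpx
        obtain ⟨w, rfl⟩ := ih ((hw F h0 L hL).lev p) (by omega) p hp rfl
        obtain ⟨⟨i', v⟩, rfl⟩ : ∃ y, x = Sum.inl y := by
          cases x with
          | inl y => exact ⟨y, rfl⟩
          | inr l => exact absurd hx (hno l)
        obtain ⟨p', _, he⟩ := hw_par_inl F h0 L hL hpx
        have h3 : i = i' := congrArg Sigma.fst he
        subst h3
        exact ⟨v, rfl⟩
  refine ⟨i, U.preimage (hwEmb V L i) (hwEmb V L i).injective.injOn, ?_⟩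
  ext x
  rw [Finset.mem_map]
  constructor
  · intro hx
    obtain ⟨v, rfl⟩ := key _ x hx rfl
    exact ⟨v, by rw [Finset.mem_preimage]; exact hx, rfl⟩
  · rintro ⟨v, hv, rfl⟩
    rw [Finset.mem_preimage] at hv
    exact hv

open Classical in
/-- an interval of the highway -/
noncomputable def hwInt (V : Fin q → Type) [∀ i, Fintype (V i)] (L a s : ℕ) : Finset ((Σ i, V i) ⊕ Fin (q * L)) :=
  Finset.univ.filter (fun x => ∃ l : Fin (q * L), x = Sum.inr l ∧ a ≤ l.val ∧ l.val ≤ a + s)

theorem mem_hwInt_inr {a s : ℕ} {l : Fin (q * L)} :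
    Sum.inr l ∈ hwInt V L a s ↔ a ≤ l.val ∧ l.val ≤ a + s := by
  classical
  unfold hwInt
  rw [Finset.mem_filter]
  constructor
  · rintro ⟨_, l', he, h⟩
    have := Sum.inr.inj he
    subst this
    exact h
  · intro h
    exact ⟨Finset.mem_univ _, l, rfl, h⟩

theorem notMem_hwInt_inl {a s : ℕ} {x : Σ i, V i} : Sum.inl x ∉ hwInt V L a s := by
  classical
  unfold hwInt
  rw [Finset.mem_filter]
  rintro ⟨_, l', he, _⟩
  simp at he

open Classical in
/-- decoding -/
noncomputable def hwDec (V : Fin q → Type) [∀ i, Fintype (V i)] (L : ℕ) (i : Fin q) (s m : ℕ) :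
    Option (Finset (V i)) → Finset ((Σ i, V i) ⊕ Fin (q * L))
  | none => hwInt V L (i.val * L + m) s
  | some R => hwInt V L (i.val * L - m) s ∪ R.map (hwEmb V L i)

/-- The structure of a subtree with a highway vertex. -/
theorem hw_struct {r : ∀ i, V i} (hr : ∀ i, (F i).IsRt (r i)) {j : ℕ} (hjL : j ≤ L)
    {U : Finset ((Σ i, V i) ⊕ Fin (q * L))} (hU : U ∈ (hw F h0 L hL).subs j)
    (hl : ∃ l : Fin (q * L), Sum.inr l ∈ U) :
    ∃ i : Fin q, ∃ s < j, ∃ m < L, ∃ o ∈ (rts (F i) j (r i)).insertNone, hwDec V L i s m o = U := by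
  classical
  set H := hw F h0 L hL with hH
  rw [RF.mem_subs] at hU
  obtain ⟨hc, τ, hτ⟩ := hU
  obtain ⟨l1, hl1⟩ := hl
  -- the top is on the highway
  obtain ⟨l0, rfl⟩ : ∃ l0 : Fin (q * L), τ = Sum.inr l0 := by
    have key : ∀ n, ∀ l : Fin (q * L), l.val = n → Sum.inr l ∈ U → ∃ l0 : Fin (q * L), τ = Sum.inr l0 := by
      intro n
      induction n with
      | zero =>
        intro l hn hlU
        by_cases he : Sum.inr l = τ
        · exact ⟨l, he.symm⟩
        · obtain ⟨p, _, hp⟩ := hτ.2 _ hlU he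
          obtain ⟨l', _, hl'⟩ := hw_par_inr F h0 L hL hp
          omega
      | succ n ih =>
        intro l hn hlU
        by_cases he : Sum.inr l = τ
        · exact ⟨l, he.symm⟩
        · obtain ⟨p, hpU, hp⟩ := hτ.2 _ hlU he
          obtain ⟨l', rfl, hl'⟩ := hw_par_inr F h0 L hL hp
          exact ih l' (by omega) hpU
    exact key _ l1 rfl hl1
  -- the highway part is an interval
  have hge : ∀ l : Fin (q * L), Sum.inr l ∈ U → l0.val ≤ l.val := by
    intro l hlU
    by_cases he : (Sum.inr l : (Σ i, V i) ⊕ Fin (q * L)) = Sum.inr l0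
    · rw [Sum.inr.inj he]
    · have := H.lev_top hτ _ hlU he
      have h2 : l0.val < l.val := this
      omega
  have hdown : ∀ n, ∀ l : Fin (q * L), l.val = n → Sum.inr l ∈ U → ∀ l' : Fin (q * L),
      l0.val ≤ l'.val → l'.val ≤ l.val → (Sum.inr l' : (Σ i, V i) ⊕ Fin (q * L)) ∈ U := by
    intro n
    induction n with
    | zero =>
      intro l hn hlU l' h1 h2
      have : l' = l := Fin.ext (by omega)
      rw [this]; exact hlU
    | succ n ih =>
      intro l hn hlU l' h1 h2
      rcases Nat.lt_or_ge l'.val l.val with h3 | h3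
      · have hne : (Sum.inr l : (Σ i, V i) ⊕ Fin (q * L)) ≠ Sum.inr l0 := by
          intro he
          have := Sum.inr.inj he
          subst this
          omega
        obtain ⟨p, hpU, hp⟩ := hτ.2 _ hlU hne
        obtain ⟨l2, rfl, hl2⟩ := hw_par_inr F h0 L hL hp
        exact ih l2 (by omega) hpU l' h1 (by omega)
      · have : l' = l := Fin.ext (by omega)
        rw [this]; exact hlU
  -- the last highway vertex
  obtain ⟨lm, hlmU, hlm⟩ : ∃ lm : Fin (q * L), Sum.inr lm ∈ U ∧
      ∀ l : Fin (q * L), Sum.inr l ∈ U → l.val ≤ lm.val := by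
    have hne : (Finset.univ.filter (fun l : Fin (q * L) => (Sum.inr l : (Σ i, V i) ⊕ Fin (q * L)) ∈ U)).Nonempty :=
      ⟨l0, by simpa using hτ.1⟩
    obtain ⟨lm, h1, h2⟩ := Finset.exists_max_image _ (fun l => l.val) hne
    refine ⟨lm, by simpa using h1, fun l hlU => h2 l (by simpa using hlU)⟩
  have hint : ∀ l : Fin (q * L), (Sum.inr l : (Σ i, V i) ⊕ Fin (q * L)) ∈ U ↔
      l0.val ≤ l.val ∧ l.val ≤ l0.val + (lm.val - l0.val) := by
    intro l
    have h1 := hge lm hlmU
    constructor
    · intro h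
      have := hge l h
      have := hlm l h
      omega
    · rintro ⟨h2, h3⟩
      exact hdown _ lm rfl hlmU l h2 (by omega)
  -- the number of highway vertices
  have hs : lm.val - l0.val < j := by
    have hsub : (Finset.Icc l0 lm).map
        (⟨Sum.inr, Sum.inr_injective⟩ : Fin (q * L) ↪ ((Σ i, V i) ⊕ Fin (q * L))) ⊆ U := by
      intro x hx
      obtain ⟨l, hl', rfl⟩ := Finset.mem_map.1 hx
      rw [Finset.mem_Icc] at hl'
      exact hdown _ lm rfl hlmU l hl'.1 hl'.2
    have hcard := Finset.card_le_card hsub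
    rw [Finset.card_map, hc, Fin.card_Icc] at hcard
    have := hge lm hlmU
    omega
  by_cases hpart : ∃ x : Σ i, V i, Sum.inl x ∈ U
  · -- some part is met
    have hroot : ∀ n, ∀ i (v : V i), (F i).lev v = n → (Sum.inl ⟨i, v⟩ : (Σ i, V i) ⊕ Fin (q * L)) ∈ U →
        (Sum.inl ⟨i, r i⟩ : (Σ i, V i) ⊕ Fin (q * L)) ∈ U ∧ l0.val ≤ i.val * L ∧ i.val * L ≤ lm.val := by
      intro n
      induction n using Nat.strong_induction_on with
      | _ n ih =>
        intro i v hn hvU
        obtain ⟨p, hpU, hp⟩ := hτ.2 _ hvU (by simp)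
        cases hpar : (F i).par v with
        | none =>
          have hvr : v = r i := by
            by_contra hne
            obtain ⟨p', hp'⟩ := (hr i).2.2 v hne
            rw [hpar] at hp'
            simp at hp'
          rw [hw_par_none F h0 L hL hpar] at hp
          have hpe := Option.some.inj hp
          rw [← hpe] at hpU
          rw [hvr] at hvU
          have h1 := hge _ hpU
          have h2 := hlm _ hpU
          exact ⟨hvU, h1, h2⟩
        | some p' =>
          rw [hw_par_some F h0 L hL hpar] at hp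
          have hpe := Option.some.inj hp
          rw [← hpe] at hpU
          have hlv := (F i).hlev _ _ hpar
          exact ih _ (by omega) i p' rfl hpU
    obtain ⟨⟨i, v0⟩, hv0⟩ := hpart
    obtain ⟨hri, hi1, hi2⟩ := hroot _ i v0 rfl hv0
    have huniq : ∀ i' (v : V i'), (Sum.inl ⟨i', v⟩ : (Σ i, V i) ⊕ Fin (q * L)) ∈ U → i' = i := by
      intro i' v hv
      obtain ⟨_, h1, h2⟩ := hroot _ i' v rfl hv
      have h3 := hge lm hlmU
      apply Fin.ext
      rcases Nat.lt_trichotomy i'.val i.val with h4 | h4 | h4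
      · have : (i'.val + 1) * L ≤ i.val * L := Nat.mul_le_mul_right L h4
        have h5 : (i'.val + 1) * L = i'.val * L + L := by ring
        omega
      · exact h4
      · have : (i.val + 1) * L ≤ i'.val * L := Nat.mul_le_mul_right L h4
        have h5 : (i.val + 1) * L = i.val * L + L := by ring
        omega
    set R : Finset (V i) := U.preimage (hwEmb V L i) (hwEmb V L i).injective.injOn with hR
    have hmemR : ∀ v, v ∈ R ↔ (Sum.inl ⟨i, v⟩ : (Σ i, V i) ⊕ Fin (q * L)) ∈ U := by
      intro v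
      rw [hR, Finset.mem_preimage]
      rfl
    refine ⟨i, lm.val - l0.val, hs, i.val * L - l0.val, ?_, some R, ?_, ?_⟩
    · have h3 := hge lm hlmU
      omega
    · rw [Finset.some_mem_insertNone]
      unfold rts
      rw [Finset.mem_filter]
      refine ⟨Finset.mem_univ _, ?_, (hmemR _).2 hri, ?_⟩
      · have hsub : R.map (hwEmb V L i) ⊂ U := by
          rw [Finset.ssubset_iff_of_subset]
          · refine ⟨Sum.inr l0, hτ.1, ?_⟩
            intro hmem
            obtain ⟨v, _, he⟩ := Finset.mem_map.1 hmem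
            exact Sum.inl_ne_inr he
          · intro x hx
            obtain ⟨v, hv, rfl⟩ := Finset.mem_map.1 hx
            exact (hmemR v).1 hv
        have := Finset.card_lt_card hsub
        rw [Finset.card_map, hc] at this
        exact this
      · intro x hx hxr
        obtain ⟨p', hp'⟩ := (hr i).2.2 x hxr
        refine ⟨p', ?_, hp'⟩
        rw [hmemR] at hx ⊢
        obtain ⟨p, hpU, hp⟩ := hτ.2 _ hx (by simp)
        rw [hw_par_some F h0 L hL hp'] at hp
        rw [← Option.some.inj hp] at hpU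
        exact hpU
    · ext x
      unfold hwDec
      rw [Finset.mem_union]
      cases x with
      | inl y =>
        obtain ⟨i', v⟩ := y
        constructor
        · rintro (h | h)
          · exact absurd h (notMem_hwInt_inl L)
          · obtain ⟨w, hw', he⟩ := Finset.mem_map.1 h
            rw [← he]
            exact (hmemR w).1 hw'
        · intro h
          right
          have := huniq i' v h
          subst this
          exact Finset.mem_map.2 ⟨v, (hmemR v).2 h, rfl⟩
      | inr l =>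
        have hcalc : i.val * L - (i.val * L - l0.val) = l0.val := by omega
        rw [mem_hwInt_inr, hcalc]
        constructor
        · rintro (h | h)
          · exact (hint l).2 h
          · obtain ⟨w, _, he⟩ := Finset.mem_map.1 h
            exact absurd he Sum.inl_ne_inr
        · intro h
          exact Or.inl ((hint l).1 h)
  · -- only highway vertices
    have hdiv : l0.val / L < q := by
      rw [Nat.div_lt_iff_lt_mul hL]
      exact l0.isLt
    refine ⟨⟨l0.val / L, hdiv⟩, lm.val - l0.val, hs, l0.val % L, Nat.mod_lt _ hL, none, ?_, ?_⟩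
    · exact Finset.none_mem_insertNone
    · ext x
      unfold hwDec
      cases x with
      | inl y =>
        constructor
        · intro h
          exact absurd h (notMem_hwInt_inl L)
        · intro h
          exact absurd ⟨y, h⟩ hpart
      | inr l =>
        have hcalc : l0.val / L * L + l0.val % L = l0.val := by
          rw [mul_comm]; exact Nat.div_add_mod _ _
        show Sum.inr l ∈ hwInt V L (l0.val / L * L + l0.val % L) (lm.val - l0.val) ↔ _
        rw [mem_hwInt_inr, hcalc]
        exact (hint l).symm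

/-- The number of `j`-vertex subtrees with a highway vertex, `j ≤ L`. Such a subtree has its top
`l` on the highway, its highway part is an interval of at most `j` vertices, and it meets at most
one part, in the empty set or in a subtree with the root of the part. -/
theorem hw_err {r : ∀ i, V i} (hr : ∀ i, (F i).IsRt (r i)) {j : ℕ} (hj : 1 ≤ j) (hjL : j ≤ L) :
    Set.ncard {U : Finset ((Σ i, V i) ⊕ Fin (q * L)) | U ∈ (hw F h0 L hL).subs j ∧
      ∃ l : Fin (q * L), Sum.inr l ∈ U} ≤ j * L * ∑ i, (1 + (rts (F i) j (r i)).card) := by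
  classical
  have _ := hj
  set D : Finset (Σ i : Fin q, (ℕ × ℕ) × Option (Finset (V i))) :=
    Finset.univ.sigma (fun i => (Finset.range j ×ˢ Finset.range L) ×ˢ (rts (F i) j (r i)).insertNone) with hD
  set g : (Σ i : Fin q, (ℕ × ℕ) × Option (Finset (V i))) → Finset ((Σ i, V i) ⊕ Fin (q * L)) :=
    fun z => hwDec V L z.1 z.2.1.1 z.2.1.2 z.2.2 with hg
  have hsub : {U : Finset ((Σ i, V i) ⊕ Fin (q * L)) | U ∈ (hw F h0 L hL).subs j ∧
      ∃ l : Fin (q * L), Sum.inr l ∈ U} ⊆ ((D.image g : Finset _) : Set _) := by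
    rintro U ⟨hU, hl⟩
    obtain ⟨i, s, hs, m, hm, o, ho, he⟩ := hw_struct F h0 L hL hr hjL hU hl
    rw [Finset.mem_coe, Finset.mem_image]
    refine ⟨⟨i, ((s, m), o)⟩, ?_, he⟩
    simp only [hD, Finset.mem_sigma, Finset.mem_univ, true_and, Finset.mem_product, Finset.mem_range]
    exact ⟨⟨hs, hm⟩, ho⟩
  have h1 := Set.ncard_le_ncard hsub (Finset.finite_toSet _)
  rw [Set.ncard_coe_finset] at h1
  refine h1.trans (Finset.card_image_le.trans ?_)
  rw [hD, Finset.card_sigma, Finset.mul_sum]
  apply Finset.sum_le_sum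
  intro i _
  rw [Finset.card_product, Finset.card_product, Finset.card_range, Finset.card_range,
    Finset.card_insertNone, add_comm]

/-- generic counting. -/
theorem hw_gen {r : ∀ i, V i} (hr : ∀ i, (F i).IsRt (r i)) {j : ℕ} (hj : 1 ≤ j) (hjL : j ≤ L)
    (A : ∀ i, Set (Finset (V i))) (B : Set (Finset ((Σ i, V i) ⊕ Fin (q * L))))
    (hA : ∀ i, ∀ U ∈ A i, U.card = j) (hB : ∀ U ∈ B, U ∈ (hw F h0 L hL).subs j)
    (hAB : ∀ i (U : Finset (V i)), U ∈ A i ↔ U.map (hwEmb V L i) ∈ B) :
    ∑ i, (A i).ncard ≤ B.ncard ∧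
      B.ncard ≤ ∑ i, (A i).ncard + j * L * ∑ i, (1 + (rts (F i) j (r i)).card) := by
  classical
  have hcA : ∀ i, (A i).ncard = (Set.toFinite (A i)).toFinset.card := fun i =>
    Set.ncard_eq_toFinset_card _ _
  have hcB : B.ncard = (Set.toFinite B).toFinset.card := Set.ncard_eq_toFinset_card _ _
  set D : Finset (Σ i, Finset (V i)) := Finset.univ.sigma (fun i => (Set.toFinite (A i)).toFinset) with hD
  have hDc : D.card = ∑ i, (A i).ncard := by
    rw [hD, Finset.card_sigma]
    exact Finset.sum_congr rfl fun i _ => (hcA i).symm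
  have hDm : ∀ i (U : Finset (V i)), (⟨i, U⟩ : Σ i, Finset (V i)) ∈ D ↔ U ∈ A i := by
    intro i U
    rw [hD, Finset.mem_sigma]
    exact ⟨fun h => (Set.Finite.mem_toFinset _).1 h.2,
      fun h => ⟨Finset.mem_univ _, (Set.Finite.mem_toFinset _).2 h⟩⟩
  constructor
  · rw [← hDc, hcB]
    apply Finset.card_le_card_of_injOn (fun x => x.2.map (hwEmb V L x.1))
    · rintro ⟨i, U⟩ hU
      rw [Finset.mem_coe, hDm] at hU
      rw [Finset.mem_coe, Set.Finite.mem_toFinset]
      exact (hAB i U).1 hU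
    · rintro ⟨i, U⟩ hU ⟨i', U'⟩ hU' h
      rw [Finset.mem_coe, hDm] at hU
      have hc : U.card = j := hA i U hU
      have hne : U.Nonempty := Finset.card_pos.1 (by omega)
      exact hw_map_inj L hne h
  · have hsub : B ⊆ ((D.image (fun x => x.2.map (hwEmb V L x.1)) : Finset _) : Set _) ∪
        {U : Finset ((Σ i, V i) ⊕ Fin (q * L)) | U ∈ (hw F h0 L hL).subs j ∧
          ∃ l : Fin (q * L), Sum.inr l ∈ U} := by
      intro U hU
      by_cases hl : ∃ l : Fin (q * L), Sum.inr l ∈ U
      · exact Or.inr ⟨hB U hU, hl⟩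
      · left
        push Not at hl
        have h1 := hB U hU
        rw [RF.mem_subs] at h1
        obtain ⟨_, τ, hτ⟩ := h1
        obtain ⟨i, U', rfl⟩ := hw_part F h0 L hL hτ hl
        rw [Finset.mem_coe, Finset.mem_image]
        exact ⟨⟨i, U'⟩, (hDm _ _).2 ((hAB i U').2 hU), rfl⟩
    have h1 := Set.ncard_le_ncard hsub (Set.toFinite _)
    have h2 := Set.ncard_union_le ((D.image (fun x => x.2.map (hwEmb V L x.1)) : Finset _) : Set (Finset ((Σ i, V i) ⊕ Fin (q * L))))
        {U : Finset ((Σ i, V i) ⊕ Fin (q * L)) | U ∈ (hw F h0 L hL).subs j ∧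
          ∃ l : Fin (q * L), Sum.inr l ∈ U}
    have h3 := hw_err F h0 L hL hr hj hjL
    have h4 : (((D.image (fun x => x.2.map (hwEmb V L x.1)) : Finset _) : Set (Finset ((Σ i, V i) ⊕ Fin (q * L))))).ncard
        ≤ ∑ i, (A i).ncard := by
      rw [Set.ncard_coe_finset, ← hDc]
      exact Finset.card_image_le
    omega

/-- the graph of a part is an induced subgraph. -/
noncomputable def hwIso (i : Fin q) (U : Finset (V i)) :
    (F i).graph.induce (U : Set (V i)) ≃g
      (hw F h0 L hL).graph.induce ((U.map (hwEmb V L i) : Finset _) : Set _) where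
  toEquiv := Equiv.ofBijective
    (fun x => ⟨hwEmb V L i x.1, Finset.mem_coe.2 (Finset.mem_map_of_mem _ (Finset.mem_coe.1 x.2))⟩) (by
      constructor
      · intro a b h
        have h1 : hwEmb V L i a.1 = hwEmb V L i b.1 := congrArg Subtype.val h
        exact Subtype.ext ((hwEmb V L i).injective h1)
      · rintro ⟨y, hy⟩
        obtain ⟨v, hv, rfl⟩ := Finset.mem_map.1 (Finset.mem_coe.1 hy)
        exact ⟨⟨v, Finset.mem_coe.2 hv⟩, rfl⟩)
  map_rel_iff' := by
    rintro ⟨a, ha⟩ ⟨b, hb⟩
    have key : ∀ a b : V i, (hw F h0 L hL).par (hwEmb V L i a) = some (hwEmb V L i b) ↔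
        (F i).par a = some b := by
      intro a b
      constructor
      · intro h
        obtain ⟨p', hp', he⟩ := hw_par_inl F h0 L hL h
        have : b = p' := by simpa using he
        subst this
        exact hp'
      · intro h
        exact hw_par_some F h0 L hL h
    show ((hw F h0 L hL).par (hwEmb V L i a) = some (hwEmb V L i b) ∨
      (hw F h0 L hL).par (hwEmb V L i b) = some (hwEmb V L i a)) ↔
      ((F i).par a = some b ∨ (F i).par b = some a)
    rw [key, key]

/-- Counting copies of a tree `S` with `j` vertices. -/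
theorem hw_cnt {r : ∀ i, V i} (hr : ∀ i, (F i).IsRt (r i)) {j : ℕ} (hj : 1 ≤ j) (hjL : j ≤ L)
    {S : SimpleGraph (Fin j)} (hS : S.IsTree) :
    ∑ i, cnt S (F i).graph ≤ cnt S (hw F h0 L hL).graph ∧
      cnt S (hw F h0 L hL).graph ≤ ∑ i, cnt S (F i).graph +
        j * L * ∑ i, (1 + (rts (F i) j (r i)).card) := by
  unfold cnt
  apply hw_gen F h0 L hL hr hj hjL
  · rintro i U ⟨e⟩
    have := Fintype.card_congr e.toEquiv
    simpa using this
  · rintro U ⟨e⟩
    rw [RF.mem_subs, ← RF.induce_isTree_iff]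
    constructor
    · have := Fintype.card_congr e.toEquiv
      simpa using this
    · exact (Iso.isTree_iff e).2 hS
  · intro i U
    constructor
    · rintro ⟨e⟩
      exact ⟨(hwIso F h0 L hL i U).symm.trans e⟩
    · rintro ⟨e⟩
      exact ⟨(hwIso F h0 L hL i U).trans e⟩

/-- Counting all subtrees with `j` vertices. -/
theorem hw_subs {r : ∀ i, V i} (hr : ∀ i, (F i).IsRt (r i)) {j : ℕ} (hj : 1 ≤ j) (hjL : j ≤ L) :
    ∑ i, ((F i).subs j).card ≤ ((hw F h0 L hL).subs j).card ∧
      ((hw F h0 L hL).subs j).card ≤ ∑ i, ((F i).subs j).card +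
        j * L * ∑ i, (1 + (rts (F i) j (r i)).card) := by
  have h := hw_gen F h0 L hL hr hj hjL (fun i => (((F i).subs j : Finset _) : Set _))
    (((hw F h0 L hL).subs j : Finset _) : Set _) ?_ ?_ ?_
  · simpa only [Set.ncard_coe_finset] using h
  · intro i U hU
    rw [Finset.mem_coe, RF.mem_subs] at hU
    exact hU.1
  · intro U hU
    exact hU
  · intro i U
    rw [Finset.mem_coe, Finset.mem_coe, RF.mem_subs, RF.mem_subs, Finset.card_map]
    constructor
    · rintro ⟨h1, t, ht⟩
      exact ⟨h1, _, hw_sub_map F h0 L hL ht⟩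
    · rintro ⟨h1, τ, hτ⟩
      obtain ⟨t, _, ht⟩ := hw_sub_of_map F h0 L hL hτ
      exact ⟨h1, t, ht⟩

end

end Pool.Agent.NP
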