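import Pool.Agent.NP.Wt

namespace Pool.Agent.NP

open SimpleGraph

/-- Numerical inequality for the stars. -/
theorem star_num {k : ℕ} (hk : 10000 ≤ k) (c : ℕ) {w : ℝ} (hw : 1 / 3000 ≤ w) (hw1 : w ≤ 1) :
    let s : ℝ := (min 1 (400000 * k * w / (c + 2))) ^ ((1 : ℝ) / k)
    (c.choose k : ℝ) * s ^ k + 2 * (c.choose (k - 1) : ℝ) * s ^ (k - 1) +
        (c.choose (k - 2) : ℝ) * s ^ (k - 2) ≤
      400000 * w * (1 + 1 / (10 * k)) * ((c + 1).choose (k - 1) : ℝ) := by
  intro s
  obtain ⟨j, rfl⟩ : ∃ j, k = j + 2 := ⟨k - 2, by omega⟩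
  have e1 : j + 2 - 1 = j + 1 := by omega
  have e2 : j + 2 - 2 = j := by omega
  rw [e1, e2]
  have hkpos : (0 : ℝ) < ((j + 2 : ℕ) : ℝ) := by positivity
  set K : ℝ := ((j + 2 : ℕ) : ℝ) with hK
  have hKbig : (10000 : ℝ) ≤ K := by
    rw [hK]; exact_mod_cast hk
  clear hk
  set u : ℝ := (c : ℝ) + 2 with hu
  have hu0 : 0 < u := by positivity
  have hwpos : 0 < w := by linarith
  set X : ℝ := 400000 * K * w / u with hX
  have hX0 : 0 < X := by positivity
  have hPQ : ((c + 1).choose (j + 1) : ℝ) = (c.choose j : ℝ) + (c.choose (j + 1) : ℝ) := by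
    rw [Nat.choose_succ_succ]
    push_cast
    ring
  have hvan : (c.choose (j + 2) : ℝ) + 2 * (c.choose (j + 1) : ℝ) + (c.choose j : ℝ) =
      u / K * ((c.choose j : ℝ) + (c.choose (j + 1) : ℝ)) := by
    have h1 : (c + 2).choose (j + 2) =
        c.choose (j + 2) + 2 * c.choose (j + 1) + c.choose j := by
      rw [Nat.choose_succ_succ, Nat.choose_succ_succ, Nat.choose_succ_succ]
      ring
    have h2 : (c + 2) * (c + 1).choose (j + 1) = (c + 2).choose (j + 2) * (j + 2) :=
      Nat.add_one_mul_choose_eq (c + 1) (j + 1)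
    have h1' : ((c + 2).choose (j + 2) : ℝ) =
        (c.choose (j + 2) : ℝ) + 2 * (c.choose (j + 1) : ℝ) + (c.choose j : ℝ) := by
      rw [h1]; push_cast; ring
    have h2' : u * ((c + 1).choose (j + 1) : ℝ) = ((c + 2).choose (j + 2) : ℝ) * K := by
      have := congrArg (fun n : ℕ => (n : ℝ)) h2
      simp only [Nat.cast_mul] at this
      rw [hu, hK, ← this]
      push_cast
      ring
    rw [← h1', ← hPQ, div_mul_eq_mul_div, eq_div_iff hkpos.ne', h2']
  rw [hPQ]
  set P : ℝ := (c.choose (j + 1) : ℝ) with hP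
  set Q : ℝ := (c.choose j : ℝ) with hQ
  have hP0 : 0 ≤ P := by positivity
  have hQ0 : 0 ≤ Q := by positivity
  have hmin0 : 0 < min 1 X := lt_min one_pos hX0
  have hs0 : 0 < s := Real.rpow_pos_of_pos hmin0 _
  have hsk : s ^ (j + 2) = min 1 X := by
    show ((min 1 X) ^ ((1 : ℝ) / ((j + 2 : ℕ) : ℝ))) ^ (j + 2) = min 1 X
    rw [← Real.rpow_natCast, ← Real.rpow_mul hmin0.le, one_div, inv_mul_cancel₀ hkpos.ne',
      Real.rpow_one]
  rcases le_or_gt 1 X with h1X | hX1
  · have hs1 : s = 1 := by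
      have : min 1 X = 1 := min_eq_left h1X
      show (min 1 X) ^ ((1 : ℝ) / ((j + 2 : ℕ) : ℝ)) = 1
      rw [this, Real.one_rpow]
    rw [hs1]
    simp only [one_pow, mul_one]
    rw [hvan]
    have hwu : u / K ≤ 400000 * w := by
      rw [div_le_iff₀ hkpos]
      have := (le_div_iff₀ hu0).1 h1X
      linarith
    have h3 : 400000 * w ≤ 400000 * w * (1 + 1 / (10 * K)) := by
      have : (0 : ℝ) ≤ 1 / (10 * K) := by positivity
      nlinarith
    have h4 : 0 ≤ Q + P := by positivity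
    exact mul_le_mul_of_nonneg_right (hwu.trans h3) h4
  · have hmX : min 1 X = X := min_eq_right hX1.le
    rw [hmX] at hsk
    -- 1/s ≤ 1 + u/(133 K^2)
    set δ : ℝ := 3 * u / (400 * K ^ 2) with hδ
    have hδ0 : 0 ≤ δ := by positivity
    have hinvX : 1 / X ≤ 3 * u / (400 * K) := by
      rw [hX, one_div_div, div_le_div_iff₀ (by positivity) (by positivity)]
      have : (400 : ℝ) * K * (3000 * w) ≥ 400 * K * 1 := by
        apply mul_le_mul_of_nonneg_left _ (by positivity)
        linarith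
      nlinarith
    have hK1 : (1 : ℝ) ≤ K := by linarith
    have hpow1 : 1 / s ≤ 1 + δ := by
      have h5 : (1 / s) ^ (j + 2) = 1 / X := by rw [one_div_pow, hsk]
      have h6 : 1 / X ≤ (1 + δ) ^ (j + 2) := by
        have hb := one_add_mul_le_pow (R := ℝ) (a := δ) (by linarith) (j + 2)
        have h7 : ((j + 2 : ℕ) : ℝ) * δ = 3 * u / (400 * K) := by
          rw [← hK, hδ]
          field_simp
        have h8 : 3 * u / (400 * K) ≤ (1 + δ) ^ (j + 2) := by
          have : 1 + ((j + 2 : ℕ) : ℝ) * δ ≤ (1 + δ) ^ (j + 2) := by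
            exact_mod_cast hb
          linarith
        exact hinvX.trans h8
      rw [← h5] at h6
      exact le_of_pow_le_pow_left₀ (by omega) (by positivity) h6
    have hpow2 : 1 / s ^ 2 ≤ 1 + 2 * δ := by
      have h5 : (1 / s ^ 2) = (1 / X) ^ (2 / K) := by
        have h51 : s ^ 2 = X ^ (2 / K) := by
          have : s = X ^ ((1 : ℝ) / K) := by
            show (min 1 X) ^ ((1 : ℝ) / ((j + 2 : ℕ) : ℝ)) = X ^ ((1 : ℝ) / K)
            rw [hmX]
          rw [this, ← Real.rpow_natCast, ← Real.rpow_mul hX0.le]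
          congr 1
          push_cast
          ring
        rw [h51, one_div, one_div, Real.inv_rpow hX0.le]
      have hK2 : (2 : ℝ) ≤ K := by linarith
      have h6 : (1 / X) ^ (2 / K) ≤ 1 + (2 / K) * (1 / X - 1) := by
        have := rpow_one_add_le_one_add_mul_self (s := 1 / X - 1) (p := 2 / K)
          (by have : 0 < 1 / X := by positivity
              linarith) (by positivity) (by rw [div_le_one hkpos]; exact hK2)
        rwa [add_sub_cancel] at this
      have h7 : (2 / K) * (1 / X - 1) ≤ 2 * δ := by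
        have h71 : (2 / K) * (1 / X - 1) ≤ (2 / K) * (3 * u / (400 * K)) :=
          mul_le_mul_of_nonneg_left (by linarith) (by positivity)
        have h72 : (2 / K) * (3 * u / (400 * K)) = 2 * δ := by
          rw [hδ]; field_simp
        linarith
      linarith
    have hsplit1 : s ^ (j + 1) = X * (1 / s) := by
      rw [← hsk]; field_simp; ring
    have hsplit0 : s ^ j = X * (1 / s ^ 2) := by
      rw [← hsk]; field_simp; ring
    rw [hsplit1, hsplit0, hsk]
    have hfin : (c.choose (j + 2) : ℝ) + 2 * P * (1 / s) + Q * (1 / s ^ 2) ≤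
        (u / K) * (1 + 1 / (10 * K)) * (Q + P) := by
      have h9 : 2 * P * (1 / s) ≤ 2 * P * (1 + δ) :=
        mul_le_mul_of_nonneg_left hpow1 (by positivity)
      have h10 : Q * (1 / s ^ 2) ≤ Q * (1 + 2 * δ) :=
        mul_le_mul_of_nonneg_left hpow2 hQ0
      have h11 : 2 * δ ≤ (u / K) * (1 / (10 * K)) := by
        rw [hδ, div_mul_div_comm, ← mul_div_assoc, div_le_div_iff₀ (by positivity) (by positivity)]
        nlinarith [mul_pos hu0 (pow_pos hkpos 2)]
      have h12 : 2 * δ * (Q + P) ≤ (u / K) * (1 / (10 * K)) * (Q + P) :=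
        mul_le_mul_of_nonneg_right h11 (by positivity)
      nlinarith [hvan]
    have huX : 400000 * w = X * (u / K) := by
      rw [hX]; field_simp
    rw [huX]
    calc (c.choose (j + 2) : ℝ) * X + 2 * P * (X * (1 / s)) + Q * (X * (1 / s ^ 2))
        = X * ((c.choose (j + 2) : ℝ) + 2 * P * (1 / s) + Q * (1 / s ^ 2)) := by ring
      _ ≤ X * ((u / K) * (1 + 1 / (10 * K)) * (Q + P)) :=
          mul_le_mul_of_nonneg_left hfin hX0.le
      _ = X * (u / K) * (1 + 1 / (10 * K)) * (Q + P) := by ring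

/-- Numerical inequality for one non-star: `c` children, `i` of them in the subtree, height `h`,
`g` is the probability that the subtree survives. -/
theorem contrib_num {k : ℕ} (hk : 1000000 ≤ k) {c i h M rho : ℕ} (hi1 : 1 ≤ i) (hik : i + 1 ≤ k)
    (hic : i ≤ c) (hrho : rho = min (k - 2) (i + 1)) (hh : 200 * h ≤ k) (hM : 499 * k ≤ 1000 * M)
    {w s g : ℝ} (hw : 0 < w) (hw1 : w ≤ 1) (hs : 0 < s) (hs1 : s ≤ 1)
    (hsk : s ^ k = min 1 (400000 * k * w / (c + 2)))
    (hg : s ^ (k - 1) * Real.exp (-(16 / (M : ℝ)) * h * ((k : ℝ) - 1 - i) / k) ≤ g) :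
    400000 * w * ((1 + (1 - (rho : ℝ) / k)) * (1 - 17 / 100 * (1 - (rho : ℝ) / k))) ≤
      g * (((c : ℝ) - i) * s / rho + k) := by
  have hkR : (1000000 : ℝ) ≤ (k : ℝ) := by exact_mod_cast hk
  have hk0 : (0 : ℝ) < (k : ℝ) := by linarith
  have hM0 : 0 < M := by omega
  have hM0' : (0 : ℝ) < (M : ℝ) := by exact_mod_cast hM0
  have hMR : 499 * (k : ℝ) ≤ 1000 * (M : ℝ) := by exact_mod_cast hM
  have hhR : 200 * (h : ℝ) ≤ (k : ℝ) := by exact_mod_cast hh
  have hh0 : (0 : ℝ) ≤ (h : ℝ) := by positivity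
  have hr2 : 2 ≤ rho := by omega
  have hrk : rho + 2 ≤ k := by omega
  have hri : rho ≤ i + 1 := by omega
  have hr2R : (2 : ℝ) ≤ (rho : ℝ) := by exact_mod_cast hr2
  have hrkR : (rho : ℝ) + 2 ≤ (k : ℝ) := by exact_mod_cast hrk
  have hriR : (rho : ℝ) ≤ (i : ℝ) + 1 := by exact_mod_cast hri
  have hikR : (i : ℝ) + 1 ≤ (k : ℝ) := by exact_mod_cast hik
  have hicR : (i : ℝ) ≤ (c : ℝ) := by exact_mod_cast hic
  have hi1R : (1 : ℝ) ≤ (i : ℝ) := by exact_mod_cast hi1
  set β : ℝ := 1 - (rho : ℝ) / k with hβ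
  have hβk : β * k = k - rho := by
    rw [hβ]; field_simp
  have hβ0 : 0 < β := by
    rw [hβ, sub_pos, div_lt_one hk0]; linarith
  have hβ1 : β < 1 := by
    have : 0 < (rho : ℝ) / k := by positivity
    linarith
  -- the exponential factor
  have hexp : 1 - 17 / 100 * β ≤ Real.exp (-(16 / (M : ℝ)) * h * ((k : ℝ) - 1 - i) / k) := by
    have h1 := Real.add_one_le_exp (-(16 / (M : ℝ)) * h * ((k : ℝ) - 1 - i) / k)
    have h2 : (k : ℝ) - 1 - i ≤ β * k := by rw [hβk]; linarith
    have h3 : 16 / (M : ℝ) * h ≤ 17 / 100 := by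
      rw [div_mul_eq_mul_div, div_le_iff₀ hM0']
      nlinarith
    have h4 : 16 / (M : ℝ) * h * ((k : ℝ) - 1 - i) ≤ 17 / 100 * (β * k) :=
      mul_le_mul h3 h2 (by linarith) (by norm_num)
    have h5 : 16 / (M : ℝ) * h * ((k : ℝ) - 1 - i) / k ≤ 17 / 100 * β := by
      rw [div_le_iff₀ hk0]; linarith
    have h6 : -(16 / (M : ℝ)) * h * ((k : ℝ) - 1 - i) / k =
        -(16 / (M : ℝ) * h * ((k : ℝ) - 1 - i) / k) := by ring
    rw [h6] at h1 ⊢
    linarith
  have hfac0 : 0 ≤ 1 - 17 / 100 * β := by linarith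
  -- the main factor
  have hA0 : 0 ≤ ((c : ℝ) - i) * s / rho + k := by
    have : 0 ≤ ((c : ℝ) - i) * s / rho := by
      apply div_nonneg (mul_nonneg (by linarith) hs.le) (by linarith)
    linarith
  have hmain : 400000 * w * (1 + β) ≤ s ^ (k - 1) * (((c : ℝ) - i) * s / rho + k) := by
    rcases le_or_gt 1 (400000 * k * w / (c + 2)) with h1 | h1
    · rw [min_eq_left h1] at hsk
      have hs1' : s = 1 := by
        by_contra hne
        have hlt : s < 1 := lt_of_le_of_ne hs1 hne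
        have := pow_lt_one₀ hs.le hlt (by omega : k ≠ 0)
        linarith
      rw [hs1', one_pow, one_mul, mul_one]
      have : 0 ≤ ((c : ℝ) - i) / rho := div_nonneg (by linarith) (by linarith)
      have h2 : 400000 * w * (1 + β) ≤ 400000 * 1 * 2 := by
        apply mul_le_mul _ (by linarith) (by linarith) (by norm_num)
        linarith
      linarith
    · rw [min_eq_right h1.le] at hsk
      have hpk : s ^ k = s ^ (k - 1) * s := by
        rw [← pow_succ]; congr 1; omega
      have hsp : 0 < s ^ (k - 1) := pow_pos hs _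
      have hle : s ^ k * (((c : ℝ) - i) / rho + k) ≤
          s ^ (k - 1) * (((c : ℝ) - i) * s / rho + k) := by
        rw [hpk]
        have : s ^ (k - 1) * s * (((c : ℝ) - i) / rho + k) =
            s ^ (k - 1) * (((c : ℝ) - i) * s / rho + s * k) := by ring
        rw [this]
        apply mul_le_mul_of_nonneg_left _ hsp.le
        nlinarith
      refine le_trans ?_ hle
      have h2 : ((c : ℝ) + 2) / rho ≤ ((c : ℝ) - i) / rho + k := by
        rw [div_add' _ _ _ (by linarith), div_le_div_iff_of_pos_right (by linarith)]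
        nlinarith
      have h3 : s ^ k * (((c : ℝ) + 2) / rho) ≤ s ^ k * (((c : ℝ) - i) / rho + k) :=
        mul_le_mul_of_nonneg_left h2 (pow_pos hs _).le
      refine le_trans ?_ h3
      rw [hsk]
      have hc2 : (0 : ℝ) < (c : ℝ) + 2 := by positivity
      have h4 : 400000 * (k : ℝ) * w / (c + 2) * (((c : ℝ) + 2) / rho) =
          400000 * w * (k / rho) := by
        field_simp
      rw [h4]
      apply mul_le_mul_of_nonneg_left _ (by positivity)
      rw [le_div_iff₀ (by linarith)]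
      have hrβ : (rho : ℝ) = (1 - β) * k := by
        rw [sub_mul, hβk]; ring
      rw [hrβ]
      nlinarith [mul_nonneg (sq_nonneg β) hk0.le]
  have hsp : 0 < s ^ (k - 1) := pow_pos hs _
  calc 400000 * w * ((1 + β) * (1 - 17 / 100 * β))
      = (400000 * w * (1 + β)) * (1 - 17 / 100 * β) := by ring
    _ ≤ (s ^ (k - 1) * (((c : ℝ) - i) * s / rho + k)) * (1 - 17 / 100 * β) :=
        mul_le_mul_of_nonneg_right hmain hfac0
    _ = s ^ (k - 1) * (1 - 17 / 100 * β) * (((c : ℝ) - i) * s / rho + k) := by ring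
    _ ≤ s ^ (k - 1) * Real.exp (-(16 / (M : ℝ)) * h * ((k : ℝ) - 1 - i) / k) *
          (((c : ℝ) - i) * s / rho + k) := by
        apply mul_le_mul_of_nonneg_right _ hA0
        exact mul_le_mul_of_nonneg_left hexp hsp.le
    _ ≤ g * (((c : ℝ) - i) * s / rho + k) := mul_le_mul_of_nonneg_right hg hA0

/-- The final numerical inequality for the sum over the shifts. -/
theorem shift_num {k : ℕ} (hk : 1000000 ≤ k) {i h M rho : ℕ} (hi1 : 1 ≤ i) (hik : i + 1 ≤ k)
    (hrho : rho = min (k - 2) (i + 1)) (hhi : h + i ≤ k) (hM : 499 * k ≤ 1000 * M) :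
    1 + 1 / (k : ℝ) ≤ ((1 + (1 - (rho : ℝ) / k)) * (1 - 17 / 100 * (1 - (rho : ℝ) / k))) *
      (1 - (h : ℝ) / (70 * M)) := by
  have hkR : (1000000 : ℝ) ≤ (k : ℝ) := by exact_mod_cast hk
  have hk0 : (0 : ℝ) < (k : ℝ) := by linarith
  have hM0 : 0 < M := by omega
  have hM0' : (0 : ℝ) < (M : ℝ) := by exact_mod_cast hM0
  have hMR : 499 * (k : ℝ) ≤ 1000 * (M : ℝ) := by exact_mod_cast hM
  have hh0 : (0 : ℝ) ≤ (h : ℝ) := by positivity
  have hr2 : 2 ≤ rho := by omega
  have hrk : rho + 2 ≤ k := by omega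
  have hhr : h + rho ≤ k + 1 := by omega
  have hr2R : (2 : ℝ) ≤ (rho : ℝ) := by exact_mod_cast hr2
  have hrkR : (rho : ℝ) + 2 ≤ (k : ℝ) := by exact_mod_cast hrk
  have hhrR : (h : ℝ) + rho ≤ (k : ℝ) + 1 := by exact_mod_cast hhr
  set β : ℝ := 1 - (rho : ℝ) / k with hβ
  have hβk : β * k = k - rho := by
    rw [hβ]; field_simp
  have hβ0 : 0 < β := by
    rw [hβ, sub_pos, div_lt_one hk0]; linarith
  have hβ1 : β < 1 := by
    have : 0 < (rho : ℝ) / k := by positivity
    linarith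
  have h2β : 1 / (k : ℝ) ≤ β / 2 := by
    rw [div_le_iff₀ hk0]; linarith
  have hhM : (h : ℝ) / (70 * M) ≤ 43 / 1000 * β := by
    rw [div_le_iff₀ (by positivity)]
    have h1 : (h : ℝ) ≤ 3 / 2 * (β * k) := by rw [hβk]; linarith
    have h2 : β * (499 * (k : ℝ)) ≤ β * (1000 * (M : ℝ)) := mul_le_mul_of_nonneg_left hMR hβ0.le
    nlinarith
  have hA : 0 ≤ (1 + β) * (1 - 17 / 100 * β) := mul_nonneg (by linarith) (by linarith)
  have h3 : (1 + β) * (1 - 17 / 100 * β) * (1 - 43 / 1000 * β) ≤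
      (1 + β) * (1 - 17 / 100 * β) * (1 - (h : ℝ) / (70 * M)) :=
    mul_le_mul_of_nonneg_left (by linarith) hA
  refine le_trans ?_ h3
  have h4 : 1 + β / 2 ≤ (1 + β) * (1 - 17 / 100 * β) * (1 - 43 / 1000 * β) := by
    nlinarith [mul_nonneg hβ0.le (by linarith : (0 : ℝ) ≤ 1 - β),
      mul_nonneg (mul_nonneg hβ0.le hβ0.le) hβ0.le]
  linarith

end Pool.Agent.NP
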