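import Pool.Agent.NP.Perc

namespace Pool.Agent.NP

open SimpleGraph

namespace RF

variable {V : Type}

/-- Two vertices of `U` have levels which differ by at least `h`. -/
def Tall (F : RF V) (h : ℕ) (U : Finset V) : Prop := ∃ x ∈ U, ∃ y ∈ U, F.lev x + h ≤ F.lev y

open Classical in
/-- The part of `U` below `z` (with `z`). -/
noncomputable def low (F : RF V) (z : V) (U : Finset V) : Finset V :=
  U.filter (fun y => ∃ j, F.anc j y = some z)

open Classical in
/-- The rest of `U`. -/
noncomputable def upp (F : RF V) (z : V) (U : Finset V) : Finset V :=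
  U.filter (fun y => ¬ ∃ j, F.anc j y = some z)

theorem talla_anc_lev (F : RF V) : ∀ (j : ℕ) (v u : V), F.anc j v = some u →
    F.lev v = F.lev u + j := by
  intro j
  induction j with
  | zero =>
    intro v u h
    simp only [anc, Option.some.injEq] at h
    subst h
    rfl
  | succ j ih =>
    intro v u h
    simp only [anc] at h
    cases hp : F.par v with
    | none => simp [hp] at h
    | some p =>
      rw [hp] at h
      have h1 := ih p u (by simpa using h)
      have h2 := F.hlev _ _ hp
      omega

/-- The ancestors of an element of a subtree down to the level of the top are in the subtree. -/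
theorem talla_anc_mem (F : RF V) {U : Finset V} {t : V} (hU : F.Sub U t) :
    ∀ (j : ℕ) (y : V), y ∈ U → F.lev t + j ≤ F.lev y →
      ∃ u ∈ U, F.anc j y = some u := by
  intro j
  induction j with
  | zero =>
    intro y hy _
    exact ⟨y, hy, rfl⟩
  | succ j ih =>
    intro y hy hl
    have hyt : y ≠ t := by
      rintro rfl
      omega
    obtain ⟨p, hp, hpy⟩ := hU.2 y hy hyt
    have h1 := F.hlev _ _ hpy
    obtain ⟨u, hu, hu'⟩ := ih p hp (by omega)
    refine ⟨u, hu, ?_⟩
    simp [anc, hpy, hu']

theorem talla_anc_add (F : RF V) : ∀ (i j : ℕ) (v u w : V), F.anc i v = some u →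
    F.anc j u = some w → F.anc (i + j) v = some w := by
  intro i
  induction i with
  | zero =>
    intro j v u w h1 h2
    simp only [anc, Option.some.injEq] at h1
    subst h1
    simpa using h2
  | succ i ih =>
    intro j v u w h1 h2
    simp only [anc] at h1
    cases hp : F.par v with
    | none => simp [hp] at h1
    | some p =>
      rw [hp] at h1
      have h3 := ih j p u w (by simpa using h1) h2
      have h4 : i + 1 + j = (i + j) + 1 := by omega
      rw [h4]
      simp [anc, hp, h3]

theorem talla_lev_le (F : RF V) {U : Finset V} {t : V} (hU : F.Sub U t) {x : V} (hx : x ∈ U) :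
    F.lev t ≤ F.lev x := by
  by_cases h : x = t
  · rw [h]
  · exact (F.lev_top hU x hx h).le

theorem tall_split (F : RF V) {U : Finset V} {t : V} (hU : F.Sub U t) {h g : ℕ}
    (hT : F.Tall h U) (hg : g ≤ h) :
    ∃ z ∈ U, F.anc g z = some t ∧ ∃ y ∈ F.low z U, F.lev z + (h - g) ≤ F.lev y := by
  classical
  obtain ⟨x, hx, y, hy, hxy⟩ := hT
  have h1 := F.talla_lev_le hU hx
  obtain ⟨z, hz, hzy⟩ := F.talla_anc_mem hU (F.lev y - F.lev t - g) y hy (by omega)
  have h2 := F.talla_anc_lev _ _ _ hzy
  refine ⟨z, hz, ?_, y, ?_, by omega⟩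
  · have h3 := F.exists_anc_top hU z hz
    have h4 : F.lev z - F.lev t = g := by omega
    rwa [h4] at h3
  · rw [low, Finset.mem_filter]
    exact ⟨hy, _, hzy⟩

theorem low_sub (F : RF V) {U : Finset V} {t : V} (hU : F.Sub U t) {z : V} (hz : z ∈ U) :
    F.Sub (F.low z U) z := by
  classical
  refine ⟨?_, ?_⟩
  · rw [low, Finset.mem_filter]
    exact ⟨hz, 0, rfl⟩
  · intro x hx hxz
    rw [low, Finset.mem_filter] at hx
    obtain ⟨hxU, j, hj⟩ := hx
    have hxt : x ≠ t := by
      rintro rfl
      have h1 := F.talla_anc_lev _ _ _ hj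
      have h2 := F.lev_top hU z hz (Ne.symm hxz)
      omega
    obtain ⟨p, hp, hpx⟩ := hU.2 x hxU hxt
    refine ⟨p, ?_, hpx⟩
    rw [low, Finset.mem_filter]
    refine ⟨hp, ?_⟩
    cases j with
    | zero =>
      simp only [anc, Option.some.injEq] at hj
      exact absurd hj hxz
    | succ j =>
      simp only [anc, hpx] at hj
      exact ⟨j, by simpa using hj⟩

/-- The upper part is a subtree with the same top. -/
theorem upp_sub (F : RF V) {U : Finset V} {t : V} (hU : F.Sub U t) {z : V} (hz : z ∈ U)
    (hzt : z ≠ t) : F.Sub (F.upp z U) t := by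
  classical
  refine ⟨?_, ?_⟩
  · rw [upp, Finset.mem_filter]
    refine ⟨hU.1, ?_⟩
    rintro ⟨j, hj⟩
    have h1 := F.talla_anc_lev _ _ _ hj
    have h2 := F.lev_top hU z hz hzt
    omega
  · intro x hx hxt
    rw [upp, Finset.mem_filter] at hx
    obtain ⟨hxU, hx2⟩ := hx
    obtain ⟨p, hp, hpx⟩ := hU.2 x hxU hxt
    refine ⟨p, ?_, hpx⟩
    rw [upp, Finset.mem_filter]
    refine ⟨hp, ?_⟩
    rintro ⟨j, hj⟩
    exact hx2 ⟨j + 1, by simp [anc, hpx, hj]⟩

theorem low_upp_card (F : RF V) (z : V) (U : Finset V) :
    (F.low z U).card + (F.upp z U).card = U.card := by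
  classical
  rw [low, upp]
  exact Finset.card_filter_add_card_filter_not _

variable [Fintype V]

open Classical in
theorem ext_split (F : RF V) {U : Finset V} {t : V} (hU : F.Sub U t) {z : V} (hz : z ∈ U)
    (hzt : z ≠ t) :
    (F.ext U).card ≤ (F.ext (F.low z U)).card + (F.ext (F.upp z U) \ {z}).card := by
  have hsub : F.ext U ⊆ F.ext (F.low z U) ∪ (F.ext (F.upp z U) \ {z}) := by
    intro x hx
    rw [mem_ext] at hx
    obtain ⟨hxU, p, hp, hpx⟩ := hx
    rw [Finset.mem_union]
    by_cases h : ∃ j, F.anc j p = some z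
    · left
      rw [mem_ext]
      refine ⟨fun h' => hxU ?_, p, ?_, hpx⟩
      · rw [low, Finset.mem_filter] at h'
        exact h'.1
      · rw [low, Finset.mem_filter]
        exact ⟨hp, h⟩
    · right
      rw [Finset.mem_sdiff, mem_ext, Finset.mem_singleton]
      refine ⟨⟨fun h' => hxU ?_, p, ?_, hpx⟩, ?_⟩
      · rw [upp, Finset.mem_filter] at h'
        exact h'.1
      · rw [upp, Finset.mem_filter]
        exact ⟨hp, h⟩
      · rintro rfl
        exact hxU hz
  exact (Finset.card_le_card hsub).trans (Finset.card_union_le _ _)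

open Classical in
/-- The subtrees with few outer neighbours: percolation with parameter `1 / 2`. -/
theorem rest_card (F : RF V) {k : ℕ} (hk : 1 ≤ k) (E : ℕ) :
    ((F.subs k).filter (fun U => (F.ext U).card ≤ E)).card ≤
      Fintype.card V * 2 ^ (k - 1 + E) := by
  have hone : ∀ t : V, ((F.subs k).filter
      (fun U => (F.ext U).card ≤ E ∧ F.Sub U t)).card ≤ 2 ^ (k - 1 + E) := by
    intro t
    set G := (F.subs k).filter (fun U => (F.ext U).card ≤ E ∧ F.Sub U t) with hG
    have hmem : ∀ S ∈ G, S.card = k ∧ (F.ext S).card ≤ E ∧ F.Sub S t := by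
      intro S hS
      rw [hG, Finset.mem_filter, mem_subs] at hS
      exact ⟨hS.1.1, hS.2.1, hS.2.2⟩
    have h1 := perc_card F {t} ∅ G ?_ (y := 1 / 2) (by norm_num) (by norm_num)
      (s := k - 1) (e := E) ?_ ?_
    · have h2 : ((1 : ℝ) / 2) ^ (k - 1) * (1 - 1 / 2) ^ E = 1 / 2 ^ (k - 1 + E) := by
        rw [show (1 - 1 / 2 : ℝ) = 1 / 2 by norm_num, ← pow_add, one_div_pow]
      rw [h2, mul_one_div, div_le_one (by positivity)] at h1
      exact_mod_cast h1
    · intro S hS
      obtain ⟨-, -, h3⟩ := hmem S hS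
      refine ⟨Finset.singleton_subset_iff.mpr h3.1, Finset.disjoint_empty_right _, ?_⟩
      intro x hx hxt
      rw [Finset.mem_singleton] at hxt
      exact h3.2 x hx hxt
    · intro S hS
      obtain ⟨h3, -, h4⟩ := hmem S hS
      rw [Finset.card_sdiff_of_subset (Finset.singleton_subset_iff.mpr h4.1), h3,
        Finset.card_singleton]
    · intro S hS
      obtain ⟨-, h3, -⟩ := hmem S hS
      rwa [Finset.sdiff_empty]
  have hsub : (F.subs k).filter (fun U => (F.ext U).card ≤ E) ⊆
      (Finset.univ : Finset V).biUnion (fun t => (F.subs k).filter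
        (fun U => (F.ext U).card ≤ E ∧ F.Sub U t)) := by
    intro U hU
    rw [Finset.mem_filter] at hU
    obtain ⟨hU1, hU2⟩ := hU
    obtain ⟨t, ht⟩ := ((mem_subs F).mp hU1).2
    rw [Finset.mem_biUnion]
    exact ⟨t, Finset.mem_univ _, Finset.mem_filter.mpr ⟨hU1, hU2, ht⟩⟩
  calc ((F.subs k).filter (fun U => (F.ext U).card ≤ E)).card
      ≤ _ := Finset.card_le_card hsub
    _ ≤ ∑ t : V, ((F.subs k).filter (fun U => (F.ext U).card ≤ E ∧ F.Sub U t)).card :=
        Finset.card_biUnion_le
    _ ≤ ∑ _t : V, 2 ^ (k - 1 + E) := Finset.sum_le_sum fun t _ => hone t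
    _ = Fintype.card V * 2 ^ (k - 1 + E) := by
        rw [Finset.sum_const, Finset.card_univ, smul_eq_mul]

open Classical in
/-- Adding `k - |R|` outer neighbours to a subtree `R` gives subtrees with `k` vertices, which are
not stars if the levels of `R` differ by at least three; every subtree arises at most `2 ^ k`
times. -/
theorem sum_choose_le (F : RF V) {k : ℕ} (G : Finset (Finset V))
    (hG : ∀ R ∈ G, (∃ t, F.Sub R t) ∧ R.card ≤ k ∧ ∃ x ∈ R, ∃ y ∈ R, F.lev x + 3 ≤ F.lev y) :
    ∑ R ∈ G, ((F.ext R).card).choose (k - R.card) ≤ 2 ^ k * (F.nst k).card := by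
  have h1 : ∑ R ∈ G, ((F.ext R).card).choose (k - R.card) =
      (G.sigma (fun R => (F.ext R).powersetCard (k - R.card))).card := by
    rw [Finset.card_sigma]
    exact Finset.sum_congr rfl fun R _ => (Finset.card_powersetCard _ _).symm
  rw [h1]
  have hdisj : ∀ (R S : Finset V), S ⊆ F.ext R → Disjoint R S := by
    intro R S hS
    rw [Finset.disjoint_left]
    intro x hx hx'
    exact ((mem_ext F).mp (hS hx')).1 hx
  refine Finset.card_le_mul_card_image_of_maps_to
    (f := fun q : (_ : Finset V) × Finset V => q.1 ∪ q.2) ?_ _ ?_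
  · rintro ⟨R, S⟩ hq
    rw [Finset.mem_sigma, Finset.mem_powersetCard] at hq
    obtain ⟨hR, hS, hScard⟩ := hq
    simp only at hR hS hScard
    obtain ⟨⟨t, ht⟩, hRk, x, hx, y, hy, hxy⟩ := hG R hR
    simp only
    rw [mem_nst]
    refine ⟨⟨?_, t, ?_, ?_⟩, ?_⟩
    · rw [Finset.card_union_of_disjoint (hdisj R S hS), hScard]
      omega
    · exact Finset.mem_union_left _ ht.1
    · intro u hu hut
      rw [Finset.mem_union] at hu
      rcases hu with hu | hu
      · obtain ⟨p, hp, hpu⟩ := ht.2 u hu hut
        exact ⟨p, Finset.mem_union_left _ hp, hpu⟩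
      · obtain ⟨-, p, hp, hpu⟩ := (mem_ext F).mp (hS hu)
        exact ⟨p, Finset.mem_union_left _ hp, hpu⟩
    · rintro ⟨v, -, hv⟩
      have key : ∀ w ∈ R, F.lev w ≤ F.lev v + 1 ∧ F.lev v ≤ F.lev w + 1 := by
        intro w hw
        by_cases hwv : w = v
        · subst hwv
          omega
        · rcases hv w (Finset.mem_union_left _ hw) hwv with h | h
          · have := F.hlev _ _ h
            omega
          · have := F.hlev _ _ h
            omega
      have h2 := key x hx
      have h3 := key y hy
      omega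
  · intro W hW
    have hWk : W.card = k := ((mem_nst F).mp hW).1.1
    calc ((G.sigma (fun R => (F.ext R).powersetCard (k - R.card))).filter
          (fun q => q.1 ∪ q.2 = W)).card
        ≤ W.powerset.card := by
          refine Finset.card_le_card_of_injOn (fun q => q.1) ?_ ?_
          · rintro ⟨R, S⟩ hq
            simp only [Finset.coe_filter, Finset.mem_sigma, Set.mem_ofPred_eq] at hq
            simp only [Finset.coe_powerset, Set.mem_preimage, Set.mem_powerset_iff,
              Finset.coe_subset]
            rw [← hq.2]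
            exact Finset.subset_union_left
          · rintro ⟨R, S⟩ hq ⟨R', S'⟩ hq' heq
            simp only [Finset.coe_filter, Finset.mem_sigma, Set.mem_ofPred_eq,
              Finset.mem_powersetCard] at hq hq'
            simp only at heq
            subst heq
            obtain ⟨⟨-, hS, -⟩, hW1⟩ := hq
            obtain ⟨⟨-, hS', -⟩, hW2⟩ := hq'
            have e1 : S = W \ R := by
              rw [← hW1, Finset.union_sdiff_cancel_left (hdisj R S hS)]
            have e2 : S' = W \ R := by
              rw [← hW2, Finset.union_sdiff_cancel_left (hdisj R S' hS')]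
            rw [e1, e2]
      _ = 2 ^ k := by rw [Finset.card_powerset, hWk]

end RF

end Pool.Agent.NP
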