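import Pool.Agent.NP.Sig
import Pool.Agent.NP.Num
import Pool.Agent.NP.TallA

namespace Pool.Agent.NP

open SimpleGraph

namespace RF

variable {V : Type} [Fintype V]

omit [Fintype V] in
private theorem sg_nonneg' (F : RF V) (s : V → ℝ) (hs : ∀ v, 0 ≤ s v) (U : Finset V) :
    0 ≤ F.sg s U := by
  unfold sg
  apply Finset.prod_nonneg
  intro x _
  unfold sp
  cases F.par x with
  | none => exact zero_le_one
  | some v => exact hs v

/-- Reindexing the shifts by the residue of the top level. -/
private theorem shift_reindex (L M h : ℕ) (hM : h < M) (f : ℕ → ℝ) :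
    ∑ d ∈ (Finset.range M).filter (fun d => (L + d) % M + h < M), f ((L + d) % M) =
      ∑ j ∈ Finset.range (M - h), f j := by
  have hM0 : 0 < M := by omega
  refine Finset.sum_nbij (fun d => (L + d) % M) ?_ ?_ ?_ ?_
  · intro d hd
    rw [Finset.mem_filter] at hd
    rw [Finset.mem_range]
    have := hd.2
    show (L + d) % M < M - h
    omega
  · intro a ha b hb hab
    rw [Finset.mem_coe, Finset.mem_filter, Finset.mem_range] at ha hb
    have hab' : (L + a) ≡ (L + b) [MOD M] := hab
    have h2 : a ≡ b [MOD M] := Nat.ModEq.add_left_cancel' L hab'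
    have h3 : a % M = b % M := h2
    rwa [Nat.mod_eq_of_lt ha.1, Nat.mod_eq_of_lt hb.1] at h3
  · intro j hj
    rw [Finset.mem_coe, Finset.mem_range] at hj
    have hj' : j < M := by omega
    have hL : L % M < M := Nat.mod_lt _ hM0
    have key : (L + (j + M - L % M) % M) % M = j := by
      rw [Nat.add_mod_mod, ← Nat.mod_add_mod]
      have e2 : L % M + (j + M - L % M) = j + M := by omega
      rw [e2, Nat.add_mod_right, Nat.mod_eq_of_lt hj']
    refine ⟨(j + M - L % M) % M, ?_, key⟩
    rw [Finset.mem_coe, Finset.mem_filter, Finset.mem_range]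
    refine ⟨Nat.mod_lt _ hM0, ?_⟩
    rw [key]
    omega
  · intro d _
    rfl

open Classical in
/-- The sum over all shifts of the contributions of a non-star which is not tall. -/
theorem short_sum [Nonempty V] (F : RF V) {k M : ℕ} (hk : 1000000 ≤ k) (hM : 2 * M + 1 ≤ k)
    (hM' : k ≤ 2 * M + 2) {S : Finset V} (hS : S ∈ F.nst k) (hT : ¬ F.Tall (k / 200) S) :
    400000 * WT M * (1 + 1 / (k : ℝ)) ≤
      ∑ d ∈ (Finset.range M).filter (fun d => F.Fit M d S), F.sg (F.sf k M d) S *
        (((F.c (F.hub S) : ℝ) - F.dn S (F.hub S)) * F.sf k M d (F.hub S) /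
          rho k (F.dn S (F.hub S)) + k) := by
  obtain ⟨⟨hcard, t, ht⟩, hstar⟩ := (F.mem_nst).1 hS
  have hSs : S ∈ F.subs k := (F.mem_subs).2 ⟨hcard, t, ht⟩
  obtain ⟨hvinn, hvmax⟩ := F.hub_spec (k := k) (by omega) hSs
  have hvS : F.hub S ∈ S := ((F.mem_inn).1 hvinn).1
  -- the height
  obtain ⟨y0, hy0, hmax⟩ := S.exists_max_image (fun y => F.lev y) ⟨t, ht.1⟩
  have hlt : ∀ y ∈ S, F.lev t ≤ F.lev y := by
    intro y hy
    by_cases e : y = t
    · rw [e]
    · exact (F.lev_top ht y hy e).le
  obtain ⟨h, hh⟩ : ∃ h, F.lev y0 = F.lev t + h :=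
    ⟨F.lev y0 - F.lev t, by have := hlt y0 hy0; omega⟩
  have hle : ∀ y ∈ S, F.lev y ≤ F.lev t + h := by
    intro y hy
    have h1 : F.lev y ≤ F.lev y0 := hmax y hy
    omega
  have hh200 : 200 * h ≤ k := by
    by_contra hcon
    apply hT
    exact ⟨t, ht.1, y0, hy0, by omega⟩
  have hheight : h + F.dn S (F.hub S) ≤ k := by
    have := F.height_le ht hvinn y0 hy0
    omega
  have hi1 : 1 ≤ F.dn S (F.hub S) := by
    obtain ⟨_, x, hx, hpx⟩ := (F.mem_inn).1 hvinn
    unfold dn
    apply Finset.card_pos.2
    exact ⟨x, Finset.mem_filter.2 ⟨hx, hpx⟩⟩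
  have hik : F.dn S (F.hub S) + 1 ≤ k := by
    have h1 : (S.filter (fun x => F.par x = some (F.hub S))) ⊆ S.erase (F.hub S) := by
      intro x hx
      rw [Finset.mem_filter] at hx
      exact Finset.mem_erase.2 ⟨F.ne_of_par hx.2, hx.1⟩
    have h2 := Finset.card_le_card h1
    rw [Finset.card_erase_of_mem hvS, hcard] at h2
    have h3 : F.dn S (F.hub S) = (S.filter (fun x => F.par x = some (F.hub S))).card := rfl
    omega
  have hic : F.dn S (F.hub S) ≤ F.c (F.hub S) := by
    unfold dn c
    apply Finset.card_le_card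
    intro x hx
    rw [Finset.mem_filter] at hx
    exact (F.mem_ch).2 hx.2
  obtain ⟨e, he⟩ : ∃ e, F.lev (F.hub S) = F.lev t + e :=
    ⟨F.lev (F.hub S) - F.lev t, by have := hlt _ hvS; omega⟩
  have heh : e ≤ h := by
    have := hle _ hvS
    omega
  have hM1 : 499 * k ≤ 1000 * M := by omega
  have hMpos : 1 ≤ M := by omega
  have hMh : 90 * h ≤ M := by omega
  have hhM : h < M := by omega
  -- names
  set v := F.hub S with hvdef
  set i := F.dn S v with hidef
  obtain ⟨G, hG⟩ : ∃ G : ℝ, G = ((1 + (1 - ((rho k i : ℕ) : ℝ) / k)) *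
      (1 - 17 / 100 * (1 - ((rho k i : ℕ) : ℝ) / k))) := ⟨_, rfl⟩
  have hshift : 1 + 1 / (k : ℝ) ≤ G * (1 - (h : ℝ) / (70 * M)) := by
    rw [hG]
    exact shift_num hk hi1 hik rfl hheight hM1
  have hsl := wt_shift (M := M) (by omega) hMh heh
  have hWT : 0 ≤ WT M := by
    unfold WT
    exact Finset.sum_nonneg (fun j _ => (wt_pos M j).le)
  have hMR : (0 : ℝ) < M := by exact_mod_cast hMpos
  have hfac : 0 < 1 - (h : ℝ) / (70 * M) := by
    have h1 : (h : ℝ) < M := by exact_mod_cast hhM
    have h2 : (h : ℝ) / (70 * M) < 1 := by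
      rw [div_lt_one (by positivity)]
      linarith
    linarith
  have hkR : (0 : ℝ) < k := by
    have : 0 < k := by omega
    exact_mod_cast this
  have hGpos : 0 ≤ G := by
    by_contra hneg
    have h1 : G * (1 - (h : ℝ) / (70 * M)) < 0 := mul_neg_of_neg_of_pos (not_le.1 hneg) hfac
    have h2 : (0 : ℝ) < 1 + 1 / (k : ℝ) := by positivity
    linarith
  -- the main estimate
  calc 400000 * WT M * (1 + 1 / (k : ℝ))
      ≤ 400000 * WT M * (G * (1 - (h : ℝ) / (70 * M))) := by
        apply mul_le_mul_of_nonneg_left hshift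
        positivity
    _ = 400000 * G * (WT M * (1 - (h : ℝ) / (70 * M))) := by ring
    _ ≤ 400000 * G * ∑ j ∈ Finset.range (M - h), wt M (j + e) := by
        apply mul_le_mul_of_nonneg_left hsl
        positivity
    _ = ∑ j ∈ Finset.range (M - h), 400000 * wt M (j + e) * G := by
        rw [Finset.mul_sum]
        apply Finset.sum_congr rfl
        intro j _
        ring
    _ = ∑ d ∈ (Finset.range M).filter (fun d => (F.lev t + d) % M + h < M),
          400000 * wt M ((F.lev t + d) % M + e) * G :=
        (shift_reindex (F.lev t) M h hhM (fun j => 400000 * wt M (j + e) * G)).symm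
    _ ≤ ∑ d ∈ (Finset.range M).filter (fun d => (F.lev t + d) % M + h < M),
          F.sg (F.sf k M d) S * (((F.c v : ℝ) - i) * F.sf k M d v / rho k i + k) := by
        apply Finset.sum_le_sum
        intro d hd
        rw [Finset.mem_filter, Finset.mem_range] at hd
        have hfit : F.Fit M d S := by
          intro x hx
          obtain ⟨hxS, hxt⟩ := (F.mem_nt_iff ht).1 hx
          have h1 := F.lev_top ht x hxS hxt
          have h2 := hle x hxS
          have h3 : F.lev x + d = (F.lev t + d) + (F.lev x - F.lev t) := by omega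
          have h4 : (F.lev x + d) % M = (F.lev t + d) % M + (F.lev x - F.lev t) := by
            rw [h3, Nat.add_mod, Nat.mod_eq_of_lt (show F.lev x - F.lev t < M by omega),
              Nat.mod_eq_of_lt (by omega)]
          rw [h4]
          omega
        have hvmod : (F.lev v + d) % M = (F.lev t + d) % M + e := by
          rw [F.fit_mod hMpos ht hfit v hvS, he]
          omega
        have hg := F.sg_lower (k := k) (by omega) hMpos hSs ht hfit hle
        have hsf := F.sf_mem (k := k) (by omega) M d v
        have hsp := F.sf_pow (k := k) (by omega) M d v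
        rw [hvmod] at hsp
        have hmain := contrib_num hk hi1 hik hic (rfl : rho k i = min (k - 2) (i + 1)) hh200 hM1
          (wt_pos M ((F.lev t + d) % M + e)) (wt_le_one M _) hsf.1 hsf.2 hsp hg
        rw [hG]
        exact hmain
    _ ≤ ∑ d ∈ (Finset.range M).filter (fun d => F.Fit M d S),
          F.sg (F.sf k M d) S * (((F.c v : ℝ) - i) * F.sf k M d v / rho k i + k) := by
        apply Finset.sum_le_sum_of_subset_of_nonneg
        · intro d hd
          rw [Finset.mem_filter, Finset.mem_range] at hd ⊢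
          refine ⟨hd.1, ?_⟩
          intro x hx
          obtain ⟨hxS, hxt⟩ := (F.mem_nt_iff ht).1 hx
          have h1 := F.lev_top ht x hxS hxt
          have h2 := hle x hxS
          have h3 : F.lev x + d = (F.lev t + d) + (F.lev x - F.lev t) := by omega
          have h4 : (F.lev x + d) % M = (F.lev t + d) % M + (F.lev x - F.lev t) := by
            rw [h3, Nat.add_mod, Nat.mod_eq_of_lt (show F.lev x - F.lev t < M by omega),
              Nat.mod_eq_of_lt (by omega)]
          rw [h4]
          omega
        · intro d _ _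
          have hsf := fun w => F.sf_mem (k := k) (by omega) M d w
          apply mul_nonneg (F.sg_nonneg' _ (fun w => (hsf w).1.le) S)
          have h1 : (i : ℝ) ≤ F.c v := by exact_mod_cast hic
          have h2 : 0 ≤ ((F.c v : ℝ) - i) * F.sf k M d v :=
            mul_nonneg (by linarith) (hsf v).1.le
          have h3 : 0 ≤ ((F.c v : ℝ) - i) * F.sf k M d v / rho k i :=
            div_nonneg h2 (Nat.cast_nonneg _)
          linarith

end RF

end Pool.Agent.NP
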