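import Pool.Agent.NP.TallA

namespace Pool.Agent.NP

open SimpleGraph

/-- `(n / k) ^ p ≤ C(n, p)` for `p ≤ k ≤ n`. -/
theorem tall2_choose : ∀ (p n k : ℕ), p ≤ k → k ≤ n → 0 < k →
    ((n : ℝ) / k) ^ p ≤ (n.choose p : ℝ) := by
  intro p
  induction p with
  | zero => intro n k _ _ _; simp
  | succ p ih =>
    intro n k hp hk hk0
    obtain ⟨n, rfl⟩ : ∃ m, n = m + 1 := ⟨n - 1, by omega⟩
    obtain ⟨k, rfl⟩ : ∃ m, k = m + 1 := ⟨k - 1, by omega⟩
    have hrec : (((n + 1).choose (p + 1) : ℕ) : ℝ) * ((p : ℝ) + 1) = ((n : ℝ) + 1) * (n.choose p) := by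
      have := Nat.add_one_mul_choose_eq n p
      have h2 : (((n + 1) * n.choose p : ℕ) : ℝ) = (((n + 1).choose (p + 1) * (p + 1) : ℕ) : ℝ) := by
        rw [this]
      push_cast at h2
      linarith
    have hpk : (p : ℝ) + 1 ≤ (k : ℝ) + 1 := by exact_mod_cast hp
    have hp1 : (0 : ℝ) < (p : ℝ) + 1 := by positivity
    have hk1 : (0 : ℝ) < (k : ℝ) + 1 := by positivity
    have hn1 : (0 : ℝ) < (n : ℝ) + 1 := by positivity
    have hstep : (((n : ℝ) + 1) / ((k : ℝ) + 1)) ^ p ≤ (n.choose p : ℝ) := by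
      rcases Nat.eq_zero_or_pos k with hk' | hk'
      · subst hk'
        have : p = 0 := by omega
        subst this
        simp
      · have h1 := ih n k (by omega) (by omega) hk'
        refine le_trans (pow_le_pow_left₀ (by positivity) ?_ p) h1
        have hkr : (0 : ℝ) < (k : ℝ) := by exact_mod_cast hk'
        have hkn : (k : ℝ) ≤ (n : ℝ) := by exact_mod_cast (by omega : k ≤ n)
        rw [div_le_div_iff₀ hk1 hkr]
        nlinarith
    have e1 : (((n + 1 : ℕ) : ℝ) / ((k + 1 : ℕ) : ℝ)) = ((n : ℝ) + 1) / ((k : ℝ) + 1) := by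
      push_cast; ring
    rw [e1, pow_succ]
    have h3 : ((n : ℝ) + 1) / ((k : ℝ) + 1) ≤ ((n : ℝ) + 1) / ((p : ℝ) + 1) :=
      div_le_div_of_nonneg_left hn1.le hp1 hpk
    have h4 : (((n + 1).choose (p + 1) : ℕ) : ℝ) = (n.choose p : ℝ) * (((n : ℝ) + 1) / ((p : ℝ) + 1)) := by
      field_simp
      linarith
    rw [h4]
    exact mul_le_mul hstep h3 (by positivity) (by positivity)

/-- the numerical estimate for one family -/
theorem tall2_num {N : ℝ} {k K E s e : ℕ} (hN : 0 ≤ N) (hk : 1 ≤ k) (hK : 2 ≤ K)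
    (hE : K * k ≤ E) (he : K * e ≤ E)
    (h : N * ((((K * k : ℕ) : ℝ) / ((K * k : ℕ) + (E : ℝ))) ^ s *
      (1 - ((K * k : ℕ) : ℝ) / ((K * k : ℕ) + (E : ℝ))) ^ e) ≤ 1) :
    N * ((K : ℝ) / 2) ^ s ≤ ((E : ℝ) / k) ^ s * 3 ^ k := by
  have hk0 : (0 : ℝ) < (k : ℝ) := by exact_mod_cast hk
  have hK0 : (0 : ℝ) < (K : ℝ) := by exact_mod_cast (by omega : 0 < K)
  have hKk : (0 : ℝ) < ((K * k : ℕ) : ℝ) := by push_cast; positivity
  have hEE : ((K * k : ℕ) : ℝ) ≤ (E : ℝ) := by exact_mod_cast hE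
  have hE0 : (0 : ℝ) < (E : ℝ) := lt_of_lt_of_le hKk hEE
  have hKe : (K : ℝ) * (e : ℝ) ≤ (E : ℝ) := by exact_mod_cast he
  have hy : ((K * k : ℕ) : ℝ) / (2 * E) ≤ ((K * k : ℕ) : ℝ) / ((K * k : ℕ) + (E : ℝ)) :=
    div_le_div_of_nonneg_left hKk.le (by positivity) (by linarith)
  have h1y : 1 - ((K * k : ℕ) : ℝ) / ((K * k : ℕ) + (E : ℝ)) = (1 + ((K * k : ℕ) : ℝ) / E)⁻¹ := by
    field_simp
    ring
  have hexp : (1 + ((K * k : ℕ) : ℝ) / E) ^ e ≤ 3 ^ k := by
    have h2 : (1 + ((K * k : ℕ) : ℝ) / E) ^ e ≤ (Real.exp (((K * k : ℕ) : ℝ) / E)) ^ e := by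
      apply pow_le_pow_left₀ (by positivity)
      have := Real.add_one_le_exp (((K * k : ℕ) : ℝ) / E)
      linarith
    have h3 : (Real.exp (((K * k : ℕ) : ℝ) / E)) ^ e = Real.exp ((e : ℝ) * (((K * k : ℕ) : ℝ) / E)) := by
      rw [Real.exp_nat_mul]
    have h4 : (e : ℝ) * (((K * k : ℕ) : ℝ) / E) ≤ (k : ℝ) := by
      rw [← mul_div_assoc, div_le_iff₀ hE0]
      push_cast
      nlinarith
    have h5 : Real.exp (k : ℝ) ≤ 3 ^ k := by
      have h6 : Real.exp (k : ℝ) = (Real.exp 1) ^ k := by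
        rw [← Real.exp_nat_mul]; simp
      rw [h6]
      exact pow_le_pow_left₀ (Real.exp_pos _).le (by have := Real.exp_one_lt_d9; linarith) k
    calc (1 + ((K * k : ℕ) : ℝ) / E) ^ e ≤ _ := h2
      _ = _ := h3
      _ ≤ Real.exp (k : ℝ) := Real.exp_le_exp.2 h4
      _ ≤ 3 ^ k := h5
  rw [h1y, inv_pow] at h
  have hpos1 : (0 : ℝ) < (1 + ((K * k : ℕ) : ℝ) / E) ^ e := by positivity
  have h6 : N * (((K * k : ℕ) : ℝ) / (2 * E)) ^ s ≤ 3 ^ k := by
    have h7 : N * (((K * k : ℕ) : ℝ) / (2 * E)) ^ s ≤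
        N * (((K * k : ℕ) : ℝ) / ((K * k : ℕ) + (E : ℝ))) ^ s :=
      mul_le_mul_of_nonneg_left (pow_le_pow_left₀ (by positivity) hy s) hN
    have h8 : N * (((K * k : ℕ) : ℝ) / ((K * k : ℕ) + (E : ℝ))) ^ s ≤
        (1 + ((K * k : ℕ) : ℝ) / E) ^ e := by
      rw [← mul_assoc, mul_inv_le_iff₀ hpos1, one_mul] at h
      exact h
    exact h7.trans (h8.trans hexp)
  have h9 : ((K : ℝ) / 2) ^ s = ((E : ℝ) / k) ^ s * (((K * k : ℕ) : ℝ) / (2 * E)) ^ s := by
    rw [← mul_pow]
    congr 1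
    push_cast
    field_simp
  calc N * ((K : ℝ) / 2) ^ s = ((E : ℝ) / k) ^ s * (N * (((K * k : ℕ) : ℝ) / (2 * E)) ^ s) := by
        rw [h9]; ring
    _ ≤ ((E : ℝ) / k) ^ s * 3 ^ k := mul_le_mul_of_nonneg_left h6 (by positivity)

namespace RF

variable {V : Type} [Fintype V]

omit [Fintype V] in
theorem tall2_lev_anc (F : RF V) : ∀ (j : ℕ) (v u : V), F.anc j v = some u → F.lev v = F.lev u + j := by
  intro j
  induction j with
  | zero =>
    intro v u h
    simp only [anc, Option.some.injEq] at h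
    rw [h]; simp
  | succ j ih =>
    intro v u h
    simp only [anc] at h
    rcases hp : F.par v with _ | p
    · rw [hp] at h; simp at h
    · rw [hp] at h
      simp only [Option.bind_some] at h
      have h1 := ih p u h
      have h2 := F.hlev _ _ hp
      omega

omit [Fintype V] in
theorem tall2_card (F : RF V) {R : Finset V} {z y : V} (hR : F.Sub R z) (hy : y ∈ R) :
    F.lev y - F.lev z + 1 ≤ R.card := by
  classical
  have key : ∀ n, ∀ m, m + n = F.lev y → F.lev z ≤ m → ∃ x ∈ R, F.lev x = m := by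
    intro n
    induction n with
    | zero => intro m hm _; exact ⟨y, hy, by omega⟩
    | succ n ih =>
      intro m hm hz
      obtain ⟨x, hx, hxm⟩ := ih (m + 1) (by omega) (by omega)
      have hxz : x ≠ z := by
        rintro rfl
        omega
      obtain ⟨p, hp, hpx⟩ := hR.2 x hx hxz
      have := F.hlev _ _ hpx
      exact ⟨p, hp, by omega⟩
  have hle : F.lev z ≤ F.lev y := by
    by_cases h : y = z
    · rw [h]
    · exact (F.lev_top hR y hy h).le
  have hsub : Finset.Icc (F.lev z) (F.lev y) ⊆ R.image F.lev := by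
    intro m hm
    rw [Finset.mem_Icc] at hm
    obtain ⟨x, hx, hxm⟩ := key (F.lev y - m) m (by omega) hm.1
    exact Finset.mem_image.2 ⟨x, hx, hxm⟩
  have h1 := Finset.card_le_card hsub
  rw [Nat.card_Icc] at h1
  have h2 := Finset.card_image_le (s := R) (f := F.lev)
  omega

open Classical in
/-- Case 2: many outer neighbours of the upper part. -/
theorem tall2 (F : RF V) {k g h K C0 : ℕ} (hk : 1 ≤ k) (hg : 4 ≤ g) (hK : 2 ≤ K)
    (hC : K ≤ C0) :
    ((F.subs k).filter (fun U => ∃ t z, F.Sub U t ∧ z ∈ U ∧ F.anc g z = some t ∧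
      (∃ y ∈ F.low z U, F.lev z + h ≤ F.lev y) ∧
      K * (F.ext (F.low z U)).card < (F.ext (F.upp z U) \ {z}).card ∧
      C0 * k ≤ (F.ext (F.upp z U) \ {z}).card)).card * K ^ h ≤
        2 ^ h * (2 * k * 6 ^ k) * (F.nst k).card := by
  set A : Finset (Finset V) := (F.subs k).filter (fun U => ∃ t z, F.Sub U t ∧ z ∈ U ∧
      F.anc g z = some t ∧ (∃ y ∈ F.low z U, F.lev z + h ≤ F.lev y) ∧
      K * (F.ext (F.low z U)).card < (F.ext (F.upp z U) \ {z}).card ∧
      C0 * k ≤ (F.ext (F.upp z U) \ {z}).card) with hA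
  rcases A.eq_empty_or_nonempty with hA0 | hA1
  · rw [hA0]; simp
  have hAex : ∀ U ∈ A, ∃ z t, U.card = k ∧ F.Sub U t ∧ z ∈ U ∧
      F.anc g z = some t ∧ (∃ y ∈ F.low z U, F.lev z + h ≤ F.lev y) ∧
      K * (F.ext (F.low z U)).card < (F.ext (F.upp z U) \ {z}).card ∧
      C0 * k ≤ (F.ext (F.upp z U) \ {z}).card := by
    intro U hU
    rw [hA, Finset.mem_filter, F.mem_subs] at hU
    obtain ⟨⟨h1, -⟩, t, z, h2⟩ := hU
    exact ⟨z, t, h1, h2⟩
  have hne : Nonempty V := by
    obtain ⟨U, hU⟩ := hA1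
    obtain ⟨z, -⟩ := hAex U hU
    exact ⟨z⟩
  choose! zf hzf using hAex
  -- basic facts
  have hfacts : ∀ U ∈ A, ∃ t, U.card = k ∧ F.Sub U t ∧ zf U ∈ U ∧ zf U ≠ t ∧
      F.Sub (F.low (zf U) U) (zf U) ∧ F.Sub (F.upp (zf U) U) t ∧
      (∃ p ∈ F.upp (zf U) U, F.par (zf U) = some p ∧ F.lev t + 3 ≤ F.lev p) ∧
      h + 1 ≤ (F.low (zf U) U).card ∧
      K * (F.ext (F.low (zf U) U)).card < (F.ext (F.upp (zf U) U) \ {zf U}).card ∧
      C0 * k ≤ (F.ext (F.upp (zf U) U) \ {zf U}).card := by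
    intro U hU
    obtain ⟨t, h1, h2, h3, h4, ⟨y, hy1, hy2⟩, h6, h7⟩ := hzf U hU
    have h8 := F.tall2_lev_anc _ _ _ h4
    have h9 : zf U ≠ t := by
      intro e
      rw [e] at h8
      omega
    have h10 := F.low_sub h2 h3
    obtain ⟨p, hpU, hp⟩ := h2.2 _ h3 h9
    have h11 := F.hlev _ _ hp
    refine ⟨t, h1, h2, h3, h9, h10, F.upp_sub h2 h3 h9, ⟨p, ?_, hp, by omega⟩, ?_, h6, h7⟩
    · rw [upp, Finset.mem_filter]
      refine ⟨hpU, ?_⟩
      rintro ⟨j, hj⟩
      have := F.tall2_lev_anc _ _ _ hj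
      omega
    · have := F.tall2_card h10 hy1
      omega
  set Q : Finset (Finset V) := A.image (fun U => F.upp (zf U) U) with hQ
  -- the third assumption of sum_choose_le
  have hQG : ∀ R ∈ Q, (∃ t, F.Sub R t) ∧ R.card ≤ k ∧
      ∃ x ∈ R, ∃ y ∈ R, F.lev x + 3 ≤ F.lev y := by
    intro R hR
    rw [hQ, Finset.mem_image] at hR
    obtain ⟨U, hU, rfl⟩ := hR
    obtain ⟨t, h1, h2, h3, h4, h5, h6, ⟨p, hp1, hp2, hp3⟩, h7, h8, h9⟩ := hfacts U hU
    refine ⟨⟨t, h6⟩, ?_, t, h6.1, p, hp1, hp3⟩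
    rw [← h1]
    exact Finset.card_le_card (Finset.filter_subset _ _)
  have hsum := F.sum_choose_le Q hQG
  -- the bound for one upper part
  have hone : ∀ R ∈ Q, ((A.filter (fun U => F.upp (zf U) U = R)).card : ℝ) * ((K : ℝ) / 2) ^ h ≤
      2 * k * 3 ^ k * ((((F.ext R).card).choose (k - R.card) : ℕ) : ℝ) := by
    intro R hR
    have hR' := hR
    rw [hQ, Finset.mem_image] at hR'
    obtain ⟨U0, hU0, hU0R⟩ := hR'
    -- elements of the fibre
    have hfib : ∀ U ∈ A, F.upp (zf U) U = R → zf U ∈ F.ext R ∧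
        F.Sub (F.low (zf U) U) (zf U) ∧ (F.low (zf U) U).card = k - R.card ∧
        h + 1 ≤ k - R.card ∧
        K * (F.ext (F.low (zf U) U)).card ≤ (F.ext R).card - 1 ∧
        C0 * k ≤ (F.ext R).card - 1 := by
      intro U hU hUR
      obtain ⟨t, h1, h2, h3, h4, h5, h6, ⟨p, hp1, hp2, hp3⟩, h7, h8, h9⟩ := hfacts U hU
      have h10 : zf U ∉ F.upp (zf U) U := by
        rw [upp, Finset.mem_filter]
        rintro ⟨-, hn⟩
        exact hn ⟨0, rfl⟩
      have h11 : zf U ∈ F.ext R := by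
        rw [F.mem_ext, ← hUR]
        exact ⟨h10, p, hp1, hp2⟩
      have h12 : (F.ext R \ {zf U}).card = (F.ext R).card - 1 := by
        rw [Finset.sdiff_singleton_eq_erase, Finset.card_erase_of_mem h11]
      have h13 := F.low_upp_card (zf U) U
      rw [hUR, h12] at h8 h9
      rw [hUR, h1] at h13
      refine ⟨h11, h5, by omega, by omega, by omega, h9⟩
    obtain ⟨-, -, hp0, hph, -, hE⟩ := hfib U0 hU0 hU0R
    set E : ℕ := (F.ext R).card - 1 with hEdef
    have hk0 : (0 : ℝ) < (k : ℝ) := by exact_mod_cast hk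
    have hKkE : K * k ≤ E := le_trans (Nat.mul_le_mul_right k hC) hE
    have hKk2 : 2 ≤ K * k := by
      calc 2 = 2 * 1 := rfl
        _ ≤ K * k := Nat.mul_le_mul hK hk
    have hkK : k ≤ K * k := Nat.le_mul_of_pos_left k (by omega)
    have hextE : (F.ext R).card = E + 1 := by omega
    -- one family
    have hfam : ∀ x ∈ F.ext R,
        (((A.filter (fun U => F.upp (zf U) U = R)).filter (fun U => zf U = x)).card : ℝ) *
          ((K : ℝ) / 2) ^ (k - R.card - 1) ≤ ((E : ℝ) / k) ^ (k - R.card - 1) * 3 ^ k := by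
      intro x hx
      set B := (A.filter (fun U => F.upp (zf U) U = R)).filter (fun U => zf U = x) with hB
      have hBmem : ∀ U ∈ B, U ∈ A ∧ F.upp (zf U) U = R ∧ zf U = x := by
        intro U hU
        rw [hB, Finset.mem_filter, Finset.mem_filter] at hU
        exact ⟨hU.1.1, hU.1.2, hU.2⟩
      have hinj : Set.InjOn (fun U => F.low x U) (B : Set (Finset V)) := by
        intro U hU U' hU' he
        obtain ⟨hU1, hU2, hU3⟩ := hBmem U (by exact_mod_cast hU)
        obtain ⟨hU1', hU2', hU3'⟩ := hBmem U' (by exact_mod_cast hU')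
        have hdec : ∀ W : Finset V, F.low x W ∪ F.upp x W = W := by
          intro W
          rw [low, upp]
          exact Finset.filter_union_filter_not_eq _ _
        rw [hU3] at hU2
        rw [hU3'] at hU2'
        simp only at he
        rw [← hdec U, ← hdec U', he, hU2, hU2']
      have hcardG : (B.image (fun U => F.low x U)).card = B.card := Finset.card_image_of_injOn hinj
      have hGmem : ∀ S ∈ B.image (fun U => F.low x U), F.Sub S x ∧ S.card = k - R.card ∧
          K * (F.ext S).card ≤ E := by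
        intro S hS
        rw [Finset.mem_image] at hS
        obtain ⟨U, hU, rfl⟩ := hS
        obtain ⟨hU1, hU2, hU3⟩ := hBmem U hU
        obtain ⟨-, h1, h2, -, h3, -⟩ := hfib U hU1 hU2
        rw [hU3] at h1 h2 h3
        exact ⟨h1, h2, h3⟩
      have hy0 : (0 : ℝ) ≤ ((K * k : ℕ) : ℝ) / ((K * k : ℕ) + (E : ℝ)) := by positivity
      have hy1 : ((K * k : ℕ) : ℝ) / ((K * k : ℕ) + (E : ℝ)) ≤ 1 := by
        apply div_le_one_of_le₀
        · have : (0 : ℝ) ≤ (E : ℝ) := by positivity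
          linarith
        · positivity
      have hperc := perc_card F {x} ∅ (B.image (fun U => F.low x U)) (by
          intro S hS
          obtain ⟨h1, -, -⟩ := hGmem S hS
          refine ⟨by simpa using h1.1, by simp, ?_⟩
          intro w hw hwx
          exact h1.2 w hw (by simpa using hwx)) hy0 hy1 (s := k - R.card - 1) (e := E / K)
        (by
          intro S hS
          obtain ⟨h1, h2, -⟩ := hGmem S hS
          rw [Finset.sdiff_singleton_eq_erase, Finset.card_erase_of_mem h1.1, h2])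
        (by
          intro S hS
          obtain ⟨-, -, h3⟩ := hGmem S hS
          rw [Finset.sdiff_empty, Nat.le_div_iff_mul_le (by omega)]
          rwa [mul_comm] at h3)
      rw [hcardG] at hperc
      exact tall2_num (Nat.cast_nonneg _) hk hK hKkE (Nat.mul_div_le E K) hperc
    have hcardR : ((A.filter (fun U => F.upp (zf U) U = R)).card : ℝ) = ∑ x ∈ F.ext R,
        (((A.filter (fun U => F.upp (zf U) U = R)).filter (fun U => zf U = x)).card : ℝ) := by
      have := Finset.card_eq_sum_card_fiberwise (s := A.filter (fun U => F.upp (zf U) U = R))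
        (t := F.ext R) (f := fun U => zf U) (fun U hU => by
          have hU' := Finset.mem_filter.1 (Finset.mem_coe.1 hU)
          exact (hfib U hU'.1 hU'.2).1)
      exact_mod_cast this
    have hK1 : (1 : ℝ) ≤ (K : ℝ) / 2 := by
      have : (2 : ℝ) ≤ (K : ℝ) := by exact_mod_cast hK
      linarith
    have hpow : ((K : ℝ) / 2) ^ h ≤ ((K : ℝ) / 2) ^ (k - R.card - 1) :=
      pow_le_pow_right₀ hK1 (by omega)
    have hE1 : (1 : ℝ) ≤ (E : ℝ) := by exact_mod_cast (by omega : 1 ≤ E)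
    have hch := tall2_choose (k - R.card) (E + 1) k (by omega) (by omega) hk
    calc ((A.filter (fun U => F.upp (zf U) U = R)).card : ℝ) * ((K : ℝ) / 2) ^ h
        ≤ ((A.filter (fun U => F.upp (zf U) U = R)).card : ℝ) *
            ((K : ℝ) / 2) ^ (k - R.card - 1) := mul_le_mul_of_nonneg_left hpow (Nat.cast_nonneg _)
      _ = ∑ x ∈ F.ext R, (((A.filter (fun U => F.upp (zf U) U = R)).filter
            (fun U => zf U = x)).card : ℝ) * ((K : ℝ) / 2) ^ (k - R.card - 1) := by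
          rw [hcardR, Finset.sum_mul]
      _ ≤ ∑ x ∈ F.ext R, ((E : ℝ) / k) ^ (k - R.card - 1) * 3 ^ k := Finset.sum_le_sum hfam
      _ = ((E : ℝ) + 1) * (((E : ℝ) / k) ^ (k - R.card - 1) * 3 ^ k) := by
          rw [Finset.sum_const, nsmul_eq_mul, hextE]; push_cast; ring
      _ ≤ (2 * E) * (((E : ℝ) / k) ^ (k - R.card - 1) * 3 ^ k) := by
          apply mul_le_mul_of_nonneg_right _ (by positivity)
          linarith
      _ = 2 * k * 3 ^ k * ((E : ℝ) / k) ^ (k - R.card) := by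
          have hs : k - R.card = (k - R.card - 1) + 1 := by omega
          rw [hs, pow_succ]
          simp only [Nat.add_sub_cancel]
          field_simp
      _ ≤ 2 * k * 3 ^ k * ((((F.ext R).card).choose (k - R.card) : ℕ) : ℝ) := by
          apply mul_le_mul_of_nonneg_left _ (by positivity)
          rw [hextE]
          refine le_trans (pow_le_pow_left₀ (by positivity) ?_ _) hch
          apply div_le_div_of_nonneg_right _ hk0.le
          push_cast
          linarith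
  have hcardA : (A.card : ℝ) = ∑ R ∈ Q, ((A.filter (fun U => F.upp (zf U) U = R)).card : ℝ) := by
    have := Finset.card_eq_sum_card_fiberwise (s := A) (t := Q) (f := fun U => F.upp (zf U) U)
      (fun U hU => Finset.mem_image_of_mem _ hU)
    exact_mod_cast this
  have hmain : (A.card : ℝ) * ((K : ℝ) / 2) ^ h ≤ 2 * k * 3 ^ k * (2 ^ k * ((F.nst k).card : ℝ)) := by
    rw [hcardA, Finset.sum_mul]
    refine (Finset.sum_le_sum hone).trans ?_
    rw [← Finset.mul_sum]
    apply mul_le_mul_of_nonneg_left _ (by positivity)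
    have h1 : ((∑ R ∈ Q, ((F.ext R).card).choose (k - R.card) : ℕ) : ℝ) ≤
        ((2 ^ k * (F.nst k).card : ℕ) : ℝ) := by exact_mod_cast hsum
    push_cast at h1
    exact h1
  have hfin : (A.card : ℝ) * (K : ℝ) ^ h ≤ 2 ^ h * (2 * k * 6 ^ k) * ((F.nst k).card : ℝ) := by
    have e1 : (K : ℝ) ^ h = 2 ^ h * ((K : ℝ) / 2) ^ h := by
      rw [← mul_pow]; congr 1; ring
    have e2 : (6 : ℝ) ^ k = 3 ^ k * 2 ^ k := by rw [← mul_pow]; norm_num
    rw [e1, e2]
    have h2 : (0 : ℝ) < 2 ^ h := by positivity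
    nlinarith [mul_le_mul_of_nonneg_left hmain h2.le]
  exact_mod_cast hfin

end RF

end Pool.Agent.NP
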