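import Pool.Agent.NP.Tall1
import Pool.Agent.NP.Tall2

namespace Pool.Agent.NP

open SimpleGraph

/-- The level of the `j`-th ancestor. -/
theorem tallM_lev_of_anc {V : Type} (F : RF V) : ∀ (j : ℕ) (v u : V), F.anc j v = some u →
    F.lev v = F.lev u + j := by
  intro j
  induction j with
  | zero =>
    intro v u h
    simp only [RF.anc, Option.some.injEq] at h
    subst h
    rfl
  | succ j ih =>
    intro v u h
    simp only [RF.anc, Option.bind_eq_some_iff] at h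
    obtain ⟨p, hp, hu⟩ := h
    have h1 := F.hlev _ _ hp
    have h2 := ih p u hu
    omega

theorem tallM_two_pow_ge_sq {k : ℕ} (hk : 15 ≤ k) : 80 * k ^ 2 ≤ 2 ^ k := by
  induction k, hk using Nat.le_induction with
  | base => norm_num
  | succ k hk ih =>
    calc 80 * (k + 1) ^ 2 ≤ 2 * (80 * k ^ 2) := by nlinarith
      _ ≤ 2 * 2 ^ k := Nat.mul_le_mul_left _ ih
      _ = 2 ^ (k + 1) := by rw [pow_succ]; ring

open Classical in
/-- The three cases: a tall subtree is counted in `tall1`, in `tall2` or has few outer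
neighbours. -/
theorem tallM_tall_cases {V : Type} [Fintype V] (F : RF V) {k H g h K C0 : ℕ} (hg : 1 ≤ g)
    (hgh : g + h = H) (hK : 1 ≤ K) :
    (F.nst k).filter (fun U => F.Tall H U) ⊆
      ((F.subs k).filter (fun U => ∃ t z, F.Sub U t ∧ z ∈ U ∧ F.anc g z = some t ∧
        (∃ y ∈ F.low z U, F.lev z + h ≤ F.lev y) ∧
        (F.ext (F.upp z U) \ {z}).card ≤ K * (F.ext (F.low z U)).card ∧
        C0 * k ≤ (F.ext (F.low z U)).card) ∪
      (F.subs k).filter (fun U => ∃ t z, F.Sub U t ∧ z ∈ U ∧ F.anc g z = some t ∧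
        (∃ y ∈ F.low z U, F.lev z + h ≤ F.lev y) ∧
        K * (F.ext (F.low z U)).card < (F.ext (F.upp z U) \ {z}).card ∧
        C0 * k ≤ (F.ext (F.upp z U) \ {z}).card)) ∪
      (F.subs k).filter (fun U => (F.ext U).card ≤ (1 + K) * (C0 * k)) := by
  intro U hU
  rw [Finset.mem_filter] at hU
  obtain ⟨hUn, hT⟩ := hU
  obtain ⟨⟨hUk, t, hUt⟩, -⟩ := F.mem_nst.1 hUn
  have hUs : U ∈ F.subs k := F.mem_subs.2 ⟨hUk, t, hUt⟩
  obtain ⟨z, hz, hzt, hy⟩ := F.tall_split hUt hT (g := g) (by omega)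
  have hH : H - g = h := by omega
  rw [hH] at hy
  have hzne : z ≠ t := by
    rintro rfl
    have := tallM_lev_of_anc F g z z hzt
    omega
  have hext := F.ext_split hUt hz hzne
  by_cases h1 : (F.ext (F.upp z U) \ {z}).card ≤ K * (F.ext (F.low z U)).card
  · by_cases h2 : C0 * k ≤ (F.ext (F.low z U)).card
    · exact Finset.mem_union_left _ (Finset.mem_union_left _
        (Finset.mem_filter.2 ⟨hUs, t, z, hUt, hz, hzt, hy, h1, h2⟩))
    · refine Finset.mem_union_right _ (Finset.mem_filter.2 ⟨hUs, ?_⟩)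
      have h3 : (F.ext (F.low z U)).card ≤ C0 * k := by omega
      calc (F.ext U).card ≤ (F.ext (F.low z U)).card + K * (F.ext (F.low z U)).card :=
            hext.trans (Nat.add_le_add_left h1 _)
        _ = (1 + K) * (F.ext (F.low z U)).card := by ring
        _ ≤ (1 + K) * (C0 * k) := Nat.mul_le_mul_left _ h3
  · by_cases h2 : C0 * k ≤ (F.ext (F.upp z U) \ {z}).card
    · exact Finset.mem_union_left _ (Finset.mem_union_right _
        (Finset.mem_filter.2 ⟨hUs, t, z, hUt, hz, hzt, hy, not_le.1 h1, h2⟩))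
    · refine Finset.mem_union_right _ (Finset.mem_filter.2 ⟨hUs, ?_⟩)
      have h3 : (F.ext (F.upp z U) \ {z}).card ≤ C0 * k := by omega
      have h4 : (F.ext (F.low z U)).card ≤ K * (F.ext (F.low z U)).card :=
        Nat.le_mul_of_pos_left _ hK
      have h5 : (F.ext (F.low z U)).card ≤ C0 * k := by omega
      calc (F.ext U).card ≤ C0 * k + C0 * k := hext.trans (Nat.add_le_add h5 h3)
        _ = (1 + 1) * (C0 * k) := by ring
        _ ≤ (1 + K) * (C0 * k) := Nat.mul_le_mul_right _ (by omega)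

/-- Numerical part of case 1. -/
theorem tallM_num_case1 {a n k g K C0 : ℕ} (hk : 15 ≤ k) (hK : 1 ≤ K) (hg : k ≤ 500 * g)
    (hC : (24 * K) ^ 500 ≤ C0) (h : a * C0 ^ g ≤ (12 * K) ^ k * n) : 40 * k * a ≤ n := by
  have h1 : (12 * K) ^ k * (40 * k) ≤ C0 ^ g := by
    calc (12 * K) ^ k * (40 * k) ≤ (12 * K) ^ k * 2 ^ k := by
          apply Nat.mul_le_mul_left
          have := tallM_two_pow_ge_sq hk
          nlinarith
      _ = (24 * K) ^ k := by rw [← mul_pow]; congr 1; ring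
      _ ≤ (24 * K) ^ (500 * g) := Nat.pow_le_pow_right (by omega) hg
      _ = ((24 * K) ^ 500) ^ g := pow_mul _ _ _
      _ ≤ C0 ^ g := Nat.pow_le_pow_left hC g
  have h2 : (12 * K) ^ k * (40 * k * a) ≤ (12 * K) ^ k * n := by
    calc (12 * K) ^ k * (40 * k * a) = a * ((12 * K) ^ k * (40 * k)) := by ring
      _ ≤ a * C0 ^ g := Nat.mul_le_mul_left _ h1
      _ ≤ _ := h
  exact Nat.le_of_mul_le_mul_left h2 (pow_pos (by omega) k)

/-- Numerical part of case 2. -/
theorem tallM_num_case2 {a n k h K' : ℕ} (hk : 15 ≤ k) (hh : k ≤ 500 * h) (hK : 15 ^ 500 ≤ K')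
    (H : a * (2 * K') ^ h ≤ 2 ^ h * (2 * k * 6 ^ k) * n) : 40 * k * a ≤ n := by
  have h1 : 2 * k * 6 ^ k * (40 * k) ≤ K' ^ h := by
    calc 2 * k * 6 ^ k * (40 * k) = 6 ^ k * (80 * k ^ 2) := by ring
      _ ≤ 6 ^ k * 2 ^ k := Nat.mul_le_mul_left _ (tallM_two_pow_ge_sq hk)
      _ = 12 ^ k := by rw [← mul_pow]; norm_num
      _ ≤ 15 ^ k := Nat.pow_le_pow_left (by norm_num) k
      _ ≤ 15 ^ (500 * h) := Nat.pow_le_pow_right (by norm_num) hh
      _ = (15 ^ 500) ^ h := pow_mul _ _ _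
      _ ≤ K' ^ h := Nat.pow_le_pow_left hK h
  have hpos : 0 < 2 ^ h * (2 * k * 6 ^ k) := by positivity
  have h2 : 2 ^ h * (2 * k * 6 ^ k) * (40 * k * a) ≤ 2 ^ h * (2 * k * 6 ^ k) * n := by
    calc 2 ^ h * (2 * k * 6 ^ k) * (40 * k * a) = 2 ^ h * a * (2 * k * 6 ^ k * (40 * k)) := by
          ring
      _ ≤ 2 ^ h * a * K' ^ h := Nat.mul_le_mul_left _ h1
      _ = a * (2 * K') ^ h := by rw [mul_pow]; ring
      _ ≤ _ := H
  exact Nat.le_of_mul_le_mul_left h2 hpos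

theorem tallM_final_step {k x a b c n m : ℕ} (h : x ≤ a + b + c) (h1 : 40 * k * a ≤ n)
    (h2 : 40 * k * b ≤ n) (h3 : c ≤ m) : 20 * k * x ≤ n + 20 * k * m := by
  have e := Nat.mul_le_mul_left (20 * k) h
  have e3 := Nat.mul_le_mul_left (20 * k) h3
  have e1 : 40 * k * a = 2 * (20 * k * a) := by ring
  have e2 : 40 * k * b = 2 * (20 * k * b) := by ring
  rw [Nat.mul_add, Nat.mul_add] at e
  rw [e1] at h1
  rw [e2] at h2
  omega

open Classical in
/-- Tall subtrees are rare. -/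
theorem tall_main : ∃ C1 k1 : ℕ, ∀ k, k1 ≤ k → ∀ (V : Type) [Fintype V] (F : RF V),
    20 * k * ((F.nst k).filter (fun U => F.Tall (k / 200) U)).card ≤
      (F.nst k).card + 20 * k * (Fintype.card V * 2 ^ (C1 * k)) := by
  obtain ⟨K', hK'⟩ : ∃ K' : ℕ, 15 ^ 500 ≤ K' := ⟨_, le_rfl⟩
  have hK'1 : 1 ≤ K' := le_trans (Nat.one_le_pow _ _ (by norm_num)) hK'
  obtain ⟨K, hKK⟩ : ∃ K : ℕ, K = 2 * K' := ⟨_, rfl⟩
  have hK2 : 2 ≤ K := by omega
  obtain ⟨C0, hC0, hC0K⟩ : ∃ C0 : ℕ, (24 * K) ^ 500 ≤ C0 ∧ K ≤ C0 :=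
    ⟨max ((24 * K) ^ 500) K, le_max_left _ _, le_max_right _ _⟩
  have hC01 : 1 ≤ C0 := by omega
  refine ⟨1 + (1 + K) * C0, 2000, ?_⟩
  intro k hk V _ F
  obtain ⟨g, hgdef⟩ : ∃ g : ℕ, g = k / 200 / 2 := ⟨_, rfl⟩
  obtain ⟨h, hhdef⟩ : ∃ h : ℕ, h = k / 200 - g := ⟨_, rfl⟩
  have hg5 : 5 ≤ g := by omega
  have hh5 : 5 ≤ h := by omega
  have hg500 : k ≤ 500 * g := by omega
  have hh500 : k ≤ 500 * h := by omega
  have hgh : g + h = k / 200 := by omega
  have hsub := tallM_tall_cases F (k := k) (H := k / 200) (g := g) (h := h) (K := K) (C0 := C0)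
    (by omega) hgh (by omega)
  have hcard := (Finset.card_le_card hsub).trans ((Finset.card_union_le _ _).trans
    (Nat.add_le_add_right (Finset.card_union_le _ _) _))
  have t1 := F.tall1 (k := k) (g := g) (h := h) (K := K) (C0 := C0) (by omega) (by omega)
    (by omega) (by omega) hC01
  have t2 := F.tall2 (k := k) (g := g) (h := h) (K := K) (C0 := C0) (by omega) (by omega)
    hK2 hC0K
  have t3 := F.rest_card (k := k) (by omega) ((1 + K) * (C0 * k))
  have n1 := tallM_num_case1 (by omega) (by omega) hg500 hC0 t1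
  rw [hKK] at t2
  have n2 := tallM_num_case2 (by omega) hh500 hK' t2
  rw [← hKK] at n2
  have h3 : 2 ^ (k - 1 + (1 + K) * (C0 * k)) ≤ 2 ^ ((1 + (1 + K) * C0) * k) := by
    apply Nat.pow_le_pow_right (by norm_num)
    have : (1 + (1 + K) * C0) * k = k + (1 + K) * (C0 * k) := by ring
    rw [this]
    omega
  have n3 := t3.trans (Nat.mul_le_mul_left (Fintype.card V) h3)
  exact tallM_final_step hcard n1 n2 n3

end Pool.Agent.NP
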