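import Pool.Agent.NP.Sep
import Pool.Agent.NP.Conv
import Pool.Agent.NP.Ends
import Pool.Agent.NP.TallM
import Pool.Agent.NP.Broom
import Pool.Agent.NP.Avg
import Pool.Agent.NP.DC
import Pool.Agent.NP.Short
import Pool.Agent.NP.StarC

namespace Pool.Agent.NP

open SimpleGraph

theorem sum_shift (f : ℕ → ℝ) (M l : ℕ) :
    ∑ d ∈ Finset.range M, f ((l + d) % M) = ∑ i ∈ Finset.range M, f i := by
  classical
  have hinj : Set.InjOn (fun d => (l + d) % M) (Finset.range M : Set ℕ) := by
    intro d hd d' hd' h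
    have hd1 : d < M := by simpa using hd
    have hd2 : d' < M := by simpa using hd'
    have h1 : (l + d) ≡ (l + d') [MOD M] := h
    have h2 : d ≡ d' [MOD M] := Nat.ModEq.add_left_cancel' l h1
    have h3 : d % M = d' % M := h2
    rwa [Nat.mod_eq_of_lt hd1, Nat.mod_eq_of_lt hd2] at h3
  have himg : (Finset.range M).image (fun d => (l + d) % M) = Finset.range M := by
    apply Finset.eq_of_subset_of_card_le
    · intro i hi
      obtain ⟨d, hd, rfl⟩ := Finset.mem_image.1 hi
      have : 0 < M := by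
        have := Finset.mem_range.1 hd
        omega
      exact Finset.mem_range.2 (Nat.mod_lt _ this)
    · rw [Finset.card_image_of_injOn hinj]
  have h := Finset.sum_image (f := f) hinj
  rw [himg] at h
  exact h.symm

namespace RF

variable {V : Type} [Fintype V]

theorem dn_le_c (F : RF V) (U : Finset V) (v : V) : F.dn U v ≤ F.c v := by
  classical
  apply Finset.card_le_card
  intro x hx
  rw [Finset.mem_filter] at hx
  exact F.mem_ch.2 hx.2

omit [Fintype V] in
theorem sg_nonneg (F : RF V) {s : V → ℝ} (hs : ∀ v, 0 ≤ s v) (U : Finset V) : 0 ≤ F.sg s U := by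
  apply Finset.prod_nonneg
  intro x _
  unfold sp
  split
  · exact hs _
  · exact zero_le_one

end RF

/-- The final real inequality. -/
theorem final_num {a m n X Tl B W κ E M : ℝ} (hm : 0 < m) (hn : 1 ≤ n) (hX : 0 ≤ X)
    (hB : B = 400000) (hW : 0 < W) (hκ : 0 < κ) (hκ1 : κ ≤ 1) (hE : 1 ≤ E)
    (h1 : m * (X - Tl) * B * W * (1 + κ) ≤
      6 * a * n * M + B * (1 + κ / 10) * W * (m * X - a * n))
    (h2 : Tl ≤ X * κ / 20 + n * E) (h3 : M ≤ 32 * W) (h4 : 8 * m * E ≤ a) : False := by
  have ha : 0 < a := by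
    have : 0 < 8 * m * E := by positivity
    linarith
  have e1 : (X * κ) * 0 ≤ (X - Tl) * (1 + κ) - X * (1 + κ / 10) + 2 * (n * E) := by
    have t1 : (X - X * κ / 20 - n * E) * (1 + κ) ≤ (X - Tl) * (1 + κ) := by
      apply mul_le_mul_of_nonneg_right _ (by linarith)
      linarith
    have t2 : 0 ≤ X * κ := by positivity
    have t3 : X * κ * κ ≤ X * κ := by nlinarith
    have t4 : n * E * κ ≤ n * E := by
      have : 0 ≤ n * E := by positivity
      nlinarith
    nlinarith
  have e2 : 0 ≤ m * B * W * ((X - Tl) * (1 + κ) - X * (1 + κ / 10) + 2 * (n * E)) := by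
    have : 0 < B := by rw [hB]; norm_num
    have t : 0 ≤ (X - Tl) * (1 + κ) - X * (1 + κ / 10) + 2 * (n * E) := by linarith
    positivity
  have e3 : 6 * a * n * M ≤ 192 * a * n * W := by
    have : 0 ≤ 6 * a * n := by positivity
    nlinarith
  have e4 : a * n * B * W ≤ a * n * B * W * (1 + κ / 10) := by
    have : 0 ≤ a * n * B * W := by rw [hB]; positivity
    nlinarith
  have e5 : a * n * B * W ≤ 192 * a * n * W + m * B * W * (2 * (n * E)) := by
    nlinarith
  have e6 : m * B * W * (2 * (n * E)) ≤ a * n * B * W / 4 := by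
    have t : 0 ≤ n * B * W := by rw [hB]; positivity
    have t' := mul_le_mul_of_nonneg_right h4 t
    nlinarith
  have e7 : 0 < a * n * W := by positivity
  rw [hB] at e5 e6
  nlinarith

theorem main : ∃ k0 : ℕ, ∀ k, k0 ≤ k → Proj k ⊆ Proj (k + 1) := by
  classical
  obtain ⟨C1, k1, hTall⟩ := tall_main
  obtain ⟨k2, hBroom⟩ := broom_small C1
  refine ⟨max (max k1 k2) 1000000, fun k hk => ?_⟩
  have hk1 : k1 ≤ k := le_trans (le_trans (le_max_left _ _) (le_max_left _ _)) hk
  have hk2 : k2 ≤ k := le_trans (le_trans (le_max_right _ _) (le_max_left _ _)) hk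
  have hk3 : 1000000 ≤ k := le_trans (le_max_right _ _) hk
  by_contra hnot
  obtain ⟨a, b, m, ha, hb, hm, H1, η, hη, H2⟩ :=
    separate (by omega) (convex_Proj (by omega)) hnot
  have hsmall := hBroom k hk2 a b m ha hb hm.le H1
  obtain ⟨M, hM⟩ : ∃ M, M = (k - 1) / 2 := ⟨_, rfl⟩
  have hMk : 2 * M + 1 ≤ k := by omega
  have hMk' : k ≤ 2 * M + 2 := by omega
  have hM1 : 1000 ≤ M := by omega
  obtain ⟨n1, hEnds⟩ := ends (k := k) (by omega) (ε := η / (a + 1)) (by positivity)
  obtain ⟨N, T, r, hN, hr, hcr, hf⟩ := H2 (max n1 1)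
  have hN1 : n1 ≤ N := le_trans (le_max_left _ _) hN
  have hN0 : 1 ≤ N := le_trans (le_max_right _ _) hN
  have : Nonempty (Fin N) := ⟨r⟩
  have hEnds' := hEnds (Fin N) T r hr (by simpa using hN1)
  rw [Fintype.card_fin] at hEnds'
  have hkR : (0 : ℝ) < k := by
    have : 0 < k := by omega
    exact_mod_cast this
  -- the contribution of `S` for the shift `d`
  obtain ⟨G, hG⟩ : ∃ G : ℕ → Finset (Fin N) → ℝ, G = fun d S => T.sg (T.sf k M d) S *
      (((T.c (T.hub S) : ℝ) - T.dn S (T.hub S)) * T.sf k M d (T.hub S) /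
        RF.rho k (T.dn S (T.hub S)) + k) := ⟨_, rfl⟩
  have hs : ∀ d v, 0 ≤ T.sf k M d v ∧ T.sf k M d v ≤ 1 := fun d v =>
    ⟨(T.sf_mem (by omega) M d v).1.le, (T.sf_mem (by omega) M d v).2⟩
  have hG0 : ∀ d S, 0 ≤ G d S := by
    intro d S
    rw [hG]
    have h1 := T.sg_nonneg (fun v => (hs d v).1) S
    have h2 : (0 : ℝ) ≤ (T.c (T.hub S) : ℝ) - T.dn S (T.hub S) := by
      have := T.dn_le_c S (T.hub S)
      have : (T.dn S (T.hub S) : ℝ) ≤ T.c (T.hub S) := by exact_mod_cast this
      linarith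
    have h3 := (hs d (T.hub S)).1
    dsimp only
    positivity
  have hA : ∀ d ∈ Finset.range M,
      m * ∑ S ∈ (T.nst k).filter (fun U => T.Fit M d U), G d S ≤
        6 * a * N + b * ∑ v, 400000 * wt M ((T.lev v + d) % M) * (1 + 1 / (10 * (k : ℝ))) *
          ((T.c v + 1).choose (k - 1) : ℝ) := by
    intro d _
    have h1 := avg (by omega) ha hb hm.le H1 T (M := M) (by omega) hMk d (T.sf k M d) (hs d)
    have h2 := T.double_count (k := k) (by omega) M d (T.sf k M d) (hs d)
    rw [Fintype.card_fin] at h1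
    have h3 : ∑ v, ((T.c v).choose k * T.sf k M d v ^ k +
        2 * (T.c v).choose (k - 1) * T.sf k M d v ^ (k - 1) +
          (T.c v).choose (k - 2) * T.sf k M d v ^ (k - 2)) ≤
        ∑ v, 400000 * wt M ((T.lev v + d) % M) * (1 + 1 / (10 * (k : ℝ))) *
          ((T.c v + 1).choose (k - 1) : ℝ) := by
      apply Finset.sum_le_sum
      intro v _
      have hres : (T.lev v + d) % M ≤ M := (Nat.mod_lt _ (by omega)).le
      exact star_num (k := k) (by omega) (T.c v) (wt_lower (by omega) hres) (wt_le_one _ _)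
    have h4 : ∑ S ∈ (T.nst k).filter (fun U => T.Fit M d U), G d S =
        ∑ S ∈ (T.nst k).filter (fun U => T.Fit M d U),
          T.sg (T.sf k M d) S * (((T.c (T.hub S) : ℝ) - T.dn S (T.hub S)) *
            T.sf k M d (T.hub S) / RF.rho k (T.dn S (T.hub S))) +
          k * ∑ U ∈ (T.nst k).filter (fun U => T.Fit M d U), T.sg (T.sf k M d) U := by
      rw [hG, Finset.mul_sum, ← Finset.sum_add_distrib]
      apply Finset.sum_congr rfl
      intro S _
      ring
    rw [h4]
    have h5 := mul_le_mul_of_nonneg_left h2 hm.le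
    have h6 := mul_le_mul_of_nonneg_left h3 hb
    have h7 : m * (∑ S ∈ (T.nst k).filter (fun U => T.Fit M d U),
          T.sg (T.sf k M d) S * (((T.c (T.hub S) : ℝ) - T.dn S (T.hub S)) *
            T.sf k M d (T.hub S) / RF.rho k (T.dn S (T.hub S))) +
          k * ∑ U ∈ (T.nst k).filter (fun U => T.Fit M d U), T.sg (T.sf k M d) U) ≤
        m * (∑ U ∈ (T.nst (k + 1)).filter (fun U => T.Fit M d U), T.sg (T.sf k M d) U +
          k * ∑ U ∈ (T.nst k).filter (fun U => T.Fit M d U), T.sg (T.sf k M d) U) := by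
      apply mul_le_mul_of_nonneg_left _ hm.le
      linarith
    linarith
  have hsum := Finset.sum_le_sum hA
  rw [← Finset.mul_sum, Finset.sum_add_distrib, Finset.sum_const, Finset.card_range,
    nsmul_eq_mul, ← Finset.mul_sum] at hsum
  -- the right-hand side
  have hR : ∑ d ∈ Finset.range M, ∑ v, 400000 * wt M ((T.lev v + d) % M) *
      (1 + 1 / (10 * (k : ℝ))) * ((T.c v + 1).choose (k - 1) : ℝ) =
      400000 * (1 + 1 / (10 * (k : ℝ))) * WT M * ((∑ v, (T.c v + 1).choose (k - 1) : ℕ) : ℝ) := by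
    rw [Finset.sum_comm, Nat.cast_sum, Finset.mul_sum]
    apply Finset.sum_congr rfl
    intro v _
    have := sum_shift (fun i => wt M i) M (T.lev v)
    rw [← Finset.sum_mul, ← Finset.sum_mul, ← Finset.mul_sum, this]
    unfold WT
    ring
  rw [hR] at hsum
  have hstar := T.star_lower hr hcr (k := k) (by omega)
  -- the left-hand side
  have hL : ((((T.nst k).filter (fun U => ¬ T.Tall (k / 200) U)).card : ℕ) : ℝ) *
      (400000 * WT M * (1 + 1 / (k : ℝ))) ≤
      ∑ d ∈ Finset.range M, ∑ S ∈ (T.nst k).filter (fun U => T.Fit M d U), G d S := by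
    have e1 : ∑ d ∈ Finset.range M, ∑ S ∈ (T.nst k).filter (fun U => T.Fit M d U), G d S =
        ∑ S ∈ T.nst k, ∑ d ∈ (Finset.range M).filter (fun d => T.Fit M d S), G d S := by
      have l1 : ∀ d ∈ Finset.range M, ∑ S ∈ (T.nst k).filter (fun U => T.Fit M d U), G d S =
          ∑ S ∈ T.nst k, if T.Fit M d S then G d S else 0 := by
        intro d _
        rw [Finset.sum_filter]
      rw [Finset.sum_congr rfl l1, Finset.sum_comm]
      apply Finset.sum_congr rfl
      intro S _
      rw [Finset.sum_filter]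
    rw [e1]
    have e2 : ∑ S ∈ (T.nst k).filter (fun U => ¬ T.Tall (k / 200) U),
        ∑ d ∈ (Finset.range M).filter (fun d => T.Fit M d S), G d S ≤
        ∑ S ∈ T.nst k, ∑ d ∈ (Finset.range M).filter (fun d => T.Fit M d S), G d S := by
      apply Finset.sum_le_sum_of_subset_of_nonneg (Finset.filter_subset _ _)
      intro S _ _
      exact Finset.sum_nonneg (fun d _ => hG0 d S)
    refine le_trans ?_ e2
    rw [← nsmul_eq_mul]
    apply Finset.card_nsmul_le_sum
    intro S hS
    rw [Finset.mem_filter] at hS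
    have := T.short_sum (k := k) (M := M) hk3 hMk hMk' hS.1 hS.2
    rw [hG]
    exact this
  have htall := hTall k hk1 (Fin N) T
  rw [Fintype.card_fin] at htall
  have hcard : (T.nst k).card = ((T.nst k).filter (fun U => T.Tall (k / 200) U)).card +
      ((T.nst k).filter (fun U => ¬ T.Tall (k / 200) U)).card :=
    (Finset.card_filter_add_card_filter_not _).symm
  have hW := WT_lower hM1
  have hMR : (1000 : ℝ) ≤ M := by exact_mod_cast hM1
  have hWpos : 0 < WT M := by linarith [show (0 : ℝ) < (M : ℝ) / 32 by positivity]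
  -- abbreviations
  obtain ⟨X, hX⟩ : ∃ X : ℝ, X = ((T.nst k).card : ℝ) := ⟨_, rfl⟩
  obtain ⟨Tl, hTl⟩ : ∃ Tl : ℝ,
      Tl = ((((T.nst k).filter (fun U => T.Tall (k / 200) U)).card : ℕ) : ℝ) := ⟨_, rfl⟩
  have hcard' : ((((T.nst k).filter (fun U => ¬ T.Tall (k / 200) U)).card : ℕ) : ℝ) = X - Tl := by
    rw [hX, hTl, hcard]
    push_cast
    ring
  rw [hcard'] at hL
  have htall' : 20 * (k : ℝ) * Tl ≤ X + 20 * k * (N * 2 ^ (C1 * k)) := by
    rw [hX, hTl]
    exact_mod_cast htall
  have hb' : b * ((∑ v, (T.c v + 1).choose (k - 1) : ℕ) : ℝ) ≤ m * X - a * N := by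
    have h1 : b * ((∑ v, (T.c v + 1).choose (k - 1) : ℕ) : ℝ) ≤ b * ((T.sts k).card : ℝ) := by
      apply mul_le_mul_of_nonneg_left _ hb
      exact_mod_cast hstar
    have h2 : a * (N - η / (a + 1) * ((T.subs k).card : ℝ)) ≤ a * (T.P k : ℝ) :=
      mul_le_mul_of_nonneg_left hEnds' ha
    have h3 : a * (η / (a + 1) * ((T.subs k).card : ℝ)) ≤ η * ((T.subs k).card : ℝ) := by
      have h4 : a * (η / (a + 1)) ≤ η := by
        rw [mul_div_assoc', div_le_iff₀ (by linarith)]
        nlinarith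
      have h5 : (0 : ℝ) ≤ ((T.subs k).card : ℝ) := Nat.cast_nonneg _
      nlinarith
    rw [hX]
    nlinarith
  have hfin : m * ((X - Tl) * (400000 * WT M * (1 + 1 / (k : ℝ)))) ≤
      M * (6 * a * N) + 400000 * (1 + 1 / (10 * (k : ℝ))) * WT M * (m * X - a * N) := by
    have h1 := mul_le_mul_of_nonneg_left hL hm.le
    have h2 : 0 ≤ 400000 * (1 + 1 / (10 * (k : ℝ))) * WT M := by positivity
    have h3 := mul_le_mul_of_nonneg_left hb' h2
    nlinarith
  refine final_num (a := a) (m := m) (n := N) (X := X) (Tl := Tl) (B := 400000) (W := WT M)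
    (κ := 1 / (k : ℝ)) (E := 2 ^ (C1 * k)) (M := M) hm ?_ ?_ rfl hWpos (by positivity) ?_ ?_
    ?_ ?_ ?_ hsmall
  · exact_mod_cast hN0
  · rw [hX]
    exact Nat.cast_nonneg _
  · rw [div_le_one hkR]
    have : 1 ≤ k := by omega
    exact_mod_cast this
  · exact one_le_pow₀ (by norm_num)
  · have h10 : (1 : ℝ) / (10 * k) = 1 / k / 10 := by
      rw [div_div, mul_comm]
    rw [h10] at hfin
    nlinarith
  · have : 20 * (k : ℝ) * Tl ≤ 20 * (k : ℝ) * (X * (1 / k) / 20 + N * 2 ^ (C1 * k)) := by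
      have e : 20 * (k : ℝ) * (X * (1 / k) / 20 + N * 2 ^ (C1 * k)) =
          X + 20 * k * (N * 2 ^ (C1 * k)) := by
        field_simp
      rw [e]
      exact htall'
    exact le_of_mul_le_mul_left this (by positivity)
  · linarith

end Pool.Agent.NP
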