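import Pool.Agent.NP.Defs
import Pool.Agent.NP.Mu

namespace Pool.Agent.NP

open SimpleGraph

/-- Two sets whose percolation events have a common element are comparable. -/
theorem perc_subset {V : Type} [Fintype V] (F : RF V) (C D S S' A : Finset V)
    (hC : C ⊆ S) (hD' : Disjoint S' D)
    (hp' : ∀ x ∈ S', x ∉ C → ∃ p ∈ S', F.par x = some p)
    (hA' : ∀ x ∈ S', x ∉ C → x ∈ A)
    (hA : ∀ x ∈ F.ext S, x ∉ D → x ∉ A) : S' ⊆ S := by
  have key : ∀ n, ∀ x ∈ S', F.lev x = n → x ∈ S := by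
    intro n
    induction n using Nat.strong_induction_on with
    | _ n ih =>
      intro x hx hn
      by_contra hxS
      have hxC : x ∉ C := fun h => hxS (hC h)
      obtain ⟨p, hp, hpx⟩ := hp' x hx hxC
      have h1 := F.hlev _ _ hpx
      have hpS : p ∈ S := ih (F.lev p) (by omega) p hp rfl
      have hext : x ∈ F.ext S := (F.mem_ext).2 ⟨hxS, p, hpS, hpx⟩
      have hxD : x ∉ D := Finset.disjoint_left.1 hD' hx
      exact hA x hext hxD (hA' x hx hxC)
  intro x hx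
  exact key _ x hx rfl

open Classical in
/-- Percolation inequality: the events (all elements of `S \ C` are open, all elements of
`ext S \ D` are closed) are disjoint for different `S`. -/
theorem perc {V : Type} [Fintype V] (F : RF V) (C D : Finset V) (G : Finset (Finset V))
    (h : ∀ S ∈ G, C ⊆ S ∧ Disjoint S D ∧ ∀ x ∈ S, x ∉ C → ∃ p ∈ S, F.par x = some p)
    {y : ℝ} (hy0 : 0 ≤ y) (hy1 : y ≤ 1) :
    ∑ S ∈ G, y ^ (S \ C).card * (1 - y) ^ (F.ext S \ D).card ≤ 1 := by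
  have hmu : ∀ A : Finset V, 0 ≤ mu (fun _ : V => y) A := mu_nonneg (fun _ => ⟨hy0, hy1⟩)
  have h1 : ∀ S ∈ G, y ^ (S \ C).card * (1 - y) ^ (F.ext S \ D).card =
      ∑ A ∈ Finset.univ.filter
        (fun A : Finset V => S \ C ⊆ A ∧ Disjoint A (F.ext S \ D)), mu (fun _ : V => y) A := by
    intro S _
    rw [mu_cyl]
    · simp
    · rw [Finset.disjoint_left]
      intro x hx hx'
      have h2 := (Finset.mem_sdiff.1 hx).1
      have h3 := (F.mem_ext.1 (Finset.mem_sdiff.1 hx').1).1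
      exact h3 h2
  rw [Finset.sum_congr rfl h1]
  have h2 : ∀ S ∈ G, ∑ A ∈ Finset.univ.filter
        (fun A : Finset V => S \ C ⊆ A ∧ Disjoint A (F.ext S \ D)), mu (fun _ : V => y) A =
      ∑ A : Finset V, if S \ C ⊆ A ∧ Disjoint A (F.ext S \ D) then
        mu (fun _ : V => y) A else 0 := by
    intro S _
    rw [Finset.sum_filter]
  rw [Finset.sum_congr rfl h2, Finset.sum_comm, ← mu_sum (fun _ : V => y)]
  refine Finset.sum_le_sum fun A _ => ?_
  rw [← Finset.sum_filter, Finset.sum_const, nsmul_eq_mul]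
  have hcard : (G.filter (fun S => S \ C ⊆ A ∧ Disjoint A (F.ext S \ D))).card ≤ 1 := by
    rw [Finset.card_le_one]
    intro S hS S' hS'
    rw [Finset.mem_filter] at hS hS'
    obtain ⟨hSG, hS1, hS2⟩ := hS
    obtain ⟨hSG', hS1', hS2'⟩ := hS'
    obtain ⟨a1, a2, a3⟩ := h S hSG
    obtain ⟨b1, b2, b3⟩ := h S' hSG'
    have oA : ∀ x ∈ S, x ∉ C → x ∈ A := fun x hx hxC => hS1 (Finset.mem_sdiff.2 ⟨hx, hxC⟩)
    have oA' : ∀ x ∈ S', x ∉ C → x ∈ A := fun x hx hxC => hS1' (Finset.mem_sdiff.2 ⟨hx, hxC⟩)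
    have cA : ∀ x ∈ F.ext S, x ∉ D → x ∉ A := fun x hx hxD hxA =>
      Finset.disjoint_left.1 hS2 hxA (Finset.mem_sdiff.2 ⟨hx, hxD⟩)
    have cA' : ∀ x ∈ F.ext S', x ∉ D → x ∉ A := fun x hx hxD hxA =>
      Finset.disjoint_left.1 hS2' hxA (Finset.mem_sdiff.2 ⟨hx, hxD⟩)
    exact Finset.Subset.antisymm (perc_subset F C D S' S A b1 a2 a3 oA cA')
      (perc_subset F C D S S' A a1 b2 b3 oA' cA)
  have hcard' : ((G.filter (fun S => S \ C ⊆ A ∧ Disjoint A (F.ext S \ D))).card : ℝ) ≤ 1 := by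
    exact_mod_cast hcard
  calc _ ≤ 1 * mu (fun _ : V => y) A := mul_le_mul_of_nonneg_right hcard' (hmu A)
    _ = _ := one_mul _

open Classical in
theorem perc_card {V : Type} [Fintype V] (F : RF V) (C D : Finset V) (G : Finset (Finset V))
    (h : ∀ S ∈ G, C ⊆ S ∧ Disjoint S D ∧ ∀ x ∈ S, x ∉ C → ∃ p ∈ S, F.par x = some p)
    {y : ℝ} (hy0 : 0 ≤ y) (hy1 : y ≤ 1) {s e : ℕ}
    (hs : ∀ S ∈ G, (S \ C).card = s) (he : ∀ S ∈ G, (F.ext S \ D).card ≤ e) :
    (G.card : ℝ) * (y ^ s * (1 - y) ^ e) ≤ 1 := by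
  have h1 : (G.card : ℝ) * (y ^ s * (1 - y) ^ e) = ∑ _S ∈ G, y ^ s * (1 - y) ^ e := by
    rw [Finset.sum_const, nsmul_eq_mul]
  rw [h1]
  refine le_trans (Finset.sum_le_sum fun S hS => ?_) (perc F C D G h hy0 hy1)
  rw [hs S hS]
  refine mul_le_mul_of_nonneg_left ?_ (pow_nonneg hy0 _)
  exact pow_le_pow_of_le_one (by linarith) (by linarith) (he S hS)

end Pool.Agent.NP
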