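import Pool.Agent.NP.Good
import Pool.Agent.NP.PathB
import Pool.Agent.NP.ToFin
import Pool.Agent.NP.Ext

namespace Pool.Agent.NP

open SimpleGraph

namespace Two

/-- The rooted path on `Fin N`. -/
def pathRF (N : ℕ) : RF (Fin N) where
  par i := if h : i.val = 0 then none else some ⟨i.val - 1, by omega⟩
  lev i := i.val
  hlev := by
    intro v p h
    by_cases hv : v.val = 0
    · rw [dif_pos hv] at h
      simp at h
    · rw [dif_neg hv, Option.some.injEq] at h
      rw [← h]
      change v.val = v.val - 1 + 1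
      omega

/-- The rooted star on `Fin N`. -/
def starRF (N : ℕ) : RF (Fin N) where
  par i := if h : i.val = 0 then none else some ⟨0, by omega⟩
  lev i := if i.val = 0 then 0 else 1
  hlev := by
    intro v p h
    by_cases hv : v.val = 0
    · rw [dif_pos hv] at h
      simp at h
    · rw [dif_neg hv, Option.some.injEq] at h
      rw [← h]
      simp [hv]

theorem pathRF_isRt {N : ℕ} (hN : 0 < N) : (pathRF N).IsRt ⟨0, hN⟩ := by
  refine ⟨by simp [pathRF], rfl, ?_⟩
  intro v hv
  have hv' : v.val ≠ 0 := fun h => hv (Fin.ext h)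
  exact ⟨⟨v.val - 1, by omega⟩, by simp [pathRF, hv']⟩

theorem starRF_isRt {N : ℕ} (hN : 0 < N) : (starRF N).IsRt ⟨0, hN⟩ := by
  refine ⟨by simp [starRF], by simp [starRF], ?_⟩
  intro v hv
  have hv' : v.val ≠ 0 := fun h => hv (Fin.ext h)
  exact ⟨⟨0, hN⟩, by simp [starRF, hv']⟩

theorem Zc_pos {V : Type} [Fintype V] (F : RF V) {r : V} (hr : F.IsRt r) {k : ℕ} (h1 : 1 ≤ k)
    (hk : k ≤ Fintype.card V) : 0 < Zc k F.graph := by
  rw [RF.Zc_eq]
  obtain ⟨U, hU, -⟩ := F.exists_mem hr h1 hk r
  exact Finset.card_pos.mpr ⟨U, hU⟩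

end Two

open Two

/-- The path with `N` vertices: every `k`-vertex subtree is a path. -/
theorem path_point {k : ℕ} (hk : 4 ≤ k) : Good k 1 0 := by
  intro ε hε n0
  have hN : 0 < max n0 k := by omega
  have hr := pathRF_isRt hN
  have hpos : 0 < Zc k (pathRF (max n0 k)).graph :=
    Zc_pos _ hr (by omega) (by rw [Fintype.card_fin]; exact le_max_right _ _)
  have hle : Zc k (pathRF (max n0 k)).graph ≤ cnt (pathGraph k) (pathRF (max n0 k)).graph := by
    unfold Zc cnt
    refine Set.ncard_le_ncard ?_ (Set.toFinite _)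
    rintro U ⟨hc, ht⟩
    obtain ⟨t, hU⟩ := ((pathRF (max n0 k)).induce_isTree_iff U).mp ht
    have := (pathRF (max n0 k)).chain_path hU (fun x _ y _ h => Fin.ext h)
    rw [hc] at this
    exact this
  have hsum := cnt_path_add_cnt_star_le (pathRF (max n0 k)).graph hk
  have h1 : cnt (pathGraph k) (pathRF (max n0 k)).graph = Zc k (pathRF (max n0 k)).graph := by
    omega
  have h2 : cnt (starG k) (pathRF (max n0 k)).graph = 0 := by omega
  refine ⟨max n0 k, le_max_left _ _, (pathRF (max n0 k)).graph,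
    RF.graph_isTree _ hr.1 hr.2.2, ?_, ?_⟩
  · rw [h1, div_self (by exact_mod_cast hpos.ne'), sub_self, abs_zero]
    exact hε
  · rw [h2]
    simpa using hε

/-- The star with `N` vertices: every `k`-vertex subtree is a star. -/
theorem star_point {k : ℕ} (hk : 4 ≤ k) : Good k 0 1 := by
  intro ε hε n0
  have hN : 0 < max n0 k := by omega
  have hr := starRF_isRt hN
  have hpos : 0 < Zc k (starRF (max n0 k)).graph :=
    Zc_pos _ hr (by omega) (by rw [Fintype.card_fin]; exact le_max_right _ _)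
  have hpar : ∀ v p, (starRF (max n0 k)).par v = some p → p = ⟨0, hN⟩ := by
    intro v p h
    by_cases hv : v.val = 0
    · have : (starRF (max n0 k)).par v = none := by simp [starRF, hv]
      rw [this] at h
      simp at h
    · have : (starRF (max n0 k)).par v = some ⟨0, hN⟩ := by simp [starRF, hv]
      rw [this, Option.some.injEq] at h
      exact h.symm
  have hpar' : ∀ v : Fin (max n0 k), v ≠ ⟨0, hN⟩ →
      (starRF (max n0 k)).par v = some ⟨0, hN⟩ := by
    intro v hv
    obtain ⟨p, hp⟩ := hr.2.2 v hv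
    rw [hp, hpar v p hp]
  have hle : Zc k (starRF (max n0 k)).graph ≤ cnt (starG k) (starRF (max n0 k)).graph := by
    rw [cnt_star _ (by omega : 1 ≤ k), RF.Zc_eq]
    refine Finset.card_le_card ?_
    intro U hU
    rw [RF.mem_subs] at hU
    rw [RF.mem_sts]
    refine ⟨hU, ?_⟩
    obtain ⟨hc, t, ht, hsub⟩ := hU
    obtain ⟨x, hx, hxt⟩ : ∃ x ∈ U, x ≠ t := Finset.exists_mem_ne (by omega) t
    obtain ⟨p, hp, hpx⟩ := hsub x hx hxt
    have hp0 := hpar x p hpx
    rw [hp0] at hp
    exact ⟨⟨0, hN⟩, hp, fun y _ hy => Or.inl (hpar' y hy)⟩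
  have hsum := cnt_path_add_cnt_star_le (starRF (max n0 k)).graph hk
  have h1 : cnt (starG k) (starRF (max n0 k)).graph = Zc k (starRF (max n0 k)).graph := by
    omega
  have h2 : cnt (pathGraph k) (starRF (max n0 k)).graph = 0 := by omega
  refine ⟨max n0 k, le_max_left _ _, (starRF (max n0 k)).graph,
    RF.graph_isTree _ hr.1 hr.2.2, ?_, ?_⟩
  · rw [h2]
    simpa using hε
  · rw [h1, div_self (by exact_mod_cast hpos.ne'), sub_self, abs_zero]
    exact hε

end Pool.Agent.NP
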