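import Pool.Agent.NP.Good
import Pool.Agent.NP.Two
import Pool.Agent.NP.Fun
import Pool.Agent.NP.Root
import Pool.Agent.NP.ToFin
import Pool.Agent.NP.StarC
import Pool.Agent.NP.Ext

namespace Pool.Agent.NP

open SimpleGraph

/-- The linear functional in terms of counts. -/
private theorem fun_eq {V : Type} [Fintype V] (F : RF V) (j : ℕ) (a b0 m : ℝ) :
    a * (F.P j : ℝ) + (b0 - m) * ((F.sts j).card : ℝ) - m * ((F.nst j).card : ℝ) =
      a * (F.P j : ℝ) + b0 * ((F.sts j).card : ℝ) - m * ((F.subs j).card : ℝ) := by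
  have h : ((F.subs j).card : ℝ) = ((F.sts j).card : ℝ) + ((F.nst j).card : ℝ) := by
    exact_mod_cast F.card_subs j
  rw [h]
  ring

private theorem subs_pos {V : Type} [Fintype V] (F : RF V) {r : V} (hr : F.IsRt r) {j : ℕ}
    (h1 : 1 ≤ j) (hj : j ≤ Fintype.card V) : (0 : ℝ) < ((F.subs j).card : ℝ) := by
  obtain ⟨U, hU, _⟩ := F.exists_mem hr h1 hj r
  have : 0 < (F.subs j).card := Finset.card_pos.mpr ⟨U, hU⟩
  exact_mod_cast this

/-- Separation of a point of `Proj k` from the closed convex set `Proj (k + 1)`. -/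
theorem separate {k : ℕ} (hk : 4 ≤ k) (hconv : Convex ℝ (Proj (k + 1)))
    (hnot : ¬ Proj k ⊆ Proj (k + 1)) :
    ∃ a b m : ℝ, 0 ≤ a ∧ 0 ≤ b ∧ 0 < m ∧ Fun1 k a b m ∧ Fun2 k a b m := by
  obtain ⟨⟨x, y⟩, hxy, hn⟩ := Set.not_subset.mp hnot
  obtain ⟨f, u, hf, hu⟩ := geometric_hahn_banach_closed_point hconv
    (isClosed_Proj (by omega : 1 ≤ k + 1)) hn
  have hlin : ∀ X Y : ℝ, f (X, Y) = X * f (1, 0) + Y * f (0, 1) := by
    intro X Y
    have : ((X, Y) : ℝ × ℝ) = X • ((1, 0) : ℝ × ℝ) + Y • ((0, 1) : ℝ × ℝ) := by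
      ext <;> simp
    rw [this, map_add, map_smul, map_smul, smul_eq_mul, smul_eq_mul]
  set p : ℝ := f (1, 0) with hp
  set q : ℝ := f (0, 1) with hq
  have hb := Proj_bounds hk hxy
  have h10 : p < u := by
    have := hf (1, 0) ((mem_Proj_iff (by omega : 1 ≤ k + 1)).mpr
      (path_point (by omega : 4 ≤ k + 1)))
    exact this
  have h01 : q < u := by
    have := hf (0, 1) ((mem_Proj_iff (by omega : 1 ≤ k + 1)).mpr
      (star_point (by omega : 4 ≤ k + 1)))
    exact this
  have hxy' : u < x * p + y * q := by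
    rw [← hlin x y]
    exact hu
  have hu0 : u < 0 := by
    by_contra h
    rw [not_lt] at h
    have e1 : x * p ≤ x * u := mul_le_mul_of_nonneg_left h10.le hb.1
    have e2 : y * q ≤ y * u := mul_le_mul_of_nonneg_left h01.le hb.2.1
    nlinarith [hb.2.2]
  -- the functional is larger than `-u` on `Proj (k + 1)`
  have hpos : ∀ X Y, (X, Y) ∈ Proj (k + 1) → -u < (-p) * X + (-q) * Y := by
    intro X Y h
    have := hf _ h
    rw [hlin X Y] at this
    linarith
  refine ⟨-p, -q - -u, -u, by linarith, by linarith, by linarith, ?_, ?_⟩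
  · -- Fun1
    intro ε hε
    by_contra hcon
    push Not at hcon
    obtain ⟨X, Y, hXY, hle⟩ := exists_limit (by omega : 4 ≤ k + 1) (-p) (-q) (-u - ε) (by
      intro n0
      obtain ⟨V, iV, F, r, hr, hcard, hlt⟩ := hcon (max n0 (k + 1))
      have hZ : (0 : ℝ) < ((F.subs (k + 1)).card : ℝ) :=
        subs_pos F hr (by omega) ((le_max_right _ _).trans hcard)
      have hT : F.graph.IsTree := F.graph_isTree hr.1 hr.2.2
      obtain ⟨T', hT', hc, hz⟩ := to_fin F.graph hT
      refine ⟨Fintype.card V, (le_max_left _ _).trans hcard, T', hT', ?_⟩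
      rw [hc, hc, hz, F.Zc_eq, cnt_star F (by omega : 1 ≤ k + 1)]
      rw [fun_eq] at hlt
      have hP : (F.P (k + 1) : ℝ) = (cnt (pathGraph (k + 1)) F.graph : ℝ) := rfl
      rw [hP] at hlt
      rw [mul_div_assoc', mul_div_assoc', ← add_div, div_le_iff₀ hZ]
      linarith)
    have := hpos X Y hXY
    linarith
  · -- Fun2
    have hη : 0 < (x * p + y * q - u) / 2 := by linarith
    refine ⟨(x * p + y * q - u) / 2, hη, ?_⟩
    set η : ℝ := (x * p + y * q - u) / 2 with hηdef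
    intro n0
    have hab : 0 < -p + -q + 1 := by linarith
    obtain ⟨N, hN, T, hT, h1, h2⟩ := (mem_Proj_iff (by omega : 1 ≤ k)).mp hxy
      (η / (-p + -q + 1)) (div_pos hη hab) (max n0 (k + 2))
    have hN1 : n0 ≤ N := (le_max_left _ _).trans hN
    have hN2 : k + 2 ≤ N := (le_max_right _ _).trans hN
    obtain ⟨F, r, hFT, hr, hcr⟩ := exists_leaf_rooted T hT (by
      rw [Fintype.card_fin]
      omega)
    refine ⟨N, F, r, hN1, hr, hcr, ?_⟩
    have hZ : (0 : ℝ) < ((F.subs k).card : ℝ) :=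
      subs_pos F hr (by omega) (by rw [Fintype.card_fin]; omega)
    rw [← hFT, F.Zc_eq] at h1 h2
    rw [cnt_star F (by omega : 1 ≤ k)] at h2
    rw [fun_eq]
    have hP : (F.P k : ℝ) = (cnt (pathGraph k) F.graph : ℝ) := rfl
    rw [hP]
    set Z : ℝ := ((F.subs k).card : ℝ) with hZdef
    set P : ℝ := (cnt (pathGraph k) F.graph : ℝ) with hPdef
    set S : ℝ := ((F.sts k).card : ℝ) with hSdef
    set δ : ℝ := η / (-p + -q + 1) with hδ
    have hδ' : δ * (-p + -q + 1) = η := div_mul_cancel₀ _ hab.ne'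
    have hδ0 : 0 < δ := div_pos hη hab
    have g1 : P ≤ (x + δ) * Z := by
      have := (abs_lt.mp h1).2
      rw [← div_le_iff₀ hZ]
      linarith
    have g2 : S ≤ (y + δ) * Z := by
      have := (abs_lt.mp h2).2
      rw [← div_le_iff₀ hZ]
      linarith
    have g3 : (-p) * P ≤ (-p) * ((x + δ) * Z) := mul_le_mul_of_nonneg_left g1 (by linarith)
    have g4 : (-q) * S ≤ (-q) * ((y + δ) * Z) := mul_le_mul_of_nonneg_left g2 (by linarith)
    have g5 : (-p) * ((x + δ) * Z) + (-q) * ((y + δ) * Z) - (-u) * Z =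
        -(2 * η) * Z + (δ * (-p + -q + 1) - δ) * Z := by
      rw [hηdef]
      ring
    rw [hδ'] at g5
    have g6 : 0 ≤ δ * Z := (mul_pos hδ0 hZ).le
    nlinarith
end Pool.Agent.NP
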