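import Mathlib

namespace Pool.Agent.NP

open SimpleGraph

/-- The weight of the `i`-th level of a slab with `M` levels. -/
noncomputable def wt (M : ℕ) (i : ℕ) : ℝ := Real.exp (-(8 / (M : ℝ)) * |2 * (i : ℝ) - M|)

/-- The total weight. -/
noncomputable def WT (M : ℕ) : ℝ := ∑ i ∈ Finset.range M, wt M i

theorem wt_pos (M i : ℕ) : 0 < wt M i := Real.exp_pos _

theorem wt_le_one (M i : ℕ) : wt M i ≤ 1 := by
  unfold wt
  rw [Real.exp_le_one_iff]
  have h1 : 0 ≤ 8 / (M : ℝ) := by positivity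
  have h2 := abs_nonneg (2 * (i : ℝ) - M)
  nlinarith [mul_nonneg h1 h2]

theorem exp_eight_lt : Real.exp 8 < 3000 := by
  have h := Real.exp_one_lt_d9
  have h0 : Real.exp 8 = Real.exp 1 ^ 8 := by
    rw [← Real.exp_nat_mul]
    norm_num
  rw [h0]
  calc Real.exp 1 ^ 8 < 2.7182818286 ^ 8 := by
        apply pow_lt_pow_left₀ h (Real.exp_pos 1).le (by norm_num)
    _ < 3000 := by norm_num

theorem exp_eight_gt : 2980 < Real.exp 8 := by
  have h := Real.exp_one_gt_d9
  have h0 : Real.exp 8 = Real.exp 1 ^ 8 := by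
    rw [← Real.exp_nat_mul]
    norm_num
  rw [h0]
  calc (2980 : ℝ) < 2.7182818283 ^ 8 := by norm_num
    _ < Real.exp 1 ^ 8 := by
        apply pow_lt_pow_left₀ h (by norm_num) (by norm_num)

theorem wt_ge_of_abs {M i : ℕ} {a b : ℝ} (hM : 1 ≤ M) (h : |2 * (i : ℝ) - M| ≤ a)
    (hb : 8 * a ≤ b * M) : Real.exp (-b) ≤ wt M i := by
  unfold wt
  apply Real.exp_le_exp.mpr
  have hM' : (0 : ℝ) < M := by exact_mod_cast hM
  have h1 : 8 / (M : ℝ) * |2 * (i : ℝ) - M| ≤ 8 / (M : ℝ) * a :=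
    mul_le_mul_of_nonneg_left h (by positivity)
  have h2 : 8 / (M : ℝ) * a ≤ b := by
    rw [div_mul_eq_mul_div, div_le_iff₀ hM']
    exact hb
  linarith

theorem wt_le_of_abs {M i : ℕ} {a b : ℝ} (hM : 1 ≤ M) (h : a ≤ |2 * (i : ℝ) - M|)
    (hb : b * M ≤ 8 * a) : wt M i ≤ Real.exp (-b) := by
  unfold wt
  apply Real.exp_le_exp.mpr
  have hM' : (0 : ℝ) < M := by exact_mod_cast hM
  have h1 : 8 / (M : ℝ) * a ≤ 8 / (M : ℝ) * |2 * (i : ℝ) - M| :=
    mul_le_mul_of_nonneg_left h (by positivity)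
  have h2 : b ≤ 8 / (M : ℝ) * a := by
    rw [div_mul_eq_mul_div, le_div_iff₀ hM']
    exact hb
  linarith

theorem wt_lower {M i : ℕ} (hM : 1 ≤ M) (hi : i ≤ M) : 1 / 3000 ≤ wt M i := by
  have hi' : (i : ℝ) ≤ M := by exact_mod_cast hi
  have hi0 : (0 : ℝ) ≤ i := by positivity
  have h1 : |2 * (i : ℝ) - M| ≤ M := by
    rw [abs_le]
    constructor <;> linarith
  have h2 := wt_ge_of_abs (b := 8) hM h1 (le_refl _)
  refine le_trans ?_ h2
  rw [Real.exp_neg, one_div]
  exact inv_anti₀ (Real.exp_pos _) exp_eight_lt.le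

theorem wt_lip {M : ℕ} (hM : 1 ≤ M) {i j h : ℕ} (h1 : i ≤ j + h) (h2 : j ≤ i + h) :
    wt M j * Real.exp (-(16 / (M : ℝ)) * h) ≤ wt M i := by
  unfold wt
  rw [← Real.exp_add]
  apply Real.exp_le_exp.mpr
  have hM' : (0 : ℝ) < M := by exact_mod_cast hM
  have h1' : (i : ℝ) ≤ j + h := by exact_mod_cast h1
  have h2' : (j : ℝ) ≤ i + h := by exact_mod_cast h2
  have h3 : |2 * (i : ℝ) - M| ≤ |2 * (j : ℝ) - M| + 2 * h := by
    have h4 := neg_abs_le (2 * (j : ℝ) - M)
    have h5 := le_abs_self (2 * (j : ℝ) - M)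
    rw [abs_le]
    constructor <;> linarith
  have h6 : 8 / (M : ℝ) * |2 * (i : ℝ) - M| ≤ 8 / (M : ℝ) * (|2 * (j : ℝ) - M| + 2 * h) :=
    mul_le_mul_of_nonneg_left h3 (by positivity)
  have h7 : 16 / (M : ℝ) = 2 * (8 / (M : ℝ)) := by ring
  rw [h7]
  nlinarith

theorem WT_lower {M : ℕ} (hM : 1000 ≤ M) : (M : ℝ) / 32 ≤ WT M := by
  have hM' : (1000 : ℝ) ≤ M := by exact_mod_cast hM
  -- indices `i` with `7 M ≤ 16 i ≤ 9 M`
  set A : ℕ := (7 * M + 15) / 16 with hA
  set B : ℕ := 9 * M / 16 with hB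
  have hsub : Finset.Icc A B ⊆ Finset.range M := by
    intro i hi
    rw [Finset.mem_Icc] at hi
    rw [Finset.mem_range]
    omega
  have h1 : ∑ i ∈ Finset.Icc A B, wt M i ≤ WT M := by
    unfold WT
    apply Finset.sum_le_sum_of_subset_of_nonneg hsub
    intro i _ _
    exact (wt_pos M i).le
  have h2 : ∀ i ∈ Finset.Icc A B, Real.exp (-1) ≤ wt M i := by
    intro i hi
    rw [Finset.mem_Icc] at hi
    have e1 : 7 * M ≤ 16 * i := by omega
    have e2 : 16 * i ≤ 9 * M := by omega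
    have e1' : 7 * (M : ℝ) ≤ 16 * i := by exact_mod_cast e1
    have e2' : 16 * (i : ℝ) ≤ 9 * M := by exact_mod_cast e2
    apply wt_ge_of_abs (a := (M : ℝ) / 8) (by omega)
    · rw [abs_le]
      constructor <;> linarith
    · linarith
  have h3 : ((Finset.Icc A B).card : ℝ) * Real.exp (-1) ≤ ∑ i ∈ Finset.Icc A B, wt M i := by
    have := Finset.card_nsmul_le_sum (Finset.Icc A B) (fun i => wt M i) (Real.exp (-1)) h2
    rw [nsmul_eq_mul] at this
    exact this
  have h4 : (M : ℝ) / 8 - 1 ≤ ((Finset.Icc A B).card : ℝ) := by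
    rw [Nat.card_Icc]
    have e3 : M ≤ 8 * (B + 1 - A) + 8 := by omega
    have e3' : (M : ℝ) ≤ 8 * ((B + 1 - A : ℕ) : ℝ) + 8 := by exact_mod_cast e3
    linarith
  have h5 : (1 : ℝ) / 3 ≤ Real.exp (-1) := by
    rw [Real.exp_neg, one_div]
    apply inv_anti₀ (Real.exp_pos _)
    have := Real.exp_one_lt_d9
    linarith
  have h6 : ((M : ℝ) / 8 - 1) * (1 / 3) ≤ ((Finset.Icc A B).card : ℝ) * Real.exp (-1) := by
    apply mul_le_mul h4 h5 (by norm_num)
    positivity
  linarith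

/-- Shifted partial sums lose little: the weights near the two ends of the slab are small. -/
theorem wt_shift {M : ℕ} (hM : 1000 ≤ M) {h e : ℕ} (hh : 90 * h ≤ M) (he : e ≤ h) :
    WT M * (1 - (h : ℝ) / (70 * M)) ≤ ∑ j ∈ Finset.range (M - h), wt M (j + e) := by
  have hM' : (1000 : ℝ) ≤ M := by exact_mod_cast hM
  have hM0 : (0 : ℝ) < M := by linarith
  have hh' : 90 * (h : ℝ) ≤ M := by exact_mod_cast hh
  have hWT := WT_lower hM
  -- the bound for the missing indices
  have hsmall : ∀ i, i < e ∨ (M - h + e ≤ i ∧ i < M) → wt M i ≤ 1 / 2240 := by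
    intro i hi
    have h1 : (M : ℝ) - 2 * h ≤ |2 * (i : ℝ) - M| := by
      rcases hi with hi | ⟨hi, _⟩
      · have e1 : i ≤ h := by omega
        have e1' : (i : ℝ) ≤ h := by exact_mod_cast e1
        have := neg_le_abs (2 * (i : ℝ) - M)
        linarith
      · have e1 : M ≤ i + h := by omega
        have e1' : (M : ℝ) ≤ i + h := by exact_mod_cast e1
        have := le_abs_self (2 * (i : ℝ) - M)
        linarith
    have h2 : wt M i ≤ Real.exp (-(8 - 16 / 90)) := by
      apply wt_le_of_abs (by omega) h1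
      nlinarith
    refine le_trans h2 ?_
    rw [Real.exp_neg, one_div]
    apply inv_anti₀ (by norm_num)
    rw [sub_eq_add_neg, Real.exp_add]
    have h3 := Real.add_one_le_exp (-(16 / 90 : ℝ))
    have h4 := exp_eight_gt
    nlinarith [Real.exp_pos (8 : ℝ), Real.exp_pos (-(16 / 90 : ℝ))]
  -- splitting the total
  have hsplit : WT M = (∑ i ∈ Finset.range e, wt M i) +
      (∑ j ∈ Finset.range (M - h), wt M (j + e)) +
      ∑ j ∈ Finset.range (h - e), wt M (j + (M - h + e)) := by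
    unfold WT
    have e1 : M = e + (M - h) + (h - e) := by omega
    have e2 : Finset.range M = Finset.range (e + (M - h) + (h - e)) := by rw [← e1]
    rw [e2, Finset.sum_range_add, Finset.sum_range_add]
    congr 1
    · congr 1
      apply Finset.sum_congr rfl
      intro j _
      rw [Nat.add_comm]
    · apply Finset.sum_congr rfl
      intro j _
      congr 1
      omega
  have hA : (∑ i ∈ Finset.range e, wt M i) ≤ (e : ℝ) * (1 / 2240) := by
    have := Finset.sum_le_card_nsmul (Finset.range e) (fun i => wt M i) (1 / 2240)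
      (fun i hi => hsmall i (Or.inl (Finset.mem_range.mp hi)))
    rw [nsmul_eq_mul, Finset.card_range] at this
    exact this
  have hB : (∑ j ∈ Finset.range (h - e), wt M (j + (M - h + e))) ≤
      ((h - e : ℕ) : ℝ) * (1 / 2240) := by
    have := Finset.sum_le_card_nsmul (Finset.range (h - e)) (fun j => wt M (j + (M - h + e)))
      (1 / 2240) (fun j hj => hsmall _ (Or.inr ⟨by omega, by
        have := Finset.mem_range.mp hj
        omega⟩))
    rw [nsmul_eq_mul, Finset.card_range] at this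
    exact this
  have hcast : ((h - e : ℕ) : ℝ) = h - e := by
    rw [Nat.cast_sub he]
  rw [hcast] at hB
  have hC : (h : ℝ) * (1 / 2240) ≤ WT M * ((h : ℝ) / (70 * M)) := by
    have h0 : (0 : ℝ) ≤ (h : ℝ) / (70 * M) := by positivity
    have h1 : (M : ℝ) / 32 * ((h : ℝ) / (70 * M)) = (h : ℝ) * (1 / 2240) := by
      field_simp
      ring
    rw [← h1]
    exact mul_le_mul_of_nonneg_right hWT h0
  have hD : WT M * (1 - (h : ℝ) / (70 * M)) = WT M - WT M * ((h : ℝ) / (70 * M)) := by ring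
  rw [hD]
  linarith

end Pool.Agent.NP
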