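import Pool.Agent.NP.DC
import Pool.Agent.NP.Wt

namespace Pool.Agent.NP

open SimpleGraph

namespace RF

variable {V : Type} [Fintype V]

/-- The retention probability of the edges below `v`, for the shift `d`. -/
noncomputable def sf (F : RF V) (k M d : ℕ) (v : V) : ℝ :=
  (min 1 (400000 * k * wt M ((F.lev v + d) % M) / (F.c v + 2))) ^ ((1 : ℝ) / k)

theorem sf_base_pos (F : RF V) {k : ℕ} (hk : 1 ≤ k) (M d : ℕ) (v : V) :
    0 < min 1 (400000 * k * wt M ((F.lev v + d) % M) / (F.c v + 2)) := by
  have h1 : (0 : ℝ) < k := by exact_mod_cast hk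
  have h2 := wt_pos M ((F.lev v + d) % M)
  have h3 : (0 : ℝ) ≤ F.c v := Nat.cast_nonneg _
  refine lt_min one_pos ?_
  positivity

theorem sf_mem (F : RF V) {k : ℕ} (hk : 1 ≤ k) (M d : ℕ) (v : V) :
    0 < F.sf k M d v ∧ F.sf k M d v ≤ 1 := by
  have h := F.sf_base_pos hk M d v
  exact ⟨Real.rpow_pos_of_pos h _, Real.rpow_le_one h.le (min_le_left _ _) (by positivity)⟩

theorem sf_pow (F : RF V) {k : ℕ} (hk : 1 ≤ k) (M d : ℕ) (v : V) :
    F.sf k M d v ^ k = min 1 (400000 * k * wt M ((F.lev v + d) % M) / (F.c v + 2)) := by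
  have h := F.sf_base_pos hk M d v
  unfold sf
  rw [one_div]
  exact Real.rpow_inv_natCast_pow h.le (by omega)

theorem succ_mod_of_ne {n M : ℕ} (hM : 1 ≤ M) (h : (n + 1) % M ≠ 0) :
    (n + 1) % M = n % M + 1 := by
  have h1 : n % M < M := Nat.mod_lt _ hM
  have h2 : (n + 1) % M = (n % M + 1) % M := by
    rw [Nat.add_mod, Nat.add_mod (n % M) 1 M, Nat.mod_mod]
  rcases Nat.lt_or_ge (n % M + 1) M with h3 | h3
  · rw [h2, Nat.mod_eq_of_lt h3]
  · exfalso
    apply h
    have h4 : n % M + 1 = M := by omega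
    rw [h2, h4, Nat.mod_self]

omit [Fintype V] in
theorem lev_top_le (F : RF V) {U : Finset V} {t : V} (h : F.Sub U t) :
    ∀ x ∈ U, F.lev t ≤ F.lev x := by
  intro x hx
  by_cases hxt : x = t
  · rw [hxt]
  · exact (F.lev_top h x hx hxt).le

/-- In a subtree which fits in a slab the residues of the levels increase with the levels. -/
theorem fit_mod (F : RF V) {M d : ℕ} (hM : 1 ≤ M) {U : Finset V} {t : V} (hU : F.Sub U t)
    (hF : F.Fit M d U) : ∀ x ∈ U, (F.lev x + d) % M = (F.lev t + d) % M + (F.lev x - F.lev t) := by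
  have key : ∀ n, ∀ x ∈ U, F.lev x = n →
      (F.lev x + d) % M = (F.lev t + d) % M + (F.lev x - F.lev t) := by
    intro n
    induction n using Nat.strong_induction_on with
    | _ n ih =>
      intro x hx hn
      by_cases hxt : x = t
      · subst hxt
        simp
      · obtain ⟨p, hp, hpx⟩ := hU.2 x hx hxt
        have h1 := F.hlev _ _ hpx
        have h2 := ih (F.lev p) (by omega) p hp rfl
        have h3 := F.lev_top_le hU p hp
        have h4 := hF x ((F.mem_nt_iff hU).2 ⟨hx, hxt⟩)
        have h5 : F.lev x + d = (F.lev p + d) + 1 := by omega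
        rw [h5] at h4 ⊢
        rw [succ_mod_of_ne hM h4, h2]
        omega
  intro x hx
  exact key _ x hx rfl

omit [Fintype V] in
theorem exists_chain (F : RF V) {U : Finset V} {t : V} (hU : F.Sub U t) :
    ∀ y ∈ U, ∃ C ⊆ U, C.card = F.lev y - F.lev t + 1 ∧ (∀ x ∈ C, F.lev x ≤ F.lev y) ∧
      Set.InjOn F.lev C := by
  classical
  have key : ∀ n, ∀ y ∈ U, F.lev y = n → ∃ C ⊆ U, C.card = F.lev y - F.lev t + 1 ∧
      (∀ x ∈ C, F.lev x ≤ F.lev y) ∧ Set.InjOn F.lev C := by
    intro n
    induction n using Nat.strong_induction_on with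
    | _ n ih =>
      intro y hy hn
      by_cases hyt : y = t
      · subst hyt
        refine ⟨{y}, by simpa using hy, by simp, by simp, by simp⟩
      · obtain ⟨p, hp, hpy⟩ := hU.2 y hy hyt
        have h1 := F.hlev _ _ hpy
        obtain ⟨C, hCU, hCc, hCl, hCi⟩ := ih (F.lev p) (by omega) p hp rfl
        have h3 := F.lev_top_le hU p hp
        have hyC : y ∉ C := by
          intro h
          have := hCl y h
          omega
        refine ⟨insert y C, Finset.insert_subset hy hCU, ?_, ?_, ?_⟩
        · rw [Finset.card_insert_of_notMem hyC, hCc]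
          omega
        · intro x hx
          rw [Finset.mem_insert] at hx
          rcases hx with rfl | hx
          · exact le_rfl
          · have := hCl x hx
            omega
        · intro a ha b hb hab
          rw [Finset.mem_coe, Finset.mem_insert] at ha hb
          rcases ha with rfl | ha
          · rcases hb with rfl | hb
            · rfl
            · have := hCl b hb
              omega
          · rcases hb with rfl | hb
            · have := hCl a ha
              omega
            · exact hCi ha hb hab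
  intro y hy
  exact key _ y hy rfl

/-- The height and the number of children of a vertex. -/
theorem height_le (F : RF V) {U : Finset V} {t : V} (hU : F.Sub U t) {v : V}
    (hv : v ∈ F.inn U) : ∀ y ∈ U, F.lev y - F.lev t + F.dn U v ≤ U.card := by
  classical
  have _ := hv
  intro y hy
  obtain ⟨C, hCU, hCc, -, hCi⟩ := F.exists_chain hU y hy
  set D : Finset V := U.filter (fun x => F.par x = some v) with hD
  have hdn : F.dn U v = D.card := by
    unfold dn
    rw [hD]
  have hDl : ∀ x ∈ D, F.lev x = F.lev v + 1 := by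
    intro x hx
    rw [hD, Finset.mem_filter] at hx
    exact F.hlev _ _ hx.2
  have h1 : (C ∩ D).card ≤ 1 := by
    rw [Finset.card_le_one]
    intro a ha b hb
    rw [Finset.mem_inter] at ha hb
    exact hCi ha.1 hb.1 (by rw [hDl a ha.2, hDl b hb.2])
  have h2 : (C ∪ D).card ≤ U.card :=
    Finset.card_le_card (Finset.union_subset hCU (Finset.filter_subset _ _))
  have h3 := Finset.card_union_add_card_inter C D
  rw [hdn]
  omega

theorem sf_compare (F : RF V) {k : ℕ} (hk : 1 ≤ k) {M d h : ℕ} (hM : 1 ≤ M) {u v : V}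
    (hc : F.c u ≤ F.c v) (h1 : (F.lev u + d) % M ≤ (F.lev v + d) % M + h)
    (h2 : (F.lev v + d) % M ≤ (F.lev u + d) % M + h) :
    F.sf k M d v * Real.exp (-(16 / (M : ℝ)) * h / k) ≤ F.sf k M d u := by
  have hk0 : (0 : ℝ) < k := by exact_mod_cast hk
  have hM0 : (0 : ℝ) < M := by exact_mod_cast hM
  have hsu := F.sf_mem hk M d u
  refine le_of_pow_le_pow_left₀ (n := k) (by omega) hsu.1.le ?_
  rw [mul_pow, ← Real.exp_nat_mul, F.sf_pow hk, F.sf_pow hk]
  have e1 : (k : ℝ) * (-(16 / (M : ℝ)) * h / k) = -(16 / (M : ℝ)) * h := by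
    field_simp
  rw [e1]
  set e := Real.exp (-(16 / (M : ℝ)) * h) with he
  have he0 : 0 < e := Real.exp_pos _
  have he1 : e ≤ 1 := by
    rw [he, Real.exp_le_one_iff]
    have : 0 ≤ 16 / (M : ℝ) * h := by positivity
    linarith
  have hw := wt_lip hM h1 h2
  rw [← he] at hw
  have hcu : (0 : ℝ) < F.c u + 2 := by positivity
  have hcv : (0 : ℝ) < F.c v + 2 := by positivity
  have hcc : (F.c u : ℝ) + 2 ≤ F.c v + 2 := by
    have : (F.c u : ℝ) ≤ F.c v := by exact_mod_cast hc
    linarith
  have hX : 400000 * k * wt M ((F.lev v + d) % M) / (F.c v + 2) * e ≤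
      400000 * k * wt M ((F.lev u + d) % M) / (F.c u + 2) := by
    rw [div_mul_eq_mul_div]
    apply div_le_div₀ _ _ hcu hcc
    · have := wt_pos M ((F.lev u + d) % M)
      positivity
    · calc 400000 * k * wt M ((F.lev v + d) % M) * e
          = 400000 * k * (wt M ((F.lev v + d) % M) * e) := by ring
        _ ≤ 400000 * k * wt M ((F.lev u + d) % M) :=
            mul_le_mul_of_nonneg_left hw (by positivity)
  refine le_min ?_ ?_
  · calc min 1 _ * e ≤ 1 * 1 := mul_le_mul (min_le_left _ _) he1 he0.le zero_le_one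
      _ = 1 := one_mul 1
  · exact (mul_le_mul_of_nonneg_right (min_le_right _ _) he0.le).trans hX

/-- Lower bound for the probability that a subtree survives. -/
theorem sg_lower [Nonempty V] (F : RF V) {k : ℕ} (hk : 2 ≤ k) {M d : ℕ} (hM : 1 ≤ M)
    {S : Finset V} {t : V} (hS : S ∈ F.subs k) (ht : F.Sub S t) (hF : F.Fit M d S) {h : ℕ}
    (hh : ∀ y ∈ S, F.lev y ≤ F.lev t + h) :
    F.sf k M d (F.hub S) ^ (k - 1) *
        Real.exp (-(16 / (M : ℝ)) * h * ((k : ℝ) - 1 - F.dn S (F.hub S)) / k) ≤
      F.sg (F.sf k M d) S := by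
  classical
  have hk1 : 1 ≤ k := by omega
  obtain ⟨hub1, hub2⟩ := F.hub_spec hk hS
  set v := F.hub S with hv
  have hSc : S.card = k := ((F.mem_subs).1 hS).1
  have hvS : v ∈ S := ((F.mem_inn).1 hub1).1
  have hnt : F.nt S = S.erase t := by
    ext x
    rw [F.mem_nt_iff ht, Finset.mem_erase, and_comm]
  have hntc : (F.nt S).card = k - 1 := by
    rw [hnt, Finset.card_erase_of_mem ht.1, hSc]
  set E := Real.exp (-(16 / (M : ℝ)) * h / k) with hE
  have hE0 : 0 < E := Real.exp_pos _
  have hsv := F.sf_mem hk1 M d v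
  set a := F.sf k M d v with ha
  -- the comparison for every element of `nt S`
  have hcmp : ∀ x ∈ F.nt S, (if F.par x = some v then a else a * E) ≤ F.sp (F.sf k M d) x := by
    intro x hx
    obtain ⟨hxS, p, hp, hpx⟩ := (F.mem_nt).1 hx
    have hsp : F.sp (F.sf k M d) x = F.sf k M d p := by
      unfold sp
      rw [hpx]
    rw [hsp]
    have hpi : p ∈ F.inn S := (F.mem_inn).2 ⟨hp, x, hxS, hpx⟩
    by_cases hpv : p = v
    · subst hpv
      rw [if_pos hpx]
    · have hne : F.par x ≠ some v := by
        rw [hpx]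
        intro h'
        exact hpv (Option.some.inj h')
      rw [if_neg hne]
      have m1 := F.fit_mod hM ht hF p hp
      have m2 := F.fit_mod hM ht hF v hvS
      have l1 := hh p hp
      have l2 := hh v hvS
      exact F.sf_compare hk1 hM (hub2 p hpi) (by rw [m1, m2]; omega) (by rw [m1, m2]; omega)
  have hprod : ∏ x ∈ F.nt S, (if F.par x = some v then a else a * E) ≤
      F.sg (F.sf k M d) S := by
    unfold sg
    refine Finset.prod_le_prod ?_ hcmp
    intro x _
    have := hsv.1
    split_ifs <;> positivity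
  refine le_trans (le_of_eq ?_) hprod
  have hfil : ((F.nt S).filter (fun x => F.par x = some v)).card = F.dn S v := by
    unfold dn
    congr 1
    ext x
    simp only [Finset.mem_filter]
    constructor
    · rintro ⟨h1, h2⟩
      exact ⟨((F.mem_nt).1 h1).1, h2⟩
    · rintro ⟨h1, h2⟩
      exact ⟨(F.mem_nt).2 ⟨h1, v, hvS, h2⟩, h2⟩
  have hfil2 : ((F.nt S).filter (fun x => ¬ F.par x = some v)).card = k - 1 - F.dn S v := by
    have h1 := Finset.card_filter_add_card_filter_not (s := F.nt S) (fun x => F.par x = some v)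
    rw [hfil, hntc] at h1
    omega
  have hdle : F.dn S v ≤ k - 1 := by
    rw [← hfil, ← hntc]
    exact Finset.card_filter_le _ _
  rw [Finset.prod_ite, Finset.prod_const, Finset.prod_const, hfil, hfil2, mul_pow, ← mul_assoc,
    ← pow_add, Nat.add_sub_cancel' hdle]
  congr 1
  rw [hE, ← Real.exp_nat_mul, Nat.cast_sub hdle, Nat.cast_sub hk1]
  congr 1
  push_cast
  ring

end RF

end Pool.Agent.NP
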