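import Pool.Agent.NP.Bridge

namespace Pool.Agent.NP

open SimpleGraph

private theorem starG_adj {k : ℕ} {i j : Fin k} :
    (starG k).Adj i j ↔ i ≠ j ∧ (i.val = 0 ∨ j.val = 0) := by
  simp [starG, SimpleGraph.fromRel_adj]

/-- the rooted forest of the star -/
private def starF (k : ℕ) (h0 : Fin k) (hz : h0.val = 0) : RF (Fin k) where
  par i := if i.val = 0 then none else some h0
  lev i := if i.val = 0 then 0 else 1
  hlev v p h := by
    by_cases hv : v.val = 0
    · simp [hv] at h
    · simp only [hv, if_false, Option.some.injEq] at h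
      subst h
      simp [hv, hz]

theorem starG_isTree {k : ℕ} (hk : 1 ≤ k) : (starG k).IsTree := by
  have h0 : (0 : ℕ) < k := by omega
  have hg : starG k = (starF k ⟨0, h0⟩ rfl).graph := by
    ext i j
    rw [starG_adj]
    show _ ↔ ((starF k ⟨0, h0⟩ rfl).par i = some j ∨ (starF k ⟨0, h0⟩ rfl).par j = some i)
    simp only [starF, Fin.ext_iff, ne_eq]
    by_cases hi : i.val = 0 <;> by_cases hj : j.val = 0
    · simp [hi, hj]
    · simp [hi, hj, Fin.ext_iff, Ne.symm hj]
    · simp [hi, hj, Fin.ext_iff]
    · simp [hi, hj, Fin.ext_iff, Ne.symm hi, Ne.symm hj]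
  rw [hg]
  apply RF.graph_isTree (F := starF k ⟨0, h0⟩ rfl) (r := ⟨0, h0⟩)
  · simp [starF]
  · intro v hv
    refine ⟨⟨0, h0⟩, ?_⟩
    have : v.val ≠ 0 := fun h => hv (Fin.ext h)
    simp [starF, this]

/-- the rooted forest of the path -/
private def pathF (k : ℕ) : RF (Fin k) where
  par i := if i.val = 0 then none else some ⟨i.val - 1, by omega⟩
  lev i := i.val
  hlev v p h := by
    by_cases hv : v.val = 0
    · simp [hv] at h
    · simp only [hv, if_false, Option.some.injEq] at h
      subst h
      simp only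
      omega

theorem pathGraph_isTree {k : ℕ} (hk : 1 ≤ k) : (pathGraph k).IsTree := by
  have h0 : (0 : ℕ) < k := by omega
  have hg : pathGraph k = (pathF k).graph := by
    ext i j
    rw [pathGraph_adj]
    show _ ↔ ((pathF k).par i = some j ∨ (pathF k).par j = some i)
    simp only [pathF]
    have h1 : (∃ h : i.val ≠ 0, (⟨i.val - 1, by omega⟩ : Fin k) = j) ↔ j.val + 1 = i.val := by
      constructor
      · rintro ⟨h, rfl⟩
        simp only
        omega
      · intro h
        exact ⟨by omega, Fin.ext (by simp only; omega)⟩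
    have h2 : (∃ h : j.val ≠ 0, (⟨j.val - 1, by omega⟩ : Fin k) = i) ↔ i.val + 1 = j.val := by
      constructor
      · rintro ⟨h, rfl⟩
        simp only
        omega
      · intro h
        exact ⟨by omega, Fin.ext (by simp only; omega)⟩
    have h3 : ((if i.val = 0 then none else some (⟨i.val - 1, by omega⟩ : Fin k)) = some j) ↔
        j.val + 1 = i.val := by
      rw [← h1]
      by_cases hi : i.val = 0
      · simp [hi]
      · simp [hi]
    have h4 : ((if j.val = 0 then none else some (⟨j.val - 1, by omega⟩ : Fin k)) = some i) ↔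
        i.val + 1 = j.val := by
      rw [← h2]
      by_cases hj : j.val = 0
      · simp [hj]
      · simp [hj]
    rw [h3, h4]
    exact Or.comm
  rw [hg]
  apply RF.graph_isTree (F := pathF k) (r := ⟨0, h0⟩)
  · simp [pathF]
  · intro v hv
    have : v.val ≠ 0 := fun h => hv (Fin.ext h)
    exact ⟨⟨v.val - 1, by omega⟩, by simp [pathF, this]⟩

private theorem no_triangle {V : Type} (F : RF V) {x y v : V}
    (hx : F.par x = some v ∨ F.par v = some x) (hy : F.par y = some v ∨ F.par v = some y)
    (hxy : F.graph.Adj x y) : False := by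
  have h1 : F.lev x = F.lev v + 1 ∨ F.lev v = F.lev x + 1 :=
    hx.imp (F.hlev _ _) (F.hlev _ _)
  have h2 : F.lev y = F.lev v + 1 ∨ F.lev v = F.lev y + 1 :=
    hy.imp (F.hlev _ _) (F.hlev _ _)
  have h3 : F.lev x = F.lev y + 1 ∨ F.lev y = F.lev x + 1 :=
    hxy.imp (F.hlev _ _) (F.hlev _ _)
  omega

/-- `U` induces the star with `k` vertices iff it is a `k`-vertex subtree with a centre. -/
theorem cnt_star {V : Type} [Fintype V] (F : RF V) {k : ℕ} (hk : 1 ≤ k) :
    cnt (starG k) F.graph = (F.sts k).card := by
  classical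
  have h0 : (0 : ℕ) < k := by omega
  have hset : {U : Finset V | Nonempty (F.graph.induce (U : Set V) ≃g starG k)} =
      ((F.sts k : Finset (Finset V)) : Set (Finset V)) := by
    ext U
    simp only [Set.mem_ofPred_eq, Finset.mem_coe]
    rw [F.mem_sts]
    constructor
    · rintro ⟨e⟩
      have hcard : U.card = k := by
        have h1 := Fintype.card_congr e.toEquiv
        rw [Fintype.card_fin] at h1
        rw [← h1]
        simp
      refine ⟨⟨hcard, ?_⟩, ?_⟩
      · rw [← F.induce_isTree_iff]
        exact (Iso.isTree_iff e).2 (starG_isTree hk)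
      · refine ⟨(e.symm ⟨0, h0⟩).1, (e.symm ⟨0, h0⟩).2, ?_⟩
        intro x hx hne
        have h2 : (starG k).Adj (e ⟨x, hx⟩) ⟨0, h0⟩ := by
          rw [starG_adj]
          refine ⟨?_, Or.inr rfl⟩
          intro h
          apply hne
          rw [← h]
          simp
        have h3 : (F.graph.induce (U : Set V)).Adj ⟨x, hx⟩ (e.symm ⟨0, h0⟩) := by
          rw [← e.map_adj_iff]
          simpa using h2
        exact h3
    · rintro ⟨⟨hcard, t, ht⟩, v, hv, hst⟩
      have e0 : (U : Set V) ≃ Fin k := (Finset.equivFinOfCardEq hcard)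
      set z : Fin k := ⟨0, h0⟩ with hz
      set e : (U : Set V) ≃ Fin k := e0.trans (Equiv.swap (e0 ⟨v, hv⟩) z) with he
      have hev : e ⟨v, hv⟩ = z := by simp [he]
      have hval : ∀ x : (U : Set V), (e x).val = 0 ↔ x = ⟨v, hv⟩ := by
        intro x
        rw [← e.injective.eq_iff, hev, Fin.ext_iff]
      refine ⟨⟨e, ?_⟩⟩
      intro x y
      rw [starG_adj, hval, hval]
      constructor
      · rintro ⟨hne, h⟩
        have hxy : x ≠ y := fun h => hne (by rw [h])
        rcases h with h | h
        · subst h
          have h1 := hst y.1 y.2 (fun h => hxy (Subtype.ext h.symm))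
          exact h1.symm
        · subst h
          exact hst x.1 x.2 (fun h => hxy (Subtype.ext h))
      · intro hadj
        refine ⟨fun h => hadj.ne (e.injective h), ?_⟩
        by_contra hno
        push Not at hno
        have hx1 := hst x.1 x.2 (fun h => hno.1 (Subtype.ext h))
        have hy1 := hst y.1 y.2 (fun h => hno.2 (Subtype.ext h))
        exact no_triangle F hx1 hy1 hadj
  rw [cnt, hset, Set.ncard_coe_finset]

private theorem path_not_star {k : ℕ} (hk : 4 ≤ k) (e : starG k ≃g pathGraph k) : False := by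
  have hadj : ∀ (i : ℕ) (hi : i < k), i ≠ 0 →
      (pathGraph k).Adj (e ⟨0, by omega⟩) (e ⟨i, hi⟩) := by
    intro i hi hne
    rw [e.map_adj_iff, starG_adj]
    refine ⟨fun h => hne ?_, Or.inl rfl⟩
    have := congrArg Fin.val h
    simpa using this.symm
  have h1 := hadj 1 (by omega) (by omega)
  have h2 := hadj 2 (by omega) (by omega)
  have h3 := hadj 3 (by omega) (by omega)
  rw [pathGraph_adj] at h1 h2 h3
  have hne : ∀ (i j : ℕ) (hi : i < k) (hj : j < k), i ≠ j →
      (e ⟨i, hi⟩).val ≠ (e ⟨j, hj⟩).val := by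
    intro i j hi hj hij h
    apply hij
    have := e.injective (Fin.ext h)
    simpa using congrArg Fin.val this
  have h12 := hne 1 2 (by omega) (by omega) (by omega)
  have h13 := hne 1 3 (by omega) (by omega) (by omega)
  have h23 := hne 2 3 (by omega) (by omega) (by omega)
  omega

/-- For `k ≥ 4` the path and the star are not isomorphic, and both are counted by `Zc`. -/
theorem cnt_path_add_cnt_star_le {V : Type} [Fintype V] (T : SimpleGraph V) {k : ℕ}
    (hk : 4 ≤ k) : cnt (pathGraph k) T + cnt (starG k) T ≤ Zc k T := by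
  classical
  unfold cnt Zc
  have hfin : ∀ s : Set (Finset V), s.Finite := fun s => Set.toFinite s
  rw [← Set.ncard_union_eq ?_ (hfin _) (hfin _)]
  · apply Set.ncard_le_ncard ?_ (hfin _)
    have key : ∀ (S : SimpleGraph (Fin k)), S.IsTree → ∀ U : Finset V,
        Nonempty (T.induce (U : Set V) ≃g S) →
        U.card = k ∧ (T.induce (U : Set V)).IsTree := by
      rintro S hS U ⟨e⟩
      refine ⟨?_, (Iso.isTree_iff e).2 hS⟩
      have h1 := Fintype.card_congr e.toEquiv
      rw [Fintype.card_fin] at h1
      rw [← h1]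
      simp
    rintro U (h | h)
    · exact key _ (pathGraph_isTree (by omega)) U h
    · exact key _ (starG_isTree (by omega)) U h
  · rw [Set.disjoint_left]
    rintro U ⟨e1⟩ ⟨e2⟩
    exact path_not_star hk (e2.symm.trans e1)

end Pool.Agent.NP
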