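import Pool.Agent.NP.TallA

namespace Pool.Agent.NP

open SimpleGraph

/-- A lower bound for binomial coefficients: `(E / k) ^ q ≤ C(E, q)` for `q ≤ k ≤ E`. -/
theorem pow_le_pow_mul_choose (q : ℕ) : ∀ k E : ℕ, q ≤ k → k ≤ E →
    E ^ q ≤ k ^ q * E.choose q := by
  induction q with
  | zero => intro k E _ _; simp
  | succ q ih =>
    intro k E hqk hkE
    obtain ⟨k', rfl⟩ : ∃ k', k = k' + 1 := ⟨k - 1, by omega⟩
    obtain ⟨E', rfl⟩ : ∃ E', E = E' + 1 := ⟨E - 1, by omega⟩
    have hq : q ≤ k' := by omega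
    have hk : k' ≤ E' := by omega
    have h1 := ih k' E' hq hk
    -- the main step
    have h2 : (E' + 1) ^ q ≤ (k' + 1) ^ q * E'.choose q := by
      rcases Nat.eq_zero_or_pos k' with h0 | h0
      · have : q = 0 := by omega
        subst this
        simp
      · have h3 : (k' * (E' + 1)) ^ q ≤ ((k' + 1) * E') ^ q :=
          Nat.pow_le_pow_left (by nlinarith) q
        have h4 : k' ^ q * (E' + 1) ^ q ≤ k' ^ q * ((k' + 1) ^ q * E'.choose q) := by
          calc k' ^ q * (E' + 1) ^ q = (k' * (E' + 1)) ^ q := by rw [mul_pow]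
            _ ≤ ((k' + 1) * E') ^ q := h3
            _ = (k' + 1) ^ q * E' ^ q := by rw [mul_pow]
            _ ≤ (k' + 1) ^ q * (k' ^ q * E'.choose q) := Nat.mul_le_mul_left _ h1
            _ = k' ^ q * ((k' + 1) ^ q * E'.choose q) := by ring
        exact Nat.le_of_mul_le_mul_left h4 (by positivity)
    have h5 : (q + 1) * (E' + 1) ^ (q + 1) ≤
        (q + 1) * ((k' + 1) ^ (q + 1) * (E' + 1).choose (q + 1)) := by
      have h6 : (E' + 1) * E'.choose q = (E' + 1).choose (q + 1) * (q + 1) :=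
        Nat.add_one_mul_choose_eq E' q
      calc (q + 1) * (E' + 1) ^ (q + 1) = (q + 1) * (E' + 1) * (E' + 1) ^ q := by ring
        _ ≤ (k' + 1) * (E' + 1) * ((k' + 1) ^ q * E'.choose q) :=
            Nat.mul_le_mul (Nat.mul_le_mul_right _ (by omega)) h2
        _ = (k' + 1) ^ (q + 1) * ((E' + 1) * E'.choose q) := by ring
        _ = (q + 1) * ((k' + 1) ^ (q + 1) * (E' + 1).choose (q + 1)) := by
            rw [h6]; ring
    exact Nat.le_of_mul_le_mul_left h5 (by omega)

/-- The numerical inequality of case 1. -/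
theorem tall1_num {N k K E C0 s g p : ℕ} (hk : 1 ≤ k) (hK : 1 ≤ K) (hC : 1 ≤ C0)
    (hE : C0 * k ≤ E) (hs : s + p + g = k)
    (hN : (N : ℝ) * (((k : ℝ) / (k + K * E)) ^ s * (1 - (k : ℝ) / (k + K * E)) ^ (K * E)) ≤ 1) :
    N * C0 ^ g ≤ (6 * K) ^ k * E.choose (k - p) := by
  have hk0 : (0 : ℝ) < k := by exact_mod_cast hk
  have hkE : k ≤ E := by nlinarith
  have hE0 : (0 : ℝ) < E := by
    have : 0 < E := by omega
    exact_mod_cast this
  have hK0 : (0 : ℝ) < K := by exact_mod_cast hK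
  have hK1 : (1 : ℝ) ≤ K := by exact_mod_cast hK
  have hkE' : (k : ℝ) ≤ E := by exact_mod_cast hkE
  have hn0 : (0 : ℝ) < K * E := by positivity
  set n : ℝ := K * E with hn
  have hkn : (k : ℝ) ≤ n := by
    rw [hn]
    nlinarith
  have hsum : (0 : ℝ) < k + n := by positivity
  -- the two factors
  have hA : (k : ℝ) / (k + n) * ((k + n) / k) = 1 := by
    field_simp
  have hB : (1 - (k : ℝ) / (k + n)) * ((k + n) / n) = 1 := by
    field_simp
    ring
  have h1 : (N : ℝ) ≤ ((k + n) / k) ^ s * ((k + n) / n) ^ (K * E) := by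
    have h2 : (N : ℝ) = (N : ℝ) * (((k : ℝ) / (k + n)) ^ s * (1 - (k : ℝ) / (k + n)) ^ (K * E)) *
        (((k + n) / k) ^ s * ((k + n) / n) ^ (K * E)) := by
      calc (N : ℝ) = N * (((k : ℝ) / (k + n) * ((k + n) / k)) ^ s *
          ((1 - (k : ℝ) / (k + n)) * ((k + n) / n)) ^ (K * E)) := by
            rw [hA, hB]; simp
        _ = _ := by
            rw [mul_pow, mul_pow]; ring
    rw [h2]
    have h3 : 0 ≤ ((k + n) / k) ^ s * ((k + n) / n) ^ (K * E) := by positivity
    calc _ ≤ 1 * (((k + n) / k) ^ s * ((k + n) / n) ^ (K * E)) :=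
          mul_le_mul_of_nonneg_right hN h3
      _ = _ := one_mul _
  have h4 : ((k + n) / n) ^ (K * E) ≤ (3 : ℝ) ^ k := by
    have h5 : (k + n) / n ≤ Real.exp (k / n) := by
      have h6 : (k + n) / n = k / n + 1 := by field_simp
      rw [h6]
      exact Real.add_one_le_exp _
    calc ((k + n) / n) ^ (K * E) ≤ (Real.exp (k / n)) ^ (K * E) :=
          pow_le_pow_left₀ (by positivity) h5 _
      _ = Real.exp ((K * E : ℕ) * (k / n)) := by rw [← Real.exp_nat_mul]
      _ = Real.exp k := by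
          congr 1
          push_cast
          rw [← hn]
          field_simp
      _ = (Real.exp 1) ^ k := by rw [← Real.exp_nat_mul]; simp
      _ ≤ (3 : ℝ) ^ k := by
          refine pow_le_pow_left₀ (Real.exp_pos _).le ?_ _
          have := Real.exp_one_lt_d9
          linarith
  have h7 : ((k + n) / k) ^ s ≤ (2 * K * (E / k)) ^ s := by
    refine pow_le_pow_left₀ (by positivity) ?_ _
    have : 2 * (K : ℝ) * (E / k) = 2 * n / k := by rw [hn]; ring
    rw [this]
    gcongr
    linarith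
  have h8 : (C0 : ℝ) ^ g ≤ ((E : ℝ) / k) ^ g := by
    refine pow_le_pow_left₀ (by positivity) ?_ _
    rw [le_div_iff₀ hk0]
    exact_mod_cast hE
  have h9 : ((E : ℝ) / k) ^ (s + g) ≤ E.choose (k - p) := by
    have h10 : k - p = s + g := by omega
    rw [h10]
    have h11 := pow_le_pow_mul_choose (s + g) k E (by omega) hkE
    rw [div_pow, div_le_iff₀ (by positivity)]
    have h12 : ((E ^ (s + g) : ℕ) : ℝ) ≤ ((k ^ (s + g) * E.choose (s + g) : ℕ) : ℝ) := by
      exact_mod_cast h11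
    push_cast at h12
    linarith
  have h13 : (2 * (K : ℝ)) ^ s ≤ (2 * K) ^ k :=
    pow_le_pow_right₀ (by linarith) (by omega)
  have hfin : ((N * C0 ^ g : ℕ) : ℝ) ≤ (((6 * K) ^ k * E.choose (k - p) : ℕ) : ℝ) := by
    push_cast
    calc (N : ℝ) * (C0 : ℝ) ^ g
        ≤ (((k + n) / k) ^ s * ((k + n) / n) ^ (K * E)) * (((E : ℝ) / k) ^ g) := by
          gcongr
      _ ≤ ((2 * K * (E / k)) ^ s * (3 : ℝ) ^ k) * (((E : ℝ) / k) ^ g) := by
          gcongr
      _ = (2 * K) ^ s * 3 ^ k * (((E : ℝ) / k) ^ (s + g)) := by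
          rw [mul_pow, pow_add]; ring
      _ ≤ (2 * K) ^ k * 3 ^ k * (E.choose (k - p) : ℝ) := by
          gcongr
      _ = (6 * K) ^ k * (E.choose (k - p) : ℝ) := by
          rw [← mul_pow]; ring
  exact_mod_cast hfin

namespace RF

variable {V : Type}

theorem t1_anc_lev (F : RF V) : ∀ (j : ℕ) (v x : V), F.anc j v = some x →
    F.lev v = F.lev x + j := by
  intro j
  induction j with
  | zero =>
    intro v x h
    simp only [anc, Option.some.injEq] at h
    rw [h]; rfl
  | succ j ih =>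
    intro v x h
    simp only [anc, Option.bind_eq_some_iff] at h
    obtain ⟨p, hp, h⟩ := h
    have h1 := F.hlev _ _ hp
    have h2 := ih p x h
    omega

/-- Ancestors up to the top stay in the subtree. -/
theorem t1_anc_mem (F : RF V) {U : Finset V} {t : V} (hU : F.Sub U t) : ∀ (j : ℕ) (v : V),
    v ∈ U → F.lev t + j ≤ F.lev v → ∃ x ∈ U, F.anc j v = some x := by
  intro j
  induction j with
  | zero => intro v hv _; exact ⟨v, hv, rfl⟩
  | succ j ih =>
    intro v hv hl
    have hvt : v ≠ t := by rintro rfl; omega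
    obtain ⟨p, hp, hvp⟩ := hU.2 v hv hvt
    have h1 := F.hlev _ _ hvp
    obtain ⟨x, hx, h2⟩ := ih p hp (by omega)
    exact ⟨x, hx, by simp [anc, hvp, h2]⟩

open Classical in
/-- The proper ancestors `anc 1 z, …, anc g z`. -/
noncomputable def t1C (F : RF V) (g : ℕ) (z : V) : Finset V :=
  (Finset.Icc 1 g).image (fun j => (F.anc j z).getD z)

theorem t1C_spec (F : RF V) {U : Finset V} {t : V} (hU : F.Sub U t) {z : V} (hz : z ∈ U)
    {g : ℕ} (hg : 1 ≤ g) (ha : F.anc g z = some t) :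
    F.t1C g z ⊆ F.upp z U ∧ (F.t1C g z).card = g ∧ t ∈ F.t1C g z := by
  classical
  have hlev := F.t1_anc_lev g z t ha
  have key : ∀ j ∈ Finset.Icc 1 g, ∃ x ∈ U, F.anc j z = some x ∧ F.lev z = F.lev x + j := by
    intro j hj
    rw [Finset.mem_Icc] at hj
    obtain ⟨x, hx, h1⟩ := F.t1_anc_mem hU j z hz (by omega)
    exact ⟨x, hx, h1, F.t1_anc_lev j z x h1⟩
  refine ⟨?_, ?_, ?_⟩
  · intro x hx
    simp only [t1C, Finset.mem_image] at hx
    obtain ⟨j, hj, rfl⟩ := hx
    obtain ⟨x, hxU, h1, h2⟩ := key j hj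
    rw [Finset.mem_Icc] at hj
    simp only [h1, Option.getD_some]
    unfold upp
    rw [Finset.mem_filter]
    refine ⟨hxU, ?_⟩
    rintro ⟨i, hi⟩
    have := F.t1_anc_lev i x z hi
    omega
  · unfold t1C
    rw [Finset.card_image_of_injOn]
    · simp
    · intro i hi j hj hij
      obtain ⟨x, -, h1, h2⟩ := key i hi
      obtain ⟨y, -, h3, h4⟩ := key j hj
      simp only [h1, h3, Option.getD_some] at hij
      subst hij
      omega
  · simp only [t1C, Finset.mem_image]
    exact ⟨g, by simp [hg], by simp [ha]⟩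

variable [Fintype V]

open Classical in
/-- The possible upper parts for a given lower part. -/
noncomputable def t1G (F : RF V) (k g K : ℕ) (R : Finset V) : Finset (Finset V) :=
  Finset.univ.filter (fun S => ∃ z, F.Sub R z ∧ F.t1C g z ⊆ S ∧ z ∉ S ∧
    (∀ x ∈ S, x ∉ F.t1C g z → ∃ p ∈ S, F.par x = some p) ∧
    (S \ F.t1C g z).card + R.card + g = k ∧
    (F.ext S \ {z}).card ≤ K * (F.ext R).card)

theorem t1G_card (F : RF V) {k g K C0 : ℕ} (hk : 1 ≤ k) (hK : 1 ≤ K) (hC : 1 ≤ C0)
    {R : Finset V} (hR : C0 * k ≤ (F.ext R).card) :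
    (F.t1G k g K R).card * C0 ^ g ≤ (6 * K) ^ k * ((F.ext R).card).choose (k - R.card) := by
  classical
  rcases (F.t1G k g K R).eq_empty_or_nonempty with h0 | ⟨S0, hS0⟩
  · rw [h0]; simp
  · have hS0' := hS0
    unfold t1G at hS0'
    rw [Finset.mem_filter] at hS0'
    obtain ⟨-, z, hz, -, -, -, hcard, -⟩ := hS0'
    refine tall1_num (s := (S0 \ F.t1C g z).card) (p := R.card) hk hK hC hR hcard ?_
    have hkR : (0 : ℝ) < k := by exact_mod_cast hk
    have hn : (0 : ℝ) ≤ K * ((F.ext R).card : ℝ) := by positivity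
    have hy0 : 0 ≤ (k : ℝ) / (k + K * ((F.ext R).card : ℝ)) := by positivity
    have hy1 : (k : ℝ) / (k + K * ((F.ext R).card : ℝ)) ≤ 1 := by
      rw [div_le_one (by positivity)]
      linarith
    refine perc_card F (F.t1C g z) {z} (F.t1G k g K R) ?_ hy0 hy1 ?_ ?_
    · intro S hS
      unfold t1G at hS
      rw [Finset.mem_filter] at hS
      obtain ⟨-, z', hz', h1, h2, h3, -, -⟩ := hS
      have := F.top_unique hz' hz
      subst this
      refine ⟨h1, ?_, h3⟩
      rw [Finset.disjoint_singleton_right]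
      exact h2
    · intro S hS
      unfold t1G at hS
      rw [Finset.mem_filter] at hS
      obtain ⟨-, z', hz', -, -, -, h4, -⟩ := hS
      have := F.top_unique hz' hz
      subst this
      omega
    · intro S hS
      unfold t1G at hS
      rw [Finset.mem_filter] at hS
      obtain ⟨-, z', hz', -, -, -, -, h5⟩ := hS
      have := F.top_unique hz' hz
      subst this
      exact h5

open Classical in
/-- Case 1: many outer neighbours of the lower part. Fix the lower part `R` with top `z`; the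
upper part is counted by percolation (the `g` proper ancestors of `z` are free), and it can be
replaced by outer neighbours of `R`. -/
theorem tall1 (F : RF V) {k g h K C0 : ℕ} (hk : 1 ≤ k) (hg : 1 ≤ g) (hh : 3 ≤ h) (hK : 1 ≤ K)
    (hC : 1 ≤ C0) :
    ((F.subs k).filter (fun U => ∃ t z, F.Sub U t ∧ z ∈ U ∧ F.anc g z = some t ∧
      (∃ y ∈ F.low z U, F.lev z + h ≤ F.lev y) ∧
      (F.ext (F.upp z U) \ {z}).card ≤ K * (F.ext (F.low z U)).card ∧
      C0 * k ≤ (F.ext (F.low z U)).card)).card * C0 ^ g ≤ (12 * K) ^ k * (F.nst k).card := by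
  set 𝓤 := (F.subs k).filter (fun U => ∃ t z, F.Sub U t ∧ z ∈ U ∧ F.anc g z = some t ∧
      (∃ y ∈ F.low z U, F.lev z + h ≤ F.lev y) ∧
      (F.ext (F.upp z U) \ {z}).card ≤ K * (F.ext (F.low z U)).card ∧
      C0 * k ≤ (F.ext (F.low z U)).card) with hUdef
  set 𝓡 : Finset (Finset V) := Finset.univ.filter (fun R => (∃ t, F.Sub R t) ∧ R.card ≤ k ∧
    (∃ x ∈ R, ∃ y ∈ R, F.lev x + 3 ≤ F.lev y) ∧ C0 * k ≤ (F.ext R).card) with hRdef
  have hcover : 𝓤 ⊆ 𝓡.biUnion (fun R => (F.t1G k g K R).image (fun S => R ∪ S)) := by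
    intro U hU
    rw [hUdef, Finset.mem_filter, mem_subs] at hU
    obtain ⟨⟨hUk, -⟩, t, z, hUt, hzU, hanc, ⟨y, hy, hyl⟩, he1, he2⟩ := hU
    have hzt : z ≠ t := by
      rintro rfl
      have := F.t1_anc_lev g z z hanc
      omega
    obtain ⟨hC1, hC2, hC3⟩ := F.t1C_spec hUt hzU hg hanc
    have hlow := F.low_sub hUt hzU
    have hupp := F.upp_sub hUt hzU hzt
    have hlu := F.low_upp_card z U
    rw [Finset.mem_biUnion]
    refine ⟨F.low z U, ?_, ?_⟩
    · rw [hRdef, Finset.mem_filter]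
      refine ⟨Finset.mem_univ _, ⟨z, hlow⟩, by omega, ⟨z, hlow.1, y, hy, by omega⟩, he2⟩
    · rw [Finset.mem_image]
      refine ⟨F.upp z U, ?_, ?_⟩
      · unfold t1G
        rw [Finset.mem_filter]
        refine ⟨Finset.mem_univ _, z, hlow, hC1, ?_, ?_, ?_, he1⟩
        · unfold upp
          rw [Finset.mem_filter]
          rintro ⟨-, hn⟩
          exact hn ⟨0, rfl⟩
        · intro x hx hxC
          refine hupp.2 x hx ?_
          rintro rfl
          exact hxC hC3
        · have h1 := Finset.card_sdiff_add_card_eq_card hC1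
          omega
      · unfold low upp
        ext x
        simp only [Finset.mem_union, Finset.mem_filter]
        tauto
  have hcard : 𝓤.card ≤ ∑ R ∈ 𝓡, (F.t1G k g K R).card := by
    calc 𝓤.card ≤ (𝓡.biUnion (fun R => (F.t1G k g K R).image (fun S => R ∪ S))).card :=
          Finset.card_le_card hcover
      _ ≤ ∑ R ∈ 𝓡, ((F.t1G k g K R).image (fun S => R ∪ S)).card := Finset.card_biUnion_le
      _ ≤ ∑ R ∈ 𝓡, (F.t1G k g K R).card :=
          Finset.sum_le_sum (fun R _ => Finset.card_image_le)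
  have hsum := F.sum_choose_le (k := k) 𝓡 (by
    intro R hR
    rw [hRdef, Finset.mem_filter] at hR
    exact ⟨hR.2.1, hR.2.2.1, hR.2.2.2.1⟩)
  calc 𝓤.card * C0 ^ g ≤ (∑ R ∈ 𝓡, (F.t1G k g K R).card) * C0 ^ g :=
        Nat.mul_le_mul_right _ hcard
    _ = ∑ R ∈ 𝓡, (F.t1G k g K R).card * C0 ^ g := by rw [Finset.sum_mul]
    _ ≤ ∑ R ∈ 𝓡, (6 * K) ^ k * ((F.ext R).card).choose (k - R.card) := by
        refine Finset.sum_le_sum (fun R hR => ?_)
        rw [hRdef, Finset.mem_filter] at hR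
        exact F.t1G_card hk hK hC hR.2.2.2.2
    _ = (6 * K) ^ k * ∑ R ∈ 𝓡, ((F.ext R).card).choose (k - R.card) := by
        rw [Finset.mul_sum]
    _ ≤ (6 * K) ^ k * (2 ^ k * (F.nst k).card) := Nat.mul_le_mul_left _ hsum
    _ = (12 * K) ^ k * (F.nst k).card := by
        rw [← mul_assoc, ← mul_pow]
        congr 2
        ring

end RF

end Pool.Agent.NP
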